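import Pool.Agent.Lib.MP_1a91b9_ntV.C.Odd

/-!
# Places of a number field with principal ideals: prime elements, even values, decomposition
-/

set_option autoImplicit false
set_option linter.unusedSectionVars false
set_option linter.unusedVariables false

namespace Pool.Agent.Lib.MP_1a91b9_ntV.C

open NumberField Finset WithZero IsDedekindDomain
open Pool.Agent.Lib.MP_1a91b9_ntH.C (Sq isSquare_exp nu_one)

noncomputable section

variable {N : Type*} [Field N] [NumberField N]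

/-- The prime ideal of a prime element. -/
def pv (π : 𝓞 N) (h : Prime π) : HeightOneSpectrum (𝓞 N) where
  asIdeal := Ideal.span {π}
  isPrime := (Ideal.span_singleton_prime h.ne_zero).2 h
  ne_bot := by
    rw [Ne, Ideal.span_singleton_eq_bot]
    exact h.ne_zero

theorem val_O (v : HeightOneSpectrum (𝓞 N)) (x : 𝓞 N) :
    v.valuation N (x : N) = v.intValuation x := v.valuation_of_algebraMap x

theorem val_le_one (v : HeightOneSpectrum (𝓞 N)) (x : 𝓞 N) : v.valuation N (x : N) ≤ 1 :=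
  v.valuation_le_one x

theorem pv_self (π : 𝓞 N) (h : Prime π) : (pv π h).valuation N (π : N) = exp (-1) := by
  rw [val_O]
  exact (pv π h).intValuation_singleton h.ne_zero rfl

theorem pv_one {π x : 𝓞 N} (h : Prime π) (hx : ¬ π ∣ x) : (pv π h).valuation N (x : N) = 1 := by
  rw [val_O, HeightOneSpectrum.intValuation_eq_one_iff]
  intro h1
  exact hx (Ideal.mem_span_singleton.1 h1)

theorem pv_lt {π x : 𝓞 N} (h : Prime π) : (pv π h).valuation N (x : N) < 1 ↔ π ∣ x := by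
  rw [val_O, HeightOneSpectrum.intValuation_lt_one_iff_mem]
  exact Ideal.mem_span_singleton

theorem pv_le_pow {π x : 𝓞 N} (h : Prime π) (n : ℕ) :
    (pv π h).valuation N (x : N) ≤ exp (-(n : ℤ)) ↔ π ^ n ∣ x := by
  rw [val_O, (pv π h).intValuation_le_pow_iff_mem]
  show x ∈ (Ideal.span {π}) ^ n ↔ _
  rw [Ideal.span_singleton_pow, Ideal.mem_span_singleton]

theorem pv_eq {π π' : 𝓞 N} (h : Prime π) (h' : Prime π') (hd : π ∣ π') : pv π h = pv π' h' := by
  apply HeightOneSpectrum.ext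
  exact Ideal.span_singleton_eq_span_singleton.2 (h.associated_of_dvd h' hd)

/-- Every place is the place of a prime element. -/
theorem exists_pv [IsPrincipalIdealRing (𝓞 N)] (v : HeightOneSpectrum (𝓞 N)) :
    ∃ (π : 𝓞 N) (h : Prime π), v = pv π h := by
  obtain ⟨π, hπ⟩ := (IsPrincipalIdealRing.principal v.asIdeal).principal
  have hs : v.asIdeal = Ideal.span {π} := hπ
  have h0 : π ≠ 0 := by
    intro h
    apply v.ne_bot
    rw [hs, h, Ideal.span_singleton_eq_bot]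
  have hp : Prime π := by
    rw [← Ideal.span_singleton_prime h0, ← hs]
    exact v.isPrime
  exact ⟨π, hp, HeightOneSpectrum.ext hs⟩

theorem exp_pow (m : ℕ) : (exp (-1) : ℤᵐ⁰) ^ m = exp (-(m : ℤ)) := by
  rw [← exp_nsmul]
  congr 1
  simp

theorem lt_one_le {x : ℤᵐ⁰} (h : x < 1) : x ≤ exp (-1) := by
  by_cases h0 : x = 0
  · rw [h0]
    exact zero_le
  · obtain ⟨m, rfl⟩ : ∃ m : ℤ, x = exp m := ⟨log x, (exp_log h0).symm⟩
    rw [← exp_zero, exp_lt_exp] at h
    rw [exp_le_exp]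
    omega

/-- squares times a square -/
theorem isSquare_mul_sq {x y : ℤᵐ⁰} (hy : y ≠ 0) : IsSquare (x * y ^ 2) ↔ IsSquare x := by
  constructor
  · rintro ⟨b, hb⟩
    refine ⟨b / y, ?_⟩
    rw [div_mul_div_comm, eq_div_iff (mul_ne_zero hy hy), ← hb, pow_two]
  · rintro ⟨b, rfl⟩
    exact ⟨b * y, by rw [pow_two, mul_mul_mul_comm]⟩

theorem exists_par (x : ℤᵐ⁰) (hx : x ≠ 0) : ∃ e : ZMod 2, IsSquare (x * exp (-1) ^ e.val) := by
  obtain ⟨m, rfl⟩ : ∃ m : ℤ, x = exp m := ⟨log x, (exp_log hx).symm⟩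
  rcases Int.even_or_odd m with ⟨t, ht⟩ | ⟨t, ht⟩
  · refine ⟨0, exp t, ?_⟩
    rw [ZMod.val_zero, pow_zero, mul_one, ← exp_add, ht]
  · refine ⟨1, exp t, ?_⟩
    have h1 : ((1 : ZMod 2)).val = 1 := rfl
    rw [h1, pow_one, ← exp_add, ← exp_add]
    congr 1
    omega

/-- the parity of the value -/
theorem par_of {x : ℤᵐ⁰} (e : ZMod 2) (h : IsSquare (x * exp (-1) ^ e.val)) (h' : IsSquare x)
    (hx : x ≠ 0) : e = 0 := by
  obtain ⟨m, rfl⟩ : ∃ m : ℤ, x = exp m := ⟨log x, (exp_log hx).symm⟩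
  rw [exp_pow, ← exp_add, isSquare_exp] at h
  rw [isSquare_exp] at h'
  obtain ⟨s, hs⟩ := h
  obtain ⟨t, ht⟩ := h'
  have h2 : e.val < 2 := ZMod.val_lt e
  have h3 : e.val = 0 := by omega
  exact (ZMod.val_eq_zero e).1 h3

theorem coe_ne {x : 𝓞 N} (h : x ≠ 0) : (x : N) ≠ 0 := fun h0 => h (RingOfIntegers.ext h0)

variable {κ : Type*} [DecidableEq κ]

/-- The product `∏ q ^ V q`. -/
def gpr (q : κ → 𝓞 N) (S : Finset κ) (V : κ → ZMod 2) : 𝓞 N := ∏ i ∈ S, q i ^ (V i).val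

theorem gpr_erase (q : κ → 𝓞 N) {S : Finset κ} {i : κ} (hi : i ∈ S) (V : κ → ZMod 2) :
    gpr q S V = q i ^ (V i).val * gpr q (S.erase i) V := by
  unfold gpr
  rw [← mul_prod_erase S _ hi]

theorem not_dvd_gpr {q : κ → 𝓞 N} {S : Finset κ} {π : 𝓞 N} (h : Prime π)
    (hS : ∀ i ∈ S, ¬ π ∣ q i) (V : κ → ZMod 2) : ¬ π ∣ gpr q S V := by
  unfold gpr
  intro hd
  obtain ⟨i, hi, h2⟩ := h.exists_mem_finset_dvd hd
  exact hS i hi (h.dvd_of_dvd_pow h2)

section pid

variable [IsPrincipalIdealRing (𝓞 N)]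

theorem exists_sq_sqfree (z : 𝓞 N) : z ≠ 0 → ∃ m r : 𝓞 N, z = m ^ 2 * r ∧ Squarefree r := by
  induction z using UniqueFactorizationMonoid.induction_on_prime with
  | h₁ => exact fun h => absurd rfl h
  | h₂ x hx => exact fun _ => ⟨1, x, by ring, hx.squarefree⟩
  | h₃ a p ha hp ih =>
    intro _
    obtain ⟨m, r, h1, h2⟩ := ih ha
    by_cases hd : p ∣ r
    · obtain ⟨r', rfl⟩ := hd
      refine ⟨p * m, r', by rw [h1]; ring, h2.of_mul_right⟩
    · refine ⟨m, p * r, by rw [h1]; ring, ?_⟩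
      rw [squarefree_mul_iff]
      refine ⟨?_, hp.irreducible.squarefree, h2⟩
      intro d hd1 hd2
      rcases hp.irreducible.dvd_iff.1 hd1 with h3 | h3
      · exact h3
      · exact absurd (h3.dvd.trans hd2) hd

/-- An element all of whose valuations are even is a unit times a square. -/
theorem sq_of_even (a : N) (ha : a ≠ 0)
    (h : ∀ v : HeightOneSpectrum (𝓞 N), IsSquare (v.valuation N a)) :
    ∃ (m : N) (u : 𝓞 N), m ≠ 0 ∧ IsUnit u ∧ a = m ^ 2 * u := by
  obtain ⟨x, y, hy, hxy⟩ := IsFractionRing.div_surjective (A := 𝓞 N) a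
  have hy0 : y ≠ 0 := nonZeroDivisors.ne_zero hy
  have hyK : (y : N) ≠ 0 := coe_ne hy0
  have hx0 : x ≠ 0 := by
    rintro rfl
    rw [map_zero, zero_div] at hxy
    exact ha hxy.symm
  have hz : ((x * y : 𝓞 N) : N) = a * (y : N) ^ 2 := by
    rw [← hxy]
    push_cast
    field_simp
  obtain ⟨m, r, hmr, hr⟩ := exists_sq_sqfree (x * y) (mul_ne_zero hx0 hy0)
  have hm0 : m ≠ 0 := by
    rintro rfl
    rw [zero_pow two_ne_zero, zero_mul] at hmr
    exact mul_ne_zero hx0 hy0 hmr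
  have hmK : (m : N) ≠ 0 := coe_ne hm0
  have hu : IsUnit r := by
    by_contra hu
    have hr0 : r ≠ 0 := by
      rintro rfl
      rw [mul_zero] at hmr
      exact mul_ne_zero hx0 hy0 hmr
    obtain ⟨π, hπ, hd⟩ := WfDvdMonoid.exists_irreducible_factor hu hr0
    have hp : Prime π := hπ.prime
    obtain ⟨r', rfl⟩ := hd
    have hnd : ¬ π ∣ r' := by
      rintro ⟨t, rfl⟩
      exact hπ.not_isUnit (hr π ⟨t, by ring⟩)
    have h1 := h (pv π hp)
    have h2 : (pv π hp).valuation N ((x * y : 𝓞 N) : N) =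
        exp (-1) * ((pv π hp).valuation N (m : N)) ^ 2 := by
      rw [hmr]
      push_cast
      rw [map_mul, map_mul, map_pow, pv_self, pv_one hp hnd, mul_one, mul_comm]
    have hvy : (pv π hp).valuation N (y : N) ≠ 0 := (Valuation.ne_zero_iff _).2 hyK
    have hvm : (pv π hp).valuation N (m : N) ≠ 0 := (Valuation.ne_zero_iff _).2 hmK
    rw [hz, map_mul, map_pow] at h2
    rw [← isSquare_mul_sq hvy, h2, isSquare_mul_sq hvm] at h1
    have h3 := isSquare_exp.1 h1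
    exact absurd h3 (by decide)
  refine ⟨(m : N) / y, r, div_ne_zero hmK hyK, hu, ?_⟩
  have h4 : a = ((x * y : 𝓞 N) : N) / (y : N) ^ 2 := by
    rw [hz]
    field_simp
  rw [h4, hmr]
  push_cast
  field_simp

/-- An element of `N` whose valuations outside of the `q i`, `i ∈ S`, are even. -/
theorem decomp (q : κ → 𝓞 N) (hq : ∀ i, Prime (q i)) (hne : ∀ i j, i ≠ j → ¬ q i ∣ q j)
    (S : Finset κ) (a : N) (ha : a ≠ 0)
    (h : ∀ (π : 𝓞 N) (hπ : Prime π), (∀ i ∈ S, ¬ π ∣ q i) →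
      IsSquare ((pv π hπ).valuation N a)) :
    ∃ (u : 𝓞 N) (V : κ → ZMod 2) (m : N), IsUnit u ∧ m ≠ 0 ∧
      a = m ^ 2 * ((u * gpr q S V : 𝓞 N) : N) := by
  have hV : ∀ i : κ, ∃ e : ZMod 2,
      IsSquare ((pv (q i) (hq i)).valuation N a * exp (-1) ^ e.val) :=
    fun i => exists_par _ ((Valuation.ne_zero_iff _).2 ha)
  choose V hV using hV
  have h1 : ∀ v : HeightOneSpectrum (𝓞 N),
      IsSquare (v.valuation N (a * (gpr q S V : N))) := by
    intro v
    obtain ⟨π, hπ, rfl⟩ := exists_pv v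
    rw [map_mul]
    by_cases hi : ∃ i ∈ S, π ∣ q i
    · obtain ⟨i, hiS, hd⟩ := hi
      rw [pv_eq hπ (hq i) hd, gpr_erase q hiS]
      push_cast
      rw [map_mul, map_pow, pv_self, pv_one (hq i)
        (not_dvd_gpr (hq i) (fun j hj => hne i j (ne_of_mem_erase hj).symm) _), mul_one]
      exact hV i
    · push Not at hi
      rw [pv_one hπ (not_dvd_gpr hπ hi _), mul_one]
      exact h π hπ hi
  have hg0 : gpr q S V ≠ 0 := by
    unfold gpr
    exact prod_ne_zero_iff.2 fun i _ => pow_ne_zero _ (hq i).ne_zero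
  have hg : ((gpr q S V : 𝓞 N) : N) ≠ 0 := coe_ne hg0
  obtain ⟨m, u, hm, hu, hm'⟩ := sq_of_even _ (mul_ne_zero ha hg) h1
  refine ⟨u, V, m / (gpr q S V : N), hu, div_ne_zero hm hg, ?_⟩
  push_cast
  field_simp
  linear_combination hm'

end pid

end

end Pool.Agent.Lib.MP_1a91b9_ntV.C
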