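import Pool.Agent.Lib.MP_1a91b9_ntV.C.Tor7
import Pool.Agent.Lib.MP_1a91b9_ntV.R.Eng7
import Pool.Agent.Lib.MP_1a91b9_ntV.L.Def7
import Pool.Agent.Lib.MP_1a91b9_ntV.A.Ph7

/-!
# The field `ℚ(√-7)`: the algebraic side for the field `K` of the datum `V7`
-/

set_option autoImplicit false
set_option linter.unusedSectionVars false
set_option linter.unusedVariables false

namespace Pool.Agent.Lib.MP_1a91b9_ntV.C

open NumberField Finset Pool.Agent.Lib.MP_1a91b9_nuT Pool.Agent.Lib.MP_1a91b9_ntQ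
  Pool.Agent.Lib.MP_1a91b9_ntV Pool.Agent.Lib.MP_1a91b9_ntV.L
open IsDedekindDomain
open Pool.Agent.Lib.MP_1a91b9_ntT.S9 (tam normFactor period)
open Pool.Agent.Lib.MP_1a91b9_ntT3.S9 (ShaP)
open scoped Classical

noncomputable section

variable [CD] [hv : V7]

/-- the field -/
def B₇ : B7 K where
  a := ta
  rel := ta_sq
  span := CD.gen
  pid := pidK

theorem B₇_a : B₇.a = (ta : 𝓞 K) := rfl

theorem B₇_b : B₇.b = (tb : 𝓞 K) := rfl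

theorem B₇_r (x : 𝓞 K) : B₇.r x = ra x := by
  obtain ⟨h1, h2⟩ := B₇.coord_eq (coo x)
  show ((B₇.cm x : ℤ) : ZMod 8) + 6 * ((B₇.cn x : ℤ) : ZMod 8) = ra x
  rw [h1, h2]
  rfl

theorem B₇_r' (x : 𝓞 K) : B₇.symm.r x = rb x := by
  obtain ⟨h1, h2⟩ := B₇.symm.coord_eq (coo' x)
  show ((B₇.symm.cm x : ℤ) : ZMod 8) + 6 * ((B₇.symm.cn x : ℤ) : ZMod 8) = rb x
  rw [h1, h2, rb_apply']

/-- the prime elements -/
def G₇ : Gens B₇ Pg7 where
  q i := i.1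
  prime i := i.prime
  one i := by
    rw [B₇_r]
    have h := i.ra2
    revert h
    generalize ra i.1 = u
    revert u
    decide
  odd i := i.not_tb
  ne i j h := Pg7.not_dvd h

theorem G₇_a (i : Pg7) : G₇.a i = aa i := by
  show be8 (B₇.symm.r i.1) = aa i
  rw [B₇_r']
  rfl

theorem G₇_b (i : Pg7) : G₇.b i = b1 i := by
  show bf8 (B₇.r i.1) = b1 i
  rw [B₇_r]
  rfl

theorem G₇_b' (i : Pg7) : G₇.b' i = b2 i := by
  show bf8 (B₇.symm.r i.1) = b2 i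
  rw [B₇_r']
  rfl

theorem ls_sb (i : Pg7) (x : 𝓞 K) : ls i.1 x = sb i x := by
  rw [cc_sb, cc_def]
  unfold ls
  by_cases h : ∃ y, i.1 ∣ y ^ 2 - x
  · rw [if_pos h]
  · rw [if_neg h]

theorem G₇_s (i j : Pg7) : G₇.s i j = sb j i.1 := ls_sb j i.1

theorem G₇_dat : G₇.dat = D7 := by
  unfold Gens.dat D7
  congr 1
  · funext i j
    exact G₇_s i j
  · funext i j
    rw [G₇_a, G₇_b, G₇_b']
    fin_cases j <;> rfl

theorem G₇_laws : G₇.Laws where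
  m1 i := by
    rw [G₇_a]
    exact (ls_sb i _).trans (sb_neg_one i)
  la i := by
    rw [G₇_a, G₇_b, add_comm]
    exact (ls_sb i _).trans (sb_ta i)
  lb i := by
    rw [G₇_a, G₇_b', add_comm]
    exact (ls_sb i _).trans (sb_tb i)
  rc i j h := by
    rw [G₇_s, G₇_s, G₇_a, G₇_a, sb_recip j i h.symm]
    exact (by decide : ∀ s x y : ZMod 2, s + x * y + s = y * x) _ _ _

theorem G₇_el (S : Finset Pg7) (d0 d1 d2 : ZMod 2) :
    G₇.el S d0 d1 d2 (fun _ => 1) = dE d0 d1 d2 S := by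
  unfold Gens.el dE DD gpr
  rw [prod_congr rfl fun i _ => pow_one i.1]
  rfl

theorem WE_cw (D : 𝓞 K) : WE D = cw (rt (D : K) ((B₇.b : K) ^ 4)) := by
  unfold WE cw
  rw [rt0, rt1, rt2, B₇_b]
  congr 1 <;> ring

theorem dE_eq (S : Finset Pg7) (d0 d1 d2 : ZMod 2) :
    ((dE d0 d1 d2 S : 𝓞 K) : K) = ((G₇.el S d0 d1 d2 (fun _ => 1) : 𝓞 K) : K) := by
  rw [G₇_el]

theorem nd7 {S : Finset Pg7} {d1 d2 : ZMod 2} (h : ¬ (S = ∅ ∧ d1 = 0 ∧ d2 = 0)) :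
    ¬ ((∀ i, i ∉ S) ∧ d1 = 0 ∧ d2 = 0) := fun h' =>
  h ⟨eq_empty_of_forall_notMem h'.1, h'.2⟩

/-- **The descent**: `D` different from `1, -1`. -/
theorem good7_main {S : Finset Pg7} {d0 d1 d2 : ZMod 2} (hnd : ¬ (S = ∅ ∧ d1 = 0 ∧ d2 = 0))
    (h : Cr.Good D7 S d0 d1 d2) :
    Finite (WE (dE d0 d1 d2 S)).toAffine.Point ∧
      (∃ m : ℕ, Odd m ∧ Nat.card (WE (dE d0 d1 d2 S)).toAffine.Point = 4 * m) ∧
      Nat.card (ShaP 2 (WE (dE d0 d1 d2 S))) = 1 := by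
  rw [← G₇_dat] at h
  exact G₇.main G₇_laws (nd7 hnd) ((G₇.dat_good S d0 d1 d2).1 h) (dE_eq S d0 d1 d2) (WE_cw _)

/-- **The criterion**: `D` different from `1, -1`. -/
theorem good7_iff {S : Finset Pg7} {d0 d1 d2 : ZMod 2} (hnd : ¬ (S = ∅ ∧ d1 = 0 ∧ d2 = 0)) :
    (Finite (WE (dE d0 d1 d2 S)).toAffine.Point ∧ Nat.card (ShaP 2 (WE (dE d0 d1 d2 S))) = 1) ↔
      Cr.Good D7 S d0 d1 d2 := by
  rw [G₇.main_iff G₇_laws (nd7 hnd) (dE_eq S d0 d1 d2) (WE_cw _), ← G₇_dat]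
  exact G₇.dat_good S d0 d1 d2

/-- **The 2-primary part of the torsion** for `D` different from `1, -1`. -/
theorem prim7 {S : Finset Pg7} {d0 d1 d2 : ZMod 2} (hnd : ¬ (S = ∅ ∧ d1 = 0 ∧ d2 = 0)) :
    Nat.card (AddCommGroup.primaryComponent (WE (dE d0 d1 d2 S)).toAffine.Point 2) = 4 :=
  G₇.card_prim S (nd7 hnd) (dE_eq S d0 d1 d2) (WE_cw _)

/-- the number of places above `2` of bad reduction -/
def bet7 (S : Finset Pg7) (d0 d1 d2 : ZMod 2) : ℕ :=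
  (if ce (1 + d0 + d2) d1 = 0 then 0 else 1) + if ce (d0 + d1 + AA S) d2 = 0 then 0 else 1

theorem ce_eq_zero {i j : ZMod 2} : ce i j = 0 ↔ j = 0 ∧ i = 0 := by
  unfold ce
  revert i j
  decide

theorem bet7_eq (S : Finset Pg7) (d0 d1 d2 : ZMod 2) : G₇.bet S d0 d1 d2 = bet7 S d0 d1 d2 := by
  have h1 : Gens.Ga d0 d1 d2 ↔ ce (1 + d0 + d2) d1 = 0 := by
    rw [ce_eq_zero, add_comm 1 d0]
    rfl
  have h2 : G₇.Gb S d0 d1 d2 ↔ ce (d0 + d1 + AA S) d2 = 0 := by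
    rw [ce_eq_zero]
    unfold Gens.Gb AA
    rw [sum_congr rfl fun i _ => G₇_a i]
  unfold Gens.bet bet7
  congr 1
  · by_cases h : Gens.Ga d0 d1 d2
    · rw [if_pos h, if_pos (h1.1 h)]
    · rw [if_neg h, if_neg fun h' => h (h1.2 h')]
  · by_cases h : G₇.Gb S d0 d1 d2
    · rw [if_pos h, if_pos (h2.1 h)]
    · rw [if_neg h, if_neg fun h' => h (h2.2 h')]

/-- **The product of the Tamagawa numbers**, all `D`. -/
theorem tam7 (S : Finset Pg7) (d0 d1 d2 : ZMod 2) :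
    ∏ᶠ v : HeightOneSpectrum (𝓞 K), tam (WE (dE d0 d1 d2 S)) v = 4 ^ (#S + bet7 S d0 d1 d2) := by
  rw [G₇.prod_tam S d0 d1 d2 (dE_eq S d0 d1 d2) (WE_cw _), bet7_eq]

/-- **The norm of the ideal of the Neron differentials**, all `D`. -/
theorem nf7 (S : Finset Pg7) (d0 d1 d2 : ZMod 2) :
    (∏ᶠ v : HeightOneSpectrum (𝓞 K), normFactor (WE (dE d0 d1 d2 S)) v) * 2 ^ bet7 S d0 d1 d2 =
      4 := by
  rw [← bet7_eq]
  exact G₇.prod_nf S d0 d1 d2 (dE_eq S d0 d1 d2) (WE_cw _)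

end

end Pool.Agent.Lib.MP_1a91b9_ntV.C
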