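import Pool.Agent.Lib.MP_1a91b9_ntV.C.ExcD
import Pool.Agent.Lib.MP_1a91b9_ntV.C.Br7

/-!
# The field `ℚ(√-7)`: the two curves `D = 1` and `D = -1`
-/

set_option autoImplicit false
set_option linter.unusedSectionVars false
set_option linter.unusedVariables false

namespace Pool.Agent.Lib.MP_1a91b9_ntV.C

open NumberField Finset WithZero IsDedekindDomain
open Pool.Agent.Lib.MP_1a91b9_ntT3.S9 (ShaP)
open scoped Classical

noncomputable section

variable {N : Type*} [Field N] [NumberField N]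

namespace Gens

variable {B : B7 N} {ι : Type} [DecidableEq ι] (G : Gens B ι)

theorem el_empty (x0 x1 x2 : ZMod 2) (V : ι → ZMod 2) :
    G.el ∅ x0 x1 x2 V = (-1) ^ x0.val * B.a ^ x1.val * B.b ^ x2.val := by
  unfold el gpr
  rw [prod_empty, mul_one]

theorem el_one (V : ι → ZMod 2) : G.el ∅ 0 0 0 V = 1 := by
  rw [el_empty]
  show (-1 : 𝓞 N) ^ 0 * B.a ^ 0 * B.b ^ 0 = 1
  ring

theorem el_m1 (V : ι → ZMod 2) : G.el ∅ 1 0 0 V = -1 := by
  rw [el_empty]
  show (-1 : 𝓞 N) ^ 1 * B.a ^ 0 * B.b ^ 0 = -1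
  ring

theorem el_ma (V : ι → ZMod 2) : G.el ∅ 1 1 0 V = -B.a := by
  rw [el_empty]
  show (-1 : 𝓞 N) ^ 1 * B.a ^ 1 * B.b ^ 0 = -B.a
  ring

include G in
theorem m1_nsq : ¬ IsSquare (-1 : N) := by
  intro h
  have e : (-1 : N) = ((G.el ∅ 1 0 0 (fun _ => 1) : 𝓞 N) : N) := by
    rw [G.el_m1]
    push_cast
    rfl
  rw [e] at h
  exact absurd (G.el_isSquare h).1 (by decide)

include G in
theorem ma_nsq : ¬ IsSquare (-(B.a : N)) := by
  intro h
  have e : -(B.a : N) = ((G.el ∅ 1 1 0 (fun _ => 1) : 𝓞 N) : N) := by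
    rw [G.el_ma]
    push_cast
    rfl
  rw [e] at h
  exact absurd (G.el_isSquare h).1 (by decide)

theorem rel_coe (B : B7 N) : (B.a : N) ^ 2 = (B.a : N) - 2 := by
  have h := congrArg (fun x : 𝓞 N => (x : N)) B.rel
  push_cast at h
  exact h

theorem b_coe (B : B7 N) : (B.b : N) = 1 - (B.a : N) := by
  have h : B.b = 1 - B.a := rfl
  rw [h]
  push_cast
  rfl

/-- the condition on the component `a 1`, `D = 1` -/
theorem sel_first_one (hL : G.Laws) (a : Fin 3 → N) (ha : ∀ i, a i ≠ 0)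
    (hp : IsSquare (a 0 * a 1 * a 2))
    (hloc : ∀ v : HeightOneSpectrum (𝓞 N), GLoc (v.valuation N) (rt 1 ((B.b : N) ^ 4)) a) :
    IsSquare (a 1) ∨ IsSquare (a 1 * -(B.a : N)) := by
  obtain ⟨x, x1, -, hx⟩ := G.sel_first_ker hL (S := ∅) (d0 := 0) (d1 := 0) (d2 := 0) (D := 1)
    (by rw [G.el_one]; push_cast; rfl) a ha hp hloc
  rw [sum_empty, add_zero, mul_one, or_self_iff] at hx
  rcases (by decide : ∀ t : ZMod 2, t = 0 ∨ t = 1) x1 with rfl | rfl
  · left
    rw [G.el_one] at hx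
    push_cast at hx
    rwa [mul_one] at hx
  · right
    rw [G.el_ma] at hx
    push_cast at hx
    exact hx

/-- the condition on the component `a 1`, `D = -1` -/
theorem sel_first_m1 (hL : G.Laws) (a : Fin 3 → N) (ha : ∀ i, a i ≠ 0)
    (hp : IsSquare (a 0 * a 1 * a 2))
    (hloc : ∀ v : HeightOneSpectrum (𝓞 N), GLoc (v.valuation N) (rt (-1) ((B.b : N) ^ 4)) a) :
    IsSquare (a 1) ∨ IsSquare (-a 1) := by
  obtain ⟨x, x1, hk, hx⟩ := G.sel_first_ker hL (S := ∅) (d0 := 1) (d1 := 0) (d2 := 0) (D := -1)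
    (by rw [G.el_m1]; push_cast; rfl) a ha hp hloc
  have h1 : x1 = 0 := hk.2.2 ⟨rfl, by decide, by rw [sum_empty, add_zero]⟩
  rw [h1, sum_empty, add_zero, G.el_one] at hx
  push_cast at hx
  rw [mul_one, mul_neg_one] at hx
  exact hx

include G in
/-- the roots for `D = 1` -/
theorem exc_one_D : ExcD (rt 1 ((B.b : N) ^ 4)) (B.b : N) (-(B.a : N)) 1 (B.a : N) where
  inj := rt_inj' B one_ne_zero
  h01 := by
    rw [rt0, rt1]
    ring
  h02 := by
    rw [rt0, rt2]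
    ring
  g0 := coe_ne B.symm.a_ne
  u0 := one_ne_zero
  w0 := coe_ne B.a_ne
  k0 := neg_ne_zero.2 (coe_ne B.a_ne)
  hp := by
    rw [b_coe]
    linear_combination rel_coe B
  hm := by
    rw [b_coe]
    linear_combination ((B.a : N) ) * rel_coe B
  m1 := G.m1_nsq
  kn := G.ma_nsq

/-- **The curve `D = 1`.** -/
theorem exc_one (hL : G.Laws) {W : WeierstrassCurve N} (hW : W = cw (rt 1 ((B.b : N) ^ 4))) :
    Nat.card (AddCommGroup.primaryComponent W.toAffine.Point 2) = 8 ∧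
      Finite W.toAffine.Point ∧ Nat.card (ShaP 2 W) = 1 := by
  refine G.exc_one_D.main (fun a ha hp hloc => ⟨?_, G.sel_first_one hL a ha hp hloc⟩) hW
  obtain ⟨h3, h4, h5⟩ := swap_data B a ha hp hloc
  exact G.symm.sel_first_m1 (G.symm_laws hL) ![a 1, a 0, a 2] h3 h4 h5

include G in
/-- the roots for `D = -1`, in another order -/
theorem exc_m1_D : ExcD ![1, 0, (B.b : N) ^ 4] (B.a : N) (-(B.b : N)) 1 (B.b : N) where
  inj := by
    have h := rt_inj' B (neg_ne_zero.2 (one_ne_zero (α := N)))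
    have h01 : (1 : N) ≠ 0 := one_ne_zero
    have h02 : (1 : N) ≠ (B.b : N) ^ 4 := by
      intro h1
      refine absurd (@h 1 2 ?_) (by decide)
      rw [rt1, rt2, ← h1]
      ring
    have h12 : (0 : N) ≠ (B.b : N) ^ 4 := (pow_ne_zero _ (coe_ne B.symm.a_ne)).symm
    intro i j hij
    fin_cases i <;> fin_cases j
    · rfl
    · exact absurd hij h01
    · exact absurd hij h02
    · exact absurd hij.symm h01
    · rfl
    · exact absurd hij h12
    · exact absurd hij.symm h02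
    · exact absurd hij.symm h12
    · rfl
  h01 := by
    show (1 : N) - 0 = 1
    ring
  h02 := by
    show (1 : N) - (B.b : N) ^ 4 = (B.a : N) ^ 4
    exact one_sub_b4 B
  g0 := coe_ne B.a_ne
  u0 := one_ne_zero
  w0 := coe_ne B.symm.a_ne
  k0 := neg_ne_zero.2 (coe_ne B.symm.a_ne)
  hp := by
    rw [b_coe]
    linear_combination rel_coe B
  hm := by
    rw [b_coe]
    linear_combination (1 - (B.a : N)) * rel_coe B
  m1 := G.m1_nsq
  kn := G.symm.ma_nsq

/-- **The curve `D = -1`.** -/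
theorem exc_m1 (hL : G.Laws) {W : WeierstrassCurve N} (hW : W = cw (rt (-1) ((B.b : N) ^ 4))) :
    Nat.card (AddCommGroup.primaryComponent W.toAffine.Point 2) = 8 ∧
      Finite W.toAffine.Point ∧ Nat.card (ShaP 2 W) = 1 := by
  have hW' : W = cw ![1, 0, (B.b : N) ^ 4] := by
    rw [hW, ← cw_swap]
    congr 1
    funext i
    fin_cases i
    · show rt (-1) ((B.b : N) ^ 4) 1 = 1
      rw [rt1, neg_neg]
    · rfl
    · show rt (-1) ((B.b : N) ^ 4) 2 = (B.b : N) ^ 4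
      rw [rt2]
      ring
  refine G.exc_m1_D.main (fun a ha hp hloc => ?_) hW'
  have ha' : ∀ i, (![a 1, a 0, a 2] : Fin 3 → N) i ≠ 0 := by
    intro i
    fin_cases i
    · exact ha 1
    · exact ha 0
    · exact ha 2
  have hp' : IsSquare ((![a 1, a 0, a 2] : Fin 3 → N) 0 * (![a 1, a 0, a 2] : Fin 3 → N) 1 *
      (![a 1, a 0, a 2] : Fin 3 → N) 2) := by
    show IsSquare (a 1 * a 0 * a 2)
    rw [mul_comm (a 1)]
    exact hp
  have hloc' : ∀ v : HeightOneSpectrum (𝓞 N),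
      GLoc (v.valuation N) (rt (-1) ((B.b : N) ^ 4)) ![a 1, a 0, a 2] := by
    intro v
    refine (hloc v).swap (t := 0) ?_ ?_ ?_
    · show rt (-1) ((B.b : N) ^ 4) 0 = 0 + 0
      rw [rt0, add_zero]
    · show rt (-1) ((B.b : N) ^ 4) 1 = 1 + 0
      rw [rt1, add_zero, neg_neg]
    · show rt (-1) ((B.b : N) ^ 4) 2 = (B.b : N) ^ 4 + 0
      rw [rt2]
      ring
  refine ⟨G.sel_first_m1 hL ![a 1, a 0, a 2] ha' hp' hloc', ?_⟩
  obtain ⟨h3, h4, h5⟩ := swap_data B ![a 1, a 0, a 2] ha' hp' hloc'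
  rw [neg_neg] at h5
  have e : (![(![a 1, a 0, a 2] : Fin 3 → N) 1, (![a 1, a 0, a 2] : Fin 3 → N) 0,
      (![a 1, a 0, a 2] : Fin 3 → N) 2] : Fin 3 → N) = a := by
    funext i
    fin_cases i <;> rfl
  rw [e] at h3 h4 h5
  exact G.symm.sel_first_one (G.symm_laws hL) a h3 h4 h5

/-- **The curves `D = 1, -1`.** -/
theorem exc_both (hL : G.Laws) (d0 : ZMod 2) {D : N}
    (hDe : D = ((G.el ∅ d0 0 0 (fun _ => 1) : 𝓞 N) : N)) {W : WeierstrassCurve N}
    (hW : W = cw (rt D ((B.b : N) ^ 4))) :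
    Nat.card (AddCommGroup.primaryComponent W.toAffine.Point 2) = 8 ∧
      Finite W.toAffine.Point ∧ Nat.card (ShaP 2 W) = 1 := by
  rcases (by decide : ∀ t : ZMod 2, t = 0 ∨ t = 1) d0 with rfl | rfl
  · rw [G.el_one] at hDe
    push_cast at hDe
    rw [hDe] at hW
    exact G.exc_one hL hW
  · rw [G.el_m1] at hDe
    push_cast at hDe
    rw [hDe] at hW
    exact G.exc_m1 hL hW

end Gens

end

section inst

open Pool.Agent.Lib.MP_1a91b9_nuT Pool.Agent.Lib.MP_1a91b9_ntV Pool.Agent.Lib.MP_1a91b9_ntV.L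

variable [CD] [hv : V7]

/-- **The two curves `D = 1, -1`**, with eight points of order a power of two. -/
theorem exc7 (d0 : ZMod 2) :
    Nat.card (AddCommGroup.primaryComponent (WE (dE d0 0 0 ∅)).toAffine.Point 2) = 8 ∧
      Finite (WE (dE d0 0 0 ∅)).toAffine.Point ∧ Nat.card (ShaP 2 (WE (dE d0 0 0 ∅))) = 1 :=
  G₇.exc_both G₇_laws d0 (dE_eq ∅ d0 0 0) (WE_cw _)

end inst

end Pool.Agent.Lib.MP_1a91b9_ntV.C
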