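import Pool.Agent.Lib.MP_1a91b9_ntV.C.Tam2
import Pool.Agent.Lib.MP_1a91b9_ntT.S9.QD

/-!
# Tamagawa numbers of curves with full 2-torsion: minimality over `ℚ₂`, and the results over a number field
-/

set_option autoImplicit false

namespace Pool.Agent.Lib.MP_1a91b9_ntV.C

open NumberField IsDedekindDomain WithZero WeierstrassCurve
open Pool.Agent.Lib.MP_1a91b9_ntT.S9 (tam)
open Pool.Agent.Lib.MP_1a91b9_ntH.C (nsSet nsG)
open Pool.Agent.Lib.MP_1a91b9_ntH.C.TamT (Itg)
open scoped Classical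

section

variable {L : Type*} [Field L] {V : Valuation L ℤᵐ⁰}

theorem v_four (hq : Q2 V) : V 4 = exp (-2 : ℤ) := by
  have e1 : (4 : L) = 2 * 2 := by norm_num
  rw [e1, map_mul, hq.two, ← exp_add]
  rfl

theorem v_eight (hq : Q2 V) : V 8 = exp (-3 : ℤ) := by
  have e1 : (8 : L) = 2 * 4 := by norm_num
  rw [e1, map_mul, hq.two, v_four hq, ← exp_add]
  rfl

theorem v_int_le (n : ℕ) [n.AtLeastTwo] : V (OfNat.ofNat n : L) ≤ 1 := TamG_int.1 (ofNat_mem _ n)

/-- `c₄` of an integral equation with `a₁` in the maximal ideal -/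
theorem c4_even (hq : Q2 V) {M : WeierstrassCurve L} (hM : Itg V M) (h1 : V M.a₁ < 1) :
    V M.c₄ ≤ exp (-4 : ℤ) := by
  have a1 := lt_one_exp h1
  have hb2 : V M.b₂ ≤ exp (-2 : ℤ) := by
    rw [WeierstrassCurve.b₂]
    refine Valuation.map_add_le _ ?_ ?_
    · rw [map_pow]
      calc V M.a₁ ^ 2 ≤ exp (-1 : ℤ) ^ 2 := pow_le_pow_left₀ zero_le a1 2
        _ = exp (-2 : ℤ) := by
          rw [← exp_nsmul]
          rfl
    · rw [map_mul, v_four hq]
      exact mul_le_of_le_one_right' hM.a2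
  have hb4 : V M.b₄ ≤ exp (-1 : ℤ) := by
    rw [WeierstrassCurve.b₄]
    refine Valuation.map_add_le _ ?_ ?_
    · rw [map_mul, hq.two]
      exact mul_le_of_le_one_right' hM.a4
    · rw [map_mul]
      exact (mul_le_of_le_one_right' hM.a3).trans a1
  rw [WeierstrassCurve.c₄]
  refine Valuation.map_sub_le _ ?_ ?_
  · rw [map_pow]
    calc V M.b₂ ^ 2 ≤ exp (-2 : ℤ) ^ 2 := pow_le_pow_left₀ zero_le hb2 2
      _ = exp (-4 : ℤ) := by
        rw [← exp_nsmul]
        rfl
  · have e1 : (24 : L) * M.b₄ = 8 * (3 * M.b₄) := by ring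
    rw [e1, map_mul, map_mul, v_eight hq]
    calc exp (-3 : ℤ) * (V 3 * V M.b₄) ≤ exp (-3 : ℤ) * (1 * exp (-1 : ℤ)) :=
          mul_le_mul_right (mul_le_mul' (v_int_le 3) hb4) _
      _ = exp (-4 : ℤ) := by
        rw [one_mul, ← exp_add]
        rfl

/-- `c₄` and `c₆` of an integral equation with `a₁` a unit -/
theorem c46_odd (hq : Q2 V) {M : WeierstrassCurve L} (hM : Itg V M) (h1 : V M.a₁ = 1) :
    V M.c₄ = 1 ∧ V (M.c₆ + 1) ≤ exp (-2 : ℤ) := by
  obtain ⟨-, b4, b6, -⟩ := Itg.b hM
  have hb2 : V (M.b₂ - 1) ≤ exp (-2 : ℤ) := by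
    have e1 : M.b₂ - 1 = (M.a₁ ^ 2 - 1) + 4 * M.a₂ := by
      rw [WeierstrassCurve.b₂]
      ring
    rw [e1]
    refine Valuation.map_add_le _ (hq.unit_sq h1) ?_
    rw [map_mul, v_four hq]
    exact mul_le_of_le_one_right' hM.a2
  have hb22 : V (M.b₂ * M.b₂ - 1) ≤ exp (-2 : ℤ) := close_mul (by norm_num) hb2 hb2
  have hb23 : V (M.b₂ * M.b₂ * M.b₂ - 1) ≤ exp (-2 : ℤ) := close_mul (by norm_num) hb22 hb2
  constructor
  · refine one_of_close (n := -2) (by norm_num) ?_
    have e1 : M.c₄ - 1 = (M.b₂ * M.b₂ - 1) - 4 * (6 * M.b₄) := by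
      rw [WeierstrassCurve.c₄]
      ring
    rw [e1]
    refine Valuation.map_sub_le _ hb22 ?_
    rw [map_mul, map_mul, v_four hq]
    exact mul_le_of_le_one_right' (mul_le_one' (v_int_le 6) b4)
  · have e1 : M.c₆ + 1 = -(M.b₂ * M.b₂ * M.b₂ - 1) + 4 * (9 * (M.b₂ * M.b₄) - 54 * M.b₆) := by
      rw [WeierstrassCurve.c₆]
      ring
    rw [e1]
    refine Valuation.map_add_le _ ?_ ?_
    · rw [Valuation.map_neg]
      exact hb23
    · rw [map_mul, v_four hq]
      have hb2' : V M.b₂ = 1 := one_of_close (n := -2) (by norm_num) hb2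
      refine mul_le_of_le_one_right' (Valuation.map_sub_le _ ?_ ?_)
      · rw [map_mul, map_mul, hb2', one_mul]
        exact mul_le_one' (v_int_le 9) b4
      · rw [map_mul]
        exact mul_le_one' (v_int_le 54) b6

theorem cw_c4 (e : Fin 3 → L) : (cw e).c₄ =
    4 * (4 * ((e 0 - e 1) ^ 2 + (e 1 - e 2) * ((e 0 - e 1) + (e 1 - e 2)))) := by
  simp only [cw, WeierstrassCurve.c₄, WeierstrassCurve.b₂, WeierstrassCurve.b₄]
  ring

theorem cw_c6 (e : Fin 3 → L) : (cw e).c₆ =
    32 * ((2 * (e 0 - e 1) + (e 1 - e 2)) * ((e 0 - e 1) - (e 1 - e 2)) *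
      ((e 0 - e 1) + 2 * (e 1 - e 2))) := by
  simp only [cw, WeierstrassCurve.c₆, WeierstrassCurve.b₂, WeierstrassCurve.b₄, WeierstrassCurve.b₆]
  ring

/-- **Minimality** of the equations of type `I4*` and `I8*`. -/
theorem noDown_near (hq : Q2 V) {e : Fin 3 → L} (hn : Near V e) : NoDown V (cw e) := by
  intro C hC hu
  have h20 : (2 : L) ≠ 0 := by
    intro h
    have h1 := hq.two
    rw [h, map_zero] at h1
    exact exp_ne_zero h1.symm
  have hV : 0 < V (e 0 - e 1) := zero_lt_iff.2 ((Valuation.ne_zero_iff _).2 hn.ne01)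
  have hu0 : (C.u : L) ≠ 0 := C.u.ne_zero
  have hui : ((C.u⁻¹ : Lˣ) : L) = (C.u : L)⁻¹ := by simp
  obtain ⟨n, hn'⟩ := val_exp (V := V) hu0
  have hn1 : n ≤ -1 := by
    rw [hn', ← exp_zero, exp_lt_exp] at hu
    omega
  -- the value of `c₄`
  have hD2 : V ((e 0 - e 1) ^ 2 + (e 1 - e 2) * ((e 0 - e 1) + (e 1 - e 2))) =
      V (e 0 - e 1) ^ 2 := by
    rw [Valuation.map_add_eq_of_lt_left, map_pow]
    have e1 : (e 0 - e 1) + (e 1 - e 2) = e 0 - e 2 := by ring
    rw [e1, map_mul, map_pow, hn.v02, hn.near, pow_two, mul_assoc]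
    exact mul_lt_of_lt_one_left (mul_pos hV hV) (Tam2_lt (by norm_num))
  have hc4 : V (C • cw e).c₄ = exp (-4 - 4 * n) * V (e 0 - e 1) ^ 2 := by
    rw [variableChange_c₄, cw_c4, hui, map_mul, map_pow, map_inv₀, hn', map_mul, map_mul, hD2,
      v_four hq, ← exp_neg, ← exp_nsmul, ← mul_assoc, ← mul_assoc, ← exp_add, ← exp_add]
    congr 2
    simp only [nsmul_eq_mul, Nat.cast_ofNat]
    ring
  have hle : V (C • cw e).c₄ ≤ 1 := by
    obtain ⟨b2, b4, -, -⟩ := Itg.b hC
    rw [WeierstrassCurve.c₄]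
    refine Valuation.map_sub_le _ ?_ ?_
    · rw [map_pow]
      exact pow_le_one₀ zero_le b2
    · rw [map_mul]
      exact mul_le_one' (v_int_le 24) b4
  have hcase : V (C • cw e).a₁ < 1 ∨ V (C • cw e).a₁ = 1 := lt_or_eq_of_le hC.a1
  rcases hn.far with hA | hB
  · have hVD := one_of_close (V := V) (by norm_num) hA
    rw [hVD, one_pow, mul_one] at hc4
    have hn2 : n = -1 := by
      rw [hc4, ← exp_zero, exp_le_exp] at hle
      omega
    subst hn2
    rcases hcase with h1 | h1
    · have h3 := c4_even hq hC h1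
      rw [hc4, exp_le_exp] at h3
      norm_num at h3
    · obtain ⟨-, h3⟩ := c46_odd hq hC h1
      -- `c₆ = w ^ 6 (D + δ / 2) (D - δ) (D + 2 δ)`, `w = 2 / u`
      have hw : V (2 / (C.u : L)) = 1 := by
        rw [map_div₀, hq.two, hn']
        exact div_self exp_ne_zero
      have hw2 := hq.unit_sq hw
      have hδ : V (e 1 - e 2) = exp (-4 : ℤ) := by rw [hn.near, hVD, mul_one]
      have k1 : V ((e 0 - e 1) + (e 1 - e 2) / 2 - 1) ≤ exp (-2 : ℤ) := by
        have e1 : (e 0 - e 1) + (e 1 - e 2) / 2 - 1 = (e 0 - e 1 - 1) + (e 1 - e 2) / 2 := by ring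
        rw [e1]
        refine Valuation.map_add_le _ hA ?_
        rw [map_div₀, hδ, hq.two, ← exp_sub]
        exact exp_le_exp.2 (by norm_num)
      have k2 : V ((e 0 - e 1) - (e 1 - e 2) - 1) ≤ exp (-2 : ℤ) := by
        have e1 : (e 0 - e 1) - (e 1 - e 2) - 1 = (e 0 - e 1 - 1) - (e 1 - e 2) := by ring
        rw [e1]
        refine Valuation.map_sub_le _ hA ?_
        rw [hδ]
        exact exp_le_exp.2 (by norm_num)
      have k3 : V ((e 0 - e 1) + 2 * (e 1 - e 2) - 1) ≤ exp (-2 : ℤ) := by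
        have e1 : (e 0 - e 1) + 2 * (e 1 - e 2) - 1 = (e 0 - e 1 - 1) + 2 * (e 1 - e 2) := by ring
        rw [e1]
        refine Valuation.map_add_le _ hA ?_
        rw [map_mul, hδ, hq.two, ← exp_add]
        exact exp_le_exp.2 (by norm_num)
      have k4 := close_mul (by norm_num) (close_mul (by norm_num) (close_mul (by norm_num) k1 k2) k3)
        (close_mul (by norm_num) (close_mul (by norm_num) hw2 hw2) hw2)
      have e6 : (C • cw e).c₆ = ((e 0 - e 1) + (e 1 - e 2) / 2) * ((e 0 - e 1) - (e 1 - e 2)) *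
          ((e 0 - e 1) + 2 * (e 1 - e 2)) * ((2 / (C.u : L)) ^ 2 * (2 / (C.u : L)) ^ 2 *
            (2 / (C.u : L)) ^ 2) := by
        rw [variableChange_c₆, cw_c6, hui]
        field_simp
        ring
      rw [← e6] at k4
      exact hq.contra h3 k4
  · rw [hB, ← exp_nsmul, ← exp_add] at hc4
    have e1 : (-4 - 4 * n : ℤ) + 2 • (-1 : ℤ) = -6 - 4 * n := by
      simp only [nsmul_eq_mul, Nat.cast_ofNat]
      ring
    rw [e1] at hc4
    have hn2 : n = -1 := by
      rw [hc4, ← exp_zero, exp_le_exp] at hle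
      omega
    subst hn2
    rcases hcase with h1 | h1
    · have h3 := c4_even hq hC h1
      rw [hc4, exp_le_exp] at h3
      norm_num at h3
    · obtain ⟨h3, -⟩ := c46_odd hq hC h1
      rw [hc4, ← exp_zero, exp_inj] at h3
      norm_num at h3

end

/-! ### number fields -/

section

variable {N : Type*} [Field N] [NumberField N] {v : HeightOneSpectrum (𝓞 N)}

theorem valC (v : HeightOneSpectrum (𝓞 N)) (x : N) :
    Valued.v (algebraMap N (v.adicCompletion N) x) = v.valuation N x :=
  HeightOneSpectrum.valuedAdicCompletion_eq_valuation' v x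

theorem cw_disc {F : Type*} [Field F] (e : Fin 3 → F) : (cw e).Δ =
    16 * ((e 0 - e 1) * (e 0 - e 2) * (e 1 - e 2)) ^ 2 := by
  simp only [cw, WeierstrassCurve.Δ, WeierstrassCurve.b₂, WeierstrassCurve.b₄, WeierstrassCurve.b₆,
    WeierstrassCurve.b₈]
  ring

theorem cw_disc_ne {e : Fin 3 → N} (he : Function.Injective e) : (cw e).Δ ≠ 0 := by
  rw [cw_disc]
  have h01 : e 0 - e 1 ≠ 0 := sub_ne_zero.2 fun h => absurd (he h) (by decide)
  have h02 : e 0 - e 2 ≠ 0 := sub_ne_zero.2 fun h => absurd (he h) (by decide)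
  have h12 : e 1 - e 2 ≠ 0 := sub_ne_zero.2 fun h => absurd (he h) (by decide)
  exact mul_ne_zero (by norm_num) (pow_ne_zero 2 (mul_ne_zero (mul_ne_zero h01 h02) h12))

/-- the index formula for a minimal equation -/
theorem tam_cw {e : Fin 3 → N} (he : Function.Injective e) (hint : ∀ i, v.valuation N (e i) ≤ 1)
    (hH : NoDown (Valued.v : Valuation (v.adicCompletion N) ℤᵐ⁰) (cw (eb (v.adicCompletion N) e))) :
    tam (cw e) v = (nsG (Valued.v : Valuation (v.adicCompletion N) ℤᵐ⁰)
      (cw (eb (v.adicCompletion N) e))).index := by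
  have e1 : (cw e).baseChange (v.adicCompletion N) = cw (eb (v.adicCompletion N) e) := cw_bc _ e
  have h := tam_gen (v := v) (cw e) ?_ (cw_disc_ne he) (by rw [e1]; exact hH)
  · rw [h, e1]
  · rw [e1]
    have hi : ∀ i, Valued.v (eb (v.adicCompletion N) e i) ≤ (1 : ℤᵐ⁰) := fun i => by
      rw [eb, valC]
      exact hint i
    have hsub : ∀ i, ∃ z : v.adicCompletionIntegers N,
        algebraMap (v.adicCompletionIntegers N) (v.adicCompletion N) z = eb (v.adicCompletion N) e i :=
      fun i => ⟨⟨_, hi i⟩, rfl⟩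
    choose z hz using hsub
    refine ⟨⟨0, -(z 0 + z 1 + z 2), 0, z 0 * z 1 + z 0 * z 2 + z 1 * z 2, -(z 0 * z 1 * z 2)⟩, ?_⟩
    simp only [cw, WeierstrassCurve.baseChange, WeierstrassCurve.map, map_zero, map_neg, map_add,
      map_mul, hz]

/-- **Type `I0*`**, `v` prime to `2`. -/
theorem tam_I0 {e : Fin 3 → N} (h2 : v.valuation N 2 = 1) (hint : ∀ i, v.valuation N (e i) ≤ 1)
    (hs : ∀ i j, i ≠ j → v.valuation N (e i - e j) = exp (-1 : ℤ)) : tam (cw e) v = 4 := by
  have he : Function.Injective e := by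
    intro i j hij
    by_contra hne
    have h := hs i j hne
    rw [hij, sub_self, map_zero] at h
    exact exp_ne_zero h.symm
  have : CharZero (v.adicCompletion N) :=
    charZero_of_injective_algebraMap (algebraMap N (v.adicCompletion N)).injective
  have hint' : ∀ i, Valued.v (eb (v.adicCompletion N) e i) ≤ (1 : ℤᵐ⁰) := fun i => by
    rw [eb, valC]
    exact hint i
  have hs' : ∀ i j, i ≠ j → Valued.v (eb (v.adicCompletion N) e i - eb (v.adicCompletion N) e j) =
      exp (-1 : ℤ) := fun i j hij => by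
    rw [eb, eb, ← map_sub, valC]
    exact hs i j hij
  have h2' : Valued.v (2 : v.adicCompletion N) = (1 : ℤᵐ⁰) := by
    have h := valC v (2 : N)
    rw [map_ofNat] at h
    rw [h, h2]
  rw [tam_cw he hint]
  · exact index_I0 h2' hint' hs'
  · refine noDown_of_disc ?_
    have e16 : (16 : v.adicCompletion N) = 2 ^ 4 := by norm_num
    rw [cw_disc, e16]
    simp only [map_mul, map_pow]
    rw [h2', hs' 0 1 (by decide), hs' 0 2 (by decide), hs' 1 2 (by decide), one_pow, one_mul,
      ← exp_add, ← exp_add, ← exp_nsmul, exp_lt_exp]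
    norm_num

/-- The completion at a place of degree one over `2` which is unramified over `ℚ`. -/
theorem q2_completion (h2 : v.valuation N 2 = exp (-1 : ℤ))
    (hr : ∀ x : 𝓞 N, x ∈ v.asIdeal ∨ x - 1 ∈ v.asIdeal) :
    Q2 (Valued.v : Valuation (v.adicCompletion N) ℤᵐ⁰) where
  two := by
    have h := valC v (2 : N)
    rw [map_ofNat] at h
    rw [h, h2]
  res z hz := by
    -- approximation by an element of `N`
    have hn1 : exp (-(1 : ℤ)) < (1 : ℤᵐ⁰) := exp_neg_lt
    obtain ⟨c, hc⟩ := HeightOneSpectrum.valuedAdicCompletion_surjective N v (exp (-(1 : ℤ)))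
    have hcr : Valued.v.restrict c ≠ 0 := by
      rw [Ne, Valuation.restrict_eq_zero_iff, hc]
      exact exp_ne_zero
    have hO : IsOpen ((fun y : v.adicCompletion N => z - y) ⁻¹'
        {z : v.adicCompletion N | Valued.v.restrict z ≤ Valued.v.restrict c}) :=
      (Valued.isOpen_closedBall _ hcr).preimage (continuous_const.sub continuous_id)
    obtain ⟨x, hx⟩ := (HeightOneSpectrum.denseRange_algebraMap N v).exists_mem_open hO
      ⟨z, by
        rw [Set.mem_preimage, sub_self, Set.mem_ofPred_eq, map_zero]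
        exact zero_le⟩
    rw [Set.mem_preimage, Set.mem_ofPred_eq, Valuation.restrict_le_iff, hc] at hx
    have hx1 : v.valuation N x ≤ 1 := by
      rw [← valC v]
      have e1 : algebraMap N (v.adicCompletion N) x =
          z - (z - algebraMap N (v.adicCompletion N) x) := by ring
      rw [e1]
      exact Valuation.map_sub_le _ hz (hx.trans hn1.le)
    obtain ⟨y, hy⟩ := v.exists_valuation_sub_lt_of_integer (K := N) hx1 1
    have hy' : v.valuation N (x - (y : N)) < 1 := by
      rw [Valuation.map_sub_swap]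
      simpa using hy
    have hzy : Valued.v (z - algebraMap N (v.adicCompletion N) (y : N)) < (1 : ℤᵐ⁰) := by
      have e1 : z - algebraMap N (v.adicCompletion N) (y : N) =
          (z - algebraMap N (v.adicCompletion N) x) +
            algebraMap N (v.adicCompletion N) (x - (y : N)) := by
        rw [map_sub]
        ring
      rw [e1]
      refine Valuation.map_add_lt _ (hx.trans_lt hn1) ?_
      rw [valC]
      exact hy'
    rcases hr y with h | h
    · left
      have h3 : v.valuation N (y : N) < 1 := (v.valuation_lt_one_iff_mem (K := N) _).2 h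
      have e1 : z = (z - algebraMap N (v.adicCompletion N) (y : N)) +
          algebraMap N (v.adicCompletion N) (y : N) := by ring
      rw [e1]
      refine Valuation.map_add_lt _ hzy ?_
      rw [valC]
      exact h3
    · right
      have h3 : v.valuation N ((y - 1 : 𝓞 N) : N) < 1 :=
        (v.valuation_lt_one_iff_mem (K := N) _).2 h
      have e1 : z - 1 = (z - algebraMap N (v.adicCompletion N) (y : N)) +
          algebraMap N (v.adicCompletion N) ((y - 1 : 𝓞 N) : N) := by
        have e0 : ((y - 1 : 𝓞 N) : N) = (y : N) - 1 := rfl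
        rw [e0, map_sub, map_one]
        ring
      rw [e1]
      refine Valuation.map_add_lt _ hzy ?_
      rw [valC]
      exact h3
  sq z hz := by
    have h4' : Valued.v (4 : v.adicCompletion N) = exp (-2 : ℤ) := by
      have e1 : (4 : v.adicCompletion N) = algebraMap N (v.adicCompletion N) (2 * 2) := by
        rw [map_mul, map_ofNat]
        norm_num
      rw [e1, valC, map_mul, h2, ← exp_add]
      rfl
    have h40 : (4 : v.adicCompletion N) ≠ 0 := by
      intro h
      rw [h, map_zero] at h4'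
      exact exp_ne_zero h4'.symm
    have ht : Valued.v ((z - 1) / 4) < (1 : ℤᵐ⁰) := by
      rw [map_div₀, h4', div_lt_one₀ exp_pos]
      exact hz.trans_lt (exp_lt_exp.2 (by norm_num))
    obtain ⟨s, _, hs⟩ := Pool.Agent.Lib.MP_1a91b9_ntT.S9.hensel_small v (-((z - 1) / 4)) 1 1 0 0
      (by rw [Valuation.map_neg]; exact ht) (map_one _) (by rw [map_one])
      (by rw [map_zero]; exact zero_le) (by rw [map_zero]; exact zero_le)
    refine ⟨1 + 2 * s, ?_⟩
    have e1 : z = 1 + 4 * ((z - 1) / 4) := by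
      field_simp
      ring
    rw [e1]
    linear_combination (-4 : v.adicCompletion N) * hs

/-- **Types `I4*` and `I8*`** -/
theorem tam_near {e : Fin 3 → N} (h2 : v.valuation N 2 = exp (-1 : ℤ))
    (hr : ∀ x : 𝓞 N, x ∈ v.asIdeal ∨ x - 1 ∈ v.asIdeal) (hn : Near (v.valuation N) e) :
    tam (cw e) v = 4 := by
  have : CharZero (v.adicCompletion N) :=
    charZero_of_injective_algebraMap (algebraMap N (v.adicCompletion N)).injective
  have hq := q2_completion (v := v) h2 hr
  have hn' : Near (Valued.v : Valuation (v.adicCompletion N) ℤᵐ⁰) (eb (v.adicCompletion N) e) := by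
    obtain ⟨i, j, k⟩ := hn
    refine ⟨fun m => ?_, ?_, ?_⟩
    · rw [eb, valC]
      exact i m
    · rw [eb, eb, eb, ← map_sub, ← map_sub, valC, valC]
      exact j
    · rw [eb, eb, ← map_sub, ← map_one (algebraMap N (v.adicCompletion N)), ← map_sub, valC, valC]
      exact k
  rw [tam_cw hn.inj hn.int (noDown_near hq hn')]
  exact index_near hq hn'

/-- the order of the roots does not matter -/
theorem cw_swap {F : Type*} [Field F] (e : Fin 3 → F) : cw ![e 1, e 0, e 2] = cw e := by
  simp only [cw, Matrix.cons_val_zero, Matrix.cons_val_one, Matrix.cons_val]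
  congr 1 <;> ring

theorem cw_rot {F : Type*} [Field F] (e : Fin 3 → F) : cw ![e 2, e 0, e 1] = cw e := by
  simp only [cw, Matrix.cons_val_zero, Matrix.cons_val_one, Matrix.cons_val]
  congr 1 <;> ring

/-- Good reduction at a place prime to `2`. -/
theorem tam_unit_cw {e : Fin 3 → N} (h2 : v.valuation N 2 = 1) (hint : ∀ i, v.valuation N (e i) ≤ 1)
    (hs : ∀ i j, i ≠ j → v.valuation N (e i - e j) = 1) : tam (cw e) v = 1 := by
  have hi : ∀ i, Valued.v (eb (v.adicCompletion N) e i) ≤ (1 : ℤᵐ⁰) := fun i => by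
    rw [eb, valC]
    exact hint i
  have hsub : ∀ i, ∃ z : v.adicCompletionIntegers N,
      algebraMap (v.adicCompletionIntegers N) (v.adicCompletion N) z = eb (v.adicCompletion N) e i :=
    fun i => ⟨⟨_, hi i⟩, rfl⟩
  choose z hz using hsub
  have e1 : (cw e).baseChange (v.adicCompletion N) = cw (eb (v.adicCompletion N) e) := cw_bc _ e
  refine tam_good_gen (v := v) (cw e) 1 ?_ ?_
  · rw [one_smul, e1]
    refine ⟨⟨0, -(z 0 + z 1 + z 2), 0, z 0 * z 1 + z 0 * z 2 + z 1 * z 2, -(z 0 * z 1 * z 2)⟩, ?_⟩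
    simp only [cw, WeierstrassCurve.baseChange, WeierstrassCurve.map, map_zero, map_neg, map_add,
      map_mul, hz]
  · have hs' : ∀ i j, i ≠ j → Valued.v (eb (v.adicCompletion N) e i - eb (v.adicCompletion N) e j) =
        (1 : ℤᵐ⁰) := fun i j hij => by
      rw [eb, eb, ← map_sub, valC]
      exact hs i j hij
    have h2' : Valued.v (2 : v.adicCompletion N) = (1 : ℤᵐ⁰) := by
      have h := valC v (2 : N)
      rw [map_ofNat] at h
      rw [h, h2]
    have e16 : (16 : v.adicCompletion N) = 2 ^ 4 := by norm_num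
    rw [one_smul, e1, cw_disc, e16]
    simp only [map_mul, map_pow]
    rw [h2', hs' 0 1 (by decide), hs' 0 2 (by decide), hs' 1 2 (by decide)]
    simp only [one_pow, mul_one]

/-- the change of variables to the good model at `2` -/
theorem good_change {F : Type*} [Field F] (h2 : (2 : F) ≠ 0) (e : Fin 3 → F) :
    (⟨Units.mk0 2 h2, e 1, 1, 0⟩ : VariableChange F) • cw e =
      ⟨1, (-(e 0 - e 1 + 1) + (e 1 - e 2)) / 4, 0, -((e 0 - e 1) * (e 1 - e 2)) / 16, 0⟩ := by
  have h4 : (4 : F) ≠ 0 := by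
    have e4 : (4 : F) = 2 * 2 := by norm_num
    rw [e4]
    exact mul_ne_zero h2 h2
  have h16 : (16 : F) ≠ 0 := by
    have e4 : (16 : F) = 4 * 4 := by norm_num
    rw [e4]
    exact mul_ne_zero h4 h4
  have hui : (((Units.mk0 (2 : F) h2)⁻¹ : Fˣ) : F) = 2⁻¹ := by simp
  ext
  · rw [variableChange_a₁, hui]
    simp only [cw]
    field_simp
    ring
  · rw [variableChange_a₂, hui]
    simp only [cw]
    field_simp
    ring
  · rw [variableChange_a₃, hui]
    simp only [cw]
    ring
  · rw [variableChange_a₄, hui]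
    simp only [cw]
    field_simp
    ring
  · rw [variableChange_a₆, hui]
    simp only [cw]
    ring

/-- the good model at a place above `2` -/
theorem good_near {e : Fin 3 → N} (h2 : v.valuation N 2 = exp (-1 : ℤ))
    (hD : v.valuation N (e 0 - e 1 + 1) ≤ exp (-2 : ℤ))
    (hδ : v.valuation N (e 1 - e 2) = exp (-4 : ℤ)) :
    ∃ C : VariableChange (v.adicCompletion N),
      (∃ I : WeierstrassCurve (v.adicCompletionIntegers N),
        C • (cw e).baseChange (v.adicCompletion N) = I.baseChange (v.adicCompletion N)) ∧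
      Valued.v (C • (cw e).baseChange (v.adicCompletion N)).Δ = (1 : ℤᵐ⁰) ∧
      Valued.v (C.u : v.adicCompletion N) = exp (-1 : ℤ) := by
  have : CharZero (v.adicCompletion N) :=
    charZero_of_injective_algebraMap (algebraMap N (v.adicCompletion N)).injective
  have hv2 : Valued.v (2 : v.adicCompletion N) = exp (-1 : ℤ) := by
    have h := valC v (2 : N)
    rw [map_ofNat] at h
    rw [h, h2]
  have hv4 : Valued.v (4 : v.adicCompletion N) = exp (-2 : ℤ) := by
    have e4 : (4 : v.adicCompletion N) = 2 * 2 := by norm_num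
    rw [e4, map_mul, hv2, ← exp_add]
    rfl
  have hv16 : Valued.v (16 : v.adicCompletion N) = exp (-4 : ℤ) := by
    have e4 : (16 : v.adicCompletion N) = 4 * 4 := by norm_num
    rw [e4, map_mul, hv4, ← exp_add]
    rfl
  have hD' : Valued.v (eb (v.adicCompletion N) e 0 - eb (v.adicCompletion N) e 1 + 1) ≤
      exp (-2 : ℤ) := by
    rw [eb, eb, ← map_sub, ← map_one (algebraMap N (v.adicCompletion N)), ← map_add, valC]
    exact hD
  have hδ' : Valued.v (eb (v.adicCompletion N) e 1 - eb (v.adicCompletion N) e 2) =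
      exp (-4 : ℤ) := by
    rw [eb, eb, ← map_sub, valC]
    exact hδ
  have hD1 : Valued.v (eb (v.adicCompletion N) e 0 - eb (v.adicCompletion N) e 1) = (1 : ℤᵐ⁰) := by
    rw [← Valuation.map_neg]
    refine one_of_close (n := -2) (by norm_num) ?_
    have e1 : -(eb (v.adicCompletion N) e 0 - eb (v.adicCompletion N) e 1) - 1 =
        -(eb (v.adicCompletion N) e 0 - eb (v.adicCompletion N) e 1 + 1) := by ring
    rw [e1, Valuation.map_neg]
    exact hD'
  have hD2 : Valued.v (eb (v.adicCompletion N) e 0 - eb (v.adicCompletion N) e 2) = (1 : ℤᵐ⁰) := by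
    have e1 : eb (v.adicCompletion N) e 0 - eb (v.adicCompletion N) e 2 =
        (eb (v.adicCompletion N) e 0 - eb (v.adicCompletion N) e 1) +
          (eb (v.adicCompletion N) e 1 - eb (v.adicCompletion N) e 2) := by ring
    rw [e1, Valuation.map_add_eq_of_lt_left, hD1]
    rw [hD1, hδ']
    exact Tam2_lt (by norm_num)
  have e1 : (cw e).baseChange (v.adicCompletion N) = cw (eb (v.adicCompletion N) e) := cw_bc _ e
  have h20 : (2 : v.adicCompletion N) ≠ 0 := two_ne_zero
  have hmem : ∀ z : v.adicCompletion N, Valued.v z ≤ (1 : ℤᵐ⁰) → ∃ x : v.adicCompletionIntegers N,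
      algebraMap (v.adicCompletionIntegers N) (v.adicCompletion N) x = z := fun z hz => ⟨⟨z, hz⟩, rfl⟩
  obtain ⟨a, ha⟩ := hmem ((-(eb (v.adicCompletion N) e 0 - eb (v.adicCompletion N) e 1 + 1) +
      (eb (v.adicCompletion N) e 1 - eb (v.adicCompletion N) e 2)) / 4) (by
    rw [map_div₀, hv4]
    refine (div_le_one₀ exp_pos).2 (Valuation.map_add_le _ ?_ ?_)
    · rw [Valuation.map_neg]
      exact hD'
    · rw [hδ']
      exact exp_le_exp.2 (by norm_num))
  obtain ⟨b, hb⟩ := hmem (-((eb (v.adicCompletion N) e 0 - eb (v.adicCompletion N) e 1) *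
      (eb (v.adicCompletion N) e 1 - eb (v.adicCompletion N) e 2)) / 16) (by
    rw [map_div₀, hv16, Valuation.map_neg, map_mul, hD1, hδ', one_mul, div_self exp_ne_zero])
  refine ⟨⟨Units.mk0 2 h20, eb (v.adicCompletion N) e 1, 1, 0⟩, ?_, ?_, hv2⟩
  · rw [e1, good_change h20]
    refine ⟨⟨1, a, 0, b, 0⟩, ?_⟩
    simp only [WeierstrassCurve.baseChange, WeierstrassCurve.map, map_zero, map_one, ha, hb]
  · have hui : (((Units.mk0 (2 : v.adicCompletion N) h20)⁻¹ : (v.adicCompletion N)ˣ) :
        v.adicCompletion N) = 2⁻¹ := by simp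
    rw [e1, variableChange_Δ, cw_disc, hui]
    simp only [map_mul, map_pow, map_inv₀]
    rw [hv2, hv16, hD1, hD2, hδ', one_mul, one_mul, ← exp_neg, ← exp_nsmul, ← exp_nsmul, ← exp_add,
      ← exp_add, ← exp_zero]
    rfl

/-- **Good reduction at a place above `2`.** -/
theorem tam_good_near {e : Fin 3 → N} (h2 : v.valuation N 2 = exp (-1 : ℤ))
    (hD : v.valuation N (e 0 - e 1 + 1) ≤ exp (-2 : ℤ))
    (hδ : v.valuation N (e 1 - e 2) = exp (-4 : ℤ)) : tam (cw e) v = 1 := by
  obtain ⟨C, h3, h4, -⟩ := good_near h2 hD hδ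
  exact tam_good_gen (v := v) (cw e) C h3 h4

end

end Pool.Agent.Lib.MP_1a91b9_ntV.C
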