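import Pool.Agent.Lib.MP_1a91b9_ntV.C.CritT
import Pool.Agent.Lib.MP_1a91b9_ntQ.A.ForB

/-!
# The field `ℚ(√-7)`: the criterion and the determinants of the analytic side
-/

set_option autoImplicit false
set_option linter.unusedSectionVars false
set_option linter.unusedVariables false

namespace Pool.Agent.Lib.MP_1a91b9_ntV.Cr

open Finset Pool.Agent.Lib.MP_1a91b9_ntQ
open Pool.Agent.Lib.MP_1a91b9_ntK (NM CZ)

noncomputable section

variable {ι : Type} [DecidableEq ι] (D : Dat2 ι (Fin 3))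

/-- the symbols in the convention of the analytic side -/
def tm (q p : ι) : ZMod 2 := D.s p q

theorem neg_eq (t : ZMod 2) : -t = t := by
  revert t
  decide

/-- the transposed matrix `NM` -/
theorem nm_vec (κ : ι → ZMod 2) (S : Finset ι) (v : S → ZMod 2) (i : S) :
    (NM (tm D) κ S).transpose.mulVec v i = ∑ j ∈ S.erase (i : ι), D.s i j * ex S v j +
      (∑ j ∈ S.erase (i : ι), D.s j i + κ i) * v i := by
  have h1 : (NM (tm D) κ S).transpose.mulVec v i =
      ∑ j : S, (if (j : ι) = i then (κ i + ∑ l ∈ S.erase (i : ι), D.s l i)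
        else D.s i j) * ex S v j := by
    show ∑ j : S, (NM (tm D) κ S).transpose i j * v j = _
    refine sum_congr rfl fun j _ => ?_
    rw [Matrix.transpose_apply, ex_val]
    unfold NM
    by_cases h : j = i
    · subst h
      rw [if_pos rfl, if_pos rfl]
      rfl
    · rw [if_neg h, if_neg fun h' => h (Subtype.ext h'), neg_eq]
      rfl
  rw [h1, sum_coe_sort S (fun j => (if j = (i : ι) then (κ i + ∑ l ∈ S.erase (i : ι), D.s l i)
    else D.s i j) * ex S v j), ← add_sum_erase S _ i.2, if_pos rfl, ex_val]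
  have h3 : ∑ j ∈ S.erase (i : ι), (if j = (i : ι) then (κ i +
      ∑ l ∈ S.erase (i : ι), D.s l i) else D.s i j) * ex S v j =
      ∑ j ∈ S.erase (i : ι), D.s i j * ex S v j :=
    sum_congr rfl fun j hj => by rw [if_neg (ne_of_mem_erase hj)]
  rw [h3]
  ring

theorem nx_ex (S : Finset ι) (d0 d1 d2 : ZMod 2) (v : S → ZMod 2) (i : S) :
    Nx D S d0 d1 d2 (ex S v) i = ∑ j ∈ S.erase (i : ι), D.s i j * ex S v j +
      (∑ j ∈ S.erase (i : ι), D.s j i + (w D d0 d1 d2 i + D.a i 0)) * v i := by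
  unfold Nx
  rw [ex_val]
  ring

theorem nx_congr (S : Finset ι) (d0 d1 d2 : ZMod 2) {x y : ι → ZMod 2} (h : ∀ i ∈ S, x i = y i)
    {i : ι} (hi : i ∈ S) : Nx D S d0 d1 d2 x i = Nx D S d0 d1 d2 y i := by
  unfold Nx
  rw [h i hi]
  congr 1
  exact sum_congr rfl fun j hj => by rw [h j (mem_of_mem_erase hj)]

theorem ex_res (S : Finset ι) (x : ι → ZMod 2) {i : ι} (hi : i ∈ S) :
    ex S (fun j : S => x j) i = x i := by
  unfold ex
  rw [dif_pos hi]

/-- the sum of the rows -/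
theorem sum_nx (hr : Rc D) (S : Finset ι) (d0 d1 d2 : ZMod 2) (x : ι → ZMod 2) :
    ∑ i ∈ S, Nx D S d0 d1 d2 x i = ∑ i ∈ S, (w D d0 d1 d2 i + D.a i 0) * x i := by
  unfold Nx
  rw [sum_add_distrib]
  have h1 : ∑ i ∈ S, ∑ j ∈ S.erase i, D.s i j * x j = ∑ i ∈ S, (∑ j ∈ S.erase i, D.s j i) * x i := by
    have h2 : ∀ i ∈ S, ∑ j ∈ S.erase i, D.s i j * x j =
        ∑ j ∈ S, if j ≠ i then D.s i j * x j else 0 := by
      intro i hi
      rw [← sum_filter]
      refine sum_congr ?_ fun _ _ => rfl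
      ext j
      rw [mem_erase, mem_filter]
      exact and_comm
    have h3 : ∀ i ∈ S, (∑ j ∈ S.erase i, D.s j i) * x i =
        ∑ j ∈ S, if i ≠ j then D.s j i * x i else 0 := by
      intro i hi
      rw [sum_mul, ← sum_filter]
      refine sum_congr ?_ fun _ _ => rfl
      ext j
      rw [mem_erase, mem_filter]
      exact ⟨fun h => ⟨h.2, h.1.symm⟩, fun h => ⟨h.2.symm, h.1⟩⟩
    rw [sum_congr rfl h2, sum_congr rfl h3, sum_comm]
  rw [h1, ← sum_add_distrib]
  refine sum_congr rfl fun i _ => ?_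
  linear_combination add_self ((∑ j ∈ S.erase i, D.s j i) * x i)

theorem ker_zero {S : Finset ι} {d0 d1 d2 : ZMod 2} {x : ι → ZMod 2}
    (h : ∀ i ∈ S, Nx D S d0 d1 d2 x i = 0)
    (h2 : ¬ SqB D S d0 d1 d2 → ∑ i ∈ S, D.a i 2 * x i = 0) : Ker D S d0 d1 d2 x 0 :=
  ⟨fun i hi => by rw [h i hi, mul_zero, add_zero], fun hB => (h2 hB).symm, fun _ => rfl⟩

theorem det_ne_iff {n : Type} [Fintype n] [DecidableEq n] (M : Matrix n n (ZMod 2)) :
    M.det ≠ 0 ↔ ∀ v, M.transpose.mulVec v = 0 → v = 0 := by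
  rw [← Matrix.det_transpose, Ne, ← Matrix.exists_mulVec_eq_zero_iff]
  constructor
  · intro h v hv
    by_contra h0
    exact h ⟨v, h0, hv⟩
  · rintro h ⟨v, h0, hv⟩
    exact h0 (h v hv)

theorem sum_ex (S : Finset ι) (c : ι → ZMod 2) (v : S → ZMod 2) :
    ∑ i ∈ S, c i * ex S v i = ∑ i : S, c i * v i := by
  rw [← sum_coe_sort S (fun i => c i * ex S v i)]
  exact sum_congr rfl fun i _ => by rw [ex_val]

/-- bordered matrices -/
theorem bm_ne_iff (κ b c : ι → ZMod 2) (k : ZMod 2) (S : Finset ι) :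
    FB (tm D) b c k κ S ≠ 0 ↔ ∀ (v : S → ZMod 2) (e : ZMod 2),
      (∀ i : S, (NM (tm D) κ S).transpose.mulVec v i + c i * e = 0) →
      ∑ i : S, b i * v i + k * e = 0 → v = 0 ∧ e = 0 := by
  unfold FB
  rw [det_ne_iff]
  have hT : (BM (NM (tm D) κ S) (fun i => b i) (fun i => c i) k).transpose =
      Matrix.fromBlocks (NM (tm D) κ S).transpose (Matrix.of fun i _ => c i)
        (Matrix.of fun _ j => b j) (Matrix.of fun _ _ => k) := by
    unfold BM
    rw [Matrix.fromBlocks_transpose]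
    rfl
  rw [hT]
  have key : ∀ u : S ⊕ Unit → ZMod 2,
      (Matrix.fromBlocks (NM (tm D) κ S).transpose (Matrix.of fun (i : S) (_ : Unit) => c i)
        (Matrix.of fun (_ : Unit) (j : S) => b j) (Matrix.of fun (_ _ : Unit) => k)).mulVec u = 0 ↔
      (∀ i : S, (NM (tm D) κ S).transpose.mulVec (u ∘ Sum.inl) i + c i * u (Sum.inr ()) = 0) ∧
      ∑ i : S, b i * u (Sum.inl i) + k * u (Sum.inr ()) = 0 := by
    intro u
    rw [Matrix.fromBlocks_mulVec, funext_iff]
    constructor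
    · intro h
      refine ⟨fun i => ?_, ?_⟩
      · have h1 := h (Sum.inl i)
        rw [Sum.elim_inl, Pi.add_apply] at h1
        have e : (Matrix.of fun (i : S) (_ : Unit) => c i).mulVec (u ∘ Sum.inr) i =
            c i * u (Sum.inr ()) := by
          show ∑ j : Unit, c i * u (Sum.inr j) = _
          exact Fintype.sum_unique _
        rw [e] at h1
        exact h1
      · have h1 := h (Sum.inr ())
        rw [Sum.elim_inr, Pi.add_apply] at h1
        have e : (Matrix.of fun (_ _ : Unit) => k).mulVec (u ∘ Sum.inr) () =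
            k * u (Sum.inr ()) := by
          show ∑ j : Unit, k * u (Sum.inr j) = _
          exact Fintype.sum_unique _
        rw [e] at h1
        exact h1
    · rintro ⟨h1, h2⟩ (i | i)
      · rw [Sum.elim_inl, Pi.add_apply]
        have e : (Matrix.of fun (i : S) (_ : Unit) => c i).mulVec (u ∘ Sum.inr) i =
            c i * u (Sum.inr ()) := by
          show ∑ j : Unit, c i * u (Sum.inr j) = _
          exact Fintype.sum_unique _
        rw [e]
        exact h1 i
      · rw [Sum.elim_inr, Pi.add_apply]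
        have e : (Matrix.of fun (_ _ : Unit) => k).mulVec (u ∘ Sum.inr) i =
            k * u (Sum.inr ()) := by
          show ∑ j : Unit, k * u (Sum.inr j) = _
          exact Fintype.sum_unique _
        rw [e]
        exact h2
  constructor
  · intro h v e h1 h2
    have h3 := h (Sum.elim v fun _ => e) ((key _).2 ⟨h1, h2⟩)
    exact ⟨funext fun i => congrFun h3 (Sum.inl i), congrFun h3 (Sum.inr ())⟩
  · intro h u hu
    obtain ⟨h1, h2⟩ := (key u).1 hu
    obtain ⟨h3, h4⟩ := h _ _ h1 h2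
    funext i
    rcases i with i | i
    · exact congrFun h3 i
    · exact h4

/-- **(G)** -/
theorem good_FB {S : Finset ι} {d0 d1 d2 : ZMod 2} (hA : ¬ SqA D S d0 d1 d2)
    (hB : ¬ SqB D S d0 d1 d2) : Good D S d0 d1 d2 ↔
      FB (tm D) (fun i => D.a i 2) (fun i => D.a i 1) 1 (fun i => w D d0 d1 d2 i + D.a i 0) S ≠ 0 := by
  rw [bm_ne_iff]
  constructor
  · intro h v e h1 h2
    have he : e = ∑ i ∈ S, D.a i 2 * ex S v i := by
      rw [sum_ex]
      exact (by decide : ∀ s t : ZMod 2, s + 1 * t = 0 → t = s) _ _ h2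
    have hk : Ker D S d0 d1 d2 (ex S v) e := by
      refine ⟨fun i hi => ?_, fun _ => he, fun h' => absurd h' hA⟩
      have h3 := h1 ⟨i, hi⟩
      rw [nm_vec] at h3
      rw [nx_ex D S d0 d1 d2 v ⟨i, hi⟩]
      exact h3
    rcases h _ _ hk with ⟨h3, h4⟩ | ⟨-, -, h3⟩
    · refine ⟨funext fun i => ?_, h4⟩
      have := h3 i i.2
      rwa [ex_val] at this
    · exact absurd h3 hB
  · intro h x x1 hk
    left
    have h1 := hk.2.1 hB
    have h5 : ∀ i : S, (NM (tm D) (fun i => w D d0 d1 d2 i + D.a i 0) S).transpose.mulVec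
        (fun j : S => x j) i + D.a i 1 * x1 = 0 := by
      intro i
      rw [nm_vec, ← nx_ex, nx_congr D S d0 d1 d2 (fun j hj => ex_res S x hj) i.2]
      exact hk.1 i i.2
    have h6 : ∑ i : S, D.a i 2 * x i + 1 * x1 = 0 := by
      rw [h1, ← sum_coe_sort S (fun i => D.a i 2 * x i), one_mul]
      exact add_self (∑ i : S, D.a i 2 * x i)
    obtain ⟨h3, h4⟩ := h (fun j : S => x j) x1 h5 h6
    exact ⟨fun i hi => congrFun h3 ⟨i, hi⟩, h4⟩

/-- **(L1)**: the class `(0, 3)` -/
theorem good_L1 (hr : Rc D) (S : Finset ι) : Good D S 0 0 1 ↔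
    (NM (tm D) (fun i => D.a i 2) S).det ≠ 0 := by
  have hB : ¬ SqB D S 0 0 1 := fun h => absurd h.1 (by decide)
  have hw : ∀ i, w D 0 0 1 i + D.a i 0 = D.a i 2 := by
    intro i
    unfold w
    linear_combination add_self (D.a i 0)
  have hnx : ∀ (v : S → ZMod 2) (i : S),
      (NM (tm D) (fun i => D.a i 2) S).transpose.mulVec v i = Nx D S 0 0 1 (ex S v) i := by
    intro v i
    rw [nm_vec, nx_ex, hw]
  rw [det_ne_iff]
  constructor
  · intro h v hv
    have h1 : ∀ i ∈ S, Nx D S 0 0 1 (ex S v) i = 0 := fun i hi => by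
      rw [← hnx v ⟨i, hi⟩]
      exact congrFun hv ⟨i, hi⟩
    have h2 : ∑ i ∈ S, D.a i 2 * ex S v i = 0 := by
      have h3 := sum_nx D hr S 0 0 1 (ex S v)
      rw [sum_eq_zero h1] at h3
      rw [h3]
      exact sum_congr rfl fun i _ => by rw [hw]
    rcases h _ _ (ker_zero D h1 fun _ => h2) with ⟨h3, -⟩ | ⟨-, -, h3⟩
    · funext i
      have := h3 i i.2
      rwa [ex_val] at this
    · exact absurd h3 hB
  · intro h x x1 hk
    left
    have h1 := hk.2.1 hB
    have hs := sum_nx D hr S 0 0 1 x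
    have h2 : ∑ i ∈ S, (w D 0 0 1 i + D.a i 0) * x i = x1 := by
      rw [h1]
      exact sum_congr rfl fun i _ => by rw [hw]
    have h3 : ∑ i ∈ S, Nx D S 0 0 1 x i = (∑ i ∈ S, D.a i 1) * x1 := by
      rw [sum_mul]
      refine sum_congr rfl fun i hi => ?_
      exact (by decide : ∀ s t : ZMod 2, s + t = 0 → s = t) _ _ (hk.1 i hi)
    rw [h2, h3] at hs
    have hx1 : x1 = 0 := by
      rcases (by decide : ∀ t : ZMod 2, t = 0 ∨ t = 1) (∑ i ∈ S, D.a i 1) with h4 | h4
      · rw [h4, zero_mul] at hs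
        exact hs.symm
      · exact hk.2.2 ⟨rfl, by decide, by rw [h4]; decide⟩
    have h5 : (fun j : S => x j) = 0 := by
      refine h _ (funext fun i => ?_)
      rw [hnx, nx_congr D S 0 0 1 (fun j hj => ex_res S x hj) i.2]
      have := hk.1 i i.2
      rwa [hx1, mul_zero, add_zero] at this
    exact ⟨fun i hi => congrFun h5 ⟨i, hi⟩, hx1⟩

theorem nx_one (S : Finset ι) (i : ι) :
    Nx D S 1 0 0 (fun _ => 1) i = ∑ j ∈ S.erase i, (D.s i j + D.s j i) := by
  unfold Nx w
  rw [sum_add_distrib, sum_congr rfl fun j _ => mul_one (D.s i j)]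
  linear_combination add_self (D.a i 0)

theorem nx_one' (hr : Rc D) (S : Finset ι) {i : ι} (hi : i ∈ S) :
    Nx D S 1 0 0 (fun _ => 1) i = D.a i 0 * (∑ j ∈ S, D.a j 0 + 1) := by
  rw [nx_one, sum_congr rfl fun j hj => hr i j (ne_of_mem_erase hj).symm, ← mul_sum,
    ← add_sum_erase S (fun j => D.a j 0) hi]
  linear_combination -(self_mul (D.a i 0)) - add_self (D.a i 0)

theorem nx_add (S : Finset ι) (d0 d1 d2 : ZMod 2) (x y : ι → ZMod 2) (i : ι) :
    Nx D S d0 d1 d2 (fun j => x j + y j) i = Nx D S d0 d1 d2 x i + Nx D S d0 d1 d2 y i := by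
  unfold Nx
  simp only [mul_add, sum_add_distrib]
  ring

theorem w100 (i : ι) : w D 1 0 0 i + D.a i 0 = 0 := by
  unfold w
  linear_combination add_self (D.a i 0)

theorem sum_nx0 (hr : Rc D) (S : Finset ι) (x : ι → ZMod 2) :
    ∑ i ∈ S, Nx D S 1 0 0 x i = 0 := by
  rw [sum_nx D hr]
  exact sum_eq_zero fun i _ => by rw [w100, zero_mul]

/-- the first value vanishes -/
theorem x1_zero (hr : Rc D) {S : Finset ι} {x : ι → ZMod 2} {x1 : ZMod 2}
    (hk : Ker D S 1 0 0 x x1) : x1 = 0 := by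
  have hs := sum_nx0 D hr S x
  have h3 : ∑ i ∈ S, Nx D S 1 0 0 x i = (∑ i ∈ S, D.a i 1) * x1 := by
    rw [sum_mul]
    refine sum_congr rfl fun i hi => ?_
    exact (by decide : ∀ s t : ZMod 2, s + t = 0 → s = t) _ _ (hk.1 i hi)
  rw [h3] at hs
  rcases (by decide : ∀ t : ZMod 2, t = 0 ∨ t = 1) (∑ i ∈ S, D.a i 1) with h4 | h4
  · exact hk.2.2 ⟨rfl, by decide, by rw [h4]; decide⟩
  · rwa [h4, one_mul] at hs

/-- the matrix of the class `(0, 0)` -/
theorem nm_vec2 (hr : Rc D) (S : Finset ι) (v : S → ZMod 2) (i : S) :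
    (NM (tm D) (fun i => D.a i 0) S).mulVec v i = Nx D S 1 0 0 (ex S v) i +
      D.a i 0 * ∑ j ∈ S, D.a j 0 * ex S v j := by
  have h1 : (NM (tm D) (fun i => D.a i 0) S).mulVec v i =
      ∑ j : S, (if (i : ι) = j then (D.a i 0 + ∑ l ∈ S.erase (i : ι), D.s l i)
        else D.s j i) * ex S v j := by
    show ∑ j : S, NM (tm D) (fun i => D.a i 0) S i j * v j = _
    refine sum_congr rfl fun j _ => ?_
    rw [ex_val]
    unfold NM
    by_cases h : i = j
    · rw [if_pos h, if_pos (congrArg Subtype.val h)]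
      rfl
    · rw [if_neg h, if_neg fun h' => h (Subtype.ext h'), neg_eq]
      rfl
  have h2 : ∑ j ∈ S.erase (i : ι), (if (i : ι) = j then (D.a i 0 +
      ∑ l ∈ S.erase (i : ι), D.s l i) else D.s j i) * ex S v j =
      ∑ j ∈ S.erase (i : ι), (D.s i j * ex S v j + D.a i 0 * (D.a j 0 * ex S v j)) := by
    refine sum_congr rfl fun j hj => ?_
    rw [if_neg (ne_of_mem_erase hj).symm]
    have h4 := hr i j (ne_of_mem_erase hj).symm
    have h5 : D.s j i = D.s i j + D.a i 0 * D.a j 0 :=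
      (by decide : ∀ s t u : ZMod 2, s + t = u → t = s + u) _ _ _ h4
    rw [h5]
    ring
  rw [h1, sum_coe_sort S (fun j => (if (i : ι) = j then (D.a i 0 + ∑ l ∈ S.erase (i : ι), D.s l i)
    else D.s j i) * ex S v j), ← add_sum_erase S _ i.2, if_pos rfl, h2, sum_add_distrib,
    ← mul_sum, nx_ex, w100, ← add_sum_erase S (fun j => D.a j 0 * ex S v j) i.2, ex_val]
  have e := self_mul (D.a i 0)
  linear_combination -(v i) * e

/-- **(L2)**: the class `(0, 0)` -/
theorem good_L2 (hr : Rc D) {S : Finset ι} (hA : ∑ i ∈ S, D.a i 0 = 1) : Good D S 1 0 0 ↔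
    (NM (tm D) (fun i => D.a i 0) S).det ≠ 0 := by
  have hB : SqB D S 1 0 0 ↔ ∑ i ∈ S, D.a i 2 = 0 := by
    constructor
    · intro h
      have := h.2.2
      rwa [zero_add] at this
    · intro h
      exact ⟨rfl, by rw [hA]; decide, by rw [h]; decide⟩
  have hone : ∀ i ∈ S, Nx D S 1 0 0 (fun _ => 1) i = 0 := fun i hi => by
    rw [nx_one' D hr S hi, hA]
    exact mul_zero _
  have hadd : ∀ (x : ι → ZMod 2), (∀ i ∈ S, Nx D S 1 0 0 x i = 0) →
      ∀ i ∈ S, Nx D S 1 0 0 (fun j => x j + 1) i = 0 := fun x hx i hi => by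
    rw [nx_add D S 1 0 0 x (fun _ => 1) i, hx i hi, hone i hi, add_zero]
  have hsum1 : ∀ (x : ι → ZMod 2) (t : Fin 3), ∑ i ∈ S, D.a i t * (x i + 1) =
      ∑ i ∈ S, D.a i t * x i + ∑ i ∈ S, D.a i t := fun x t => by
    rw [← sum_add_distrib]
    exact sum_congr rfl fun i _ => by ring
  rw [← Matrix.det_transpose, det_ne_iff, Matrix.transpose_transpose]
  constructor
  · intro h v hv
    have h0 : ∀ i ∈ S, Nx D S 1 0 0 (ex S v) i + D.a i 0 * ∑ j ∈ S, D.a j 0 * ex S v j = 0 :=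
      fun i hi => by
        rw [← nm_vec2 D hr S v ⟨i, hi⟩]
        exact congrFun hv ⟨i, hi⟩
    have hc : ∑ j ∈ S, D.a j 0 * ex S v j = 0 := by
      have h1 := sum_eq_zero h0
      rw [sum_add_distrib, sum_nx0 D hr, ← sum_mul, hA, zero_add, one_mul] at h1
      exact h1
    have h1 : ∀ i ∈ S, Nx D S 1 0 0 (ex S v) i = 0 := fun i hi => by
      have := h0 i hi
      rwa [hc, mul_zero, add_zero] at this
    have hnone : ¬ ∀ i ∈ S, ex S v i = 1 := by
      intro h2
      rw [sum_congr rfl fun i hi => by rw [h2 i hi, mul_one], hA] at hc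
      exact absurd hc (by decide)
    have fin0 : Ker D S 1 0 0 (ex S v) 0 → v = 0 := by
      intro hk
      rcases h _ _ hk with ⟨h3, -⟩ | ⟨h3, -, -⟩
      · funext i
        have := h3 i i.2
        rwa [ex_val] at this
      · exact absurd h3 hnone
    by_cases hq : SqB D S 1 0 0
    · exact fin0 (ker_zero D h1 fun h' => absurd hq h')
    · rcases (by decide : ∀ t : ZMod 2, t = 0 ∨ t = 1) (∑ i ∈ S, D.a i 2 * ex S v i) with he | he
      · exact fin0 (ker_zero D h1 fun _ => he)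
      · exfalso
        have hB1 : ∑ i ∈ S, D.a i 2 = 1 :=
          (by decide : ∀ t : ZMod 2, t ≠ 0 → t = 1) _ fun h' => hq (hB.2 h')
        have hk : Ker D S 1 0 0 (fun j => ex S v j + 1) 0 :=
          ker_zero D (hadd _ h1) fun _ => by
            rw [hsum1, he, hB1]
            decide
        rcases h _ _ hk with ⟨h3, -⟩ | ⟨-, -, h3⟩
        · exact hnone fun i hi =>
            (by decide : ∀ t : ZMod 2, t + 1 = 0 → t = 1) _ (h3 i hi)
        · exact hq h3
  · intro h x x1 hk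
    have hx1 := x1_zero D hr hk
    have h1 : ∀ i ∈ S, Nx D S 1 0 0 x i = 0 := fun i hi => by
      have := hk.1 i hi
      rwa [hx1, mul_zero, add_zero] at this
    have key : ∀ y : ι → ZMod 2, (∀ i ∈ S, Nx D S 1 0 0 y i = 0) →
        ∑ j ∈ S, D.a j 0 * y j = 0 → ∀ i ∈ S, y i = 0 := by
      intro y hy hc i hi
      have h2 := h (fun j : S => y j) (funext fun j => ?_)
      · exact congrFun h2 ⟨i, hi⟩
      · rw [nm_vec2 D hr, nx_congr D S 1 0 0 (fun l hl => ex_res S y hl) j.2, hy j j.2,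
          sum_congr rfl fun l hl => by rw [ex_res S y hl], hc, mul_zero]
        exact add_zero 0
    rcases (by decide : ∀ t : ZMod 2, t = 0 ∨ t = 1) (∑ j ∈ S, D.a j 0 * x j) with hc | hc
    · exact Or.inl ⟨key x h1 hc, hx1⟩
    · right
      have h2 : ∀ i ∈ S, x i = 1 := fun i hi =>
        (by decide : ∀ t : ZMod 2, t + 1 = 0 → t = 1) _
          (key (fun j => x j + 1) (hadd x h1) (by rw [hsum1, hc, hA]; decide) i hi)
      refine ⟨h2, hx1, ?_⟩
      by_contra hn
      have h3 := hk.2.1 hn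
      rw [hx1, sum_congr rfl fun i hi => by rw [h2 i hi, mul_one]] at h3
      exact hn (hB.2 h3.symm)

/-- **(L3)**: the class `(0, 2)` -/
theorem good_L3 (hr : Rc D) {S : Finset ι} (hS : S.Nonempty) (hA : ∑ i ∈ S, D.a i 0 = 0) :
    Good D S 1 0 0 ↔ CZ (tm D) (fun i => D.a i 2) S ≠ 0 := by
  obtain ⟨q, hq⟩ := hS
  have hB : ¬ SqB D S 1 0 0 := by
    rintro ⟨-, h, -⟩
    rw [hA] at h
    exact absurd h (by decide)
  have hcz : FB (tm D) (fun i => D.a i 2) (fun i => if i = q then 1 else 0) 0 0 S =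
      CZ (tm D) (fun i => D.a i 2) S := by
    unfold FB CZ
    rw [det_BM, zero_mul, zero_sub, neg_eq]
    rw [← add_sum_erase univ _ (mem_univ (⟨q, hq⟩ : S)), sum_eq_zero (s := univ.erase _), add_zero]
    · refine sum_congr rfl fun j _ => ?_
      show (if q = q then (1 : ZMod 2) else 0) * (NM (tm D) 0 S).adjugate ⟨q, hq⟩ j * D.a j 2 =
        D.a j 2 * (NM (tm D) 0 S).adjugate j j
      rw [if_pos rfl, one_mul, adj_row (NM_mulVec_one (tm D) S) ⟨q, hq⟩ j j, mul_comm]
    · intro i hi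
      refine sum_eq_zero fun j _ => ?_
      show (if (i : ι) = q then (1 : ZMod 2) else 0) * (NM (tm D) 0 S).adjugate i j * D.a j 2 = 0
      rw [if_neg fun h' => (mem_erase.1 hi).1 (Subtype.ext h'), zero_mul, zero_mul]
  rw [← hcz, bm_ne_iff]
  have hnx : ∀ (v : S → ZMod 2) (i : S),
      (NM (tm D) 0 S).transpose.mulVec v i = Nx D S 1 0 0 (ex S v) i := by
    intro v i
    rw [nm_vec, nx_ex, w100]
    rfl
  constructor
  · intro h v e h1 h2
    have h1' : ∀ i ∈ S, Nx D S 1 0 0 (ex S v) i + (if i = q then 1 else 0) * e = 0 :=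
      fun i hi => by
        rw [← hnx v ⟨i, hi⟩]
        exact h1 ⟨i, hi⟩
    have he : e = 0 := by
      have h3 := sum_eq_zero h1'
      rw [sum_add_distrib, sum_nx0 D hr, ← sum_mul, sum_ite_eq' S q, if_pos hq, one_mul,
        zero_add] at h3
      exact h3
    have h3 : ∀ i ∈ S, Nx D S 1 0 0 (ex S v) i = 0 := fun i hi => by
      have := h1' i hi
      rwa [he, mul_zero, add_zero] at this
    have h4 : ∑ i ∈ S, D.a i 2 * ex S v i = 0 := by
      rw [sum_ex]
      rwa [zero_mul, add_zero] at h2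
    rcases h _ _ (ker_zero D h3 fun _ => h4) with ⟨h5, -⟩ | ⟨-, -, h5⟩
    · refine ⟨funext fun i => ?_, he⟩
      have := h5 i i.2
      rwa [ex_val] at this
    · exact absurd h5 hB
  · intro h x x1 hk
    left
    have hx1 := x1_zero D hr hk
    have h2 := hk.2.1 hB
    have h5 : ∀ i : S, (NM (tm D) 0 S).transpose.mulVec (fun j : S => x j) i +
        (if (i : ι) = q then 1 else 0) * (0 : ZMod 2) = 0 := by
      intro i
      rw [hnx, nx_congr D S 1 0 0 (fun j hj => ex_res S x hj) i.2, mul_zero, add_zero]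
      have := hk.1 i i.2
      rwa [hx1, mul_zero, add_zero] at this
    have h6 : ∑ i : S, D.a i 2 * x i + 0 * (0 : ZMod 2) = 0 := by
      rw [sum_coe_sort S (fun i => D.a i 2 * x i), ← h2, hx1, mul_zero, add_zero]
    obtain ⟨h3, -⟩ := h (fun j : S => x j) 0 h5 h6
    exact ⟨fun i hi => congrFun h3 ⟨i, hi⟩, hx1⟩

/-- **(R1)**: the class `(3, 0)` -/
theorem good_R1 (hr : Rc D) (S : Finset ι) : Good D S (1 + ∑ i ∈ S, D.a i 0) 1 0 ↔
    (NM (tm (mir D)) (fun i => D.a i 1) S).det ≠ 0 := by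
  rw [← good_mir' D hr (fun h => absurd h.2.1 (by decide)), (by decide : ∀ t : ZMod 2,
    1 + t + 1 + t = 0) (∑ i ∈ S, D.a i 0), good_L1 (mir D) (mir_rc D hr)]
  rfl

/-- **(R3)**: the class `(2, 0)` -/
theorem good_R3 (hr : Rc D) {S : Finset ι} (hS : S.Nonempty) (hA : ∑ i ∈ S, D.a i 0 = 0) :
    Good D S 0 0 0 ↔ CZ (tm (mir D)) (fun i => D.a i 1) S ≠ 0 := by
  rw [← good_mir D hr hS, hA, (by decide : (0 : ZMod 2) + 1 + 0 = 1),
    good_L3 (mir D) (mir_rc D hr) hS hA]
  rfl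

end

end Pool.Agent.Lib.MP_1a91b9_ntV.Cr
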