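import Pool.Agent.Lib.MP_1a91b9_ntV.C.Two

/-!
# The field `ℚ(√-7)`: the valuation at `a`
-/

set_option autoImplicit false
set_option linter.unusedSectionVars false
set_option linter.unusedVariables false

namespace Pool.Agent.Lib.MP_1a91b9_ntV.C

open NumberField Finset WithZero IsDedekindDomain
open Pool.Agent.Lib.MP_1a91b9_ntH.C (Sq isSquare_exp nu_one Sq.near Sq.one Sq.mul Sq.cancel
  Sq.of_mul_sq Sq.of_isSquare Sq.even Sq.ne exists_nu nu_four nu_four_le)

noncomputable section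

namespace B7

variable {N : Type*} [Field N] [NumberField N] (B : B7 N)

/-- the valuation at `a` -/
def nu : Valuation N ℤᵐ⁰ := (pv B.a B.prime_a).valuation N

theorem nu_a : B.nu (B.a : N) = exp (-1) := pv_self B.a B.prime_a

theorem nu_b : B.nu (B.b : N) = 1 := pv_one B.prime_a B.a_not_dvd_b

theorem coe_two : (B.a : N) * (B.b : N) = 2 := by
  have h := congrArg (fun x : 𝓞 N => (x : N)) B.ab
  push_cast at h
  rw [h]
  exact map_ofNat (algebraMap (𝓞 N) N) 2

theorem nu_two : B.nu 2 = exp (-1) := by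
  rw [← B.coe_two, map_mul, nu_a, nu_b, mul_one]

theorem nu_O {x : 𝓞 N} (h : ¬ B.a ∣ x) : B.nu (x : N) = 1 := pv_one B.prime_a h

theorem res (w : N) (hw : B.nu w = 1) : B.nu (w - 1) < 1 := by
  obtain ⟨γ, hγ⟩ := HeightOneSpectrum.exists_valuation_sub_lt_of_integer (K := N)
    (pv B.a B.prime_a) (x := w) hw.le 1
  rw [Units.val_one] at hγ
  have hγ' : B.nu ((γ : N) - w) < 1 := hγ
  rcases B.a_dvd' γ with h | h
  · exfalso
    have h1 : B.nu (γ : N) < 1 := (pv_lt B.prime_a).2 h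
    have e : w = (γ : N) - ((γ : N) - w) := by ring
    have h2 : B.nu w < 1 := by
      rw [e]
      exact Valuation.map_sub_lt _ h1 hγ'
    rw [hw] at h2
    exact absurd h2 (lt_irrefl _)
  · have h1 : B.nu ((γ : N) - 1) < 1 := by
      have h3 := (pv_lt (N := N) B.prime_a).2 h
      have e : ((γ - 1 : 𝓞 N) : N) = (γ : N) - 1 := by push_cast; ring
      rwa [e] at h3
    have e : w - 1 = ((γ : N) - 1) - ((γ : N) - w) := by ring
    rw [e]
    exact Valuation.map_sub_lt _ h1 hγ'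

theorem sq_iff_r {x : 𝓞 N} (h : ¬ B.a ∣ x) : Sq B.nu (x : N) ↔ B.r x = 1 := by
  have h3 : B.r x = 1 ↔ B.nu ((x : N) - 1) ≤ exp (-3) := by
    have e : ((x - 1 : 𝓞 N) : N) = (x : N) - 1 := by push_cast; ring
    have h4 := pv_le_pow (N := N) (x := x - 1) B.prime_a 3
    rw [e, ← B.r_eq_zero, RingHom.map_sub, RingHom.map_one, sub_eq_zero] at h4
    exact h4.symm
  rw [h3]
  exact ⟨fun h5 => le_of_sq B.nu_two B.res (B.nu_O h) h5, fun h5 => sq_of_le B.nu_two h5⟩

/-- a unit at `a` -/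
theorem sq_unit_cases {x : 𝓞 N} (h : ¬ B.a ∣ x) :
    B.r x = 1 ∨ B.r x = 3 ∨ B.r x = 5 ∨ B.r x = 7 := by
  rw [B.a_dvd] at h
  revert h
  generalize B.r x = t
  revert t
  decide

theorem nu_b4 : B.symm.nu ((B.b : N) ^ 4) = exp (-4) := by
  have h : B.symm.nu (B.b : N) = exp (-1) := B.symm.nu_a
  rw [map_pow, h, exp_pow]
  rfl

theorem nu_a4 : B.nu ((B.a : N) ^ 4) = exp (-4) := by
  rw [map_pow, nu_a, exp_pow]
  rfl

theorem a4_add_b4 : (B.a : N) ^ 4 + (B.b : N) ^ 4 = 1 := by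
  have h : B.a ^ 4 + B.b ^ 4 = 1 := by
    unfold b
    linear_combination (2 * B.a ^ 2 - 2 * B.a) * B.rel
  have h1 := congrArg (fun x : 𝓞 N => (x : N)) h
  push_cast at h1
  exact h1

end B7

end

end Pool.Agent.Lib.MP_1a91b9_ntV.C
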