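import Pool.Agent.Lib.MP_1a91b9_ntV.C.Tpt
import Pool.Agent.Lib.MP_1a91b9_ntT.S9.KB
import Pool.Agent.Lib.MP_1a91b9_ntT.S9.MB

/-!
# Full rational 2-torsion, converse of the descent: the cocycle with values in the 2-torsion of a triple
-/

set_option autoImplicit false

namespace Pool.Agent.Lib.MP_1a91b9_ntV.C

open WeierstrassCurve WithZero NumberField IsDedekindDomain
open Pool.Agent.Lib.MP_1a91b9_ntT.S9 (pr pr_comm pr_map pr_add eq_zero_of_pr Pts Gal coc cob trivOver
  shaCoc Sha up actP)
open scoped Classical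

open scoped Pointwise in
private theorem cocy_lc {k : Type*} [Field k] [CharZero k] {X : Type*} (x y : AlgebraicClosure k)
    (F : AlgebraicClosure k → AlgebraicClosure k → X) :
    IsLocallyConstant fun σ : Gal k => F (σ x) (σ y) := by
  rw [IsLocallyConstant.iff_exists_open]
  intro σ
  have hx : IsIntegral k x := (Algebra.IsAlgebraic.isAlgebraic x).isIntegral
  have hy : IsIntegral k y := (Algebra.IsAlgebraic.isAlgebraic y).isIntegral
  let M : IntermediateField k (AlgebraicClosure k) := IntermediateField.adjoin k {x, y}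
  have hM : FiniteDimensional k M :=
    IntermediateField.finiteDimensional_adjoin (by
      rintro z (rfl | hz)
      · exact hx
      · rw [Set.mem_singleton_iff] at hz
        exact hz ▸ hy)
  have hxM : x ∈ M := IntermediateField.subset_adjoin k _ (by simp)
  have hyM : y ∈ M := IntermediateField.subset_adjoin k _ (by simp)
  refine ⟨σ • (M.fixingSubgroup : Set (Gal k)),
    (IntermediateField.fixingSubgroup_isOpen M).smul σ,
    ⟨1, one_mem _, by simp⟩, ?_⟩
  rintro _ ⟨τ, hτ, rfl⟩
  have hτ' : ∀ z ∈ M, τ z = z := (IntermediateField.mem_fixingSubgroup_iff M τ).1 hτ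
  have e1 : (σ • τ : Gal k) x = σ x := congrArg σ (hτ' x hxM)
  have e2 : (σ • τ : Gal k) y = σ y := congrArg σ (hτ' y hyM)
  show F ((σ • τ : Gal k) x) ((σ • τ : Gal k) y) = F (σ x) (σ y)
  rw [e1, e2]

/-- the point with given signs -/
private noncomputable def ptOf {k : Type*} [Field k] [CharZero k] {e : Fin 3 → k}
    (he : Function.Injective e) (P0 P1 : Prop) : Pts (cw e) (AlgebraicClosure k) :=
  if P0 then (if P1 then 0 else tpt he (AlgebraicClosure k) 0)
  else (if P1 then tpt he (AlgebraicClosure k) 1 else tpt he (AlgebraicClosure k) 2)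

private theorem ptOf_two {k : Type*} [Field k] [CharZero k] {e : Fin 3 → k}
    (he : Function.Injective e) (P0 P1 : Prop) : ptOf he P0 P1 + ptOf he P0 P1 = 0 := by
  unfold ptOf
  split_ifs
  · exact add_zero 0
  · exact tpt_two he _
  · exact tpt_two he _
  · exact tpt_two he _

private theorem ptOf_pr {k : Type*} [Field k] [CharZero k] {e : Fin 3 → k}
    (he : Function.Injective e) (P0 P1 : Prop) :
    pr (ptOf he P0 P1) (tpt he (AlgebraicClosure k) 0) = (if P0 then 1 else -1) ∧
    pr (ptOf he P0 P1) (tpt he (AlgebraicClosure k) 1) = (if P1 then 1 else -1) := by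
  have h0 : ∀ i, pr (0 : Pts (cw e) (AlgebraicClosure k)) (tpt he (AlgebraicClosure k) i) = 1 :=
    fun i => if_pos (Or.inl rfl)
  unfold ptOf
  split_ifs with h1 h2
  · exact ⟨h0 0, h0 1⟩
  · rw [pr_tpt, pr_tpt]
    exact ⟨if_pos rfl, if_neg (by decide)⟩
  · rw [pr_tpt, pr_tpt]
    exact ⟨if_neg (by decide), if_pos rfl⟩
  · rw [pr_tpt, pr_tpt]
    exact ⟨if_neg (by decide), if_neg (by decide)⟩

private theorem sgn_of {k : Type*} [Field k] [CharZero k] (a : k) (b : AlgebraicClosure k)
    (hab : algebraMap k (AlgebraicClosure k) a = b ^ 2) (σ : Gal k) : σ b = b ∨ σ b = -b := by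
  refine sq_eq_sq_iff_eq_or_eq_neg.1 ?_
  rw [← map_pow, ← hab]
  exact σ.commutes a

private theorem ptOf_act {k : Type*} [Field k] [CharZero k] (a : k) (b : AlgebraicClosure k)
    (hab : algebraMap k (AlgebraicClosure k) a = b ^ 2) (σ : Gal k) :
    σ b = ((((if σ b = b then 1 else -1 : ℤˣ) : ℤˣ) : ℤ) : AlgebraicClosure k) * b := by
  split_ifs with h
  · rw [h]
    simp
  · rcases sgn_of a b hab σ with h1 | h1
    · exact absurd h1 h
    · rw [h1]
      simp

private theorem sgn_mul {k : Type*} [Field k] [CharZero k] (a : k) (b : AlgebraicClosure k)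
    (hb : b ≠ 0) (hab : algebraMap k (AlgebraicClosure k) a = b ^ 2) (σ τ : Gal k) :
    (if (σ * τ) b = b then (1 : ℤˣ) else -1) =
      (if σ b = b then 1 else -1) * (if τ b = b then 1 else -1) := by
  have h1 : (σ * τ) b = σ (τ b) := rfl
  have hne : -b ≠ b := fun h => by
    have h2 : 2 * b = 0 := by linear_combination -h
    rcases mul_eq_zero.1 h2 with h3 | h3
    · exact two_ne_zero h3
    · exact hb h3
  rw [h1]
  rcases sgn_of a b hab σ with hs | hs <;> rcases sgn_of a b hab τ with ht | ht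
  · rw [ht, hs, if_pos rfl, mul_one]
  · rw [ht, map_neg, hs, if_neg hne, if_pos rfl, one_mul]
  · rw [ht, hs, if_neg hne, if_pos rfl, mul_one]
  · rw [ht, map_neg, hs, neg_neg, if_pos rfl, if_neg hne]
    decide

theorem exists_cocycle {k : Type*} [Field k] [CharZero k] {e : Fin 3 → k}
    (he : Function.Injective e) (a : Fin 3 → k) (ha : ∀ i, a i ≠ 0)
    (hp : IsSquare (a 0 * a 1 * a 2)) :
    ∃ (c : Gal k → Pts (cw e) (AlgebraicClosure k)) (b : Fin 3 → AlgebraicClosure k),
      c ∈ coc (cw e) ∧ (∀ σ, c σ + c σ = 0) ∧ KData he c a b := by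
  have hb : ∀ i, ∃ b : AlgebraicClosure k, b ^ 2 = algebraMap k (AlgebraicClosure k) (a i) := fun i =>
    IsAlgClosed.exists_pow_nat_eq _ (by norm_num)
  choose b hb using hb
  have hb0 : ∀ i, b i ≠ 0 := fun i h => by
    have h1 := hb i
    rw [h] at h1
    apply ha i
    have h2 : algebraMap k (AlgebraicClosure k) (a i) = 0 := by
      rw [← h1]
      norm_num
    rwa [map_eq_zero] at h2
  obtain ⟨β, hβ⟩ := hp
  have hprod : b 0 * b 1 * b 2 = algebraMap k (AlgebraicClosure k) β ∨
      b 0 * b 1 * b 2 = -algebraMap k (AlgebraicClosure k) β := by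
    refine sq_eq_sq_iff_eq_or_eq_neg.1 ?_
    rw [mul_pow, mul_pow, hb, hb, hb, ← map_mul, ← map_mul, hβ, map_mul, sq]
  have hfix : ∀ σ : Gal k, σ (b 0 * b 1 * b 2) = b 0 * b 1 * b 2 := by
    intro σ
    rcases hprod with h | h
    · rw [h]
      exact σ.commutes β
    · rw [h, map_neg]
      exact congrArg _ (σ.commutes β)
  set c : Gal k → Pts (cw e) (AlgebraicClosure k) := fun σ =>
    ptOf he (σ (b 0) = b 0) (σ (b 1) = b 1) with hc
  have hc2 : ∀ σ, c σ + c σ = 0 := fun σ => ptOf_two he _ _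
  have hact : ∀ (σ : Gal k) (i : Fin 3),
      pr (c σ) (tpt he (AlgebraicClosure k) i) = (if σ (b i) = b i then 1 else -1) := by
    intro σ i
    have e0 := (ptOf_pr he (σ (b 0) = b 0) (σ (b 1) = b 1)).1
    have e1 := (ptOf_pr he (σ (b 0) = b 0) (σ (b 1) = b 1)).2
    have e3 := pr_prod he (c σ) (hc2 σ)
    fin_cases i
    · exact e0
    · exact e1
    · have hf := hfix σ
      have a0 := ptOf_act (a 0) (b 0) (hb 0).symm σ
      have a1 := ptOf_act (a 1) (b 1) (hb 1).symm σ
      have a2 := ptOf_act (a 2) (b 2) (hb 2).symm σ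
      rw [map_mul, map_mul, a0, a1, a2] at hf
      have hne : b 0 * b 1 * b 2 ≠ 0 := mul_ne_zero (mul_ne_zero (hb0 0) (hb0 1)) (hb0 2)
      have e0' : pr (c σ) (tpt he (AlgebraicClosure k) 0) = (if σ (b 0) = b 0 then 1 else -1) := e0
      have e1' : pr (c σ) (tpt he (AlgebraicClosure k) 1) = (if σ (b 1) = b 1 then 1 else -1) := e1
      rw [e0', e1'] at e3
      show pr (c σ) (tpt he (AlgebraicClosure k) 2) = (if σ (b 2) = b 2 then 1 else -1)
      revert e3 hf
      generalize pr (c σ) (tpt he (AlgebraicClosure k) 2) = u2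
      generalize (if σ (b 0) = b 0 then (1 : ℤˣ) else -1) = u0
      generalize (if σ (b 1) = b 1 then (1 : ℤˣ) else -1) = u1
      generalize (if σ (b 2) = b 2 then (1 : ℤˣ) else -1) = u3
      intro e3 hf
      have hz0 : (((u0 * u1 * u3 : ℤˣ) : ℤ) : AlgebraicClosure k) = 1 := by
        have h1 : ((((u0 * u1 * u3 : ℤˣ) : ℤ) : AlgebraicClosure k) - 1) * (b 0 * b 1 * b 2) = 0 := by
          push_cast
          linear_combination hf
        rcases mul_eq_zero.1 h1 with h | h
        · exact sub_eq_zero.1 h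
        · exact absurd h hne
      have hz1 : u0 * u1 * u3 = 1 := by
        rcases Int.units_eq_one_or (u0 * u1 * u3) with h | h
        · exact h
        · rw [h] at hz0
          exfalso
          have h2 : (2 : AlgebraicClosure k) = 0 := by
            simp only [Units.val_neg, Units.val_one, Int.cast_neg, Int.cast_one] at hz0
            linear_combination -hz0
          exact two_ne_zero h2
      exact mul_left_cancel (e3.trans hz1.symm)
  have hk : KData he c a b := by
    refine ⟨hb0, fun i => (hb i).symm, fun i σ => ?_⟩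
    rw [hact σ i]
    exact ptOf_act (a i) (b i) (hb i).symm σ
  refine ⟨c, b, ⟨?_, fun σ τ => ?_⟩, hc2, hk⟩
  · exact cocy_lc (b 0) (b 1) fun x y => ptOf he (x = b 0) (y = b 1)
  · have hτ : Affine.Point.map (σ : AlgebraicClosure k →ₐ[k] AlgebraicClosure k) (c τ) = c τ := by
      rcases tpt_all he (c τ) (hc2 τ) with h | ⟨i, h⟩
      · rw [h, map_zero]
      · rw [h]
        exact tpt_map he (σ : AlgebraicClosure k →ₐ[k] AlgebraicClosure k) i
    rw [hτ]
    refine pr_ext he _ _ (hc2 _) ?_ 0 fun i _ => ?_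
    · rw [add_add_add_comm, hc2, hc2, add_zero]
    · rw [pr_add_tpt he _ _ (hc2 σ) (hc2 τ), hact, hact, hact]
      exact sgn_mul (a i) (b i) (hb0 i) (hb i).symm σ τ

end Pool.Agent.Lib.MP_1a91b9_ntV.C
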