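import Pool.Agent.Lib.MP_1a91b9_ntV.C.Tpt
import Pool.Agent.Lib.MP_1a91b9_ntT.S5.Heights
import Pool.Agent.Lib.MP_1a91b9_ntT.S9.GD

/-!
# Full rational 2-torsion: if `W(N) = W[2] + 2 W(N)` then `W(N)` is finite

The naive height of `t = x - (e 0 + e 1 + e 2) / 3` satisfies `h(2P) ≥ 4 h(P) - C`; the group `H = 2 W(N)` is
2-divisible, hence finitely generated (descent) and finite, of odd order.
-/

set_option autoImplicit false

namespace Pool.Agent.Lib.MP_1a91b9_ntV.C

open WeierstrassCurve MvPolynomial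

section Heights

variable {N : Type*} [Field N] [NumberField N] {W : Affine N} {e : Fin 3 → N}

/-- naive height -/
private noncomputable def FN_h (s : N) : W.Point → ℝ
  | .zero => 0
  | .some x _ _ => Height.logHeight₁ (x - s)

/-- the abscissa -/
private def FN_x : W.Point → Option N
  | .zero => none
  | .some x _ _ => some x

omit [NumberField N] in
private theorem FN_fiber (o : Option N) : ((FN_x : W.Point → Option N) ⁻¹' {o}).Finite := by
  rcases Set.eq_empty_or_nonempty ((FN_x : W.Point → Option N) ⁻¹' {o}) with h | h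
  · rw [h]
    exact Set.finite_empty
  · obtain ⟨P₀, hP₀⟩ := h
    refine (Set.toFinite {P₀, -P₀}).subset fun P hP => ?_
    have he : FN_x P = FN_x P₀ := hP.trans hP₀.symm
    rcases P with _ | ⟨x, y, hxy⟩
    · rcases P₀ with _ | ⟨x₀, y₀, h₀⟩
      · exact Or.inl rfl
      · simp [FN_x] at he
    · rcases P₀ with _ | ⟨x₀, y₀, h₀⟩
      · simp [FN_x] at he
      · have hx : x = x₀ := by simpa [FN_x] using he
        exact (Affine.Point.X_eq_iff (h₁ := hxy) (h₂ := h₀)).1 hx

private theorem FN_northcott (s : N) : Northcott (FN_h s : W.Point → ℝ) := by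
  refine ⟨fun B => ?_⟩
  have h1 : {x : N | Height.logHeight₁ (x - s) ≤ B}.Finite :=
    (NumberField.finite_setOfPred_logHeight₁_le N B).preimage (f := fun x : N => x - s)
      (fun a _ b _ h => sub_left_injective h)
  have h2 : (insert none (Option.some '' {x : N | Height.logHeight₁ (x - s) ≤ B})).Finite :=
    (h1.image _).insert _
  refine (h2.preimage' (f := (FN_x : W.Point → Option N)) (fun o _ => FN_fiber o)).subset
    fun P hP => ?_
  rcases P with _ | ⟨x, y, hxy⟩
  · exact Set.mem_insert _ _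
  · exact Set.mem_insert_of_mem _ ⟨x, hP, rfl⟩

/-- a cubic form -/
private noncomputable def cub (a b c d : N) : MvPolynomial (Fin 2) N :=
  C a * X 0 ^ 3 + C b * (X 0 ^ 2 * X 1) + C c * (X 0 * X 1 ^ 2) + C d * X 1 ^ 3

omit [NumberField N] in
private theorem cub_hom (a b c d : N) : (cub a b c d).IsHomogeneous 3 :=
  ((((isHomogeneous_X_pow 0 3).C_mul _).add
    (((isHomogeneous_X_pow 0 2).mul (isHomogeneous_X N 1)).C_mul _)).add
    (((isHomogeneous_X N 0).mul (isHomogeneous_X_pow 1 2)).C_mul _)).add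
    ((isHomogeneous_X_pow 1 3).C_mul _)

omit [NumberField N] in
private theorem cub_eval (a b c d t : N) :
    (cub a b c d).eval (![t, 1] : Fin 2 → N) = a * t ^ 3 + b * t ^ 2 + c * t + d := by
  simp [cub]

/-- the cubic coefficients -/
private noncomputable def FN_q (A B Δ : N) (a : Fin 2 × Fin 2) : MvPolynomial (Fin 2) N :=
  (![![cub 1 (-(A ^ 2 * B) / Δ) (A * (3 * A ^ 3 + 22 * B ^ 2) / Δ) (3 * B * (A ^ 3 + 8 * B ^ 2) / Δ),
      cub (A ^ 2 * B / (4 * Δ)) (A * (5 * A ^ 3 + 32 * B ^ 2) / (4 * Δ))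
        (2 * B * (13 * A ^ 3 + 96 * B ^ 2) / (4 * Δ)) (-(3 * A ^ 2 * (A ^ 3 + 8 * B ^ 2)) / (4 * Δ))],
    ![cub 0 (3 / Δ) 0 (4 * A / Δ), cub (-3 / (4 * Δ)) 0 (5 * A / (4 * Δ)) (27 * B / (4 * Δ))]] :
      Fin 2 → Fin 2 → MvPolynomial (Fin 2) N) a.1 a.2

omit [NumberField N] in
private theorem FN_q_hom (A B Δ : N) (a : Fin 2 × Fin 2) : (FN_q A B Δ a).IsHomogeneous 3 := by
  obtain ⟨i, j⟩ := a
  fin_cases i <;> fin_cases j
  · exact cub_hom _ _ _ _
  · exact cub_hom _ _ _ _
  · exact cub_hom _ _ _ _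
  · exact cub_hom _ _ _ _

private theorem FN_quot {A B : N} (hΔ : 4 * A ^ 3 + 27 * B ^ 2 ≠ 0) : ∃ C₁ : ℝ, ∀ t : N,
    C₁ + 4 * Height.logHeight₁ t ≤
      Height.logHeight₁ ((t ^ 4 - 2 * A * t ^ 2 - 8 * B * t + A ^ 2) /
        (4 * t ^ 3 + 4 * A * t + 4 * B)) := by
  obtain ⟨C₁, hC⟩ := Height.logHeight_eval_ge' (K := N) (M := 3) (N := 4)
    (FN_q_hom A B (4 * A ^ 3 + 27 * B ^ 2))
  refine ⟨C₁, fun t => ?_⟩
  obtain ⟨Δ, hD⟩ : ∃ Δ : N, Δ = 4 * A ^ 3 + 27 * B ^ 2 := ⟨_, rfl⟩
  rw [← hD] at hΔ hC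
  have h4 : (4 : N) ≠ 0 := by norm_num
  have h1 := hC (fun j => C ((![t ^ 4 - 2 * A * t ^ 2 - 8 * B * t + A ^ 2,
    4 * t ^ 3 + 4 * A * t + 4 * B] : Fin 2 → N) j)) (x := ![t, 1]) (by
    intro k
    fin_cases k
    · simp only [FN_q, Fin.sum_univ_two, eval_C]
      show (cub _ _ _ _).eval (![t, 1] : Fin 2 → N) * _ + (cub _ _ _ _).eval (![t, 1] : Fin 2 → N) * _ =
        t ^ 7
      rw [cub_eval, cub_eval]
      show _ * (t ^ 4 - 2 * A * t ^ 2 - 8 * B * t + A ^ 2) + _ * (4 * t ^ 3 + 4 * A * t + 4 * B) = t ^ 7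
      field_simp
      rw [hD]
      ring
    · simp only [FN_q, Fin.sum_univ_two, eval_C]
      show (cub _ _ _ _).eval (![t, 1] : Fin 2 → N) * _ + (cub _ _ _ _).eval (![t, 1] : Fin 2 → N) * _ =
        1 ^ 7
      rw [cub_eval, cub_eval]
      show _ * (t ^ 4 - 2 * A * t ^ 2 - 8 * B * t + A ^ 2) + _ * (4 * t ^ 3 + 4 * A * t + 4 * B) = 1 ^ 7
      field_simp
      rw [hD]
      ring)
  rw [Height.logHeight₁_div_eq_logHeight, Height.logHeight₁_eq_logHeight]
  have h2 : (fun j => (C ((![t ^ 4 - 2 * A * t ^ 2 - 8 * B * t + A ^ 2,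
      4 * t ^ 3 + 4 * A * t + 4 * B] : Fin 2 → N) j) :
      MvPolynomial (Fin 2) N).eval ![t, 1]) = ![t ^ 4 - 2 * A * t ^ 2 - 8 * B * t + A ^ 2,
        4 * t ^ 3 + 4 * A * t + 4 * B] := by
    funext j
    rw [eval_C]
  rw [h2] at h1
  exact_mod_cast h1

private theorem FN_dbl [DecidableEq N] (he : Function.Injective e) (hW : W = cw e) :
    ∃ c : ℝ, 0 ≤ c ∧ ∀ P : W.Point,
      4 * FN_h ((e 0 + e 1 + e 2) / 3) P - c ≤ FN_h ((e 0 + e 1 + e 2) / 3) (P + P) := by
  obtain ⟨s, hs⟩ : ∃ s : N, s = (e 0 + e 1 + e 2) / 3 := ⟨_, rfl⟩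
  rw [← hs]
  have hs3 : e 0 + e 1 + e 2 = 3 * s := by
    rw [hs]
    field_simp
  obtain ⟨A, hA⟩ : ∃ A : N, A = (e 0 - s) * (e 1 - s) + (e 0 - s) * (e 2 - s) +
    (e 1 - s) * (e 2 - s) := ⟨_, rfl⟩
  obtain ⟨B, hB⟩ : ∃ B : N, B = -((e 0 - s) * (e 1 - s) * (e 2 - s)) := ⟨_, rfl⟩
  have h01 : e 0 - e 1 ≠ 0 := sub_ne_zero.2 fun h => absurd (he h) (by decide)
  have h02 : e 0 - e 2 ≠ 0 := sub_ne_zero.2 fun h => absurd (he h) (by decide)
  have h12 : e 1 - e 2 ≠ 0 := sub_ne_zero.2 fun h => absurd (he h) (by decide)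
  have hΔ : 4 * A ^ 3 + 27 * B ^ 2 ≠ 0 := by
    have e2 : e 2 = 3 * s - e 0 - e 1 := by linear_combination hs3
    have h1 : 4 * A ^ 3 + 27 * B ^ 2 = -((e 0 - e 1) * (e 0 - e 2) * (e 1 - e 2)) ^ 2 := by
      rw [hA, hB, e2]
      ring
    rw [h1]
    exact neg_ne_zero.2 (pow_ne_zero 2 (mul_ne_zero (mul_ne_zero h01 h02) h12))
  obtain ⟨C₁, hC⟩ := FN_quot hΔ
  obtain ⟨M, hM⟩ : ∃ M : ℝ, M = 4 * (Height.logHeight₁ (e 0 - s) + Height.logHeight₁ (e 1 - s) +
    Height.logHeight₁ (e 2 - s)) := ⟨_, rfl⟩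
  refine ⟨max 0 (max (-C₁) M), le_max_left _ _, fun P => ?_⟩
  have hm0 : (0 : ℝ) ≤ max 0 (max (-C₁) M) := le_max_left _ _
  have hm1 : -C₁ ≤ max 0 (max (-C₁) M) := (le_max_left _ _).trans (le_max_right _ _)
  have hm2 : M ≤ max 0 (max (-C₁) M) := (le_max_right _ _).trans (le_max_right _ _)
  have hn : ∀ i, 4 * Height.logHeight₁ (e i - s) ≤ M := by
    intro i
    have g0 := Height.zero_le_logHeight₁ (e 0 - s)
    have g1 := Height.zero_le_logHeight₁ (e 1 - s)
    have g2 := Height.zero_le_logHeight₁ (e 2 - s)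
    rw [hM]
    fin_cases i
    · show 4 * Height.logHeight₁ (e 0 - s) ≤ _
      linarith
    · show 4 * Height.logHeight₁ (e 1 - s) ≤ _
      linarith
    · show 4 * Height.logHeight₁ (e 2 - s) ≤ _
      linarith
  rcases P with _ | ⟨x, y, hxy⟩
  · have h0 : (Affine.Point.zero + Affine.Point.zero : W.Point) = Affine.Point.zero :=
      add_zero (0 : W.Point)
    rw [h0]
    change 4 * (0 : ℝ) - _ ≤ 0
    linarith
  · have heq : y ^ 2 = (x - e 0) * (x - e 1) * (x - e 2) := (eqn_iff hW x y).1 hxy.1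
    have hneg : W.negY x y = -y := negY_eq hW x y
    by_cases hy : y = W.negY x y
    · rw [Affine.Point.add_self_of_Y_eq hy]
      change 4 * Height.logHeight₁ (x - s) - _ ≤ 0
      have h2 : y = 0 := by
        rw [hneg] at hy
        have h3 : 2 * y = 0 := by linear_combination hy
        exact (mul_eq_zero.1 h3).resolve_left two_ne_zero
      rw [h2] at heq
      obtain ⟨i, hi⟩ := (root_iff (e := e) x).1 (by rw [← heq]; ring)
      have h4 := hn i
      rw [hi]
      linarith
    · rw [Affine.Point.add_self_of_Y_ne hy]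
      change 4 * Height.logHeight₁ (x - s) - _ ≤
        Height.logHeight₁ (W.addX x x (W.slope x x y y) - s)
      have h2 : y ≠ 0 := by
        intro h
        apply hy
        rw [hneg, h, neg_zero]
      obtain ⟨t, ht⟩ : ∃ t : N, t = x - s := ⟨_, rfl⟩
      have hx : x = t + s := by rw [ht]; ring
      have hyt : y ^ 2 = t ^ 3 + A * t + B := by
        rw [heq, hx, hA, hB]
        linear_combination -(t ^ 2) * hs3
      have h3 : W.addX x x (W.slope x x y y) - s =
          (t ^ 4 - 2 * A * t ^ 2 - 8 * B * t + A ^ 2) / (4 * t ^ 3 + 4 * A * t + 4 * B) := by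
        have h6 : W.slope x x y y = (3 * t ^ 2 + A) / (2 * y) := by
          rw [Affine.slope_of_Y_ne rfl hy, hneg, cw_a₁ hW, cw_a₂ hW, cw_a₄ hW]
          have e1 : y - -y = 2 * y := by ring
          rw [e1]
          congr 1
          rw [hx, hA]
          linear_combination (-2 * t) * hs3
        have h5 : 4 * t ^ 3 + 4 * A * t + 4 * B = 4 * y ^ 2 := by
          rw [hyt]
          ring
        rw [h6, Affine.addX, h5, cw_a₁ hW, cw_a₂ hW, hs3, hx]
        field_simp
        linear_combination (-32 * t) * hyt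
      rw [h3, ← ht]
      have h4 := hC t
      linarith

/-- a 2-divisible subgroup is finite -/
theorem finite_sub_of_div [DecidableEq N] (he : Function.Injective e) (hW : W = cw e)
    (H : AddSubgroup W.Point) (h : ∀ P : H, ∃ Q : H, Q + Q = P) : Finite H := by
  obtain ⟨c, hc0, hc⟩ := FN_dbl he hW
  obtain ⟨s, hs⟩ : ∃ s : N, s = (e 0 + e 1 + e 2) / 3 := ⟨_, rfl⟩
  rw [← hs] at hc
  have hN : Northcott (fun P : H => FN_h s (P : W.Point)) := by
    refine ⟨fun B => ?_⟩
    have h1 : {P : W.Point | FN_h s P ≤ B}.Finite := (FN_northcott (W := W) s).finite_le B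
    exact h1.preimage Subtype.val_injective.injOn
  let f : H →+ H :=
    { toFun := fun P => P + P
      map_zero' := add_zero 0
      map_add' := fun P Q => by abel }
  refine MP_1a91b9_ntT.S5.finite_of_fg_of_div (AddGroup.fg_of_descent (f := f) (s := {0})
    (h := fun P : H => FN_h s (P : W.Point)) (a := 1)
    (b := 4) (c := c) ?_ (by norm_num) (by norm_num) (Set.finite_singleton _) ?_ ?_ ?_) h
  · rintro U _ ⟨P, hP, rfl⟩
    exact U.add_mem hP hP
  · rw [Set.eq_univ_iff_forall]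
    intro P
    obtain ⟨Q, hQ⟩ := h P
    exact Set.mem_add.2 ⟨0, rfl, P, ⟨Q, hQ⟩, zero_add P⟩
  · rintro g rfl P
    rw [zero_add, one_mul]
    linarith
  · intro P
    exact hc P

omit [NumberField N] in
/-- the points of order dividing two -/
theorem two_zero_iff [CharZero N] [DecidableEq N] (he : Function.Injective e) (hW : W = cw e)
    (T : W.Point) : T + T = 0 ↔ T = 0 ∨ ∃ i : Fin 3, T = tp he hW i := by
  constructor
  · intro h
    rcases T with _ | ⟨x, y, hxy⟩
    · exact Or.inl rfl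
    · right
      have heq : y ^ 2 = (x - e 0) * (x - e 1) * (x - e 2) := (eqn_iff hW x y).1 hxy.1
      have h1 : (Affine.Point.some x y hxy : W.Point) = -Affine.Point.some x y hxy :=
        eq_neg_of_add_eq_zero_left h
      rw [Affine.Point.neg_some] at h1
      have h2 : y = W.negY x y := (Affine.Point.some.inj h1).2
      rw [negY_eq hW] at h2
      have h3 : y = 0 := by
        have h4 : 2 * y = 0 := by linear_combination h2
        exact (mul_eq_zero.1 h4).resolve_left two_ne_zero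
      rw [h3] at heq
      obtain ⟨i, hi⟩ := (root_iff (e := e) x).1 (by rw [← heq]; ring)
      refine ⟨i, ?_⟩
      rw [tp, Affine.Point.some.injEq]
      exact ⟨hi, h3⟩
  · rintro (rfl | ⟨i, rfl⟩)
    · exact add_zero 0
    · rw [tp]
      exact Affine.Point.add_self_of_Y_eq (by rw [negY_eq hW, neg_zero])

/-- doubling -/
private def FN_f [DecidableEq N] : W.Point →+ W.Point where
  toFun := fun P => P + P
  map_zero' := add_zero 0
  map_add' := fun P Q => by abel

omit [NumberField N] in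
private theorem FN_range_div [DecidableEq N]
    (h : ∀ P : W.Point, ∃ T Q : W.Point, T + T = 0 ∧ P = T + (Q + Q))
    (P : (FN_f (W := W)).range) : ∃ Q : (FN_f (W := W)).range, Q + Q = P := by
  obtain ⟨_, R, rfl⟩ := P
  obtain ⟨T, Q, hT, hR⟩ := h R
  refine ⟨⟨Q + Q, Q, rfl⟩, ?_⟩
  apply Subtype.ext
  change Q + Q + (Q + Q) = R + R
  calc Q + Q + (Q + Q) = (T + T) + (Q + Q + (Q + Q)) := by rw [hT, zero_add]
    _ = R + R := by rw [hR]; abel

omit [NumberField N] in
private theorem FN_ker_set [CharZero N] [DecidableEq N] (he : Function.Injective e) (hW : W = cw e) :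
    ((FN_f (W := W)).ker : Set W.Point) =
      {0, tp he hW 0, tp he hW 1, tp he hW 2} := by
  ext P
  change P + P = 0 ↔ _
  rw [two_zero_iff he hW]
  simp only [Set.mem_insert_iff, Set.mem_singleton_iff]
  constructor
  · rintro (h | ⟨i, h⟩)
    · exact Or.inl h
    · fin_cases i
      · exact Or.inr (Or.inl h)
      · exact Or.inr (Or.inr (Or.inl h))
      · exact Or.inr (Or.inr (Or.inr h))
  · rintro (h | h | h | h)
    · exact Or.inl h
    · exact Or.inr ⟨0, h⟩
    · exact Or.inr ⟨1, h⟩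
    · exact Or.inr ⟨2, h⟩

omit [NumberField N] in
private theorem FN_ker_finite [CharZero N] [DecidableEq N] (he : Function.Injective e)
    (hW : W = cw e) : Finite (FN_f (W := W)).ker := by
  have h : ((FN_f (W := W)).ker : Set W.Point).Finite := by
    rw [FN_ker_set he hW]
    exact Set.toFinite _
  exact h.to_subtype

/-- If every point is twice a point up to a point of order dividing two, then there are only
finitely many points. -/
theorem fin_of_half [DecidableEq N] (he : Function.Injective e) (hW : W = cw e)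
    (h : ∀ P : W.Point, ∃ T Q : W.Point, T + T = 0 ∧ P = T + (Q + Q)) : Finite W.Point := by
  have h1 : Finite (FN_f (W := W)).range := finite_sub_of_div he hW _ (FN_range_div h)
  have h2 : Finite (FN_f (W := W)).ker := FN_ker_finite he hW
  have h3 : Finite (W.Point ⧸ (FN_f (W := W)).ker) :=
    Finite.of_equiv _ (QuotientAddGroup.quotientKerEquivRange (FN_f (W := W))).symm.toEquiv
  exact Finite.of_equiv _ (AddSubgroup.addGroupEquivQuotientProdAddSubgroup
    (s := (FN_f (W := W)).ker)).symm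

omit [NumberField N] in
private theorem FN_ker_card [CharZero N] [DecidableEq N] (he : Function.Injective e)
    (hW : W = cw e) : Nat.card (FN_f (W := W)).ker = 4 := by
  have hne : ∀ i j : Fin 3, i ≠ j → tp he hW i ≠ tp he hW j := by
    intro i j hij h
    exact hij ((tp_inj he hW i j).1 h)
  have h0 : ∀ i : Fin 3, (0 : W.Point) ≠ tp he hW i := fun i h => tp_ne he hW i h.symm
  change Nat.card ((FN_f (W := W)).ker : Set W.Point) = 4
  rw [FN_ker_set he hW, Nat.card_coe_set_eq, Set.ncard_insert_of_notMem, Set.ncard_insert_of_notMem,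
    Set.ncard_pair (hne 1 2 (by decide))]
  · simp only [Set.mem_insert_iff, Set.mem_singleton_iff, not_or]
    exact ⟨hne 0 1 (by decide), hne 0 2 (by decide)⟩
  · simp only [Set.mem_insert_iff, Set.mem_singleton_iff, not_or]
    exact ⟨h0 0, h0 1, h0 2⟩

/-- The number of points is four times an odd number. -/
theorem card_of_half [DecidableEq N] (he : Function.Injective e) (hW : W = cw e)
    (h : ∀ P : W.Point, ∃ T Q : W.Point, T + T = 0 ∧ P = T + (Q + Q)) :
    ∃ m : ℕ, Odd m ∧ Nat.card W.Point = 4 * m := by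
  have h1 : Finite (FN_f (W := W)).range := finite_sub_of_div he hW _ (FN_range_div h)
  refine ⟨Nat.card (FN_f (W := W)).range,
    MP_1a91b9_ntT.S9.odd_card_of_div (FN_range_div h), ?_⟩
  rw [AddSubgroup.card_eq_card_quotient_mul_card_addSubgroup (FN_f (W := W)).ker,
    FN_ker_card he hW, mul_comm,
    Nat.card_congr (QuotientAddGroup.quotientKerEquivRange (FN_f (W := W))).toEquiv]

end Heights

end Pool.Agent.Lib.MP_1a91b9_ntV.C
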