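import Pool.Agent.Lib.MP_1a91b9_ntS.C.Hs
import Pool.Agent.Lib.MP_1a91b9_ntV.C.Cocy
import Pool.Agent.Lib.MP_1a91b9_ntV.C.Triv
import Pool.Agent.Lib.MP_1a91b9_ntV.C.Dens
import Pool.Agent.Lib.MP_1a91b9_ntV.C.Fin

/-!
# Full rational 2-torsion, converse of the descent: a locally trivial triple which is not trivial gives a
point of infinite order or a nonzero class in the 2-primary part of the Tate-Shafarevich group
-/

set_option autoImplicit false

namespace Pool.Agent.Lib.MP_1a91b9_ntV.C

open WeierstrassCurve WithZero NumberField IsDedekindDomain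
open Pool.Agent.Lib.MP_1a91b9_ntH.C (Sq)
open Pool.Agent.Lib.MP_1a91b9_ntS.C (isSquare_of_Sq)
open Pool.Agent.Lib.MP_1a91b9_ntT3.S9 (ShaP)
open Pool.Agent.Lib.MP_1a91b9_ntT.S9 (pr pr_comm pr_map pr_add eq_zero_of_pr Pts Gal coc cob trivOver
  shaCoc Sha up actP)
open scoped Classical

private theorem conv_sfn_map {k F F' : Type*} [Field k] [Field F] [Field F'] [Algebra k F]
    [Algebra k F'] (W : WeierstrassCurve k) (e : Fin 3 → k) (f : F →ₐ[k] F') (i : Fin 3)
    (P : Pts W F) :
    sfn (eb F' e) i (Affine.Point.map (W' := W) f P) = f (sfn (eb F e) i P) := by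
  cases P with
  | zero => exact (map_zero f).symm
  | some X Y h =>
    rw [Affine.Point.map_some]
    have hc : ∀ j, f (eb F e j) = eb F' e j := fun j => f.commutes _
    show ((f X - eb F' e i) ^ 2 - der (eb F' e) i) / (2 * f Y) =
      f (((X - eb F e i) ^ 2 - der (eb F e) i) / (2 * Y))
    simp only [der, map_div₀, map_sub, map_mul, map_pow, map_add, map_ofNat, hc]

private theorem conv_unit_sq {F : Type*} [Field F] (u : ℤˣ) :
    ((u : ℤ) : F) * ((u : ℤ) : F) = 1 := by
  rcases Int.units_eq_one_or u with h | h <;> simp [h]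

section

variable {k : Type*} [Field k] [CharZero k] {e : Fin 3 → k} (he : Function.Injective e)
    (c : Gal k → Pts (cw e) (AlgebraicClosure k))
    (h2 : ∀ σ, c σ + c σ = 0) (a : Fin 3 → k) (b : Fin 3 → AlgebraicClosure k)
    (hk : KData he c a b)

include hk

/-- the coboundary of a point of order two is zero -/
theorem sq_of_two (R : Pts (cw e) (AlgebraicClosure k)) (hR : R + R = 0)
    (hc : ∀ σ, c σ = actP (cw e) σ R - R) (i : Fin 3) : IsSquare (a i) := by
  have hfix : ∀ σ : Gal k, σ (b i) = b i := by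
    intro σ
    have hσ : actP (cw e) σ R = R := by
      rcases tpt_all he R hR with h | ⟨i, h⟩
      · rw [h, map_zero]
      · rw [h]
        exact tpt_map he (σ : AlgebraicClosure k →ₐ[k] AlgebraicClosure k) i
    have h4 := hk.act i σ
    rw [hc σ, hσ, sub_self] at h4
    have h5 : pr (0 : Pts (cw e) (AlgebraicClosure k)) (tpt he (AlgebraicClosure k) i) = 1 :=
      if_pos (Or.inl rfl)
    rw [h5] at h4
    rw [h4]
    simp
  obtain ⟨β, hβ⟩ := Pool.Agent.Lib.MP_1a91b9_ntT.S9.fixed_elem (k := k) (b i) hfix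
  refine ⟨β, ?_⟩
  apply (algebraMap k (AlgebraicClosure k)).injective
  rw [map_mul, hβ, hk.sq i, sq]

include h2 in
/-- if the cocycle is the coboundary of a half of `T j`, the triple is the class of `T j` -/
theorem sq_of_tpt (R : Pts (cw e) (AlgebraicClosure k)) (j : Fin 3)
    (hR : R + R = tpt he (AlgebraicClosure k) j)
    (hc : ∀ σ, c σ = actP (cw e) σ R - R) (i : Fin 3) :
    IsSquare (a i * (e j - e i)) := by
  have heA := eb_inj (AlgebraicClosure k) he
  have hne : R + R ≠ 0 := by
    rw [hR]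
    intro h0
    exact Affine.Point.some_ne_zero _ h0
  have hsq := sfn_sq (cw_bc (AlgebraicClosure k) e) i R _ hR
  obtain ⟨w, hw⟩ : ∃ w, w = sfn (eb (AlgebraicClosure k) e) i R := ⟨_, rfl⟩
  rw [← hw] at hsq
  have hfix : ∀ σ : Gal k, σ (b i * w) = b i * w := by
    intro σ
    have hs : σ w =
        (((pr (c σ) (tpt he (AlgebraicClosure k) i) : ℤˣ) : ℤ) :
          AlgebraicClosure k) * w := by
      have h1 := conv_sfn_map (cw e) e (σ : AlgebraicClosure k →ₐ[k] AlgebraicClosure k) i R
      have h4 := sfn_add heA (cw_bc (AlgebraicClosure k) e) i R (c σ) hne (h2 σ)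
      have h5 : R + c σ = actP (cw e) σ R := by rw [hc σ]; abel
      rw [h5] at h4
      have h6 : pr (c σ) (tp heA (cw_bc (AlgebraicClosure k) e) i) =
        pr (c σ) (tpt he (AlgebraicClosure k) i) := rfl
      rw [h6, ← hw] at h4
      rw [← hw] at h1
      rw [← h4]
      exact h1.symm
    rw [map_mul, hs, hk.act i σ]
    have hu := conv_unit_sq (F := AlgebraicClosure k)
      (pr (c σ) (tpt he (AlgebraicClosure k) i))
    linear_combination (b i * w) * hu
  obtain ⟨β, hβ⟩ := Pool.Agent.Lib.MP_1a91b9_ntT.S9.fixed_elem (k := k) _ hfix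
  refine ⟨β, ?_⟩
  apply (algebraMap k (AlgebraicClosure k)).injective
  rw [map_mul (algebraMap k (AlgebraicClosure k)) β β, hβ, map_mul, map_sub, hk.sq i]
  show b i ^ 2 * (eb (AlgebraicClosure k) e j - eb (AlgebraicClosure k) e i) = b i * w * (b i * w)
  rw [← hsq]
  ring

end

/-- a finite abelian group without elements of order four -/
theorem half_of_finite' {A : Type*} [AddCommGroup A] [Finite A] (h4 : ∀ x : A, 4 • x = 0 → 2 • x = 0)
    (P : A) : ∃ T Q : A, T + T = 0 ∧ P = T + (Q + Q) := by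
  obtain ⟨m, n, hn, hm⟩ := Nat.exists_eq_two_pow_mul_odd (n := addOrderOf P)
    (addOrderOf_pos P).ne'
  have h0 : 2 ^ m • (n • P) = 0 := by
    rw [smul_smul, ← hm, addOrderOf_nsmul_eq_zero]
  have key : ∀ j : ℕ, ∀ x : A, 2 ^ j • x = 0 → 2 • x = 0 := by
    intro j
    induction j with
    | zero =>
      intro x hx
      rw [pow_zero, one_smul] at hx
      rw [hx, smul_zero]
    | succ j ih =>
      intro x hx
      have h1 : 2 ^ j • (2 • x) = 0 := by rw [smul_smul, ← pow_succ, hx]
      have h2 := ih _ h1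
      rw [smul_smul] at h2
      exact h4 x h2
  have hT : 2 • (n • P) = 0 := key m _ h0
  obtain ⟨l, hl⟩ := hn
  refine ⟨n • P, -(l • P), by rw [← two_smul ℕ]; exact hT, ?_⟩
  rw [hl, add_smul, one_smul, mul_smul, two_smul]
  abel

section

variable {N : Type*} [Field N] [NumberField N] {e : Fin 3 → N} (he : Function.Injective e)

/-- the local condition makes the cocycle locally trivial -/
theorem triv_of_gloc (c : Gal N → Pts (cw e) (AlgebraicClosure N)) (h2 : ∀ σ, c σ + c σ = 0)
    (a : Fin 3 → N) (b : Fin 3 → AlgebraicClosure N) (hk : KData he c a b)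
    (v : HeightOneSpectrum (𝓞 N)) (h : GLoc (v.valuation N) e a) :
    c ∈ trivOver (cw e) (v.adicCompletion N) := by
  have : CharZero (v.adicCompletion N) :=
    charZero_of_injective_algebraMap (algebraMap N (v.adicCompletion N)).injective
  have hinj := (algebraMap N (v.adicCompletion N)).injective
  have hne : ∀ u : N, Sq (v.valuation N) u → u ≠ 0 := by
    rintro u ⟨b, hb, h⟩ rfl
    rw [zero_div, zero_sub, Valuation.map_neg, map_one] at h
    have h4 : v.valuation N (4 : N) ≤ 1 := by
      have h5 := HeightOneSpectrum.valuation_le_one (K := N) v (4 : 𝓞 N)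
      have h6 : algebraMap (𝓞 N) N 4 = 4 := map_ofNat _ 4
      exact h6 ▸ h5
    exact absurd (h.trans_le h4) (lt_irrefl _)
  rcases h with h | ⟨j, h⟩ | ⟨x, hx, h⟩
  · exact triv_of_sq he c h2 a b hk fun i => isSquare_of_Sq v _ (h i)
  · refine triv_of_pt he c h2 a b hk (eb (v.adicCompletion N) e j) 0
      (by rw [(root_iff (e := eb (v.adicCompletion N) e) _).2 ⟨j, rfl⟩]; ring) j
      (fun i hi h0 => ?_) fun i hi => ?_
    · exact hi (eb_inj _ he h0).symm
    · rw [← map_sub, ← map_mul]
      exact isSquare_of_Sq v _ (h i hi)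
  · obtain ⟨y, hy⟩ := isSquare_of_Sq v _ hx
    refine triv_of_pt he c h2 a b hk (algebraMap N (v.adicCompletion N) x) y ?_ 0
      (fun i _ h0 => ?_) fun i _ => ?_
    · rw [← map_sub, ← map_sub, ← map_sub, ← map_mul, ← map_mul, hy, sq]
    · apply hne _ hx
      exact (root_iff x).2 ⟨i, hinj h0⟩
    · rw [← map_sub, ← map_mul]
      exact isSquare_of_Sq v _ (h i)

omit [NumberField N] in
include he in
private theorem no_four0 [CharZero N] (h4 : ∀ j : Fin 3, ∃ i, i ≠ j ∧ ¬ IsSquare (e j - e i))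
    (x : Pts (cw e) N) (h : 4 • x = 0) : 2 • x = 0 := by
  by_contra hne
  rw [two_smul] at hne
  have h5 : (x + x) + (x + x) = 0 := by
    rw [← h]
    abel
  rcases tpt_all he (x + x) h5 with h0 | ⟨j, hj⟩
  · exact hne h0
  · obtain ⟨i, -, hi⟩ := h4 j
    apply hi
    have hkey : sfn (eb N e) i x ^ 2 = e j - e i := sfn_sq (cw_bc N e) i x _ hj
    exact ⟨_, by rw [← hkey, sq]⟩

include he in
/-- A locally trivial triple which is not trivial: the group of points is infinite, or the 2-primary part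
of the Tate-Shafarevich group is not trivial. -/
theorem conv_sel (h4 : ∀ j : Fin 3, ∃ i, i ≠ j ∧ ¬ IsSquare (e j - e i))
    (hinf : ∀ v : InfinitePlace N, v.IsComplex)
    (a : Fin 3 → N) (ha : ∀ i, a i ≠ 0) (hp : IsSquare (a 0 * a 1 * a 2))
    (hloc : ∀ v : HeightOneSpectrum (𝓞 N), GLoc (v.valuation N) e a)
    (hne : ¬ ((∀ i, IsSquare (a i)) ∨
      ∃ j, ∀ i, i ≠ j → IsSquare (a i * (e j - e i))))
    {W : WeierstrassCurve N} (hW : W = cw e) (hfin : Finite W.toAffine.Point) :
    Nat.card (ShaP 2 W) ≠ 1 := by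
  subst hW
  intro hcard
  obtain ⟨c, b, hc, h2, hk⟩ := exists_cocycle he a ha hp
  have hsha : c ∈ shaCoc (cw e) := by
    refine ⟨⟨hc, ?_⟩, ?_⟩
    · refine AddSubgroup.mem_iInf.2 fun v => triv_of_gloc he c h2 a b hk v (hloc v)
    · refine AddSubgroup.mem_iInf.2 fun v => ?_
      have : CharZero v.Completion :=
        charZero_of_injective_algebraMap (algebraMap N v.Completion).injective
      exact triv_of_sq he c h2 a b hk fun i => by
        let g := InfinitePlace.Completion.ringEquivComplexOfIsComplex (hinf v)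
        obtain ⟨y, hy⟩ := IsAlgClosed.exists_pow_nat_eq (g (algebraMap N v.Completion (a i)))
          (n := 2) (by norm_num)
        refine ⟨g.symm y, g.injective ?_⟩
        rw [map_mul, g.apply_symm_apply, ← hy, sq]
  -- the class is zero
  have hcob : c ∈ cob (cw e) := by
    have hx : ∀ x : AddCommGroup.primaryComponent (Sha (cw e)) 2, x = 0 := by
      intro x
      have h1 := (Nat.card_eq_one_iff_unique.1 hcard).1
      exact Subsingleton.elim _ _
    let y : Sha (cw e) := QuotientAddGroup.mk (⟨c, hsha⟩ : shaCoc (cw e))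
    have hy : 2 ^ 1 • y = 0 := by
      rw [pow_one, two_smul]
      show (QuotientAddGroup.mk ((⟨c, hsha⟩ : shaCoc (cw e)) + ⟨c, hsha⟩) : Sha (cw e)) = 0
      rw [QuotientAddGroup.eq_zero_iff, AddSubgroup.mem_addSubgroupOf]
      refine ⟨0, fun σ => ?_⟩
      rw [map_zero, sub_zero]
      exact h2 σ
    have h3 := congrArg Subtype.val (hx ⟨y, 1, hy⟩)
    have h5 : (QuotientAddGroup.mk (⟨c, hsha⟩ : shaCoc (cw e)) : Sha (cw e)) = 0 := h3
    rw [QuotientAddGroup.eq_zero_iff, AddSubgroup.mem_addSubgroupOf] at h5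
    exact h5
  obtain ⟨R, hR⟩ := hcob
  have hR' : ∀ σ, c σ = actP (cw e) σ R - R := hR
  -- the point `R + R` comes from `N`
  obtain ⟨P, hP⟩ := Pool.Agent.Lib.MP_1a91b9_ntT.S9.fixed_pt (L := N) (cw e) (R + R) fun σ => by
    have h1 : Affine.Point.map ((σ : AlgebraicClosure N →ₐ[N] AlgebraicClosure N).restrictScalars N)
        (R + R) = actP (cw e) σ (R + R) := rfl
    rw [h1, map_add]
    have h3 := h2 σ
    rw [hR' σ] at h3
    have h5 : actP (cw e) σ R + actP (cw e) σ R = (actP (cw e) σ R - R +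
      (actP (cw e) σ R - R)) + (R + R) := by abel
    rw [h5, h3, zero_add]
  have hfin' : Finite (Pts (cw e) N) := by
    have e0 : (Affine.baseChange (cw e) N) = (cw e).toAffine := cw_bc N e
    show Finite (Affine.baseChange (cw e) N).Point
    rw [e0]
    exact hfin
  obtain ⟨T, Q, hT, hPQ⟩ := half_of_finite' (no_four0 he h4) P
  have hup : ∀ (σ : Gal N) (P : Pts (cw e) N),
      actP (cw e) σ (up (cw e) N (AlgebraicClosure N) P) = up (cw e) N (AlgebraicClosure N) P := by
    intro σ P
    show Affine.Point.map _ (Affine.Point.map _ _) = _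
    rw [Affine.Point.map_map]
    have hcomp : (σ : AlgebraicClosure N →ₐ[N] AlgebraicClosure N).comp
        (IsScalarTower.toAlgHom N N (AlgebraicClosure N)) =
        IsScalarTower.toAlgHom N N (AlgebraicClosure N) := AlgHom.ext fun x => σ.commutes x
    rw [hcomp]
  set R₁ := R - up (cw e) N (AlgebraicClosure N) Q with hR₁
  have hc1 : ∀ σ, c σ = actP (cw e) σ R₁ - R₁ := by
    intro σ
    rw [hR₁, map_sub, hup, hR' σ]
    abel
  have hR2 : R₁ + R₁ = up (cw e) N (AlgebraicClosure N) T := by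
    have h1 : up (cw e) N (AlgebraicClosure N) P = R + R := hP
    rw [hPQ, map_add, map_add] at h1
    have h3 : R₁ + R₁ = (R + R) - (up (cw e) N (AlgebraicClosure N) Q +
        up (cw e) N (AlgebraicClosure N) Q) := by
      rw [hR₁]
      abel
    rw [h3, ← h1]
    abel
  apply hne
  rcases tpt_all he T hT with h0 | ⟨j, hj⟩
  · left
    refine sq_of_two he c a b hk R₁ ?_ hc1
    rw [hR2, h0, map_zero]
  · right
    refine ⟨j, fun i _ => sq_of_tpt he c h2 a b hk R₁ j ?_ hc1 i⟩
    rw [hR2, hj]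
    exact tpt_map he _ j

end

end Pool.Agent.Lib.MP_1a91b9_ntV.C
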