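import Pool.Agent.Lib.MP_1a91b9_ntV.C.TabA
import Pool.Agent.Lib.MP_1a91b9_ntV.C.Conv

/-!
# The field `ℚ(√-7)`: the converse of the descent
-/

set_option autoImplicit false
set_option linter.unusedSectionVars false
set_option linter.unusedVariables false

namespace Pool.Agent.Lib.MP_1a91b9_ntV.C

open NumberField Finset WithZero IsDedekindDomain
open Pool.Agent.Lib.MP_1a91b9_ntH.C (Sq isSquare_exp nu_one Sq.near Sq.one Sq.mul Sq.cancel
  Sq.of_mul_sq Sq.of_isSquare Sq.even Sq.ne exists_nu nu_four nu_four_le)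
open Pool.Agent.Lib.MP_1a91b9_ntT3.S9 (ShaP)

noncomputable section

/-- the classes of the table -/
def tabL : List (ZMod 2 × ZMod 8 × ZMod 2 × ZMod 8) :=
  [(0, 1, 0, 5), (0, 1, 1, 3), (0, 1, 1, 7), (0, 3, 0, 5), (0, 3, 0, 7), (0, 5, 1, 1), (0, 5, 1, 5), (0, 7, 0, 3), (0, 7, 0, 5), (1, 1, 0, 7), (1, 1, 1, 7), (1, 3, 0, 3), (1, 3, 1, 1), (1, 5, 0, 7), (1, 5, 1, 3), (1, 7, 0, 3), (1, 7, 1, 5)]

set_option maxRecDepth 20000 in
theorem tab_cases0 : ∀ (d1 x1 : ZMod 2) (ρ σ : ZMod 8), 4 * ρ ≠ 0 → 4 * σ ≠ 0 →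
    be8 σ * (be8 ρ + 1) + d1 * (be8 σ + bf8 σ) + x1 * (be8 ρ + 1 + bf8 ρ) + x1 * d1 = 0 →
    (d1 = 0 → be8 ρ = 1 → bf8 ρ = 0 → x1 = 0) →
    (x1 = 0 ∧ σ = 1) ∨ (x1 + d1 = 0 ∧ σ * ρ = 1) ∨ (d1, ρ, x1 + d1, σ * ρ) ∈ tabL := by
  unfold be8 bf8 tabL
  decide

theorem tab_cases (d1 x1 : ZMod 2) (ρ σ : ZMod 8) (hρ : 4 * ρ ≠ 0) (hσ : 4 * σ ≠ 0)
    (h : be8 σ * (be8 ρ + 1) + d1 * (be8 σ + bf8 σ) + x1 * (be8 ρ + 1 + bf8 ρ) + x1 * d1 = 0)
    (h' : d1 = 0 → be8 ρ = 1 → bf8 ρ = 0 → x1 = 0) :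
    (x1 = 0 ∧ σ = 1) ∨ (x1 + d1 = 0 ∧ σ * ρ = 1) ∨
    (d1 = 0 ∧ ρ = 1 ∧ x1 + d1 = 0 ∧ σ * ρ = 5) ∨
    (d1 = 0 ∧ ρ = 1 ∧ x1 + d1 = 1 ∧ σ * ρ = 3) ∨
    (d1 = 0 ∧ ρ = 1 ∧ x1 + d1 = 1 ∧ σ * ρ = 7) ∨
    (d1 = 0 ∧ ρ = 3 ∧ x1 + d1 = 0 ∧ σ * ρ = 5) ∨
    (d1 = 0 ∧ ρ = 3 ∧ x1 + d1 = 0 ∧ σ * ρ = 7) ∨
    (d1 = 0 ∧ ρ = 5 ∧ x1 + d1 = 1 ∧ σ * ρ = 1) ∨
    (d1 = 0 ∧ ρ = 5 ∧ x1 + d1 = 1 ∧ σ * ρ = 5) ∨
    (d1 = 0 ∧ ρ = 7 ∧ x1 + d1 = 0 ∧ σ * ρ = 3) ∨
    (d1 = 0 ∧ ρ = 7 ∧ x1 + d1 = 0 ∧ σ * ρ = 5) ∨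
    (d1 = 1 ∧ ρ = 1 ∧ x1 + d1 = 0 ∧ σ * ρ = 7) ∨
    (d1 = 1 ∧ ρ = 1 ∧ x1 + d1 = 1 ∧ σ * ρ = 7) ∨
    (d1 = 1 ∧ ρ = 3 ∧ x1 + d1 = 0 ∧ σ * ρ = 3) ∨
    (d1 = 1 ∧ ρ = 3 ∧ x1 + d1 = 1 ∧ σ * ρ = 1) ∨
    (d1 = 1 ∧ ρ = 5 ∧ x1 + d1 = 0 ∧ σ * ρ = 7) ∨
    (d1 = 1 ∧ ρ = 5 ∧ x1 + d1 = 1 ∧ σ * ρ = 3) ∨
    (d1 = 1 ∧ ρ = 7 ∧ x1 + d1 = 0 ∧ σ * ρ = 3) ∨
    (d1 = 1 ∧ ρ = 7 ∧ x1 + d1 = 1 ∧ σ * ρ = 5) := by
  rcases tab_cases0 d1 x1 ρ σ hρ hσ h h' with h1 | h1 | h1
  · exact Or.inl h1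
  · exact Or.inr (Or.inl h1)
  · refine Or.inr (Or.inr ?_)
    unfold tabL at h1
    simp only [List.mem_cons, Prod.mk.injEq, List.not_mem_nil, or_false] at h1
    exact h1

variable {N : Type*} [Field N] [NumberField N]

theorem B7.complex (B : B7 N) (v : InfinitePlace N) : v.IsComplex := by
  rw [← InfinitePlace.not_isReal_iff_isComplex]
  intro hv
  obtain ⟨f, hf⟩ : ∃ f : N →+* ℝ, True := ⟨InfinitePlace.embedding_of_isReal hv, trivial⟩
  have h1 : (B.a : N) ^ 2 = (B.a : N) - 2 := by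
    have h := congrArg (fun x : 𝓞 N => (x : N)) B.rel
    have e2 : ((2 : 𝓞 N) : N) = 2 := map_ofNat (algebraMap (𝓞 N) N) 2
    push_cast at h
    exact h
  have h2 : f (B.a : N) ^ 2 = f (B.a : N) - 2 := by
    rw [← map_pow, h1, map_sub, map_ofNat]
  nlinarith [sq_nonneg (2 * f (B.a : N) - 1)]

namespace Gens

variable {B : B7 N} {ι : Type*} [DecidableEq ι] (G : Gens B ι)

theorem nu_q_el {S : Finset ι} {i : ι} (hi : i ∈ S) (x0 x1 x2 : ZMod 2) (V : ι → ZMod 2) :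
    (pv (G.q i) (G.prime i)).valuation N ((G.el S x0 x1 x2 V : 𝓞 N) : N) =
      exp (-1) ^ (V i).val := by
  rw [G.el_erase hi]
  have e : ((G.q i ^ (V i).val * G.el (S.erase i) x0 x1 x2 V : 𝓞 N) : N) =
      (G.q i : N) ^ (V i).val * ((G.el (S.erase i) x0 x1 x2 V : 𝓞 N) : N) := by
    push_cast
    ring
  rw [e, map_mul, map_pow, pv_self, pv_one (G.prime i)
    (G.not_dvd_el (notMem_erase i S) x0 x1 x2 V), mul_one]

/-- a square has trivial exponents -/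
theorem el_isSquare {S : Finset ι} {x0 x1 x2 : ZMod 2} {V : ι → ZMod 2}
    (h : IsSquare ((G.el S x0 x1 x2 V : 𝓞 N) : N)) :
    x0 = 0 ∧ x1 = 0 ∧ x2 = 0 ∧ ∀ i ∈ S, V i = 0 := by
  have hne : ((G.el S x0 x1 x2 V : 𝓞 N) : N) ≠ 0 := coe_ne (G.el_ne S x0 x1 x2 V)
  have h1 := (G.sq_el_iff S x0 x1 x2 V).1 (Sq.of_isSquare h hne)
  have h2 := (G.sq_el'_iff S x0 x1 x2 V).1 (Sq.of_isSquare h hne)
  refine ⟨?_, h1.1, h2.1, fun i hi => ?_⟩
  · have h3 := h1.2.1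
    rwa [h2.1, add_zero] at h3
  · have h3 : IsSquare ((pv (G.q i) (G.prime i)).valuation N ((G.el S x0 x1 x2 V : 𝓞 N) : N)) :=
      h.map _
    rw [G.nu_q_el hi] at h3
    rcases (by decide : ∀ t : ZMod 2, t = 0 ∨ t = 1) (V i) with h4 | h4
    · exact h4
    · have h5 : ((1 : ZMod 2)).val = 1 := rfl
      rw [h4, h5, pow_one, isSquare_exp] at h3
      exact absurd h3 (by decide)

/-- the sum of the rows -/
theorem sum_rows {S : Finset ι} {d0 d1 d2 : ZMod 2} {x : ι → ZMod 2} {x1 : ZMod 2}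
    (h : ∀ i ∈ S, G.Nx S d0 d1 d2 x i + G.b i * x1 = 0) :
    (d0 + d1 + d2 + 1) * (∑ i ∈ S, x i * G.a i) + d1 * (∑ i ∈ S, x i * G.b i) +
      d2 * (∑ i ∈ S, x i * G.b' i) + x1 * (∑ i ∈ S, G.b i) = 0 := by
  have h1 : ∑ i ∈ S, (G.Nx S d0 d1 d2 x i + G.b i * x1) = 0 := sum_eq_zero h
  have h2 : ∑ i ∈ S, ∑ j ∈ S.erase i, G.s i j * x j =
      ∑ i ∈ S, (∑ j ∈ S.erase i, G.s j i) * x i := by
    have e1 : ∀ i ∈ S, ∑ j ∈ S.erase i, G.s i j * x j =
        ∑ j ∈ S, if j ≠ i then G.s i j * x j else 0 := by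
      intro i hi
      rw [← sum_filter]
      congr 1
      ext j
      simp only [mem_erase, mem_filter]
      exact and_comm
    have e2 : ∀ i ∈ S, (∑ j ∈ S.erase i, G.s j i) * x i =
        ∑ j ∈ S, if j ≠ i then G.s j i * x i else 0 := by
      intro i hi
      rw [← sum_filter, sum_mul]
      congr 1
      ext j
      simp only [mem_erase, mem_filter]
      exact and_comm
    rw [sum_congr rfl e1, sum_congr rfl e2, sum_comm]
    refine sum_congr rfl fun j _ => sum_congr rfl fun i _ => ?_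
    by_cases hij : j = i
    · subst hij
      rfl
    · rw [if_pos hij, if_pos (Ne.symm hij)]
  unfold Nx at h1
  rw [sum_add_distrib, sum_add_distrib, h2] at h1
  have h3 : ∑ i ∈ S, (∑ j ∈ S.erase i, G.s j i + G.w d0 d1 d2 i + G.a i) * x i =
      ∑ i ∈ S, (∑ j ∈ S.erase i, G.s j i) * x i +
      ((d0 + d1 + d2 + 1) * (∑ i ∈ S, x i * G.a i) + d1 * (∑ i ∈ S, x i * G.b i) +
      d2 * (∑ i ∈ S, x i * G.b' i)) := by
    rw [mul_sum, mul_sum, mul_sum, ← sum_add_distrib, ← sum_add_distrib, ← sum_add_distrib]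
    refine sum_congr rfl fun i _ => ?_
    unfold w
    ring
  have h4 : ∑ i ∈ S, G.b i * x1 = x1 * ∑ i ∈ S, G.b i := by
    rw [mul_sum]
    exact sum_congr rfl fun i _ => mul_comm _ _
  rw [h3, h4] at h1
  have h5 : ∀ t : ZMod 2, t + t = 0 := by decide
  linear_combination h1 - h5 (∑ i ∈ S, (∑ j ∈ S.erase i, G.s j i) * x i)

/-- The class at `a`. -/
theorem cl_el (S : Finset ι) (x0 x1 x2 : ZMod 2) (V : ι → ZMod 2) :
    Cl B (G.el S x0 x1 x2 V) x1 (B.r (G.el S x0 0 x2 V)) :=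
  ⟨x1.val, _, G.val_el S x0 x1 x2 V, ZMod.natCast_zmod_val x1, rfl⟩

/-- The triples `(1, y, y)` of the kernel satisfy all the local conditions. -/
theorem loc_ker (hL : G.Laws) {S : Finset ι} {d0 d1 d2 : ZMod 2} {x : ι → ZMod 2} {x1 : ZMod 2}
    (hk : G.Ker S d0 d1 d2 x x1) {D y : N}
    (hDe : D = ((G.el S d0 d1 d2 (fun _ => 1) : 𝓞 N) : N))
    (hye : y = ((G.el S (x1 + ∑ i ∈ S, x i * G.a i) x1 0 x : 𝓞 N) : N))
    (v : HeightOneSpectrum (𝓞 N)) :
    GLoc (v.valuation N) (rt D ((B.b : N) ^ 4)) ![1, y, y] := by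
  have hpid := B.pid
  obtain ⟨hrow, hb, ha⟩ := hk
  have hbN : (B.b : N) ≠ 0 := coe_ne B.symm.a_ne
  have hyO := G.el_ne S (x1 + ∑ i ∈ S, x i * G.a i) x1 0 x
  have hDO := G.el_ne S d0 d1 d2 (fun _ => 1)
  have hy0 : y ≠ 0 := by
    rw [hye]
    exact coe_ne hyO
  have hts : (B.b : N) ^ 4 = ((B.b : N) ^ 2) ^ 2 := by ring
  obtain ⟨π, hπ, rfl⟩ := exists_pv v
  by_cases h1 : π ∣ B.a
  · -- the place `a`
    rw [pv_eq hπ B.prime_a h1]
    change GLoc B.nu (rt D ((B.b : N) ^ 4)) ![1, y, y]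
    have h4 := (nu_four_le B.nu_two).le
    obtain ⟨x0, hx0⟩ : ∃ x0, x0 = x1 + ∑ i ∈ S, x i * G.a i := ⟨_, rfl⟩
    rw [← hx0] at hye
    obtain ⟨k1, k2, k3⟩ := G.bits_el S x0 0 x
    obtain ⟨l1, l2, l3⟩ := G.bits_el S d0 d2 (fun _ => 1)
    have hsum := G.sum_rows hrow
    have hhil : d2 * (x1 + ∑ i ∈ S, x i * G.b' i) = 0 := by
      by_cases hsq : G.SqB S d0 d1 d2
      · rw [hsq.1, zero_mul]
      · have h5 := hb hsq
        have h6 : ∑ i ∈ S, x i * G.b' i = ∑ i ∈ S, G.b' i * x i :=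
          sum_congr rfl fun i _ => mul_comm _ _
        rw [h6, ← h5]
        exact (by decide : ∀ s t : ZMod 2, s * (t + t) = 0) _ _
    have hl3 : bf8 (B.r (G.el S d0 0 d2 (fun _ => 1))) = d2 + ∑ i ∈ S, G.b i := by
      rw [l3]
      simp only [one_mul]
    obtain ⟨σ, hσ⟩ : ∃ σ, σ = B.r (G.el S x0 0 0 x) := ⟨_, rfl⟩
    obtain ⟨ρ, hρ⟩ : ∃ ρ, ρ = B.r (G.el S d0 0 d2 (fun _ => 1)) := ⟨_, rfl⟩
    rw [← hσ] at k1 k2 k3
    rw [← hρ] at l1 l2 hl3
    have hcD : Cl B (G.el S d0 d1 d2 (fun _ => 1)) d1 ρ := by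
      rw [hρ]
      exact G.cl_el S d0 d1 d2 _
    have hcY : Cl B (G.el S x0 x1 0 x) x1 σ := by
      rw [hσ]
      exact G.cl_el S x0 x1 0 x
    have hsqA : d1 = 0 → be8 ρ = 1 → bf8 ρ = 0 → x1 = 0 := by
      intro e1 e2 e3
      refine ha ⟨e1, ?_, ?_⟩
      · rw [l2] at e2
        have : ∀ s t : ZMod 2, s + t = 1 → s + 1 + t = 0 := by decide
        exact this _ _ e2
      · rw [hl3] at e3
        exact e3
    have hmain : be8 σ * (be8 ρ + 1) + d1 * (be8 σ + bf8 σ) + x1 * (be8 ρ + 1 + bf8 ρ) +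
        x1 * d1 = 0 := by
      rw [k2, k3, l2, hl3, hx0]
      have h2 : (2 : ZMod 2) = 0 := rfl
      linear_combination hsum + hhil + (d2 * x1 + d0 * x1 + x1 + d1 * x1) * h2 -
        (d2 * ∑ i ∈ S, x i * G.b' i) * h2
    rcases tab_cases d1 x1 ρ σ l1 k1 hmain hsqA with ⟨e1, e2⟩ | ⟨e1, e2⟩ | h
    · rw [e1, e2] at hcY
      refine gloc_one ?_
      rw [hye, e1]
      exact hcY.sq
    · have h5 := hcY.mul hcD
      rw [e1, e2] at h5
      refine gloc_tors h4 hts (pow_ne_zero 2 hbN) ?_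
      have h6 := h5.sq
      rw [hye, hDe]
      have e : ((G.el S x0 x1 0 x * G.el S d0 d1 d2 (fun _ => 1) : 𝓞 N) : N) =
          ((G.el S x0 x1 0 x : 𝓞 N) : N) * ((G.el S d0 d1 d2 (fun _ => 1) : 𝓞 N) : N) := by
        push_cast
        rfl
      rwa [e] at h6
    · obtain ⟨c, E, hE, c0, c1, c2⟩ := tab B d1 ρ (x1 + d1) (σ * ρ) h
      have hsq : ∀ t : ZMod 2, t + t = 0 := by decide
      have hod : ∀ t : ZMod 8, 4 * t ≠ 0 → t * t = 1 := by decide
      have p0 := (hcD.mul c0)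
      rw [hsq, hod ρ l1] at p0
      have p1 := (hcY.mul hcD).mul c1
      rw [hsq, hod _ (od_mul k1 l1)] at p1
      have p2 := (hcY.mul hcD).mul c2
      rw [hsq, hod _ (od_mul k1 l1)] at p2
      refine gloc_pt (c := (c : N)) (E := (E : N)) h4 (coe_ne hE) hy0 ?_ ?_ ?_
      · have h6 := p0.sq
        rw [hDe]
        have e : ((G.el S d0 d1 d2 (fun _ => 1) * c : 𝓞 N) : N) =
            ((G.el S d0 d1 d2 (fun _ => 1) : 𝓞 N) : N) * (c : N) := by
          push_cast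
          rfl
        rwa [e] at h6
      · have h6 := p1.sq
        rw [hDe, hye]
        have e : ((G.el S x0 x1 0 x * G.el S d0 d1 d2 (fun _ => 1) * (c + E ^ 2) : 𝓞 N) : N) =
            ((G.el S x0 x1 0 x : 𝓞 N) : N) * ((G.el S d0 d1 d2 (fun _ => 1) : 𝓞 N) : N) *
              ((c : N) + (E : N) ^ 2) := by
          push_cast
          rfl
        rwa [e] at h6
      · have h6 := p2.sq
        rw [hDe, hye]
        have e : ((G.el S x0 x1 0 x * G.el S d0 d1 d2 (fun _ => 1) * (c + B.b ^ 4 * E ^ 2) :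
            𝓞 N) : N) =
            ((G.el S x0 x1 0 x : 𝓞 N) : N) * ((G.el S d0 d1 d2 (fun _ => 1) : 𝓞 N) : N) *
              ((c : N) + (B.b : N) ^ 4 * (E : N) ^ 2) := by
          push_cast
          rfl
        rwa [e] at h6
  by_cases h2 : π ∣ B.b
  · -- the place `1 - a`
    rw [pv_eq hπ B.symm.prime_a h2]
    change GLoc B.symm.nu (rt D ((B.b : N) ^ 4)) ![1, y, y]
    have h4 := (nu_four_le B.symm.nu_two).le
    obtain ⟨x0, hx0⟩ : ∃ x0, x0 = x1 + ∑ i ∈ S, x i * G.a i := ⟨_, rfl⟩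
    rw [← hx0] at hye
    have he0 : x0 + x1 + ∑ i ∈ S, x i * G.a i = 0 := by
      rw [hx0]
      exact (by decide : ∀ s t : ZMod 2, s + t + s + t = 0) _ _
    by_cases hε : x1 + ∑ i ∈ S, x i * G.b' i = 0
    · refine gloc_one ?_
      rw [hye]
      exact (G.sq_el' S x0 x1 x).2 ⟨he0, hε⟩
    · have hsq : G.SqB S d0 d1 d2 := by
        by_contra hn
        apply hε
        have h5 := hb hn
        have h6 : ∑ i ∈ S, x i * G.b' i = ∑ i ∈ S, G.b' i * x i :=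
          sum_congr rfl fun i _ => mul_comm _ _
        rw [h6, ← h5]
        exact (by decide : ∀ t : ZMod 2, t + t = 0) _
      have hDs : Sq B.symm.nu D := by
        rw [hDe]
        exact (G.sqB_iff S d0 d1 d2).2 hsq
      have h5y : Sq B.symm.nu (5 * y) := by
        obtain ⟨k1, k2, k3⟩ := G.bits_el' S x0 x1 x
        have hnd : ¬ B.symm.a ∣ 5 * G.el S x0 x1 0 x := by
          rw [B.symm.a_dvd, RingHom.map_mul]
          have e5 : B.symm.r 5 = 5 := map_ofNat B.symm.r 5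
          rw [e5]
          exact od_mul (by decide) k1
        rw [hye, ← coe_five_mul, B.symm.sq_iff_r hnd, RingHom.map_mul]
        have e5 : B.symm.r 5 = 5 := map_ofNat B.symm.r 5
        rw [e5]
        rw [he0] at k2
        have k3' : bf8 (B.symm.r (G.el S x0 x1 0 x)) ≠ 0 := by
          rw [k3]
          exact hε
        revert k1 k2 k3'
        generalize B.symm.r (G.el S x0 x1 0 x) = t
        unfold be8 bf8
        revert t
        decide
      -- the point with abscissa `4 D`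
      have hb4 : B.symm.nu ((B.b : N) ^ 4) = exp (-4) := B.nu_b4
      have h4v : B.symm.nu (4 : N) = exp (-2) := nu_four B.symm.nu_two
      have h54 : Sq B.symm.nu (5 * (1 + (B.b : N) ^ 4 / 4)) := by
        apply sq_five B.symm.nu_two B.symm.res
        rw [map_div₀, hb4, h4v, ← exp_sub]
        norm_num
      have hD0 : D ≠ 0 := hDs.ne h4
      refine gloc_pt (c := (4 : N)) (E := 1) h4 one_ne_zero hy0 ?_ ?_ ?_
      · exact hDs.mul h4 (Sq.of_isSquare ⟨2, by norm_num⟩ (by norm_num))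
      · have h6 := h5y.mul h4 hDs
        have e : y * D * (4 + 1 ^ 2) = 5 * y * D := by ring
        rw [e]
        exact h6
      · have h6 := ((h5y.mul h4 hDs).mul h4 h54)
        refine Sq.of_mul_sq (s := 5) (by norm_num) ?_
        have e : y * D * (4 + (B.b : N) ^ 4 * 1 ^ 2) * 5 ^ 2 =
            5 * y * D * (5 * (1 + (B.b : N) ^ 4 / 4)) * 2 ^ 2 := by
          ring
        rw [e]
        exact h6.mul h4 (Sq.of_isSquare ⟨2, by ring⟩ (by norm_num))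
  have h2n : ¬ π ∣ 2 := by
    rw [← B.ab]
    exact fun h => (hπ.dvd_or_dvd h).elim h1 h2
  have h2v : (pv π hπ).valuation N 2 = 1 := by
    have h := pv_one (N := N) hπ h2n
    have e : ((2 : 𝓞 N) : N) = 2 := map_ofNat (algebraMap (𝓞 N) N) 2
    rwa [e] at h
  have h4v : (pv π hπ).valuation N 4 = 1 := by
    rw [show (4 : N) = 2 * 2 by norm_num, map_mul, h2v, mul_one]
  by_cases h3 : ∃ i ∈ S, π ∣ G.q i
  · obtain ⟨i, hi, hd⟩ := h3
    rw [pv_eq hπ (G.prime i) hd] at h4v ⊢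
    have hr := hrow i hi
    rw [← G.row_N hL hi d0 d1 d2 x1 x] at hr
    obtain ⟨x0, hx0⟩ : ∃ x0, x0 = x1 + ∑ i ∈ S, x i * G.a i := ⟨_, rfl⟩
    rw [← hx0] at hye hr
    have key : ∀ (y0 y1 y2 : ZMod 2) (W : ι → ZMod 2), W i = 0 →
        y0 * G.a i + y1 * (G.b i + G.a i) + y2 * (G.b' i + G.a i) +
          ∑ j ∈ S.erase i, W j * G.s j i = 0 →
        Sq ((pv (G.q i) (G.prime i)).valuation N) ((G.el S y0 y1 y2 W : 𝓞 N) : N) := by
      intro y0 y1 y2 W hW hs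
      rw [G.el_erase hi, hW, ZMod.val_zero, pow_zero, one_mul,
        sq_iff_ls (G.prime i) (G.q_not_two i) (G.not_dvd_el (notMem_erase i S) y0 y1 y2 W),
        G.ls_el hL (notMem_erase i S)]
      exact hs
    rcases (by decide : ∀ t : ZMod 2, t = 0 ∨ t = 1) (x i) with hxi | hxi
    · refine gloc_one ?_
      rw [hye]
      refine key _ _ _ _ hxi ?_
      rw [hxi] at hr
      linear_combination hr
    · refine gloc_tors h4v.le hts (pow_ne_zero 2 hbN) ?_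
      obtain ⟨m, hm, e⟩ := G.el_mul S x0 x1 0 d0 d1 d2 x (fun _ => 1)
      have e' : y * D = (m : N) ^ 2 *
          ((G.el S (x0 + d0) (x1 + d1) (0 + d2) (fun i => x i + 1) : 𝓞 N) : N) := by
        rw [hye, hDe]
        have := congrArg (fun x : 𝓞 N => (x : N)) e
        push_cast at this
        exact this
      rw [el_congr_sq (coe_ne hm) e']
      refine key _ _ _ _ ?_ ?_
      · show x i + 1 = 0
        rw [hxi]
        decide
      · rw [hxi, one_mul] at hr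
        unfold w at hr
        have e2 : ∑ j ∈ S.erase i, (x j + 1) * G.s j i =
            ∑ j ∈ S.erase i, x j * G.s j i + ∑ j ∈ S.erase i, G.s j i := by
          rw [← sum_add_distrib]
          exact sum_congr rfl fun j _ => by ring
        rw [e2]
        linear_combination hr
  · push Not at h3
    have hel : ∀ (y0 y1 y2 : ZMod 2) (W : ι → ZMod 2),
        (pv π hπ).valuation N ((G.el S y0 y1 y2 W : 𝓞 N) : N) = 1 := by
      intro y0 y1 y2 W
      apply pv_one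
      unfold el
      intro h
      rcases hπ.dvd_or_dvd h with h5 | h5
      · rcases hπ.dvd_or_dvd h5 with h6 | h6
        · rcases hπ.dvd_or_dvd h6 with h7 | h7
          · exact hπ.not_isUnit (isUnit_of_dvd_unit h7 ((isUnit_one.neg).pow _))
          · exact h1 (hπ.dvd_of_dvd_pow h7)
        · exact h2 (hπ.dvd_of_dvd_pow h6)
      · exact not_dvd_gpr hπ h3 _ h5
    refine gloc_good B (pv π hπ) h2v ?_ ?_
    · rw [hDe]
      exact hel _ _ _ _
    · rw [hye]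
      exact hel _ _ _ _

/-- **The converse**: if the criterion fails and `W(N)` is finite, the 2-primary part of the
Tate-Shafarevich group is not trivial. -/
theorem conv (hL : G.Laws) {S : Finset ι} {d0 d1 d2 : ZMod 2}
    (hnd : ¬ ((∀ i, i ∉ S) ∧ d1 = 0 ∧ d2 = 0)) (hbad : ¬ G.Good S d0 d1 d2) {D : N}
    (hDe : D = ((G.el S d0 d1 d2 (fun _ => 1) : 𝓞 N) : N))
    (he : Function.Injective (rt D ((B.b : N) ^ 4)))
    {W : WeierstrassCurve N} (hW : W = cw (rt D ((B.b : N) ^ 4)))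
    (hfin : Finite W.toAffine.Point) : Nat.card (ShaP 2 W) ≠ 1 := by
  unfold Good at hbad
  push Not at hbad
  obtain ⟨x, x1, hk, hn1, hn2⟩ := hbad
  have hbN : (B.b : N) ≠ 0 := coe_ne B.symm.a_ne
  obtain ⟨x0, hx0⟩ : ∃ x0, x0 = x1 + ∑ i ∈ S, x i * G.a i := ⟨_, rfl⟩
  obtain ⟨y, hye⟩ : ∃ y : N, y = ((G.el S x0 x1 0 x : 𝓞 N) : N) := ⟨_, rfl⟩
  have hy0 : y ≠ 0 := by
    rw [hye]
    exact coe_ne (G.el_ne S _ _ _ _)
  have hDns : ¬ IsSquare D := by
    intro h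
    rw [hDe] at h
    obtain ⟨-, h1, h2, h3⟩ := G.el_isSquare h
    exact hnd ⟨fun i hi => absurd (h3 i hi) (by decide), h1, h2⟩
  have hDns' : ¬ IsSquare (-D) := by
    intro h
    have e : -D = ((G.el S (d0 + 1) d1 d2 (fun _ => 1) : 𝓞 N) : N) := by
      rw [hDe, ← G.neg_el]
      push_cast
      rfl
    rw [e] at h
    obtain ⟨-, h1, h2, h3⟩ := G.el_isSquare h
    exact hnd ⟨fun i hi => absurd (h3 i hi) (by decide), h1, h2⟩
  have hDns2 : ¬ IsSquare (-(D * (B.b : N) ^ 4)) := by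
    rintro ⟨r, hr⟩
    apply hDns'
    refine ⟨r / (B.b : N) ^ 2, ?_⟩
    field_simp
    linear_combination hr
  refine conv_sel he ?_ B.complex ![1, y, y] ?_ ?_ ?_ ?_ hW hfin
  · intro j
    fin_cases j
    · refine ⟨1, by decide, ?_⟩
      show ¬ IsSquare (rt D _ 0 - rt D _ 1)
      rw [rt0, rt1]
      have e : (0 : N) - -D = D := by ring
      rw [e]
      exact hDns
    · refine ⟨0, by decide, ?_⟩
      show ¬ IsSquare (rt D _ 1 - rt D _ 0)
      rw [rt0, rt1, sub_zero]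
      exact hDns'
    · refine ⟨0, by decide, ?_⟩
      show ¬ IsSquare (rt D _ 2 - rt D _ 0)
      rw [rt0, rt2, sub_zero]
      exact hDns2
  · intro i
    fin_cases i
    · exact one_ne_zero
    · exact hy0
    · exact hy0
  · show IsSquare (1 * y * y)
    exact ⟨y, by ring⟩
  · intro v
    refine G.loc_ker hL hk hDe ?_ v
    rw [hye, hx0]
  · rintro (h | ⟨j, h⟩)
    · have h1 : IsSquare y := h 1
      rw [hye] at h1
      obtain ⟨-, h2, -, h3⟩ := G.el_isSquare h1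
      exact hn1 h3 h2
    · fin_cases j
      · have h1 := h 1 (by decide)
        change IsSquare (y * (rt D _ 0 - rt D _ 1)) at h1
        rw [rt0, rt1] at h1
        have e : y * (0 - -D) = y * D := by ring
        rw [e] at h1
        obtain ⟨m, hm, e⟩ := G.el_mul S x0 x1 0 d0 d1 d2 x (fun _ => 1)
        have e' : y * D = (m : N) ^ 2 *
            ((G.el S (x0 + d0) (x1 + d1) (0 + d2) (fun i => x i + 1) : 𝓞 N) : N) := by
          rw [hye, hDe]
          have := congrArg (fun x : 𝓞 N => (x : N)) e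
          push_cast at this
          exact this
        have h2 : IsSquare ((G.el S (x0 + d0) (x1 + d1) (0 + d2) (fun i => x i + 1) : 𝓞 N) : N) := by
          obtain ⟨r, hr⟩ := h1
          have hmN := coe_ne (N := N) hm
          refine ⟨r / (m : N), ?_⟩
          rw [e'] at hr
          field_simp
          linear_combination hr
        obtain ⟨h3, h4, h5, h6⟩ := G.el_isSquare h2
        have hx1 : ∀ i ∈ S, x i = 1 := fun i hi =>
          (by decide : ∀ t : ZMod 2, t + 1 = 0 → t = 1) _ (h6 i hi)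
        have hx1d : x1 = d1 := (by decide : ∀ s t : ZMod 2, s + t = 0 → s = t) _ _ h4
        have hd2 : d2 = 0 := by rwa [zero_add] at h5
        have hx0d : x0 = d0 := (by decide : ∀ s t : ZMod 2, s + t = 0 → s = t) _ _ h3
        refine hn2 hx1 hx1d ?_
        by_contra hn
        apply hn
        have h7 := hk.2.1 hn
        refine ⟨hd2, ?_, ?_⟩
        · have e3 : ∑ i ∈ S, x i * G.a i = ∑ i ∈ S, G.a i :=
            sum_congr rfl fun i hi => by rw [hx1 i hi, one_mul]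
          rw [e3, hx1d, hx0d] at hx0
          rw [hx0]
          exact (by decide : ∀ s t : ZMod 2, s + t + s + t = 0) _ _
        · have e3 : ∑ i ∈ S, G.b' i * x i = ∑ i ∈ S, G.b' i :=
            sum_congr rfl fun i hi => by rw [hx1 i hi, mul_one]
          rw [e3, hx1d] at h7
          rw [← h7]
          exact (by decide : ∀ t : ZMod 2, t + t = 0) _
      · have h1 := h 0 (by decide)
        change IsSquare (1 * (rt D _ 1 - rt D _ 0)) at h1
        rw [rt0, rt1, one_mul, sub_zero] at h1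
        exact hDns' h1
      · have h1 := h 0 (by decide)
        change IsSquare (1 * (rt D _ 2 - rt D _ 0)) at h1
        rw [rt0, rt2, one_mul, sub_zero] at h1
        exact hDns2 h1

end Gens

end

end Pool.Agent.Lib.MP_1a91b9_ntV.C
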