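import Pool.Agent.Lib.MP_1a91b9_ntQ.D.Mat

/-!
# The field `ℚ(√-7)`: the criterion and its matrix forms

The data: `a i 0, a i 1, a i 2` are the bits `a, b, b'` of the prime `i`.
-/

set_option autoImplicit false
set_option linter.unusedSectionVars false
set_option linter.unusedVariables false

namespace Pool.Agent.Lib.MP_1a91b9_ntV.Cr

open Finset Pool.Agent.Lib.MP_1a91b9_ntQ

noncomputable section

variable {ι : Type} [DecidableEq ι] (D : Dat2 ι (Fin 3))

/-- the reciprocity law -/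
def Rc : Prop := ∀ i j, i ≠ j → D.s i j + D.s j i = D.a i 0 * D.a j 0

/-- the diagonal entry without the sum of symbols -/
def w (d0 d1 d2 : ZMod 2) (i : ι) : ZMod 2 :=
  d0 * D.a i 0 + d1 * (D.a i 1 + D.a i 0) + d2 * (D.a i 2 + D.a i 0)

/-- the row `i` of the matrix `N` applied to `x` -/
def Nx (S : Finset ι) (d0 d1 d2 : ZMod 2) (x : ι → ZMod 2) (i : ι) : ZMod 2 :=
  ∑ j ∈ S.erase i, D.s i j * x j +
    (∑ j ∈ S.erase i, D.s j i + w D d0 d1 d2 i + D.a i 0) * x i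

/-- `-D` is a square at `a` -/
def SqA (S : Finset ι) (d0 d1 d2 : ZMod 2) : Prop :=
  d1 = 0 ∧ d0 + 1 + d2 = 0 ∧ d2 + ∑ i ∈ S, D.a i 1 = 0

/-- `D` is a square at `1 - a` -/
def SqB (S : Finset ι) (d0 d1 d2 : ZMod 2) : Prop :=
  d2 = 0 ∧ d0 + d1 + ∑ i ∈ S, D.a i 0 = 0 ∧ d1 + ∑ i ∈ S, D.a i 2 = 0

def Ker (S : Finset ι) (d0 d1 d2 : ZMod 2) (x : ι → ZMod 2) (x1 : ZMod 2) : Prop :=
  (∀ i ∈ S, Nx D S d0 d1 d2 x i + D.a i 1 * x1 = 0) ∧
    (¬ SqB D S d0 d1 d2 → x1 = ∑ i ∈ S, D.a i 2 * x i) ∧ (SqA D S d0 d1 d2 → x1 = 0)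

/-- **The criterion.** -/
def Good (S : Finset ι) (d0 d1 d2 : ZMod 2) : Prop :=
  ∀ (x : ι → ZMod 2) (x1 : ZMod 2), Ker D S d0 d1 d2 x x1 →
    ((∀ i ∈ S, x i = 0) ∧ x1 = 0) ∨ ((∀ i ∈ S, x i = 1) ∧ x1 = d1 ∧ SqB D S d0 d1 d2)

/-- the class vector of the diagonal -/
def kp (S : Finset ι) (d0 d1 d2 : ZMod 2) : Fin 3 → ZMod 2 :=
  ![∑ i ∈ S, D.a i 0 + d0 + d1 + d2, d1, d2]

theorem dg_kp (S : Finset ι) (d0 d1 d2 : ZMod 2) (i : ι) :
    D.dg (kp D S d0 d1 d2) i = (∑ i ∈ S, D.a i 0) * D.a i 0 + w D d0 d1 d2 i := by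
  unfold Dat2.dg kp w
  rw [Fin.sum_univ_three]
  show (∑ i ∈ S, D.a i 0 + d0 + d1 + d2) * D.a i 0 + d1 * D.a i 1 + d2 * D.a i 2 = _
  ring

theorem self_mul (t : ZMod 2) : t * t = t := by
  revert t
  decide

theorem add_self (t : ZMod 2) : t + t = 0 := by
  revert t
  decide

/-- the row sums of the matrix -/
theorem N_mulVec (hr : Rc D) (S : Finset ι) (d0 d1 d2 : ZMod 2) (x : ι → ZMod 2) (i : S) :
    (D.N (kp D S d0 d1 d2) S).mulVec (fun j : S => x j) i = Nx D S d0 d1 d2 x i := by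
  have h1 : ∑ j ∈ S.erase (i : ι), D.s i j =
      ∑ j ∈ S.erase (i : ι), D.s j i + ((∑ j ∈ S, D.a j 0) * D.a i 0 + D.a i 0) := by
    have h2 : ∑ j ∈ S, D.a j 0 = D.a i 0 + ∑ j ∈ S.erase (i : ι), D.a j 0 :=
      (add_sum_erase S (fun j => D.a j 0) i.2).symm
    have h3 : ∀ j ∈ S.erase (i : ι), D.s i j = D.s j i + D.a j 0 * D.a i 0 := by
      intro j hj
      have h4 := hr i j (ne_of_mem_erase hj).symm
      have h5 : ∀ s t u v : ZMod 2, s + t = u * v → s = t + v * u := by decide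
      exact h5 _ _ _ _ h4
    rw [sum_congr rfl h3, sum_add_distrib, ← sum_mul, h2]
    linear_combination -(self_mul (D.a i 0)) - add_self (D.a i 0) + self_mul (D.a i 0) +
      (-(self_mul (D.a i 0)))
  have h2 : (D.N (kp D S d0 d1 d2) S).mulVec (fun j : S => x j) i =
      ∑ j : S, (if (i : ι) = j then (D.dg (kp D S d0 d1 d2) i + ∑ l ∈ S.erase (i : ι), D.s i l)
        else D.s i j) * x j := by
    show ∑ j : S, D.N (kp D S d0 d1 d2) S i j * x j = _
    refine sum_congr rfl fun j _ => ?_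
    unfold Dat2.N
    by_cases h : i = j
    · rw [if_pos h, if_pos (congrArg Subtype.val h)]
    · rw [if_neg h, if_neg fun h' => h (Subtype.ext h')]
  have h3 : ∑ j ∈ S.erase (i : ι), (if (i : ι) = j then (D.dg (kp D S d0 d1 d2) i +
      ∑ l ∈ S.erase (i : ι), D.s i l) else D.s i j) * x j = ∑ j ∈ S.erase (i : ι), D.s i j * x j :=
    sum_congr rfl fun j hj => by rw [if_neg (ne_of_mem_erase hj).symm]
  rw [h2, sum_coe_sort S (fun j => (if (i : ι) = j then (D.dg (kp D S d0 d1 d2) i +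
    ∑ l ∈ S.erase (i : ι), D.s i l) else D.s i j) * x j), ← add_sum_erase S _ i.2, if_pos rfl,
    h3, h1, dg_kp]
  unfold Nx
  linear_combination (x i) * add_self ((∑ j ∈ S, D.a j 0) * D.a i 0)

/-- extension by zero -/
def ex (S : Finset ι) (v : S → ZMod 2) (i : ι) : ZMod 2 := if h : i ∈ S then v ⟨i, h⟩ else 0

theorem ex_val (S : Finset ι) (v : S → ZMod 2) (i : S) : ex S v i = v i := by
  unfold ex
  rw [dif_pos i.2]

/-- (G) -/
theorem good_G (hr : Rc D) {S : Finset ι} {d0 d1 d2 : ZMod 2} (hA : ¬ SqA D S d0 d1 d2)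
    (hB : ¬ SqB D S d0 d1 d2) : Good D S d0 d1 d2 ↔ ∀ (v : S → ZMod 2),
      (∀ i : S, (D.N (kp D S d0 d1 d2) S).mulVec v i + D.a i 1 * ∑ j : S, D.a j 2 * v j = 0) →
      v = 0 := by
  constructor
  · intro h v hv
    have hk : Ker D S d0 d1 d2 (ex S v) (∑ i ∈ S, D.a i 2 * ex S v i) := by
      refine ⟨fun i hi => ?_, fun _ => rfl, fun h' => absurd h' hA⟩
      have h1 := hv ⟨i, hi⟩
      have h2 := N_mulVec D hr S d0 d1 d2 (ex S v) ⟨i, hi⟩
      have h3 : (fun j : S => ex S v j) = v := funext fun j => ex_val S v j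
      rw [h3] at h2
      have h4 : ∑ i ∈ S, D.a i 2 * ex S v i = ∑ j : S, D.a j 2 * v j := by
        rw [← sum_coe_sort S (fun i => D.a i 2 * ex S v i)]
        exact sum_congr rfl fun j _ => by rw [ex_val]
      rw [h4, ← h2]
      exact h1
    rcases h _ _ hk with ⟨h1, -⟩ | ⟨-, -, h1⟩
    · funext i
      have := h1 i i.2
      rwa [ex_val] at this
    · exact absurd h1 hB
  · intro h x x1 hk
    left
    have h1 := hk.2.1 hB
    have h2 : (fun j : S => x j) = 0 := by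
      refine h _ fun i => ?_
      rw [N_mulVec D hr, sum_coe_sort S (fun j => D.a j 2 * x j), ← h1]
      exact hk.1 i i.2
    refine ⟨fun i hi => congrFun h2 ⟨i, hi⟩, ?_⟩
    rw [h1]
    refine sum_eq_zero fun i hi => ?_
    have h3 : x i = 0 := congrFun h2 ⟨i, hi⟩
    rw [h3, mul_zero]

/-- (L) -/
theorem good_L (hr : Rc D) {S : Finset ι} {d0 d1 d2 : ZMod 2} (hA : SqA D S d0 d1 d2)
    (hB : ¬ SqB D S d0 d1 d2) : Good D S d0 d1 d2 ↔ ∀ (v : S → ZMod 2),
      (∀ i : S, (D.N (kp D S d0 d1 d2) S).mulVec v i = 0) → ∑ j : S, D.a j 2 * v j = 0 →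
      v = 0 := by
  constructor
  · intro h v hv hv2
    have h4 : ∑ i ∈ S, D.a i 2 * ex S v i = ∑ j : S, D.a j 2 * v j := by
      rw [← sum_coe_sort S (fun i => D.a i 2 * ex S v i)]
      exact sum_congr rfl fun j _ => by rw [ex_val]
    have hk : Ker D S d0 d1 d2 (ex S v) 0 := by
      refine ⟨fun i hi => ?_, fun _ => ?_, fun _ => rfl⟩
      · have h1 := hv ⟨i, hi⟩
        have h2 := N_mulVec D hr S d0 d1 d2 (ex S v) ⟨i, hi⟩
        have h3 : (fun j : S => ex S v j) = v := funext fun j => ex_val S v j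
        rw [h3] at h2
        rw [mul_zero, add_zero, ← h2]
        exact h1
      · rw [h4, hv2]
    rcases h _ _ hk with ⟨h1, -⟩ | ⟨-, -, h1⟩
    · funext i
      have := h1 i i.2
      rwa [ex_val] at this
    · exact absurd h1 hB
  · intro h x x1 hk
    left
    have h1 := hk.2.1 hB
    have h0 := hk.2.2 hA
    have h2 : (fun j : S => x j) = 0 := by
      refine h _ (fun i => ?_) ?_
      · rw [N_mulVec D hr]
        have h3 := hk.1 i i.2
        rwa [h0, mul_zero, add_zero] at h3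
      · rw [sum_coe_sort S (fun j => D.a j 2 * x j), ← h1, h0]
    exact ⟨fun i hi => congrFun h2 ⟨i, hi⟩, h0⟩

/-- (R) -/
theorem good_R (hr : Rc D) {S : Finset ι} {d0 d1 d2 : ZMod 2} (hA : ¬ SqA D S d0 d1 d2)
    (hB : SqB D S d0 d1 d2) : Good D S d0 d1 d2 ↔ ∀ (v : S → ZMod 2) (e : ZMod 2),
      (∀ i : S, (D.N (kp D S d0 d1 d2) S).mulVec v i + D.a i 1 * e = 0) →
      (v = 0 ∧ e = 0) ∨ (v = (fun _ => 1) ∧ e = d1) := by
  constructor
  · intro h v e hv
    have hk : Ker D S d0 d1 d2 (ex S v) e := by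
      refine ⟨fun i hi => ?_, fun h' => absurd hB h', fun h' => absurd h' hA⟩
      have h1 := hv ⟨i, hi⟩
      have h2 := N_mulVec D hr S d0 d1 d2 (ex S v) ⟨i, hi⟩
      have h3 : (fun j : S => ex S v j) = v := funext fun j => ex_val S v j
      rw [h3] at h2
      rw [← h2]
      exact h1
    rcases h _ _ hk with ⟨h1, h2⟩ | ⟨h1, h2, -⟩
    · left
      refine ⟨funext fun i => ?_, h2⟩
      have := h1 i i.2
      rwa [ex_val] at this
    · right
      refine ⟨funext fun i => ?_, h2⟩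
      have := h1 i i.2
      rwa [ex_val] at this
  · intro h x x1 hk
    rcases h (fun j : S => x j) x1 (fun i => by rw [N_mulVec D hr]; exact hk.1 i i.2) with
      ⟨h1, h2⟩ | ⟨h1, h2⟩
    · exact Or.inl ⟨fun i hi => congrFun h1 ⟨i, hi⟩, h2⟩
    · exact Or.inr ⟨fun i hi => congrFun h1 ⟨i, hi⟩, h2, hB⟩

/-- (LR) -/
theorem good_LR (hr : Rc D) {S : Finset ι} {d0 d1 d2 : ZMod 2} (hA : SqA D S d0 d1 d2)
    (hB : SqB D S d0 d1 d2) : Good D S d0 d1 d2 ↔ ∀ (v : S → ZMod 2),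
      (∀ i : S, (D.N (kp D S d0 d1 d2) S).mulVec v i = 0) → v = 0 ∨ v = (fun _ => 1) := by
  constructor
  · intro h v hv
    have hk : Ker D S d0 d1 d2 (ex S v) 0 := by
      refine ⟨fun i hi => ?_, fun h' => absurd hB h', fun _ => rfl⟩
      have h1 := hv ⟨i, hi⟩
      have h2 := N_mulVec D hr S d0 d1 d2 (ex S v) ⟨i, hi⟩
      have h3 : (fun j : S => ex S v j) = v := funext fun j => ex_val S v j
      rw [h3] at h2
      rw [mul_zero, add_zero, ← h2]
      exact h1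
    rcases h _ _ hk with ⟨h1, -⟩ | ⟨h1, -, -⟩
    · left
      funext i
      have := h1 i i.2
      rwa [ex_val] at this
    · right
      funext i
      have := h1 i i.2
      rwa [ex_val] at this
  · intro h x x1 hk
    have h0 := hk.2.2 hA
    rcases h (fun j : S => x j) (fun i => by
      rw [N_mulVec D hr]
      have h3 := hk.1 i i.2
      rwa [h0, mul_zero, add_zero] at h3) with h1 | h1
    · exact Or.inl ⟨fun i hi => congrFun h1 ⟨i, hi⟩, h0⟩
    · exact Or.inr ⟨fun i hi => congrFun h1 ⟨i, hi⟩, h0.trans hA.1.symm, hB⟩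

end

end Pool.Agent.Lib.MP_1a91b9_ntV.Cr
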