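import Pool.Agent.Lib.MP_1a91b9_ntV.C.Crit
import Mathlib.LinearAlgebra.Matrix.Rank
import Mathlib.LinearAlgebra.Matrix.Dual

/-!
# The field `ℚ(√-7)`: the criterion and transposition
-/

set_option autoImplicit false
set_option linter.unusedSectionVars false
set_option linter.unusedVariables false

namespace Pool.Agent.Lib.MP_1a91b9_ntV.Cr

open Finset Pool.Agent.Lib.MP_1a91b9_ntQ

noncomputable section

section gen

variable {m n : Type} [Fintype m] [Fintype n] [DecidableEq m] [DecidableEq n]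

theorem card_ker (A : Matrix m n (ZMod 2)) :
    Nat.card {v : n → ZMod 2 // A.mulVec v = 0} * 2 ^ A.rank = 2 ^ Fintype.card n := by
  have h1 : Nat.card {v : n → ZMod 2 // A.mulVec v = 0} =
      Nat.card (LinearMap.ker A.mulVecLin) := rfl
  have h2 : Nat.card (LinearMap.ker A.mulVecLin) =
      2 ^ Module.finrank (ZMod 2) (LinearMap.ker A.mulVecLin) := by
    have h := Module.natCard_eq_pow_finrank (K := ZMod 2) (V := LinearMap.ker A.mulVecLin)
    rwa [Nat.card_zmod] at h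
  have h3 := LinearMap.finrank_range_add_finrank_ker A.mulVecLin
  rw [Module.finrank_fintype_fun_eq_card] at h3
  rw [h1, h2, ← pow_add, ← h3]
  congr 1
  exact add_comm _ _

theorem card_ker_transpose (A : Matrix m n (ZMod 2)) :
    Nat.card {v : n → ZMod 2 // A.mulVec v = 0} * 2 ^ Fintype.card m =
      Nat.card {v : m → ZMod 2 // A.transpose.mulVec v = 0} * 2 ^ Fintype.card n := by
  have h1 := card_ker A
  have h2 := card_ker A.transpose
  rw [Matrix.rank_transpose] at h2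
  have h3 : 0 < 2 ^ A.rank := pow_pos (by norm_num) _
  apply Nat.eq_of_mul_eq_mul_right h3
  rw [mul_right_comm, h1, mul_right_comm, h2, mul_comm]

theorem card_one (A : Matrix m n (ZMod 2)) :
    Nat.card {v : n → ZMod 2 // A.mulVec v = 0} = 1 ↔ ∀ v, A.mulVec v = 0 → v = 0 := by
  rw [Nat.card_eq_one_iff_unique]
  constructor
  · rintro ⟨h, -⟩ v hv
    have := h.elim ⟨v, hv⟩ ⟨0, Matrix.mulVec_zero A⟩
    exact congrArg Subtype.val this
  · intro h
    exact ⟨⟨fun x y => Subtype.ext ((h x.1 x.2).trans (h y.1 y.2).symm)⟩,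
      ⟨⟨0, Matrix.mulVec_zero A⟩⟩⟩

theorem card_two (A : Matrix m n (ZMod 2)) (u : n → ZMod 2) (hu : A.mulVec u = 0) (hu0 : u ≠ 0) :
    Nat.card {v : n → ZMod 2 // A.mulVec v = 0} = 2 ↔ ∀ v, A.mulVec v = 0 → v = 0 ∨ v = u := by
  rw [Nat.card_eq_two_iff' (⟨0, Matrix.mulVec_zero A⟩ : {v : n → ZMod 2 // A.mulVec v = 0})]
  constructor
  · rintro ⟨y, hy, huniq⟩ v hv
    by_cases h0 : v = 0
    · exact Or.inl h0
    · right
      have h1 := huniq ⟨v, hv⟩ fun h => h0 (congrArg Subtype.val h)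
      have h2 := huniq ⟨u, hu⟩ fun h => hu0 (congrArg Subtype.val h)
      exact congrArg Subtype.val (h1.trans h2.symm)
  · intro h
    refine ⟨⟨u, hu⟩, fun h' => hu0 (congrArg Subtype.val h'), fun y hy => ?_⟩
    rcases h y.1 y.2 with h1 | h1
    · exact absurd (Subtype.ext h1) hy
    · exact Subtype.ext h1

end gen

variable {ι : Type} [DecidableEq ι] (D : Dat2 ι (Fin 3))

/-- the mirror image of the data -/
def mir : Dat2 ι (Fin 3) := ⟨fun i j => D.s j i, fun i => ![D.a i 0, D.a i 2, D.a i 1]⟩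

theorem mir_rc (hr : Rc D) : Rc (mir D) := fun i j hij => by
  show D.s j i + D.s i j = D.a i 0 * D.a j 0
  rw [add_comm]
  exact hr i j hij

theorem mir_sqA (S : Finset ι) (d0 d1 d2 : ZMod 2) :
    SqA (mir D) S (d0 + 1 + ∑ i ∈ S, D.a i 0) d2 d1 ↔ SqB D S d0 d1 d2 := by
  show (d2 = 0 ∧ d0 + 1 + ∑ i ∈ S, D.a i 0 + 1 + d1 = 0 ∧ d1 + ∑ i ∈ S, D.a i 2 = 0) ↔
    (d2 = 0 ∧ d0 + d1 + ∑ i ∈ S, D.a i 0 = 0 ∧ d1 + ∑ i ∈ S, D.a i 2 = 0)
  have h : ∀ x y z : ZMod 2, x + 1 + y + 1 + z = x + z + y := by decide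
  rw [h]

theorem mir_sqB (S : Finset ι) (d0 d1 d2 : ZMod 2) :
    SqB (mir D) S (d0 + 1 + ∑ i ∈ S, D.a i 0) d2 d1 ↔ SqA D S d0 d1 d2 := by
  show (d1 = 0 ∧ d0 + 1 + ∑ i ∈ S, D.a i 0 + d2 + ∑ i ∈ S, D.a i 0 = 0 ∧
    d2 + ∑ i ∈ S, D.a i 1 = 0) ↔ (d1 = 0 ∧ d0 + 1 + d2 = 0 ∧ d2 + ∑ i ∈ S, D.a i 1 = 0)
  have h : ∀ x y z : ZMod 2, x + 1 + y + z + y = x + 1 + z := by decide
  rw [h]

/-- the matrix of the mirror image is the transposed matrix -/
theorem mir_N (hr : Rc D) (S : Finset ι) (d0 d1 d2 : ZMod 2) :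
    (mir D).N (kp (mir D) S (d0 + 1 + ∑ i ∈ S, D.a i 0) d2 d1) S =
      (D.N (kp D S d0 d1 d2) S).transpose := by
  ext i j
  rw [Matrix.transpose_apply]
  unfold Dat2.N
  by_cases h : i = j
  · subst h
    rw [if_pos rfl, if_pos rfl, dg_kp, dg_kp]
    have h2 : ∑ j ∈ S, D.a j 0 = D.a i 0 + ∑ j ∈ S.erase (i : ι), D.a j 0 :=
      (add_sum_erase S (fun j => D.a j 0) i.2).symm
    have h3 : ∑ l ∈ S.erase (i : ι), (mir D).s i l =
        ∑ l ∈ S.erase (i : ι), D.s i l + (∑ j ∈ S.erase (i : ι), D.a j 0) * D.a i 0 := by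
      rw [sum_mul, ← sum_add_distrib]
      refine sum_congr rfl fun j hj => ?_
      have h4 := hr i j (ne_of_mem_erase hj).symm
      have h5 : ∀ s t u v : ZMod 2, s + t = u * v → t = s + v * u := by decide
      exact h5 _ _ _ _ h4
    have h4 : w (mir D) (d0 + 1 + ∑ i ∈ S, D.a i 0) d2 d1 i = w D d0 d1 d2 i +
        (1 + ∑ i ∈ S, D.a i 0) * D.a i 0 := by
      show (d0 + 1 + ∑ i ∈ S, D.a i 0) * D.a i 0 + d2 * (D.a i 2 + D.a i 0) +
        d1 * (D.a i 1 + D.a i 0) = d0 * D.a i 0 + d1 * (D.a i 1 + D.a i 0) +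
        d2 * (D.a i 2 + D.a i 0) + _
      ring
    have h5 : ∑ i ∈ S, (mir D).a i 0 = ∑ i ∈ S, D.a i 0 := rfl
    have h6 : (mir D).a i 0 = D.a i 0 := rfl
    rw [h3, h4, h5, h6, h2]
    have e1 := self_mul (D.a i 0)
    have e2 := add_self (D.a i 0)
    have e3 := add_self (D.a i 0 * ∑ j ∈ S.erase (i : ι), D.a j 0)
    linear_combination e1 + e2 + e3
  · rw [if_neg h, if_neg fun h' => h h'.symm]
    rfl

/-- an empty set of primes -/
theorem good_empty {S : Finset ι} (hS : ∀ i, i ∉ S) {d0 d1 d2 : ZMod 2}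
    (hd : ¬ (d1 = 0 ∧ d2 = 0)) : Good D S d0 d1 d2 := by
  intro x x1 hk
  left
  refine ⟨fun i hi => absurd hi (hS i), ?_⟩
  have h0 : ∑ i ∈ S, D.a i 2 * x i = 0 := sum_eq_zero fun i hi => absurd hi (hS i)
  rw [← h0]
  apply hk.2.1
  rintro ⟨h1, -, h2⟩
  rw [sum_eq_zero fun i hi => absurd hi (hS i), add_zero] at h2
  exact hd ⟨h2, h1⟩

theorem N_one (hr : Rc D) (S : Finset ι) (d0 d1 d2 : ZMod 2) (i : S) :
    (D.N (kp D S d0 d1 d2) S).mulVec (fun _ : S => 1) i =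
      (∑ i ∈ S, D.a i 0 + d0 + d1 + d2) * D.a i 0 + d1 * D.a i 1 + d2 * D.a i 2 := by
  rw [D.N_mulVec]
  have h1 : ∑ l : S, D.s i l * ((1 : ZMod 2) + 1) = 0 := by
    refine sum_eq_zero fun l _ => ?_
    rw [add_self, mul_zero]
  rw [h1, add_zero, mul_one, dg_kp]
  unfold w
  ring

/-- the matrices of the four cases -/
def MG (S : Finset ι) (d0 d1 d2 : ZMod 2) : Matrix S S (ZMod 2) :=
  D.N (kp D S d0 d1 d2) S + Matrix.vecMulVec (fun i : S => D.a i 1) (fun i : S => D.a i 2)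

def ML (S : Finset ι) (d0 d1 d2 : ZMod 2) : Matrix (S ⊕ Unit) S (ZMod 2) :=
  Matrix.fromRows (D.N (kp D S d0 d1 d2) S) (Matrix.of fun _ j => D.a j 2)

def MR (S : Finset ι) (d0 d1 d2 : ZMod 2) : Matrix S (S ⊕ Unit) (ZMod 2) :=
  Matrix.fromCols (D.N (kp D S d0 d1 d2) S) (Matrix.of fun i _ => D.a i 1)

theorem good_MG (hr : Rc D) {S : Finset ι} {d0 d1 d2 : ZMod 2} (hA : ¬ SqA D S d0 d1 d2)
    (hB : ¬ SqB D S d0 d1 d2) : Good D S d0 d1 d2 ↔
      Nat.card {v : S → ZMod 2 // (MG D S d0 d1 d2).mulVec v = 0} = 1 := by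
  rw [good_G D hr hA hB, card_one]
  have h : ∀ v : S → ZMod 2, (MG D S d0 d1 d2).mulVec v = 0 ↔
      ∀ i : S, (D.N (kp D S d0 d1 d2) S).mulVec v i + D.a i 1 * ∑ j : S, D.a j 2 * v j = 0 := by
    intro v
    have e : (MG D S d0 d1 d2).mulVec v = fun i =>
        (D.N (kp D S d0 d1 d2) S).mulVec v i + D.a i 1 * ∑ j : S, D.a j 2 * v j := by
      funext i
      unfold MG
      rw [Matrix.add_mulVec, Pi.add_apply]
      congr 1
      show ∑ j, Matrix.vecMulVec (fun i : S => D.a i 1) (fun i : S => D.a i 2) i j * v j = _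
      rw [mul_sum]
      exact sum_congr rfl fun j _ => by rw [Matrix.vecMulVec_apply]; ring
    rw [e, funext_iff]
    rfl
  exact forall_congr' fun v => by rw [h]

theorem good_ML (hr : Rc D) {S : Finset ι} {d0 d1 d2 : ZMod 2} (hA : SqA D S d0 d1 d2)
    (hB : ¬ SqB D S d0 d1 d2) : Good D S d0 d1 d2 ↔
      Nat.card {v : S → ZMod 2 // (ML D S d0 d1 d2).mulVec v = 0} = 1 := by
  rw [good_L D hr hA hB, card_one]
  have h : ∀ v : S → ZMod 2, (ML D S d0 d1 d2).mulVec v = 0 ↔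
      (∀ i : S, (D.N (kp D S d0 d1 d2) S).mulVec v i = 0) ∧ ∑ j : S, D.a j 2 * v j = 0 := by
    intro v
    unfold ML
    rw [Matrix.fromRows_mulVec]
    constructor
    · intro h
      exact ⟨fun i => congrFun h (Sum.inl i), congrFun h (Sum.inr ())⟩
    · rintro ⟨h1, h2⟩
      funext i
      rcases i with i | i
      · exact h1 i
      · exact h2
  constructor
  · intro hg v hv
    exact hg v ((h v).1 hv).1 ((h v).1 hv).2
  · intro hg v h1 h2
    exact hg v ((h v).2 ⟨h1, h2⟩)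

theorem good_MR (hr : Rc D) {S : Finset ι} (hS : S.Nonempty) {d0 d1 d2 : ZMod 2}
    (hA : ¬ SqA D S d0 d1 d2) (hB : SqB D S d0 d1 d2) : Good D S d0 d1 d2 ↔
      Nat.card {v : S ⊕ Unit → ZMod 2 // (MR D S d0 d1 d2).mulVec v = 0} = 2 := by
  obtain ⟨i₀, hi₀⟩ := hS
  have h : ∀ v : S ⊕ Unit → ZMod 2, (MR D S d0 d1 d2).mulVec v = 0 ↔
      ∀ i : S, (D.N (kp D S d0 d1 d2) S).mulVec (v ∘ Sum.inl) i + D.a i 1 * v (Sum.inr ()) = 0 := by
    intro v
    unfold MR
    rw [Matrix.fromCols_mulVec, funext_iff]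
    refine forall_congr' fun i => ?_
    rw [Pi.add_apply]
    have e : (Matrix.of fun (i : S) (_ : Unit) => D.a i 1).mulVec (v ∘ Sum.inr) i =
        D.a i 1 * v (Sum.inr ()) := by
      show ∑ j : Unit, D.a i 1 * v (Sum.inr j) = _
      exact Fintype.sum_unique _
    rw [e]
    rfl
  have hu : (MR D S d0 d1 d2).mulVec (Sum.elim (fun _ => 1) (fun _ => d1)) = 0 := by
    rw [h]
    intro i
    have e : (Sum.elim (fun _ : S => (1 : ZMod 2)) (fun _ : Unit => d1)) ∘ Sum.inl =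
        fun _ => 1 := rfl
    rw [e, N_one D hr, Sum.elim_inr, hB.1]
    have e1 := hB.2.1
    have e2 := add_self (d1 * D.a i 1)
    linear_combination (D.a i 0) * e1 + e2
  have hu0 : Sum.elim (fun _ : S => (1 : ZMod 2)) (fun _ : Unit => d1) ≠ 0 := by
    intro h'
    have h2 : (1 : ZMod 2) = 0 := congrFun h' (Sum.inl ⟨i₀, hi₀⟩)
    exact absurd h2 (by decide)
  rw [good_R D hr hA hB, card_two _ _ hu hu0]
  constructor
  · intro hg v hv
    rcases hg _ _ ((h v).1 hv) with ⟨h1, h2⟩ | ⟨h1, h2⟩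
    · left
      funext i
      rcases i with i | i
      · exact congrFun h1 i
      · exact h2
    · right
      funext i
      rcases i with i | i
      · exact congrFun h1 i
      · exact h2
  · intro hg v e hv
    have h1 : (MR D S d0 d1 d2).mulVec (Sum.elim v fun _ => e) = 0 := by
      rw [h]
      exact hv
    rcases hg _ h1 with h2 | h2
    · left
      exact ⟨funext fun i => congrFun h2 (Sum.inl i), congrFun h2 (Sum.inr ())⟩
    · right
      exact ⟨funext fun i => congrFun h2 (Sum.inl i), congrFun h2 (Sum.inr ())⟩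

theorem good_MLR (hr : Rc D) {S : Finset ι} (hS : S.Nonempty) {d0 d1 d2 : ZMod 2}
    (hA : SqA D S d0 d1 d2) (hB : SqB D S d0 d1 d2) : Good D S d0 d1 d2 ↔
      Nat.card {v : S → ZMod 2 // (D.N (kp D S d0 d1 d2) S).mulVec v = 0} = 2 := by
  obtain ⟨i₀, hi₀⟩ := hS
  have hu : (D.N (kp D S d0 d1 d2) S).mulVec (fun _ => 1) = 0 := by
    funext i
    rw [N_one D hr, hB.1, hA.1]
    have e1 := hB.2.1
    rw [hA.1] at e1
    show _ = (0 : ZMod 2)
    linear_combination (D.a i 0) * e1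
  have hu0 : (fun _ : S => (1 : ZMod 2)) ≠ 0 := by
    intro h'
    have h2 : (1 : ZMod 2) = 0 := congrFun h' ⟨i₀, hi₀⟩
    exact absurd h2 (by decide)
  rw [good_LR D hr hA hB, card_two _ _ hu hu0]
  exact forall_congr' fun v => imp_congr ⟨fun h => funext h, fun h i => congrFun h i⟩ Iff.rfl

theorem MG_mir (hr : Rc D) (S : Finset ι) (d0 d1 d2 : ZMod 2) :
    MG (mir D) S (d0 + 1 + ∑ i ∈ S, D.a i 0) d2 d1 = (MG D S d0 d1 d2).transpose := by
  unfold MG
  rw [mir_N D hr, Matrix.transpose_add]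
  congr 1
  ext i j
  show D.a i 2 * D.a j 1 = D.a j 1 * D.a i 2
  ring

theorem MR_mir (hr : Rc D) (S : Finset ι) (d0 d1 d2 : ZMod 2) :
    MR (mir D) S (d0 + 1 + ∑ i ∈ S, D.a i 0) d2 d1 = (ML D S d0 d1 d2).transpose := by
  unfold MR ML
  rw [mir_N D hr, Matrix.transpose_fromRows]
  rfl

theorem ML_mir (hr : Rc D) (S : Finset ι) (d0 d1 d2 : ZMod 2) :
    ML (mir D) S (d0 + 1 + ∑ i ∈ S, D.a i 0) d2 d1 = (MR D S d0 d1 d2).transpose := by
  unfold MR ML
  rw [mir_N D hr, Matrix.transpose_fromCols]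
  rfl

theorem card_T {m n : Type} [Fintype m] [Fintype n] [DecidableEq m] [DecidableEq n]
    (A : Matrix m n (ZMod 2)) (k l : ℕ) (h : k * 2 ^ Fintype.card m = l * 2 ^ Fintype.card n) :
    Nat.card {v : n → ZMod 2 // A.mulVec v = 0} = k ↔
      Nat.card {v : m → ZMod 2 // A.transpose.mulVec v = 0} = l := by
  have h1 := card_ker_transpose A
  have hm : 0 < 2 ^ Fintype.card m := pow_pos (by norm_num) _
  have hn : 0 < 2 ^ Fintype.card n := pow_pos (by norm_num) _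
  constructor
  · intro h2
    rw [h2, h] at h1
    exact (Nat.eq_of_mul_eq_mul_right hn h1).symm
  · intro h2
    rw [h2, ← h] at h1
    exact Nat.eq_of_mul_eq_mul_right hm h1

/-- **The criterion for the mirror image.** -/
theorem good_mir (hr : Rc D) {S : Finset ι} (hS : S.Nonempty) (d0 d1 d2 : ZMod 2) :
    Good (mir D) S (d0 + 1 + ∑ i ∈ S, D.a i 0) d2 d1 ↔ Good D S d0 d1 d2 := by
  have hr' := mir_rc D hr
  by_cases hA : SqA D S d0 d1 d2 <;> by_cases hB : SqB D S d0 d1 d2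
  · rw [good_MLR D hr hS hA hB, good_MLR (mir D) hr' hS ((mir_sqA D S d0 d1 d2).2 hB)
      ((mir_sqB D S d0 d1 d2).2 hA), mir_N D hr]
    exact (card_T _ _ _ rfl).symm
  · rw [good_ML D hr hA hB, good_MR (mir D) hr' hS (fun h => hB ((mir_sqA D S d0 d1 d2).1 h))
      ((mir_sqB D S d0 d1 d2).2 hA), MR_mir D hr]
    refine (card_T _ _ _ ?_).symm
    rw [Fintype.card_sum, Fintype.card_unit, pow_succ]
    ring
  · rw [good_MR D hr hS hA hB, good_ML (mir D) hr' ((mir_sqA D S d0 d1 d2).2 hB)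
      (fun h => hA ((mir_sqB D S d0 d1 d2).1 h)), ML_mir D hr]
    refine (card_T _ _ _ ?_).symm
    rw [Fintype.card_sum, Fintype.card_unit, pow_succ]
    ring
  · rw [good_MG D hr hA hB, good_MG (mir D) hr' (fun h => hB ((mir_sqA D S d0 d1 d2).1 h))
      (fun h => hA ((mir_sqB D S d0 d1 d2).1 h)), MG_mir D hr]
    exact (card_T _ _ _ rfl).symm

/-- the criterion for the mirror image, all elements different from `1, -1` -/
theorem good_mir' (hr : Rc D) {S : Finset ι} {d0 d1 d2 : ZMod 2}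
    (hnd : ¬ ((∀ i, i ∉ S) ∧ d1 = 0 ∧ d2 = 0)) :
    Good (mir D) S (d0 + 1 + ∑ i ∈ S, D.a i 0) d2 d1 ↔ Good D S d0 d1 d2 := by
  rcases S.eq_empty_or_nonempty with h | h
  · have hS : ∀ i, i ∉ S := by
      rw [h]
      exact fun i => notMem_empty i
    exact ⟨fun _ => good_empty D hS fun h' => hnd ⟨hS, h'⟩,
      fun _ => good_empty (mir D) hS fun h' => hnd ⟨hS, h'.2, h'.1⟩⟩
  · exact good_mir D hr h d0 d1 d2

end

end Pool.Agent.Lib.MP_1a91b9_ntV.Cr
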