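import Pool.Agent.Lib.MP_1a91b9_ntT3.S9.Defs
import Pool.Agent.Lib.MP_1a91b9_ntT.S9.MA

/-!
# Elliptic curves with full rational 2-torsion: `y² = (x - e 0) (x - e 1) (x - e 2)`
-/

set_option autoImplicit false

namespace Pool.Agent.Lib.MP_1a91b9_ntV.C

open WeierstrassCurve
open Pool.Agent.Lib.MP_1a91b9_ntT.S9 (pr pr_comm pr_map pr_add eq_zero_of_pr Pts Gal coc cob trivOver
  shaCoc Sha up actP)
open scoped Classical

/-- The curve `y² = (x - e 0) (x - e 1) (x - e 2)`. -/
def cw {F : Type*} [Field F] (e : Fin 3 → F) : WeierstrassCurve F :=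
  ⟨0, -(e 0 + e 1 + e 2), 0, e 0 * e 1 + e 0 * e 2 + e 1 * e 2, -(e 0 * e 1 * e 2)⟩

/-- The images of the `e i` in an extension. -/
abbrev eb {k : Type*} (F : Type*) [Field k] [Field F] [Algebra k F] (e : Fin 3 → k) (i : Fin 3) : F :=
  algebraMap k F (e i)

theorem eb_inj {k : Type*} (F : Type*) [Field k] [Field F] [Algebra k F] {e : Fin 3 → k}
    (he : Function.Injective e) : Function.Injective (eb F e) := fun _ _ h =>
  he ((algebraMap k F).injective h)

theorem cw_bc {k : Type*} (F : Type*) [Field k] [Field F] [Algebra k F] (e : Fin 3 → k) :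
    Affine.baseChange (cw e) F = cw (eb F e) := by
  simp [cw, eb, WeierstrassCurve.map, WeierstrassCurve.baseChange]

section

variable {F : Type*} [Field F] {e : Fin 3 → F} {W : Affine F}

theorem cw_a₁ (hW : W = cw e) : W.a₁ = 0 := by rw [hW, cw]

theorem cw_a₂ (hW : W = cw e) : W.a₂ = -(e 0 + e 1 + e 2) := by rw [hW, cw]

theorem cw_a₃ (hW : W = cw e) : W.a₃ = 0 := by rw [hW, cw]

theorem cw_a₄ (hW : W = cw e) : W.a₄ = e 0 * e 1 + e 0 * e 2 + e 1 * e 2 := by rw [hW, cw]

theorem cw_a₆ (hW : W = cw e) : W.a₆ = -(e 0 * e 1 * e 2) := by rw [hW, cw]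

theorem eqn_iff (hW : W = cw e) (x y : F) :
    W.Equation x y ↔ y ^ 2 = (x - e 0) * (x - e 1) * (x - e 2) := by
  rw [Affine.equation_iff, cw_a₁ hW, cw_a₂ hW, cw_a₃ hW, cw_a₄ hW, cw_a₆ hW]
  constructor <;> intro h <;> linear_combination h

theorem negY_eq (hW : W = cw e) (x y : F) : W.negY x y = -y := by
  rw [Affine.negY, cw_a₁ hW, cw_a₃ hW]
  ring

/-- a root of the cubic -/
theorem root_iff (x : F) : (x - e 0) * (x - e 1) * (x - e 2) = 0 ↔ ∃ i, x = e i := by
  constructor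
  · intro h
    rcases mul_eq_zero.1 h with h | h
    · rcases mul_eq_zero.1 h with h | h
      · exact ⟨0, sub_eq_zero.1 h⟩
      · exact ⟨1, sub_eq_zero.1 h⟩
    · exact ⟨2, sub_eq_zero.1 h⟩
  · rintro ⟨i, rfl⟩
    fin_cases i <;> simp

/-- the derivative of the cubic at a root is not zero -/
theorem der_ne (he : Function.Injective e) (i : Fin 3) :
    3 * e i ^ 2 - 2 * (e 0 + e 1 + e 2) * e i + (e 0 * e 1 + e 0 * e 2 + e 1 * e 2) ≠ 0 := by
  have h01 : e 0 - e 1 ≠ 0 := sub_ne_zero.2 fun h => absurd (he h) (by decide)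
  have h02 : e 0 - e 2 ≠ 0 := sub_ne_zero.2 fun h => absurd (he h) (by decide)
  have h12 : e 1 - e 2 ≠ 0 := sub_ne_zero.2 fun h => absurd (he h) (by decide)
  have h0 : 3 * e 0 ^ 2 - 2 * (e 0 + e 1 + e 2) * e 0 + (e 0 * e 1 + e 0 * e 2 + e 1 * e 2) =
      (e 0 - e 1) * (e 0 - e 2) := by ring
  have h1 : 3 * e 1 ^ 2 - 2 * (e 0 + e 1 + e 2) * e 1 + (e 0 * e 1 + e 0 * e 2 + e 1 * e 2) =
      -((e 0 - e 1) * (e 1 - e 2)) := by ring
  have h2 : 3 * e 2 ^ 2 - 2 * (e 0 + e 1 + e 2) * e 2 + (e 0 * e 1 + e 0 * e 2 + e 1 * e 2) =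
      (e 0 - e 2) * (e 1 - e 2) := by ring
  fin_cases i
  · exact fun h => mul_ne_zero h01 h02 (h0.symm.trans h)
  · exact fun h => neg_ne_zero.2 (mul_ne_zero h01 h12) (h1.symm.trans h)
  · exact fun h => mul_ne_zero h02 h12 (h2.symm.trans h)

/-- all points are nonsingular -/
theorem nons_gen (h2 : (2 : F) ≠ 0) (he : Function.Injective e) (hW : W = cw e) (x y : F) :
    W.Nonsingular x y ↔ y ^ 2 = (x - e 0) * (x - e 1) * (x - e 2) := by
  rw [Affine.nonsingular_iff, eqn_iff hW]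
  simp only [and_iff_left_iff_imp]
  intro h
  by_contra hc
  push Not at hc
  obtain ⟨h1, h3⟩ := hc
  rw [cw_a₁ hW, cw_a₂ hW, cw_a₄ hW] at h1
  rw [cw_a₁ hW, cw_a₃ hW] at h3
  have hy : y = 0 := by
    have h5 : 2 * y = 0 := by linear_combination h3
    exact (mul_eq_zero.1 h5).resolve_left h2
  have hr : (x - e 0) * (x - e 1) * (x - e 2) = 0 := by
    rw [← h, hy]
    ring
  obtain ⟨i, rfl⟩ := (root_iff x).1 hr
  refine der_ne he i ?_
  linear_combination -h1

theorem nons_iff [CharZero F] (he : Function.Injective e) (hW : W = cw e) (x y : F) :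
    W.Nonsingular x y ↔ y ^ 2 = (x - e 0) * (x - e 1) * (x - e 2) :=
  nons_gen two_ne_zero he hW x y

/-- The point `(e i, 0)`. -/
noncomputable def tp [CharZero F] (he : Function.Injective e) (hW : W = cw e) (i : Fin 3) : W.Point :=
  Affine.Point.some (e i) 0 ((nons_iff he hW _ _).2 (by
    rw [(root_iff (e i)).2 ⟨i, rfl⟩]
    ring))

/-- The function `((X - e i)² - P'(e i)) / (2 Y)`, whose square is `x(2P) - e i`, where `P'` is the derivative
of the cubic. -/
noncomputable def sfn (e : Fin 3 → F) (i : Fin 3) : W.Point → F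
  | .zero => 0
  | .some X Y _ => ((X - e i) ^ 2 - (3 * e i ^ 2 - 2 * (e 0 + e 1 + e 2) * e i +
      (e 0 * e 1 + e 0 * e 2 + e 1 * e 2))) / (2 * Y)

end

/-- The points of order two over an extension `F` of `k`. -/
noncomputable def tpt {k : Type*} [Field k] {e : Fin 3 → k} (he : Function.Injective e) (F : Type*)
    [Field F] [CharZero F] [Algebra k F] (i : Fin 3) : Pts (cw e) F :=
  tp (eb_inj F he) (cw_bc F e) i

/-- The local condition over an extension `L` of `k` for a triple `a` of elements of `k`: either all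
`a i` are squares in `L` or there is a point `(x, y)` over `L` with `a i (x - e i)` squares. -/
def LocAt {k : Type*} [Field k] (e a : Fin 3 → k) (L : Type*) [Field L] [Algebra k L] : Prop :=
  (∀ i, IsSquare (algebraMap k L (a i))) ∨
    ∃ x y : L, y ^ 2 = (x - eb L e 0) * (x - eb L e 1) * (x - eb L e 2) ∧
      ∀ i, IsSquare (algebraMap k L (a i) * (x - eb L e i))

/-- The Kummer data of a cocycle with values in the 2-torsion. -/
structure KData {k : Type*} [Field k] [CharZero k] {e : Fin 3 → k} (he : Function.Injective e)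
    (c : Gal k → Pts (cw e) (AlgebraicClosure k)) (a : Fin 3 → k)
    (b : Fin 3 → AlgebraicClosure k) : Prop where
  ne : ∀ i, b i ≠ 0
  sq : ∀ i, algebraMap k (AlgebraicClosure k) (a i) = b i ^ 2
  act : ∀ i (σ : Gal k), σ (b i) =
    (((pr (c σ) (tpt he (AlgebraicClosure k) i) : ℤˣ) : ℤ) : AlgebraicClosure k) * b i

end Pool.Agent.Lib.MP_1a91b9_ntV.C
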