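import Pool.Agent.Lib.MP_1a91b9_ntV.C.Kum
import Pool.Agent.Lib.MP_1a91b9_ntV.C.Dens
import Pool.Agent.Lib.MP_1a91b9_ntV.C.Fin

/-!
# Full rational 2-torsion: locally trivial cocycles, the descent, the 2-torsion of the Tate-Shafarevich group
-/

set_option autoImplicit false

namespace Pool.Agent.Lib.MP_1a91b9_ntV.C

open WeierstrassCurve WithZero NumberField IsDedekindDomain
open Pool.Agent.Lib.MP_1a91b9_ntT.S9 (pr pr_comm pr_map pr_add eq_zero_of_pr Pts Gal coc cob trivOver
  shaCoc Sha up actP)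
open Pool.Agent.Lib.MP_1a91b9_ntT3.S9 (ShaP)
open scoped Classical

/-- the conclusion of the global analysis of the Selmer elements -/
def SelCl {N : Type*} [Field N] [NumberField N] (e : Fin 3 → N) : Prop :=
  ∀ a : Fin 3 → N, (∀ i, a i ≠ 0) → IsSquare (a 0 * a 1 * a 2) →
    (∀ v : HeightOneSpectrum (𝓞 N), GLoc (v.valuation N) e a) →
    (∀ i, IsSquare (a i)) ∨ ∃ j, ∀ i, i ≠ j → IsSquare (a i * (e j - e i))

section

variable {N : Type*} [Field N] [NumberField N] {e : Fin 3 → N} (he : Function.Injective e)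
  (hS : SelCl e)

include hS

/-- a locally trivial cocycle with values in the 2-torsion is the coboundary of a point `R` with `2R` of
order at most two -/
theorem main_coc (c : Gal N → Pts (cw e) (AlgebraicClosure N)) (hc : c ∈ shaCoc (cw e))
    (h2 : ∀ σ, c σ + c σ = 0) :
    ∃ R : Pts (cw e) (AlgebraicClosure N),
      (R + R = 0 ∨ ∃ j, R + R = tpt he (AlgebraicClosure N) j) ∧
      ∀ σ, c σ = actP (cw e) σ R - R := by
  obtain ⟨a, b, hk⟩ := exists_kdata he c hc.1.1 h2
  have ha : ∀ i, a i ≠ 0 := fun i h0 => by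
    have h := hk.sq i
    rw [h0, _root_.map_zero] at h
    exact hk.ne i ((pow_eq_zero_iff two_ne_zero).1 h.symm)
  have hp := kdata_prod he c h2 a b hk
  have hloc : ∀ v : HeightOneSpectrum (𝓞 N), GLoc (v.valuation N) e a := fun v => by
    have : CharZero (v.adicCompletion N) :=
      charZero_of_injective_algebraMap (algebraMap N (v.adicCompletion N)).injective
    have h : c ∈ ⨅ v : HeightOneSpectrum (𝓞 N), trivOver (cw e) (v.adicCompletion N) := hc.1.2
    have hcv : c ∈ trivOver (cw e) (v.adicCompletion N) := AddSubgroup.mem_iInf.1 h v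
    exact gloc_of_locAt v he a ha (kdata_loc he c h2 a b hk hcv)
  rcases hS a ha hp hloc with h | ⟨j, h⟩
  · refine ⟨0, Or.inl (add_zero 0), fun σ => ?_⟩
    rw [kdata_zero he c h2 a b hk h σ, _root_.map_zero, sub_zero]
  · obtain ⟨R, hR, hc'⟩ := kdata_cob he c h2 a b hk j h
    exact ⟨R, Or.inr ⟨j, hR⟩, hc'⟩

include he in
private theorem desc_pts0 (P : Pts (cw e) N) :
    ∃ T Q : Pts (cw e) N, T + T = 0 ∧ P = T + (Q + Q) := by
  have hup : ∀ (σ : Gal N) (P : Pts (cw e) N),
      actP (cw e) σ (up (cw e) N (AlgebraicClosure N) P) = up (cw e) N (AlgebraicClosure N) P := by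
    intro σ P
    show Affine.Point.map _ (Affine.Point.map _ _) = _
    rw [Affine.Point.map_map]
    have hcomp : (σ : AlgebraicClosure N →ₐ[N] AlgebraicClosure N).comp
        (IsScalarTower.toAlgHom N N (AlgebraicClosure N)) =
        IsScalarTower.toAlgHom N N (AlgebraicClosure N) := AlgHom.ext fun x => σ.commutes x
    rw [hcomp]
  obtain ⟨R₀, hR₀⟩ := exists_half_closed (eb_inj (AlgebraicClosure N) he)
    (cw_bc (AlgebraicClosure N) e) (up (cw e) N (AlgebraicClosure N) P)
  obtain ⟨R, hR, hc⟩ := main_coc he hS (fun σ => actP (cw e) σ R₀ - R₀)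
    (Pool.Agent.Lib.MP_1a91b9_ntT.S9.cob_le_shaCoc (cw e) ⟨R₀, fun σ => rfl⟩) fun σ => by
      have h1 : actP (cw e) σ (R₀ + R₀) = R₀ + R₀ := by rw [hR₀, hup]
      rw [_root_.map_add] at h1
      have h2 : actP (cw e) σ R₀ - R₀ + (actP (cw e) σ R₀ - R₀) =
        (actP (cw e) σ R₀ + actP (cw e) σ R₀) - (R₀ + R₀) := by abel
      rw [h2, h1, sub_self]
  obtain ⟨Q, hQ⟩ := Pool.Agent.Lib.MP_1a91b9_ntT.S9.fixed_pt (L := N) (cw e) (R₀ - R) fun σ => by
    have h1 : Affine.Point.map ((σ : AlgebraicClosure N →ₐ[N] AlgebraicClosure N).restrictScalars N)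
        (R₀ - R) = actP (cw e) σ (R₀ - R) := rfl
    rw [h1, _root_.map_sub]
    have h2 := hc σ
    have h3 : actP (cw e) σ R₀ - actP (cw e) σ R = (actP (cw e) σ R₀ - R₀) -
      (actP (cw e) σ R - R) + (R₀ - R) := by abel
    rw [h3, ← h2, sub_self, zero_add]
  have hinj : Function.Injective (up (cw e) N (AlgebraicClosure N)) := Affine.Point.map_injective _
  have hP : up (cw e) N (AlgebraicClosure N) P =
      (R + R) + up (cw e) N (AlgebraicClosure N) (Q + Q) := by
    rw [_root_.map_add, hQ, ← hR₀]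
    abel
  rcases hR with hR | ⟨j, hR⟩
  · refine ⟨0, Q, add_zero 0, hinj ?_⟩
    rw [hP, hR, zero_add, zero_add]
  · refine ⟨tpt he N j, Q, tpt_two he j, hinj ?_⟩
    have h1 : up (cw e) N (AlgebraicClosure N) (tpt he N j) = tpt he (AlgebraicClosure N) j :=
      tpt_map he _ j
    rw [hP, hR, _root_.map_add (up (cw e) N (AlgebraicClosure N)) (tpt he N j), h1]

omit hS [NumberField N] in
private theorem desc_transport {W₁ W₂ : Affine N} (e₀ : W₁ = W₂)
    (h : ∀ P : W₁.Point, ∃ T Q : W₁.Point, T + T = 0 ∧ P = T + (Q + Q)) :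
    ∀ P : W₂.Point, ∃ T Q : W₂.Point, T + T = 0 ∧ P = T + (Q + Q) := by
  subst e₀
  exact h

include he in
theorem desc_pts {W : Affine N} (hW : W = cw e) (P : W.Point) :
    ∃ T Q : W.Point, T + T = 0 ∧ P = T + (Q + Q) :=
  desc_transport ((cw_bc N e).trans hW.symm) (desc_pts0 he hS) P

include he in
theorem two_class (c : Gal N → Pts (cw e) (AlgebraicClosure N)) (hc : c ∈ shaCoc (cw e))
    (h2 : c + c ∈ cob (cw e)) : c ∈ cob (cw e) := by
  obtain ⟨Q, hQ⟩ := h2
  obtain ⟨R, hR⟩ := exists_half_closed (eb_inj (AlgebraicClosure N) he)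
    (cw_bc (AlgebraicClosure N) e) Q
  have hd' : (fun σ : Gal N => actP (cw e) σ R - R) ∈ cob (cw e) := ⟨R, fun σ => rfl⟩
  have hc' : c - (fun σ : Gal N => actP (cw e) σ R - R) ∈ cob (cw e) := by
    obtain ⟨R', _, h⟩ := main_coc he hS _
      (sub_mem hc (Pool.Agent.Lib.MP_1a91b9_ntT.S9.cob_le_shaCoc (cw e) hd')) fun σ => by
        have h1 : c σ + c σ = actP (cw e) σ Q - Q := hQ σ
        have h3 : actP (cw e) σ Q = actP (cw e) σ R + actP (cw e) σ R := by
          rw [← hR, _root_.map_add]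
        rw [h3, ← hR] at h1
        simp only [Pi.sub_apply]
        have h4 : c σ - (actP (cw e) σ R - R) + (c σ - (actP (cw e) σ R - R)) =
            (c σ + c σ) - (actP (cw e) σ R + actP (cw e) σ R - (R + R)) := by abel
        rw [h4, h1, sub_self]
    exact ⟨R', h⟩
  have h5 := add_mem hc' hd'
  rwa [sub_add_cancel] at h5

include he in
theorem sha_two (x : Sha (cw e)) (h : x + x = 0) : x = 0 := by
  have key : ∀ y : shaCoc (cw e) ⧸ (cob (cw e)).addSubgroupOf (shaCoc (cw e)),
      y + y = 0 → y = 0 := by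
    intro y hy
    obtain ⟨⟨c, hc⟩, rfl⟩ := QuotientAddGroup.mk_surjective y
    rw [← QuotientAddGroup.mk_add, QuotientAddGroup.eq_zero_iff,
      AddSubgroup.mem_addSubgroupOf] at hy
    rw [QuotientAddGroup.eq_zero_iff, AddSubgroup.mem_addSubgroupOf]
    exact two_class he hS c hc hy
  exact key x h

include he in
theorem card_shaP : Nat.card (ShaP 2 (cw e)) = 1 := by
  have key : ∀ n : ℕ, ∀ y : Sha (cw e), 2 ^ n • y = 0 → y = 0 := by
    intro n
    induction n with
    | zero =>
      intro y hy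
      simpa using hy
    | succ n ih =>
      intro y hy
      refine sha_two he hS y (ih _ ?_)
      rw [← two_nsmul, ← mul_nsmul', ← pow_succ]
      exact hy
  have h1 : ∀ x : AddCommGroup.primaryComponent (Sha (cw e)) 2, x = 0 := by
    rintro ⟨x, n, hn⟩
    exact Subtype.ext (key n x hn)
  exact Nat.card_eq_one_iff_unique.2
    ⟨⟨fun x y => (h1 x).trans (h1 y).symm⟩, ⟨(0 : AddCommGroup.primaryComponent (Sha (cw e)) 2)⟩⟩

include he in
/-- The group of points is finite, with `4` times an odd number of elements. -/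
theorem points_cw {W : Affine N} (hW : W = cw e) :
    Finite W.Point ∧ ∃ m : ℕ, Odd m ∧ Nat.card W.Point = 4 * m :=
  ⟨fin_of_half he hW (desc_pts he hS hW), card_of_half he hW (desc_pts he hS hW)⟩

end

end Pool.Agent.Lib.MP_1a91b9_ntV.C
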