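import Pool.Agent.Lib.MP_1a91b9_ntV.C.Gens

/-!
# The field `ℚ(√-7)`: the elements `± a ^ x1 b ^ x2 ∏ q ^ V q`, their symbols, bits and values
-/

set_option autoImplicit false
set_option linter.unusedSectionVars false
set_option linter.unusedVariables false

namespace Pool.Agent.Lib.MP_1a91b9_ntV.C

open NumberField Finset WithZero IsDedekindDomain
open Pool.Agent.Lib.MP_1a91b9_ntH.C (Sq isSquare_exp nu_one Sq.near Sq.one Sq.mul Sq.cancel
  Sq.of_mul_sq Sq.of_isSquare Sq.even Sq.ne exists_nu nu_four nu_four_le)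

noncomputable section

variable {N : Type*} [Field N] [NumberField N]

namespace Gens

variable {B : B7 N} {ι : Type*} [DecidableEq ι] (G : Gens B ι)

/-- the element with the exponents `x0, x1, x2, V` -/
def el (S : Finset ι) (x0 x1 x2 : ZMod 2) (V : ι → ZMod 2) : 𝓞 N :=
  (-1) ^ x0.val * B.a ^ x1.val * B.b ^ x2.val * gpr G.q S V

theorem gpr_ne (S : Finset ι) (V : ι → ZMod 2) : gpr G.q S V ≠ 0 := by
  unfold gpr
  exact prod_ne_zero_iff.2 fun i _ => pow_ne_zero _ (G.prime i).ne_zero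

theorem el_ne (S : Finset ι) (x0 x1 x2 : ZMod 2) (V : ι → ZMod 2) : G.el S x0 x1 x2 V ≠ 0 := by
  unfold el
  exact mul_ne_zero (mul_ne_zero (mul_ne_zero (pow_ne_zero _ (neg_ne_zero.2 one_ne_zero))
    (pow_ne_zero _ B.a_ne)) (pow_ne_zero _ B.symm.a_ne)) (G.gpr_ne S V)

theorem pow_add_sq (x : 𝓞 N) (hx : x ≠ 0) (u v : ZMod 2) : ∃ m : 𝓞 N, m ≠ 0 ∧
    x ^ u.val * x ^ v.val = m ^ 2 * x ^ (u + v).val := by
  rcases (by decide : ∀ u : ZMod 2, u = 0 ∨ u = 1) u with rfl | rfl <;>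
    rcases (by decide : ∀ u : ZMod 2, u = 0 ∨ u = 1) v with rfl | rfl
  · exact ⟨1, one_ne_zero, by simp⟩
  · refine ⟨1, one_ne_zero, ?_⟩
    have h1 : ((1 : ZMod 2)).val = 1 := rfl
    rw [zero_add, h1, ZMod.val_zero]
    ring
  · refine ⟨1, one_ne_zero, ?_⟩
    have h1 : ((1 : ZMod 2)).val = 1 := rfl
    rw [add_zero, h1, ZMod.val_zero]
    ring
  · refine ⟨x, hx, ?_⟩
    have h1 : ((1 : ZMod 2)).val = 1 := rfl
    have h2 : ((1 : ZMod 2) + 1).val = 0 := rfl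
    rw [h1, h2]
    ring

theorem gpr_mul (S : Finset ι) (V W : ι → ZMod 2) : ∃ m : 𝓞 N, m ≠ 0 ∧
    gpr G.q S V * gpr G.q S W = m ^ 2 * gpr G.q S (fun i => V i + W i) := by
  choose m hm h using fun i => pow_add_sq (G.q i) (G.prime i).ne_zero (V i) (W i)
  refine ⟨∏ i ∈ S, m i, prod_ne_zero_iff.2 fun i _ => hm i, ?_⟩
  unfold gpr
  rw [← prod_mul_distrib, ← prod_pow, ← prod_mul_distrib]
  exact prod_congr rfl fun i _ => h i

theorem el_mul (S : Finset ι) (x0 x1 x2 y0 y1 y2 : ZMod 2) (V W : ι → ZMod 2) :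
    ∃ m : 𝓞 N, m ≠ 0 ∧ G.el S x0 x1 x2 V * G.el S y0 y1 y2 W =
      m ^ 2 * G.el S (x0 + y0) (x1 + y1) (x2 + y2) (fun i => V i + W i) := by
  obtain ⟨m0, h0, e0⟩ := pow_add_sq (-1 : 𝓞 N) (neg_ne_zero.2 one_ne_zero) x0 y0
  obtain ⟨m1, h1, e1⟩ := pow_add_sq B.a B.a_ne x1 y1
  obtain ⟨m2, h2, e2⟩ := pow_add_sq B.b B.symm.a_ne x2 y2
  obtain ⟨m3, h3, e3⟩ := G.gpr_mul S V W
  refine ⟨m0 * m1 * m2 * m3, mul_ne_zero (mul_ne_zero (mul_ne_zero h0 h1) h2) h3, ?_⟩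
  unfold el
  have e : (-1) ^ x0.val * B.a ^ x1.val * B.b ^ x2.val * gpr G.q S V *
      ((-1) ^ y0.val * B.a ^ y1.val * B.b ^ y2.val * gpr G.q S W) =
      ((-1) ^ x0.val * (-1) ^ y0.val) * (B.a ^ x1.val * B.a ^ y1.val) *
        (B.b ^ x2.val * B.b ^ y2.val) * (gpr G.q S V * gpr G.q S W) := by ring
  rw [e, e0, e1, e2, e3]
  ring

theorem el_erase {S : Finset ι} {i : ι} (hi : i ∈ S) (x0 x1 x2 : ZMod 2) (V : ι → ZMod 2) :
    G.el S x0 x1 x2 V = G.q i ^ (V i).val * G.el (S.erase i) x0 x1 x2 V := by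
  unfold el
  rw [gpr_erase G.q hi]
  ring

theorem not_dvd_el {S : Finset ι} {i : ι} (hi : i ∉ S) (x0 x1 x2 : ZMod 2) (V : ι → ZMod 2) :
    ¬ G.q i ∣ G.el S x0 x1 x2 V := by
  unfold el
  intro h
  rcases (G.prime i).dvd_or_dvd h with h1 | h1
  · rcases (G.prime i).dvd_or_dvd h1 with h2 | h2
    · rcases (G.prime i).dvd_or_dvd h2 with h3 | h3
      · exact G.q_not_neg i ((G.prime i).dvd_of_dvd_pow h3)
      · exact G.q_not_a i ((G.prime i).dvd_of_dvd_pow h3)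
    · exact G.q_not_b i ((G.prime i).dvd_of_dvd_pow h2)
  · exact not_dvd_gpr (G.prime i) (fun j hj => G.ne i j fun h => hi (h ▸ hj)) V h1

theorem ls_el (hL : G.Laws) {S : Finset ι} {i : ι} (hi : i ∉ S) (x0 x1 x2 : ZMod 2)
    (V : ι → ZMod 2) : ls (G.q i) (G.el S x0 x1 x2 V) =
      x0 * G.a i + x1 * (G.b i + G.a i) + x2 * (G.b' i + G.a i) + ∑ j ∈ S, V j * G.s j i := by
  have hp := G.prime i
  have h0 : ¬ G.q i ∣ (-1) ^ x0.val := fun h => G.q_not_neg i (hp.dvd_of_dvd_pow h)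
  have h1 : ¬ G.q i ∣ B.a ^ x1.val := fun h => G.q_not_a i (hp.dvd_of_dvd_pow h)
  have h2 : ¬ G.q i ∣ B.b ^ x2.val := fun h => G.q_not_b i (hp.dvd_of_dvd_pow h)
  have h3 : ¬ G.q i ∣ gpr G.q S V :=
    not_dvd_gpr hp (fun j hj => G.ne i j fun h => hi (h ▸ hj)) V
  have h01 : ¬ G.q i ∣ (-1) ^ x0.val * B.a ^ x1.val := fun h => (hp.dvd_or_dvd h).elim h0 h1
  have h012 : ¬ G.q i ∣ (-1) ^ x0.val * B.a ^ x1.val * B.b ^ x2.val :=
    fun h => (hp.dvd_or_dvd h).elim h01 h2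
  unfold el
  rw [ls_mul hp h012 h3, ls_mul hp h01 h2, ls_mul hp h0 h1, ls_pow hp (G.q_not_neg i),
    ls_pow hp (G.q_not_a i), ls_pow hp (G.q_not_b i), hL.m1, hL.la, hL.lb,
    ls_gpr hp G.q S V fun j hj => G.ne i j fun h => hi (h ▸ hj)]
  rfl

/-- the value at the mirror place -/
theorem val_el' (S : Finset ι) (x0 x1 x2 : ZMod 2) (V : ι → ZMod 2) :
    G.el S x0 x1 x2 V = B.b ^ x2.val * G.el S x0 x1 0 V := by
  unfold el
  rw [ZMod.val_zero, pow_zero]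
  ring

theorem val_el (S : Finset ι) (x0 x1 x2 : ZMod 2) (V : ι → ZMod 2) :
    G.el S x0 x1 x2 V = B.a ^ x1.val * G.el S x0 0 x2 V := by
  unfold el
  rw [ZMod.val_zero, pow_zero]
  ring

/-- the bits at the mirror place -/
theorem bits_el' (S : Finset ι) (x0 x1 : ZMod 2) (V : ι → ZMod 2) :
    4 * B.symm.r (G.el S x0 x1 0 V) ≠ 0 ∧
    be8 (B.symm.r (G.el S x0 x1 0 V)) = x0 + x1 + ∑ i ∈ S, V i * G.a i ∧
    bf8 (B.symm.r (G.el S x0 x1 0 V)) = x1 + ∑ i ∈ S, V i * G.b' i := by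
  obtain ⟨h1, h2, h3⟩ := bits_prod S (fun i => B.symm.r (G.q i)) V fun i _ => G.r_od' i
  have e : B.symm.r (G.el S x0 x1 0 V) =
      (7 : ZMod 8) ^ x0.val * 3 ^ x1.val * ∏ i ∈ S, B.symm.r (G.q i) ^ (V i).val := by
    unfold el gpr
    rw [ZMod.val_zero, pow_zero, mul_one, RingHom.map_mul, RingHom.map_mul, RingHom.map_pow,
      RingHom.map_pow, RingHom.map_neg, RingHom.map_one, B.symm_r_a, map_prod]
    have h7 : (-1 : ZMod 8) = 7 := by decide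
    rw [h7]
    congr 1
    exact prod_congr rfl fun i _ => RingHom.map_pow _ _ _
  have h7 : (4 : ZMod 8) * 7 ≠ 0 := by decide
  have h8 : (4 : ZMod 8) * 3 ≠ 0 := by decide
  have k7 := od_pow h7 x0
  have k3 := od_pow h8 x1
  have k73 := od_mul k7 k3
  have e7 : be8 7 = 1 := by decide
  have f7 : bf8 7 = 0 := by decide
  have e3 : be8 3 = 1 := by decide
  have f3 : bf8 3 = 1 := by decide
  rw [e]
  refine ⟨od_mul k73 h1, ?_, ?_⟩
  · rw [be8_mul k73 h1, be8_mul k7 k3, be8_pow h7, be8_pow h8, h2, e7, e3, mul_one, mul_one]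
    rfl
  · rw [bf8_mul k73 h1, bf8_mul k7 k3, bf8_pow h7, bf8_pow h8, h3, f7, f3, mul_one, mul_zero,
      zero_add]
    rfl

theorem not_b_el (S : Finset ι) (x0 x1 : ZMod 2) (V : ι → ZMod 2) :
    ¬ B.symm.a ∣ G.el S x0 x1 0 V := fun h => (G.bits_el' S x0 x1 V).1 (B.symm.a_dvd.1 h)

/-- a square at the mirror place -/
theorem sq_el' (S : Finset ι) (x0 x1 : ZMod 2) (V : ι → ZMod 2) :
    Sq B.symm.nu ((G.el S x0 x1 0 V : 𝓞 N) : N) ↔
      x0 + x1 + ∑ i ∈ S, V i * G.a i = 0 ∧ x1 + ∑ i ∈ S, V i * G.b' i = 0 := by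
  obtain ⟨h1, h2, h3⟩ := G.bits_el' S x0 x1 V
  rw [B.symm.sq_iff_r (G.not_b_el S x0 x1 V), one_of_bits h1, h2, h3]

theorem nu_el' (S : Finset ι) (x0 x1 x2 : ZMod 2) (V : ι → ZMod 2) :
    B.symm.nu ((G.el S x0 x1 x2 V : 𝓞 N) : N) = exp (-1) ^ x2.val := by
  rw [G.val_el']
  have e : ((B.b ^ x2.val * G.el S x0 x1 0 V : 𝓞 N) : N) =
      (B.b : N) ^ x2.val * ((G.el S x0 x1 0 V : 𝓞 N) : N) := by push_cast; ring
  have h : B.symm.nu (B.b : N) = exp (-1) := B.symm.nu_a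
  rw [e, map_mul, map_pow, h, B.symm.nu_O (G.not_b_el S x0 x1 V), mul_one]

theorem sq_el'_iff (S : Finset ι) (x0 x1 x2 : ZMod 2) (V : ι → ZMod 2) :
    Sq B.symm.nu ((G.el S x0 x1 x2 V : 𝓞 N) : N) ↔
      x2 = 0 ∧ x0 + x1 + ∑ i ∈ S, V i * G.a i = 0 ∧ x1 + ∑ i ∈ S, V i * G.b' i = 0 := by
  rcases (by decide : ∀ t : ZMod 2, t = 0 ∨ t = 1) x2 with rfl | rfl
  · rw [G.sq_el']
    exact ⟨fun h => ⟨rfl, h⟩, fun h => h.2⟩
  · constructor
    · intro h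
      have h1 := h.even (nu_four_le B.symm.nu_two).le
      rw [G.nu_el'] at h1
      have h2 : ((1 : ZMod 2)).val = 1 := rfl
      rw [h2, pow_one, isSquare_exp] at h1
      exact absurd h1 (by decide)
    · rintro ⟨h, -⟩
      exact absurd h (by decide)

/-- the bits at the place `a` -/
theorem bits_el (S : Finset ι) (x0 x2 : ZMod 2) (V : ι → ZMod 2) :
    4 * B.r (G.el S x0 0 x2 V) ≠ 0 ∧
    be8 (B.r (G.el S x0 0 x2 V)) = x0 + x2 ∧
    bf8 (B.r (G.el S x0 0 x2 V)) = x2 + ∑ i ∈ S, V i * G.b i := by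
  obtain ⟨h1, h2, h3⟩ := bits_prod S (fun i => B.r (G.q i)) V fun i _ => G.r_od i
  have h20 : be8 (∏ i ∈ S, B.r (G.q i) ^ (V i).val) = 0 := by
    rw [h2]
    refine sum_eq_zero fun i _ => ?_
    have h4 : be8 (B.r (G.q i)) = 0 := by
      rcases G.one i with h | h <;> rw [h] <;> decide
    show V i * be8 (B.r (G.q i)) = 0
    rw [h4, mul_zero]
  have e : B.r (G.el S x0 0 x2 V) =
      (7 : ZMod 8) ^ x0.val * 3 ^ x2.val * ∏ i ∈ S, B.r (G.q i) ^ (V i).val := by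
    unfold el gpr
    rw [ZMod.val_zero, pow_zero, mul_one, RingHom.map_mul, RingHom.map_mul, RingHom.map_pow,
      RingHom.map_pow, RingHom.map_neg, RingHom.map_one, B.r_b, map_prod]
    have h7 : (-1 : ZMod 8) = 7 := by decide
    rw [h7]
    congr 1
    exact prod_congr rfl fun i _ => RingHom.map_pow _ _ _
  have h7 : (4 : ZMod 8) * 7 ≠ 0 := by decide
  have h8 : (4 : ZMod 8) * 3 ≠ 0 := by decide
  have k7 := od_pow h7 x0
  have k3 := od_pow h8 x2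
  have k73 := od_mul k7 k3
  have e7 : be8 7 = 1 := by decide
  have f7 : bf8 7 = 0 := by decide
  have e3 : be8 3 = 1 := by decide
  have f3 : bf8 3 = 1 := by decide
  rw [e]
  refine ⟨od_mul k73 h1, ?_, ?_⟩
  · rw [be8_mul k73 h1, be8_mul k7 k3, be8_pow h7, be8_pow h8, h20, e7, e3, mul_one, mul_one,
      add_zero]
  · rw [bf8_mul k73 h1, bf8_mul k7 k3, bf8_pow h7, bf8_pow h8, h3, f7, f3, mul_one, mul_zero,
      zero_add]
    rfl

theorem not_a_el (S : Finset ι) (x0 x2 : ZMod 2) (V : ι → ZMod 2) :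
    ¬ B.a ∣ G.el S x0 0 x2 V := fun h => (G.bits_el S x0 x2 V).1 (B.a_dvd.1 h)

theorem nu_el (S : Finset ι) (x0 x1 x2 : ZMod 2) (V : ι → ZMod 2) :
    B.nu ((G.el S x0 x1 x2 V : 𝓞 N) : N) = exp (-1) ^ x1.val := by
  rw [G.val_el]
  have e : ((B.a ^ x1.val * G.el S x0 0 x2 V : 𝓞 N) : N) =
      (B.a : N) ^ x1.val * ((G.el S x0 0 x2 V : 𝓞 N) : N) := by push_cast; ring
  rw [e, map_mul, map_pow, B.nu_a, B.nu_O (G.not_a_el S x0 x2 V), mul_one]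

theorem sq_el_iff (S : Finset ι) (x0 x1 x2 : ZMod 2) (V : ι → ZMod 2) :
    Sq B.nu ((G.el S x0 x1 x2 V : 𝓞 N) : N) ↔
      x1 = 0 ∧ x0 + x2 = 0 ∧ x2 + ∑ i ∈ S, V i * G.b i = 0 := by
  rcases (by decide : ∀ t : ZMod 2, t = 0 ∨ t = 1) x1 with rfl | rfl
  · obtain ⟨h1, h2, h3⟩ := G.bits_el S x0 x2 V
    rw [B.sq_iff_r (G.not_a_el S x0 x2 V), one_of_bits h1, h2, h3]
    exact ⟨fun h => ⟨rfl, h⟩, fun h => h.2⟩
  · constructor
    · intro h
      have h1 := h.even (nu_four_le B.nu_two).le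
      rw [G.nu_el] at h1
      have h2 : ((1 : ZMod 2)).val = 1 := rfl
      rw [h2, pow_one, isSquare_exp] at h1
      exact absurd h1 (by decide)
    · rintro ⟨h, -⟩
      exact absurd h (by decide)

theorem neg_el (S : Finset ι) (x0 x1 x2 : ZMod 2) (V : ι → ZMod 2) :
    -G.el S x0 x1 x2 V = G.el S (x0 + 1) x1 x2 V := by
  unfold el
  rcases (by decide : ∀ t : ZMod 2, t = 0 ∨ t = 1) x0 with rfl | rfl
  · have h1 : ((0 : ZMod 2) + 1).val = 1 := rfl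
    rw [h1, ZMod.val_zero]
    ring
  · have h1 : ((1 : ZMod 2)).val = 1 := rfl
    have h2 : ((1 : ZMod 2) + 1).val = 0 := rfl
    rw [h1, h2]
    ring

end Gens

end

end Pool.Agent.Lib.MP_1a91b9_ntV.C
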