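import Pool.Agent.Lib.MP_1a91b9_ntV.C.Tor7

/-!
# Full rational 2-torsion: the descent with points of order four

A Selmer group which is the image of a set of points of order four.
-/

set_option autoImplicit false
set_option linter.unusedSectionVars false
set_option linter.unusedVariables false

namespace Pool.Agent.Lib.MP_1a91b9_ntV.C

open WeierstrassCurve WithZero NumberField IsDedekindDomain
open Pool.Agent.Lib.MP_1a91b9_ntT.S9 (pr pr_comm pr_map pr_add eq_zero_of_pr Pts Gal coc cob trivOver
  shaCoc Sha up actP)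
open Pool.Agent.Lib.MP_1a91b9_ntT3.S9 (ShaP)
open scoped Classical

private theorem exc_sfn_map {k F F' : Type*} [Field k] [Field F] [Field F'] [Algebra k F]
    [Algebra k F'] (W : WeierstrassCurve k) (e : Fin 3 → k) (f : F →ₐ[k] F') (i : Fin 3)
    (P : Pts W F) :
    sfn (eb F' e) i (Affine.Point.map (W' := W) f P) = f (sfn (eb F e) i P) := by
  cases P with
  | zero => exact (map_zero f).symm
  | some X Y h =>
    rw [Affine.Point.map_some]
    have hc : ∀ j, f (eb F e j) = eb F' e j := fun j => f.commutes _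
    show ((f X - eb F' e i) ^ 2 - der (eb F' e) i) / (2 * f Y) =
      f (((X - eb F e i) ^ 2 - der (eb F e) i) / (2 * Y))
    simp only [der, map_div₀, map_sub, map_mul, map_pow, map_add, map_ofNat, hc]

private theorem exc_unit {F : Type*} [Field F] [CharZero F] (u v : ℤˣ) (x : F) (hx : x ≠ 0)
    (h : ((u : ℤ) : F) * ((v : ℤ) : F) * x = x) : u = v := by
  rcases Int.units_eq_one_or u with rfl | rfl <;> rcases Int.units_eq_one_or v with rfl | rfl
  · rfl
  · exfalso
    simp at h
    apply hx
    have : (2 : F) * x = 0 := by linear_combination -h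
    simpa using this
  · exfalso
    simp at h
    apply hx
    have : (2 : F) * x = 0 := by linear_combination -h
    simpa using this
  · rfl

section gen

variable {k : Type*} [Field k] [CharZero k] {e : Fin 3 → k} (he : Function.Injective e)

/-- a cocycle whose triple is the class of a point is the coboundary of a half of the point -/
theorem kdata_pt (c : Gal k → Pts (cw e) (AlgebraicClosure k))
    (h2 : ∀ σ, c σ + c σ = 0) (a : Fin 3 → k) (b : Fin 3 → AlgebraicClosure k)
    (hk : KData he c a b) (m : Fin 3) (x y : k)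
    (h : (Affine.baseChange (cw e) k).Nonsingular x y) (hx : ∀ i, i ≠ m → x ≠ e i)
    (ha : ∀ i, i ≠ m → IsSquare (a i * (x - e i))) :
    ∃ S : Pts (cw e) (AlgebraicClosure k),
      S + S = up (cw e) k (AlgebraicClosure k) (Affine.Point.some x y h) ∧
      ∀ σ, c σ = actP (cw e) σ S - S := by
  have heA := eb_inj (AlgebraicClosure k) he
  obtain ⟨S, hS⟩ := exists_half_closed heA (cw_bc (AlgebraicClosure k) e)
    (up (cw e) k (AlgebraicClosure k) (Affine.Point.some x y h))
  refine ⟨S, hS, fun σ => ?_⟩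
  have hfixQ : actP (cw e) σ (up (cw e) k (AlgebraicClosure k) (Affine.Point.some x y h)) =
      up (cw e) k (AlgebraicClosure k) (Affine.Point.some x y h) := by
    show Affine.Point.map _ (Affine.Point.map _ _) = _
    rw [Affine.Point.map_map]
    have hcomp : (σ : AlgebraicClosure k →ₐ[k] AlgebraicClosure k).comp
        (IsScalarTower.toAlgHom k k (AlgebraicClosure k)) =
        IsScalarTower.toAlgHom k k (AlgebraicClosure k) := AlgHom.ext fun x => σ.commutes x
    rw [hcomp]
  obtain ⟨X, Y, hXY, hup, hX⟩ : ∃ (X Y : AlgebraicClosure k)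
      (hXY : (Affine.baseChange (cw e) (AlgebraicClosure k)).Nonsingular X Y),
      up (cw e) k (AlgebraicClosure k) (Affine.Point.some x y h) = Affine.Point.some X Y hXY ∧
      X = algebraMap k (AlgebraicClosure k) x :=
    ⟨_, _, _, Affine.Point.map_some _ _, rfl⟩
  set R := actP (cw e) σ S - S with hR
  have hR2 : R + R = 0 := by
    have h1 : actP (cw e) σ (S + S) = S + S := by
      rw [hS]
      exact hfixQ
    rw [map_add] at h1
    have h3 : R + R = (actP (cw e) σ S + actP (cw e) σ S) - (S + S) := by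
      rw [hR]; abel
    rw [h3, h1, sub_self]
  rw [hup] at hS
  have hne : S + S ≠ 0 := by
    rw [hS]
    intro h0
    exact Affine.Point.some_ne_zero _ h0
  refine pr_ext he _ _ (h2 σ) hR2 m fun i hij => ?_
  have hsq := sfn_sq (cw_bc (AlgebraicClosure k) e) i S _ hS
  obtain ⟨κ, hκ⟩ := ha i hij
  have hs : σ (sfn (eb (AlgebraicClosure k) e) i S) =
      (((pr R (tpt he (AlgebraicClosure k) i) : ℤˣ) : ℤ) : AlgebraicClosure k) *
        sfn (eb (AlgebraicClosure k) e) i S := by
    have h1 := exc_sfn_map (cw e) e (σ : AlgebraicClosure k →ₐ[k] AlgebraicClosure k) i S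
    have h4 := sfn_add heA (cw_bc (AlgebraicClosure k) e) i S R hne hR2
    have h5 : S + R = actP (cw e) σ S := by rw [hR]; abel
    rw [h5] at h4
    have h6 : pr R (tp heA (cw_bc (AlgebraicClosure k) e) i) =
      pr R (tpt he (AlgebraicClosure k) i) := rfl
    rw [h6] at h4
    rw [← h4]
    exact h1.symm
  have hx2 : (b i * sfn (eb (AlgebraicClosure k) e) i S) ^ 2 =
      algebraMap k (AlgebraicClosure k) κ ^ 2 := by
    rw [mul_pow, ← hk.sq i, hsq, hX, ← map_sub, ← map_mul, hκ, map_mul, sq]
  have hs0 : sfn (eb (AlgebraicClosure k) e) i S ≠ 0 := by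
    intro h0
    rw [h0, hX] at hsq
    have h3 : algebraMap k (AlgebraicClosure k) (x - e i) = 0 := by
      rw [map_sub, ← hsq]
      norm_num
    rw [map_eq_zero] at h3
    exact hx i hij (sub_eq_zero.1 h3)
  have hx0 : b i * sfn (eb (AlgebraicClosure k) e) i S ≠ 0 := mul_ne_zero (hk.ne i) hs0
  have hfix : σ (b i * sfn (eb (AlgebraicClosure k) e) i S) =
      b i * sfn (eb (AlgebraicClosure k) e) i S := by
    rcases sq_eq_sq_iff_eq_or_eq_neg.1 hx2 with h | h
    · rw [h]
      exact σ.commutes κ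
    · rw [h, map_neg]
      rw [σ.commutes κ]
  refine exc_unit _ _ (b i * sfn (eb (AlgebraicClosure k) e) i S) hx0 ?_
  rw [map_mul, hs, hk.act i σ] at hfix
  linear_combination hfix

end gen

/-- The Selmer group is the image of a set of points. -/
def SelF {N : Type*} [Field N] [NumberField N] (e : Fin 3 → N) (F : Set (Pts (cw e) N)) : Prop :=
  ∀ a : Fin 3 → N, (∀ i, a i ≠ 0) → IsSquare (a 0 * a 1 * a 2) →
    (∀ v : HeightOneSpectrum (𝓞 N), GLoc (v.valuation N) e a) →
    (∀ i, IsSquare (a i)) ∨ ∃ (x y : N) (h : (Affine.baseChange (cw e) N).Nonsingular x y) (m : Fin 3),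
      Affine.Point.some x y h ∈ F ∧ (∀ i, i ≠ m → x ≠ e i) ∧
        ∀ i, i ≠ m → IsSquare (a i * (x - e i))

section sel

variable {N : Type*} [Field N] [NumberField N] {e : Fin 3 → N} (he : Function.Injective e)
  {F : Set (Pts (cw e) N)} (hS : SelF e F)

include hS

include he in
theorem exc_coc (c : Gal N → Pts (cw e) (AlgebraicClosure N)) (hc : c ∈ shaCoc (cw e))
    (h2 : ∀ σ, c σ + c σ = 0) :
    ∃ R : Pts (cw e) (AlgebraicClosure N),
      (R + R = 0 ∨ ∃ P ∈ F, R + R = up (cw e) N (AlgebraicClosure N) P) ∧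
      ∀ σ, c σ = actP (cw e) σ R - R := by
  obtain ⟨a, b, hk⟩ := exists_kdata he c hc.1.1 h2
  have ha : ∀ i, a i ≠ 0 := fun i h0 => by
    have h := hk.sq i
    rw [h0, _root_.map_zero] at h
    exact hk.ne i ((pow_eq_zero_iff two_ne_zero).1 h.symm)
  have hp := kdata_prod he c h2 a b hk
  have hloc : ∀ v : HeightOneSpectrum (𝓞 N), GLoc (v.valuation N) e a := fun v => by
    have : CharZero (v.adicCompletion N) :=
      charZero_of_injective_algebraMap (algebraMap N (v.adicCompletion N)).injective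
    have h : c ∈ ⨅ v : HeightOneSpectrum (𝓞 N), trivOver (cw e) (v.adicCompletion N) := hc.1.2
    have hcv : c ∈ trivOver (cw e) (v.adicCompletion N) := AddSubgroup.mem_iInf.1 h v
    exact gloc_of_locAt v he a ha (kdata_loc he c h2 a b hk hcv)
  rcases hS a ha hp hloc with h | ⟨x, y, hn, m, hF, hx, h⟩
  · refine ⟨0, Or.inl (add_zero 0), fun σ => ?_⟩
    rw [kdata_zero he c h2 a b hk h σ, _root_.map_zero, sub_zero]
  · obtain ⟨R, hR, hc'⟩ := kdata_pt he c h2 a b hk m x y hn hx h
    exact ⟨R, Or.inr ⟨_, hF, hR⟩, hc'⟩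

include he in
private theorem exc_pts0 (P : Pts (cw e) N) :
    ∃ T Q : Pts (cw e) N, (T = 0 ∨ T ∈ F) ∧ P = T + (Q + Q) := by
  have hup : ∀ (σ : Gal N) (P : Pts (cw e) N),
      actP (cw e) σ (up (cw e) N (AlgebraicClosure N) P) = up (cw e) N (AlgebraicClosure N) P := by
    intro σ P
    show Affine.Point.map _ (Affine.Point.map _ _) = _
    rw [Affine.Point.map_map]
    have hcomp : (σ : AlgebraicClosure N →ₐ[N] AlgebraicClosure N).comp
        (IsScalarTower.toAlgHom N N (AlgebraicClosure N)) =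
        IsScalarTower.toAlgHom N N (AlgebraicClosure N) := AlgHom.ext fun x => σ.commutes x
    rw [hcomp]
  obtain ⟨R₀, hR₀⟩ := exists_half_closed (eb_inj (AlgebraicClosure N) he)
    (cw_bc (AlgebraicClosure N) e) (up (cw e) N (AlgebraicClosure N) P)
  obtain ⟨R, hR, hc⟩ := exc_coc he hS (fun σ => actP (cw e) σ R₀ - R₀)
    (Pool.Agent.Lib.MP_1a91b9_ntT.S9.cob_le_shaCoc (cw e) ⟨R₀, fun σ => rfl⟩) fun σ => by
      have h1 : actP (cw e) σ (R₀ + R₀) = R₀ + R₀ := by rw [hR₀, hup]
      rw [_root_.map_add] at h1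
      have h2 : actP (cw e) σ R₀ - R₀ + (actP (cw e) σ R₀ - R₀) =
        (actP (cw e) σ R₀ + actP (cw e) σ R₀) - (R₀ + R₀) := by abel
      rw [h2, h1, sub_self]
  obtain ⟨Q, hQ⟩ := Pool.Agent.Lib.MP_1a91b9_ntT.S9.fixed_pt (L := N) (cw e) (R₀ - R) fun σ => by
    have h1 : Affine.Point.map ((σ : AlgebraicClosure N →ₐ[N] AlgebraicClosure N).restrictScalars N)
        (R₀ - R) = actP (cw e) σ (R₀ - R) := rfl
    rw [h1, _root_.map_sub]
    have h2 := hc σ
    have h3 : actP (cw e) σ R₀ - actP (cw e) σ R = (actP (cw e) σ R₀ - R₀) -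
      (actP (cw e) σ R - R) + (R₀ - R) := by abel
    rw [h3, ← h2, sub_self, zero_add]
  have hinj : Function.Injective (up (cw e) N (AlgebraicClosure N)) := Affine.Point.map_injective _
  have hP : up (cw e) N (AlgebraicClosure N) P =
      (R + R) + up (cw e) N (AlgebraicClosure N) (Q + Q) := by
    rw [_root_.map_add, hQ, ← hR₀]
    abel
  rcases hR with hR | ⟨T, hT, hR⟩
  · refine ⟨0, Q, Or.inl rfl, hinj ?_⟩
    rw [hP, hR, zero_add, zero_add]
  · refine ⟨T, Q, Or.inr hT, hinj ?_⟩
    rw [hP, hR, _root_.map_add (up (cw e) N (AlgebraicClosure N)) T]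

include he in
theorem exc_two_class (c : Gal N → Pts (cw e) (AlgebraicClosure N)) (hc : c ∈ shaCoc (cw e))
    (h2 : c + c ∈ cob (cw e)) : c ∈ cob (cw e) := by
  obtain ⟨Q, hQ⟩ := h2
  obtain ⟨R, hR⟩ := exists_half_closed (eb_inj (AlgebraicClosure N) he)
    (cw_bc (AlgebraicClosure N) e) Q
  have hd' : (fun σ : Gal N => actP (cw e) σ R - R) ∈ cob (cw e) := ⟨R, fun σ => rfl⟩
  have hc' : c - (fun σ : Gal N => actP (cw e) σ R - R) ∈ cob (cw e) := by
    obtain ⟨R', _, h⟩ := exc_coc he hS _
      (sub_mem hc (Pool.Agent.Lib.MP_1a91b9_ntT.S9.cob_le_shaCoc (cw e) hd')) fun σ => by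
        have h1 : c σ + c σ = actP (cw e) σ Q - Q := hQ σ
        have h3 : actP (cw e) σ Q = actP (cw e) σ R + actP (cw e) σ R := by
          rw [← hR, _root_.map_add]
        rw [h3, ← hR] at h1
        simp only [Pi.sub_apply]
        have h4 : c σ - (actP (cw e) σ R - R) + (c σ - (actP (cw e) σ R - R)) =
            (c σ + c σ) - (actP (cw e) σ R + actP (cw e) σ R - (R + R)) := by abel
        rw [h4, h1, sub_self]
    exact ⟨R', h⟩
  have h5 := add_mem hc' hd'
  rwa [sub_add_cancel] at h5

include he in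
theorem exc_card_shaP : Nat.card (ShaP 2 (cw e)) = 1 := by
  have h2 : ∀ x : Sha (cw e), x + x = 0 → x = 0 := by
    intro x h
    have key : ∀ y : shaCoc (cw e) ⧸ (cob (cw e)).addSubgroupOf (shaCoc (cw e)),
        y + y = 0 → y = 0 := by
      intro y hy
      obtain ⟨⟨c, hc⟩, rfl⟩ := QuotientAddGroup.mk_surjective y
      rw [← QuotientAddGroup.mk_add, QuotientAddGroup.eq_zero_iff,
        AddSubgroup.mem_addSubgroupOf] at hy
      rw [QuotientAddGroup.eq_zero_iff, AddSubgroup.mem_addSubgroupOf]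
      exact exc_two_class he hS c hc hy
    exact key x h
  have key : ∀ n : ℕ, ∀ y : Sha (cw e), 2 ^ n • y = 0 → y = 0 := by
    intro n
    induction n with
    | zero =>
      intro y hy
      simpa using hy
    | succ n ih =>
      intro y hy
      refine h2 y (ih _ ?_)
      rw [← two_nsmul, ← mul_nsmul', ← pow_succ]
      exact hy
  have h1 : ∀ x : AddCommGroup.primaryComponent (Sha (cw e)) 2, x = 0 := by
    rintro ⟨x, n, hn⟩
    exact Subtype.ext (key n x hn)
  exact Nat.card_eq_one_iff_unique.2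
    ⟨⟨fun x y => (h1 x).trans (h1 y).symm⟩, ⟨(0 : AddCommGroup.primaryComponent (Sha (cw e)) 2)⟩⟩

end sel

section fin

variable {N : Type*} [Field N] [NumberField N] {e : Fin 3 → N} {W : Affine N}

/-- multiplication by `2` -/
private noncomputable def dbl : W.Point →+ W.Point where
  toFun := fun P => P + P
  map_zero' := add_zero 0
  map_add' := fun P Q => by abel

private theorem ker_fin (he : Function.Injective e) (hW : W = cw e) :
    Finite (dbl (W := W)).ker := by
  have h1 := card_two he hW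
  have h2 : Finite {P : W.Point // P + P = 0} := Nat.finite_of_card_ne_zero (by rw [h1]; norm_num)
  exact h2

private theorem ker4_fin (he : Function.Injective e) (hW : W = cw e) :
    Finite ((dbl (W := W)).comp (dbl (W := W))).ker := by
  have h1 := ker_fin he hW
  obtain ⟨φ, hφ⟩ : ∃ φ : ((dbl (W := W)).comp (dbl (W := W))).ker →+ (dbl (W := W)).ker,
      ∀ x, ((φ x : (dbl (W := W)).ker) : W.Point) = (x : W.Point) + x :=
    ⟨{ toFun := fun x => ⟨(x : W.Point) + x, x.2⟩
       map_zero' := Subtype.ext (add_zero 0)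
       map_add' := fun x y => Subtype.ext (by
        show (x : W.Point) + y + (x + y) = x + x + (y + y)
        abel) }, fun x => rfl⟩
  have h2 : Finite φ.ker := by
    refine Finite.of_injective (fun x : φ.ker => (⟨((x : _) : W.Point), ?_⟩ : (dbl (W := W)).ker))
      fun x y hxy => ?_
    · have h3 := x.2
      rw [AddMonoidHom.mem_ker] at h3
      have h4 := congrArg (fun z : (dbl (W := W)).ker => (z : W.Point)) h3
      rw [hφ] at h4
      exact h4
    · exact Subtype.ext (Subtype.ext (congrArg (fun z : (dbl (W := W)).ker => (z : W.Point)) hxy))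
  have h3 : Finite (((dbl (W := W)).comp (dbl (W := W))).ker ⧸ φ.ker) :=
    Finite.of_equiv _ (QuotientAddGroup.quotientKerEquivRange φ).symm.toEquiv
  exact Finite.of_equiv _ (AddSubgroup.addGroupEquivQuotientProdAddSubgroup (s := φ.ker)).symm

/-- If every point is twice a point up to a point of order dividing four, then there are only
finitely many points. -/
theorem fin_of_four (he : Function.Injective e) (hW : W = cw e)
    (h : ∀ P : W.Point, ∃ T Q : W.Point, (T + T) + (T + T) = 0 ∧ P = T + (Q + Q)) :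
    Finite W.Point := by
  have h1 : Finite ((dbl (W := W)).comp (dbl (W := W))).range := by
    refine finite_sub_of_div he hW _ fun P => ?_
    obtain ⟨_, R, rfl⟩ := P
    obtain ⟨T, Q, hT, hR⟩ := h R
    refine ⟨⟨(Q + Q) + (Q + Q), Q, rfl⟩, ?_⟩
    apply Subtype.ext
    show ((Q + Q) + (Q + Q)) + ((Q + Q) + (Q + Q)) = (R + R) + (R + R)
    calc ((Q + Q) + (Q + Q)) + ((Q + Q) + (Q + Q)) =
        ((T + T) + (T + T)) + (((Q + Q) + (Q + Q)) + ((Q + Q) + (Q + Q))) := by rw [hT, zero_add]
      _ = (R + R) + (R + R) := by rw [hR]; abel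
  have h2 := ker4_fin he hW
  have h3 : Finite (W.Point ⧸ ((dbl (W := W)).comp (dbl (W := W))).ker) :=
    Finite.of_equiv _ (QuotientAddGroup.quotientKerEquivRange
      ((dbl (W := W)).comp (dbl (W := W)))).symm.toEquiv
  exact Finite.of_equiv _ (AddSubgroup.addGroupEquivQuotientProdAddSubgroup
    (s := ((dbl (W := W)).comp (dbl (W := W))).ker)).symm

end fin

private theorem exc_transport {N : Type*} [Field N] {W₁ W₂ : Affine N} (e₀ : W₁ = W₂)
    (h : ∀ P : W₁.Point, ∃ T Q : W₁.Point, (T + T) + (T + T) = 0 ∧ P = T + (Q + Q)) :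
    ∀ P : W₂.Point, ∃ T Q : W₂.Point, (T + T) + (T + T) = 0 ∧ P = T + (Q + Q) := by
  subst e₀
  exact h

/-- **The descent with points of order four.** -/
theorem exc_main {N : Type*} [Field N] [NumberField N] {e : Fin 3 → N}
    (he : Function.Injective e) {F : Set (Pts (cw e) N)} (hS : SelF e F)
    (h4 : ∀ P ∈ F, (P + P) + (P + P) = 0) {W : WeierstrassCurve N} (hW : W = cw e) :
    Finite W.toAffine.Point ∧ Nat.card (ShaP 2 W) = 1 := by
  refine ⟨?_, ?_⟩
  · refine fin_of_four he (W := W.toAffine) hW ?_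
    refine exc_transport ((cw_bc N e).trans hW.symm) fun P => ?_
    obtain ⟨T, Q, hT, hP⟩ := exc_pts0 he hS P
    refine ⟨T, Q, ?_, hP⟩
    rcases hT with rfl | hT
    · rw [add_zero, add_zero]
    · exact h4 T hT
  · rw [hW]
    exact exc_card_shaP he hS

end Pool.Agent.Lib.MP_1a91b9_ntV.C
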