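import Pool.Agent.Lib.MP_1a91b9_ntV.C.Exc

/-!
# Full rational 2-torsion: curves with a point of order four and a Selmer group of order four

`e 0 - e 1 = 1`, `e 0 - e 2 = γ ^ 4`; the points `(e 0 + γ ^ 2, γ ^ 2 (1 + γ ^ 2))` and
`(e 0 - γ ^ 2, γ ^ 2 (1 - γ ^ 2))` are of order four.
-/

set_option autoImplicit false
set_option linter.unusedSectionVars false
set_option linter.unusedVariables false

namespace Pool.Agent.Lib.MP_1a91b9_ntV.C

open WeierstrassCurve WithZero NumberField IsDedekindDomain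
open Pool.Agent.Lib.MP_1a91b9_ntT.S9 (Pts)
open Pool.Agent.Lib.MP_1a91b9_ntT3.S9 (ShaP)
open scoped Classical

/-- the roots -/
structure ExcD {N : Type*} [Field N] (e : Fin 3 → N) (γ κ u w : N) : Prop where
  inj : Function.Injective e
  h01 : e 0 - e 1 = 1
  h02 : e 0 - e 2 = γ ^ 4
  g0 : γ ≠ 0
  u0 : u ≠ 0
  w0 : w ≠ 0
  k0 : κ ≠ 0
  hp : 1 + γ ^ 2 = κ * u ^ 2
  hm : 1 - γ ^ 2 = κ * w ^ 2
  m1 : ¬ IsSquare (-1 : N)
  kn : ¬ IsSquare κ

namespace ExcD

variable {N : Type*} [Field N] [CharZero N] {e : Fin 3 → N} {γ κ u w : N} (E : ExcD e γ κ u w)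

include E

section pts

variable {W : Affine N} (hW : W = cw e)

include hW in
theorem nsp : W.Nonsingular (e 0 + γ ^ 2) (γ ^ 2 * (1 + γ ^ 2)) := by
  rw [nons_gen two_ne_zero E.inj hW]
  have h1 : e 0 + γ ^ 2 - e 1 = 1 + γ ^ 2 := by linear_combination E.h01
  have h2 : e 0 + γ ^ 2 - e 2 = γ ^ 2 * (1 + γ ^ 2) := by linear_combination E.h02
  rw [h1, h2]
  ring

include hW in
theorem nsm : W.Nonsingular (e 0 - γ ^ 2) (γ ^ 2 * (1 - γ ^ 2)) := by
  rw [nons_gen two_ne_zero E.inj hW]
  have h1 : e 0 - γ ^ 2 - e 1 = 1 - γ ^ 2 := by linear_combination E.h01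
  have h2 : e 0 - γ ^ 2 - e 2 = -(γ ^ 2 * (1 - γ ^ 2)) := by linear_combination E.h02
  rw [h1, h2]
  ring

theorem der0 : der e 0 = γ ^ 4 := by
  unfold der
  have h : 3 * e 0 ^ 2 - 2 * (e 0 + e 1 + e 2) * e 0 + (e 0 * e 1 + e 0 * e 2 + e 1 * e 2) =
      (e 0 - e 1) * (e 0 - e 2) := by ring
  rw [h, E.h01, E.h02, one_mul]

/-- a point with `(x - e 0) ^ 2 = γ ^ 4` is a half of `(e 0, 0)` -/
theorem dbl_of {x y : N} (h : W.Nonsingular x y) (hx : (x - e 0) ^ 2 = γ ^ 4) (hy : y ≠ 0) :
    Affine.Point.some x y h + Affine.Point.some x y h = tp E.inj hW 0 := by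
  have hne : y ≠ W.negY x y := by
    rw [negY_eq hW]
    intro h0
    have h2 : 2 * y = 0 := by linear_combination h0
    rcases mul_eq_zero.1 h2 with h3 | h3
    · exact two_ne_zero h3
    · exact hy h3
  obtain ⟨X, Y, hXY, hS⟩ : ∃ (X Y : N) (hXY : W.Nonsingular X Y),
      Affine.Point.some x y h + Affine.Point.some x y h = Affine.Point.some X Y hXY :=
    ⟨_, _, _, Affine.Point.add_self_of_Y_ne hne⟩
  have h1 := sfn_sq hW 0 _ hXY hS
  rw [sfn_some, E.der0, hx, sub_self, zero_div] at h1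
  have hX : X = e 0 := by linear_combination -h1
  have h2 := (nons_gen two_ne_zero E.inj hW X Y).1 hXY
  rw [hX, sub_self, zero_mul, zero_mul] at h2
  have hY : Y = 0 := (pow_eq_zero_iff two_ne_zero).1 h2
  rw [hS, tp, Affine.Point.some.injEq]
  exact ⟨hX, hY⟩

theorem one_add_ne : 1 + γ ^ 2 ≠ 0 := by
  rw [E.hp]
  exact mul_ne_zero E.k0 (pow_ne_zero _ E.u0)

theorem one_sub_ne : 1 - γ ^ 2 ≠ 0 := by
  rw [E.hm]
  exact mul_ne_zero E.k0 (pow_ne_zero _ E.w0)

theorem dbl_p : Affine.Point.some _ _ (E.nsp hW) + Affine.Point.some _ _ (E.nsp hW) =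
    tp E.inj hW 0 :=
  E.dbl_of hW _ (by ring) (mul_ne_zero (pow_ne_zero _ E.g0) E.one_add_ne)

theorem dbl_m : Affine.Point.some _ _ (E.nsm hW) + Affine.Point.some _ _ (E.nsm hW) =
    tp E.inj hW 0 :=
  E.dbl_of hW _ (by ring) (mul_ne_zero (pow_ne_zero _ E.g0) E.one_sub_ne)

/-- only `(e 0, 0)` is twice a point -/
theorem half_tp {P : W.Point} {j : Fin 3} (h : P + P = tp E.inj hW j) : j = 0 := by
  have h1 := sfn_sq hW 0 P _ h
  have hm1 : ∀ r : N, r ≠ 0 → sfn e 0 P ^ 2 = -r ^ 2 → False := by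
    intro r hr h2
    apply E.m1
    refine ⟨sfn e 0 P / r, ?_⟩
    field_simp
    linear_combination -h2
  fin_cases j
  · rfl
  · exfalso
    refine hm1 1 one_ne_zero ?_
    have h2 : sfn e 0 P ^ 2 = e 1 - e 0 := h1
    rw [h2]
    linear_combination -E.h01
  · exfalso
    refine hm1 (γ ^ 2) (pow_ne_zero _ E.g0) ?_
    have h2 : sfn e 0 P ^ 2 = e 2 - e 0 := h1
    rw [h2]
    linear_combination -E.h02

/-- there is no point of order eight -/
theorem no_eight {P : W.Point} (h : (P + P) + (P + P) = tp E.inj hW 0) : False := by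
  rcases hP : P + P with _ | ⟨X, Y, hXY⟩
  · rw [hP] at h
    have h1 : (Affine.Point.zero : W.Point) + Affine.Point.zero = 0 := add_zero _
    rw [h1] at h
    exact tp_ne E.inj hW 0 h.symm
  · rw [hP] at h
    have hsq : ∀ i, sfn e i P ^ 2 = X - e i := fun i => sfn_sq hW i P hXY hP
    have h1 : sfn e 0 (Affine.Point.some X Y hXY) ^ 2 = e 0 - e 0 := sfn_sq hW 0 _ _ h
    rw [sub_self, pow_eq_zero_iff two_ne_zero, sfn_some, E.der0] at h1
    have hY : Y ≠ 0 := by
      rintro rfl
      have h2 : Affine.Point.some X 0 hXY + Affine.Point.some X 0 hXY = 0 := by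
        apply Affine.Point.add_self_of_Y_eq
        rw [negY_eq hW, neg_zero]
      rw [h2] at h
      exact tp_ne E.inj hW 0 h.symm
    rw [div_eq_zero_iff] at h1
    have h2 : (X - e 0) ^ 2 - γ ^ 4 = 0 := h1.resolve_right (mul_ne_zero two_ne_zero hY)
    have h3 : (X - e 0 - γ ^ 2) * (X - e 0 + γ ^ 2) = 0 := by linear_combination h2
    rcases mul_eq_zero.1 h3 with h4 | h4
    · apply E.kn
      refine ⟨sfn e 1 P / u, ?_⟩
      have hu := E.u0
      field_simp
      rw [hsq 1, ← E.hp]
      linear_combination -E.h01 - h4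
    · apply E.m1
      refine ⟨sfn e 0 P / γ, ?_⟩
      have hg := E.g0
      field_simp
      rw [hsq 0]
      linear_combination -h4

end pts

end ExcD

section card

variable {N : Type*} [Field N] [NumberField N] {e : Fin 3 → N} {γ κ u w : N}
  (E : ExcD e γ κ u w) {W : Affine N} (hW : W = cw e)

include E hW

/-- The 2-primary part of the torsion. -/
theorem ExcD.card_prim : Nat.card (AddCommGroup.primaryComponent W.Point 2) = 8 := by
  obtain ⟨f, hf⟩ : ∃ f : W.Point →+ W.Point, ∀ P, f P = P + P :=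
    ⟨{ toFun := fun P => P + P
       map_zero' := add_zero 0
       map_add' := fun P Q => by abel }, fun P => rfl⟩
  have h2 := card_two E.inj hW
  have hkey : ∀ P : W.Point, f (f (f P)) = 0 → f (f P) = 0 := by
    intro P hP
    rw [hf (f (f P))] at hP
    rcases two_tors_tp E.inj hW _ hP with h0 | ⟨j, hj⟩
    · exact h0
    · exfalso
      rw [hf (f P)] at hj
      have hj0 := E.half_tp hW hj
      rw [hj0, hf P] at hj
      exact E.no_eight hW hj
  -- the points of order dividing four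
  have hprim : ∀ P : W.Point, (∃ n : ℕ, 2 ^ n • P = 0) ↔ f (f P) = 0 := by
    intro P
    have h4 : f (f P) = 4 • P := by
      rw [hf, hf]
      abel
    constructor
    · rintro ⟨n, hn⟩
      have key : ∀ n : ℕ, ∀ P : W.Point, 2 ^ n • P = 0 → f (f P) = 0 := by
        intro n
        induction n with
        | zero =>
          intro P hP
          rw [pow_zero, one_smul] at hP
          rw [hP, _root_.map_zero, _root_.map_zero]
        | succ n ih =>
          intro P hP
          apply hkey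
          apply ih (f P)
          rw [hf, ← two_nsmul, ← mul_nsmul', ← pow_succ]
          exact hP
      exact key n P hn
    · intro h
      exact ⟨2, by rw [← h, h4]; norm_num⟩
  have hcard : Nat.card (AddCommGroup.primaryComponent W.Point 2) = Nat.card (f.comp f).ker := by
    refine Nat.card_congr (Equiv.subtypeEquivRight fun P => ?_)
    exact hprim P
  rw [hcard]
  -- multiplication by two on the points of order dividing four
  obtain ⟨φ, hφ⟩ : ∃ φ : (f.comp f).ker →+ W.Point, ∀ P, φ P = f P :=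
    ⟨f.comp (AddSubgroup.subtype _), fun P => rfl⟩
  have hker : Nat.card φ.ker = 4 := by
    rw [← h2]
    refine Nat.card_congr ⟨fun P => ⟨((P : (f.comp f).ker) : W.Point), ?_⟩, fun P => ⟨⟨P, ?_⟩, ?_⟩,
      fun P => ?_, fun P => ?_⟩
    · have h3 := P.2
      rw [AddMonoidHom.mem_ker, hφ, hf] at h3
      exact h3
    · show f (f P) = 0
      rw [hf P.1, P.2, _root_.map_zero]
    · rw [AddMonoidHom.mem_ker, hφ]
      exact (hf _).trans P.2
    · rfl
    · rfl
  have hran : Nat.card φ.range = 2 := by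
    have hset : (φ.range : Set W.Point) = {0, tp E.inj hW 0} := by
      ext Q
      simp only [SetLike.mem_coe, AddMonoidHom.mem_range, Set.mem_insert_iff,
        Set.mem_singleton_iff]
      constructor
      · rintro ⟨P, rfl⟩
        rw [hφ]
        have h3 : f (f P) = 0 := P.2
        rw [hf (f P)] at h3
        rcases two_tors_tp E.inj hW _ h3 with h0 | ⟨j, hj⟩
        · exact Or.inl h0
        · right
          rw [hj]
          rw [hf] at hj
          rw [E.half_tp hW hj]
      · rintro (rfl | rfl)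
        · exact ⟨0, _root_.map_zero φ⟩
        · refine ⟨⟨Affine.Point.some _ _ (E.nsp hW), ?_⟩, ?_⟩
          · show f (f _) = 0
            rw [hf (f _), hf, E.dbl_p hW]
            exact tp_two _ _ _
          · rw [hφ, hf]
            exact E.dbl_p hW
    have h3 : Nat.card (φ.range : Set W.Point) = 2 := by
      rw [hset, Nat.card_coe_set_eq, Set.ncard_pair (tp_ne E.inj hW 0).symm]
    exact h3
  rw [AddSubgroup.card_eq_card_quotient_mul_card_addSubgroup φ.ker, hker,
    Nat.card_congr (QuotientAddGroup.quotientKerEquivRange φ).toEquiv, hran]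

end card

section sel

variable {N : Type*} [Field N] [NumberField N] {e : Fin 3 → N} {γ κ u w : N}
  (E : ExcD e γ κ u w)

include E

/-- the Selmer group is the image of the points of order dividing four -/
theorem ExcD.selF (hS : ∀ a : Fin 3 → N, (∀ i, a i ≠ 0) → IsSquare (a 0 * a 1 * a 2) →
    (∀ v : HeightOneSpectrum (𝓞 N), GLoc (v.valuation N) e a) →
    (IsSquare (a 0) ∨ IsSquare (-a 0)) ∧ (IsSquare (a 1) ∨ IsSquare (a 1 * κ))) :
    SelF e {P : Pts (cw e) N | (P + P) + (P + P) = 0} := by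
  intro a ha hp hloc
  obtain ⟨h0, h1⟩ := hS a ha hp hloc
  have hi := eb_inj N E.inj
  have hWN : Affine.baseChange (cw e) N = cw (eb N e) := cw_bc N e
  have E' : ExcD (eb N e) γ κ u w :=
    ⟨hi, E.h01, E.h02, E.g0, E.u0, E.w0, E.k0, E.hp, E.hm, E.m1, E.kn⟩
  have hg := E.g0
  have hP : ∀ {P : Pts (cw e) N}, P + P = tp hi hWN 0 → (P + P) + (P + P) = 0 := by
    intro P h
    rw [h]
    exact tp_two _ _ _
  have h01' : e 0 ≠ e 1 := fun h => absurd (E.inj h) (by decide)
  have h02' : e 0 ≠ e 2 := fun h => absurd (E.inj h) (by decide)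
  have h12' : e 1 ≠ e 2 := fun h => absurd (E.inj h) (by decide)
  have ha2 : ∀ v : N, v ≠ 0 → IsSquare (a 0 * a 1 * v) → IsSquare (a 2 * v) := by
    rintro v hv ⟨r, hr⟩
    obtain ⟨s, hs⟩ := hp
    refine ⟨r * s / (a 0 * a 1), ?_⟩
    have h0 := ha 0
    have h1 := ha 1
    field_simp
    linear_combination (s ^ 2) * hr + (a 0 * a 1 * v) * hs
  have hx1 : e 0 + γ ^ 2 - e 1 = κ * u ^ 2 := by linear_combination E.h01 + E.hp
  have hx2 : e 0 - γ ^ 2 - e 1 = κ * w ^ 2 := by linear_combination E.h01 + E.hm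
  rcases h0 with h0 | h0 <;> rcases h1 with h1 | h1
  · left
    intro i
    fin_cases i
    · exact h0
    · exact h1
    · have h3 := ha2 1 one_ne_zero (by rw [mul_one]; exact h0.mul h1)
      rwa [mul_one] at h3
  · right
    refine ⟨_, _, E'.nsp hWN, 2, hP (E'.dbl_p hWN), fun i hi' => ?_, fun i hi' => ?_⟩
    · fin_cases i
      · intro h
        have h2 : e 0 + γ ^ 2 = e 0 := h
        exact pow_ne_zero 2 hg (by linear_combination h2)
      · intro h
        have h2 : e 0 + γ ^ 2 = e 1 := h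
        refine mul_ne_zero E.k0 (pow_ne_zero 2 E.u0) ?_
        rw [← hx1, h2, sub_self]
      · exact absurd rfl hi'
    · fin_cases i
      · show IsSquare (a 0 * (e 0 + γ ^ 2 - e 0))
        rw [add_sub_cancel_left]
        exact h0.mul ⟨γ, by ring⟩
      · show IsSquare (a 1 * (e 0 + γ ^ 2 - e 1))
        rw [hx1, ← mul_assoc]
        exact h1.mul ⟨u, by ring⟩
      · exact absurd rfl hi'
  · right
    refine ⟨_, _, ((nons_gen two_ne_zero hi hWN (e 1) 0).2 (by
      show (0 : N) ^ 2 = (e 1 - e 0) * (e 1 - e 1) * (e 1 - e 2)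
      ring) : (Affine.baseChange (cw e) N).Nonsingular (e 1) 0), 1, ?_, fun i hi' => ?_,
      fun i hi' => ?_⟩
    · have h3 : ∀ h : (Affine.baseChange (cw e) N).Nonsingular (e 1) 0,
          Affine.Point.some (e 1) 0 h + Affine.Point.some (e 1) 0 h = 0 := by
        intro h
        apply Affine.Point.add_self_of_Y_eq
        rw [negY_eq hWN, neg_zero]
      show Affine.Point.some _ _ _ + Affine.Point.some _ _ _ +
        (Affine.Point.some _ _ _ + Affine.Point.some _ _ _) = 0
      rw [h3, add_zero]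
    · fin_cases i
      · exact h01'.symm
      · exact absurd rfl hi'
      · exact h12'
    · fin_cases i
      · show IsSquare (a 0 * (e 1 - e 0))
        have h2 : a 0 * (e 1 - e 0) = -a 0 := by linear_combination -(a 0) * E.h01
        rw [h2]
        exact h0
      · exact absurd rfl hi'
      · show IsSquare (a 2 * (e 1 - e 2))
        refine ha2 _ (sub_ne_zero.2 h12') ?_
        have h2 : a 0 * a 1 * (e 1 - e 2) = (-a 0) * a 1 * ((κ * u * w) * (κ * u * w)) := by
          linear_combination a 0 * a 1 * (E.h02 - E.h01) +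
            a 0 * a 1 * (-(1 - γ ^ 2)) * E.hp - a 0 * a 1 * (κ * u ^ 2) * E.hm
        rw [h2]
        exact (h0.mul h1).mul ⟨_, rfl⟩
  · right
    refine ⟨_, _, E'.nsm hWN, 2, hP (E'.dbl_m hWN), fun i hi' => ?_, fun i hi' => ?_⟩
    · fin_cases i
      · intro h
        have h2 : e 0 - γ ^ 2 = e 0 := h
        exact pow_ne_zero 2 hg (by linear_combination -h2)
      · intro h
        have h2 : e 0 - γ ^ 2 = e 1 := h
        refine mul_ne_zero E.k0 (pow_ne_zero 2 E.w0) ?_
        rw [← hx2, h2, sub_self]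
      · exact absurd rfl hi'
    · fin_cases i
      · show IsSquare (a 0 * (e 0 - γ ^ 2 - e 0))
        have h2 : a 0 * (e 0 - γ ^ 2 - e 0) = -a 0 * (γ * γ) := by ring
        rw [h2]
        exact h0.mul ⟨γ, rfl⟩
      · show IsSquare (a 1 * (e 0 - γ ^ 2 - e 1))
        rw [hx2, ← mul_assoc]
        exact h1.mul ⟨w, by ring⟩
      · exact absurd rfl hi'

/-- **The curve with a point of order four.** -/
theorem ExcD.main (hS : ∀ a : Fin 3 → N, (∀ i, a i ≠ 0) → IsSquare (a 0 * a 1 * a 2) →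
    (∀ v : HeightOneSpectrum (𝓞 N), GLoc (v.valuation N) e a) →
    (IsSquare (a 0) ∨ IsSquare (-a 0)) ∧ (IsSquare (a 1) ∨ IsSquare (a 1 * κ)))
    {W : WeierstrassCurve N} (hW : W = cw e) :
    Nat.card (AddCommGroup.primaryComponent W.toAffine.Point 2) = 8 ∧
      Finite W.toAffine.Point ∧ Nat.card (ShaP 2 W) = 1 := by
  obtain ⟨h1, h2⟩ := exc_main E.inj (E.selF hS) (fun P hP => hP) hW
  exact ⟨E.card_prim (W := W.toAffine) hW, h1, h2⟩

end sel

end Pool.Agent.Lib.MP_1a91b9_ntV.C
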