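import Pool.Agent.Lib.MP_1a91b9_ntV.C.Symb

/-!
# The field `ℚ(√-7)`, abstractly: `a ^ 2 = a - 2`; the place `a`

Everything is used for `a` and for `1 - a` (the structure `B.symm`).
-/

set_option autoImplicit false
set_option linter.unusedSectionVars false
set_option linter.unusedVariables false

namespace Pool.Agent.Lib.MP_1a91b9_ntV.C

open NumberField Finset WithZero IsDedekindDomain
open Pool.Agent.Lib.MP_1a91b9_ntH.C (Sq isSquare_exp nu_one)
open scoped Classical

noncomputable section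

/-- The number field `ℚ(√-7)` with `a = (1 + √-7) / 2`. -/
structure B7 (N : Type*) [Field N] [NumberField N] where
  a : 𝓞 N
  rel : a ^ 2 = a - 2
  span : ∀ x : 𝓞 N, ∃ m n : ℤ, x = m + n * a
  pid : IsPrincipalIdealRing (𝓞 N)

namespace B7

variable {N : Type*} [Field N] [NumberField N] (B : B7 N)

/-- the other root -/
def b : 𝓞 N := 1 - B.a

theorem ab : B.a * B.b = 2 := by
  unfold b
  linear_combination -B.rel

theorem add_ab : B.a + B.b = 1 := by
  unfold b
  ring

/-- the same field with the other root -/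
def symm : B7 N where
  a := 1 - B.a
  rel := by linear_combination B.rel
  span x := by
    obtain ⟨m, n, h⟩ := B.span x
    refine ⟨m + n, -n, ?_⟩
    rw [h]
    push_cast
    ring
  pid := B.pid

theorem symm_a : B.symm.a = B.b := rfl

theorem symm_b : B.symm.b = B.a := by
  show 1 - (1 - B.a) = B.a
  ring

theorem symm_symm : B.symm.symm = B := by
  obtain ⟨a, rel, span, pid⟩ := B
  unfold symm
  congr 1
  ring

theorem coord_zero {m n : ℤ} (h : (m : 𝓞 N) + n * B.a = 0) : m = 0 ∧ n = 0 := by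
  have h1 : ((m ^ 2 + m * n + 2 * n ^ 2 : ℤ) : 𝓞 N) = 0 := by
    push_cast
    linear_combination ((m : 𝓞 N) + n * (1 - B.a)) * h + (n : 𝓞 N) ^ 2 * B.rel
  have h2 : m ^ 2 + m * n + 2 * n ^ 2 = 0 := by exact_mod_cast h1
  have h3 : n = 0 := by
    have : 7 * n ^ 2 = 0 := by nlinarith [sq_nonneg (2 * m + n)]
    simpa using this
  subst h3
  refine ⟨?_, rfl⟩
  have : m ^ 2 = 0 := by linarith
  simpa using this

theorem coord_inj {m n m' n' : ℤ} (h : (m : 𝓞 N) + n * B.a = m' + n' * B.a) : m = m' ∧ n = n' := by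
  have h1 : ((m - m' : ℤ) : 𝓞 N) + ((n - n' : ℤ) : 𝓞 N) * B.a = 0 := by
    push_cast
    linear_combination h
  obtain ⟨h2, h3⟩ := B.coord_zero h1
  omega

/-- the coordinates -/
def cm (x : 𝓞 N) : ℤ := (B.span x).choose
def cn (x : 𝓞 N) : ℤ := (B.span x).choose_spec.choose

theorem coord (x : 𝓞 N) : x = B.cm x + B.cn x * B.a := (B.span x).choose_spec.choose_spec

theorem coord_eq {x : 𝓞 N} {m n : ℤ} (h : x = m + n * B.a) : B.cm x = m ∧ B.cn x = n :=
  B.coord_inj ((B.coord x).symm.trans h)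

/-- reduction modulo `a ^ 3` -/
def r : 𝓞 N →+* ZMod 8 where
  toFun x := B.cm x + 6 * B.cn x
  map_one' := by
    obtain ⟨h1, h2⟩ := B.coord_eq (x := 1) (m := 1) (n := 0) (by push_cast; ring)
    rw [h1, h2]
    push_cast
    ring
  map_zero' := by
    obtain ⟨h1, h2⟩ := B.coord_eq (x := 0) (m := 0) (n := 0) (by push_cast; ring)
    rw [h1, h2]
    push_cast
    ring
  map_add' x y := by
    obtain ⟨h1, h2⟩ := B.coord_eq (x := x + y) (m := B.cm x + B.cm y) (n := B.cn x + B.cn y) (by
      have hx := B.coord x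
      have hy := B.coord y
      push_cast
      linear_combination hx + hy)
    rw [h1, h2]
    push_cast
    ring
  map_mul' x y := by
    obtain ⟨h1, h2⟩ := B.coord_eq (x := x * y) (m := B.cm x * B.cm y - 2 * B.cn x * B.cn y)
      (n := B.cm x * B.cn y + B.cn x * B.cm y + B.cn x * B.cn y) (by
        have hx := B.coord x
        have hy := B.coord y
        push_cast
        linear_combination y * hx + ((B.cm x : 𝓞 N) + B.cn x * B.a) * hy +
          (B.cn x : 𝓞 N) * B.cn y * B.rel)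
    rw [h1, h2]
    push_cast
    have h8 : (8 : ZMod 8) = 0 := rfl
    linear_combination (-(4 : ZMod 8) * B.cn x * B.cn y) * h8

theorem r_a : B.r B.a = 6 := by
  obtain ⟨h1, h2⟩ := B.coord_eq (x := B.a) (m := 0) (n := 1) (by push_cast; ring)
  show ((B.cm B.a : ZMod 8) + 6 * B.cn B.a) = 6
  rw [h1, h2]
  push_cast
  ring

theorem r_b : B.r B.b = 3 := by
  unfold b
  rw [map_sub, map_one, r_a]
  decide

theorem symm_r_a : B.symm.r B.a = 3 := by
  have h := B.symm.r_b
  rwa [B.symm_b] at h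

theorem symm_r_b : B.symm.r B.b = 6 := B.symm.r_a

theorem r_eq_zero {x : 𝓞 N} : B.r x = 0 ↔ B.a ^ 3 ∣ x := by
  constructor
  · intro h
    have h1 : ((B.cm x - 2 * B.cn x : ℤ) : ZMod 8) = 0 := by
      have h2 : ((B.cm x : ZMod 8) + 6 * B.cn x) = 0 := h
      have h8 : (8 : ZMod 8) = 0 := rfl
      push_cast
      linear_combination h2 - (B.cn x : ZMod 8) * h8
    rw [ZMod.intCast_zmod_eq_zero_iff_dvd] at h1
    obtain ⟨k, hk⟩ := h1
    have hab := B.ab
    have e8 : (8 : 𝓞 N) = B.a ^ 3 * B.b ^ 3 := by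
      have : B.a ^ 3 * B.b ^ 3 = (B.a * B.b) ^ 3 := by ring
      rw [this, hab]
      norm_num
    refine ⟨k * B.b ^ 3 - B.cn x, ?_⟩
    have hx := B.coord x
    have hk' : (B.cm x : 𝓞 N) = 2 * B.cn x + 8 * k := by
      have : B.cm x = 2 * B.cn x + 8 * k := by
        push_cast at hk
        linarith
      rw [this]
      push_cast
      ring
    have ha3 : B.a ^ 3 = -(B.a + 2) := by linear_combination (B.a + 1) * B.rel
    have e : B.a ^ 3 * (k * B.b ^ 3 - B.cn x) = k * (B.a ^ 3 * B.b ^ 3) - B.a ^ 3 * B.cn x := by ring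
    rw [e, ← e8, ha3]
    linear_combination hx + hk'
  · rintro ⟨y, rfl⟩
    rw [map_mul, map_pow, r_a]
    have : (6 : ZMod 8) ^ 3 = 0 := by decide
    rw [this, zero_mul]

/-- the element is divisible by `a` if and only if its image is even -/
theorem a_dvd {x : 𝓞 N} : B.a ∣ x ↔ 4 * B.r x = 0 := by
  constructor
  · rintro ⟨y, rfl⟩
    rw [map_mul, r_a]
    have : ∀ t : ZMod 8, 4 * (6 * t) = 0 := by decide
    exact this _
  · intro h
    have h1 : ((4 * (B.cm x + 6 * B.cn x) : ℤ) : ZMod 8) = 0 := by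
      have h2 : 4 * ((B.cm x : ZMod 8) + 6 * B.cn x) = 0 := h
      push_cast
      exact h2
    rw [ZMod.intCast_zmod_eq_zero_iff_dvd] at h1
    obtain ⟨k, hk⟩ := h1
    refine ⟨B.b * (k - 3 * B.cn x) + B.cn x, ?_⟩
    have hx := B.coord x
    have hk' : (B.cm x : 𝓞 N) = 2 * (k - 3 * B.cn x) := by
      have : B.cm x = 2 * (k - 3 * B.cn x) := by
        push_cast at hk
        linarith
      rw [this]
      push_cast
      ring
    have hab := B.ab
    linear_combination hx + hk' - (k - 3 * (B.cn x : 𝓞 N)) * hab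

theorem a_dvd' (x : 𝓞 N) : B.a ∣ x ∨ B.a ∣ x - 1 := by
  rw [a_dvd, a_dvd, map_sub, map_one]
  have : ∀ t : ZMod 8, 4 * t = 0 ∨ 4 * (t - 1) = 0 := by decide
  exact this _

theorem not_isUnit_a : ¬ IsUnit B.a := by
  intro h
  have h1 : B.a ∣ 1 := h.dvd
  rw [a_dvd, map_one] at h1
  exact absurd h1 (by decide)

theorem a_ne : B.a ≠ 0 := by
  intro h
  have h1 := B.ab
  rw [h, zero_mul] at h1
  exact two_ne_zero h1.symm

theorem prime_a : Prime B.a := by
  refine ⟨B.a_ne, B.not_isUnit_a, fun x y h => ?_⟩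
  rw [a_dvd, map_mul] at h
  rw [a_dvd, a_dvd]
  have : ∀ s t : ZMod 8, 4 * (s * t) = 0 → 4 * s = 0 ∨ 4 * t = 0 := by decide
  exact this _ _ h

theorem prime_b : Prime B.b := B.symm.prime_a

theorem a_not_dvd_b : ¬ B.a ∣ B.b := by
  rw [a_dvd, r_b]
  decide

theorem b_not_dvd_a : ¬ B.b ∣ B.a := by
  have h := B.symm.a_not_dvd_b
  rwa [symm_b] at h

include B in
theorem isUnit_iff {x : 𝓞 N} : IsUnit x ↔ x = 1 ∨ x = -1 := by
  constructor
  · intro h
    obtain ⟨y, hy⟩ := h.exists_right_inv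
    have hx := B.coord x
    have hy' := B.coord y
    generalize B.cm x = m at *
    generalize B.cn x = n at *
    generalize B.cm y = k at *
    generalize B.cn y = l at *
    have h1 : ((m * k - 2 * n * l : ℤ) : 𝓞 N) + ((m * l + n * k + n * l : ℤ) : 𝓞 N) * B.a =
        ((1 : ℤ) : 𝓞 N) + ((0 : ℤ) : 𝓞 N) * B.a := by
      rw [hx, hy'] at hy
      push_cast
      linear_combination hy - (n : 𝓞 N) * l * B.rel
    obtain ⟨h2, h3⟩ := B.coord_inj h1
    have h4 : (m ^ 2 + m * n + 2 * n ^ 2) * (k ^ 2 + k * l + 2 * l ^ 2) = 1 := by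
      have e : (m ^ 2 + m * n + 2 * n ^ 2) * (k ^ 2 + k * l + 2 * l ^ 2) =
        (m * k - 2 * n * l) ^ 2 + (m * k - 2 * n * l) * (m * l + n * k + n * l) +
          2 * (m * l + n * k + n * l) ^ 2 := by ring
      rw [e, h2, h3]
      ring
    have h5 : 0 ≤ m ^ 2 + m * n + 2 * n ^ 2 := by nlinarith [sq_nonneg (2 * m + n), sq_nonneg n]
    have h6 : m ^ 2 + m * n + 2 * n ^ 2 = 1 := by
      rcases Int.eq_one_or_neg_one_of_mul_eq_one h4 with h | h
      · exact h
      · omega
    have h7 : n = 0 := by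
      have : 7 * n ^ 2 ≤ 4 := by nlinarith [sq_nonneg (2 * m + n)]
      have h8 : n ^ 2 ≤ 0 := by
        by_contra hc
        push Not at hc
        linarith
      have h9 : n ^ 2 = 0 := le_antisymm h8 (sq_nonneg n)
      simpa using h9
    subst h7
    have h8 : m ^ 2 = 1 := by linarith
    have h9 : (m - 1) * (m + 1) = 0 := by linear_combination h8
    rcases mul_eq_zero.1 h9 with h | h
    · left
      have : m = 1 := by omega
      rw [hx, this]
      push_cast
      ring
    · right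
      have : m = -1 := by omega
      rw [hx, this]
      push_cast
      ring
  · rintro (rfl | rfl)
    · exact isUnit_one
    · exact isUnit_one.neg

end B7

end

end Pool.Agent.Lib.MP_1a91b9_ntV.C
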