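import Pool.Agent.Lib.MP_1a91b9_ntV.C.At7

/-!
# The field `ℚ(√-7)`: prime elements, bits, symbols, laws
-/

set_option autoImplicit false
set_option linter.unusedSectionVars false
set_option linter.unusedVariables false

namespace Pool.Agent.Lib.MP_1a91b9_ntV.C

open NumberField Finset WithZero IsDedekindDomain
open Pool.Agent.Lib.MP_1a91b9_ntH.C (Sq isSquare_exp nu_one Sq.near Sq.one Sq.mul Sq.cancel
  Sq.of_mul_sq Sq.of_isSquare Sq.even Sq.ne exists_nu nu_four nu_four_le)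

noncomputable section

/-- the bits of a unit of `ZMod 8`: `t = (-1) ^ e * 5 ^ f` -/
def be8 (t : ZMod 8) : ZMod 2 := if t = 3 ∨ t = 7 then 1 else 0
def bf8 (t : ZMod 8) : ZMod 2 := if t = 3 ∨ t = 5 then 1 else 0

theorem be8_mul {s t : ZMod 8} (hs : 4 * s ≠ 0) (ht : 4 * t ≠ 0) : be8 (s * t) = be8 s + be8 t := by
  unfold be8
  revert s t
  decide

theorem bf8_mul {s t : ZMod 8} (hs : 4 * s ≠ 0) (ht : 4 * t ≠ 0) : bf8 (s * t) = bf8 s + bf8 t := by
  unfold bf8
  revert s t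
  decide

theorem be8_one : be8 1 = 0 := by decide
theorem bf8_one : bf8 1 = 0 := by decide

theorem one_of_bits {t : ZMod 8} (ht : 4 * t ≠ 0) : t = 1 ↔ be8 t = 0 ∧ bf8 t = 0 := by
  unfold be8 bf8
  revert t
  decide

theorem od_mul {s t : ZMod 8} (hs : 4 * s ≠ 0) (ht : 4 * t ≠ 0) : 4 * (s * t) ≠ 0 := by
  revert s t
  decide

theorem od_pow {s : ZMod 8} (hs : 4 * s ≠ 0) (e : ZMod 2) : 4 * s ^ e.val ≠ 0 := by
  revert s e
  decide

theorem be8_pow {s : ZMod 8} (hs : 4 * s ≠ 0) (e : ZMod 2) : be8 (s ^ e.val) = e * be8 s := by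
  unfold be8
  revert s e
  decide

theorem bf8_pow {s : ZMod 8} (hs : 4 * s ≠ 0) (e : ZMod 2) : bf8 (s ^ e.val) = e * bf8 s := by
  unfold bf8
  revert s e
  decide

theorem bits_prod {κ : Type*} (S : Finset κ) (f : κ → ZMod 8) (V : κ → ZMod 2)
    (h : ∀ i ∈ S, 4 * f i ≠ 0) : 4 * (∏ i ∈ S, f i ^ (V i).val) ≠ 0 ∧
      be8 (∏ i ∈ S, f i ^ (V i).val) = ∑ i ∈ S, V i * be8 (f i) ∧
      bf8 (∏ i ∈ S, f i ^ (V i).val) = ∑ i ∈ S, V i * bf8 (f i) := by
  classical
  induction S using Finset.induction_on with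
  | empty =>
    rw [prod_empty, sum_empty, sum_empty]
    decide
  | insert a S ha ih =>
    obtain ⟨h1, h2, h3⟩ := ih fun i hi => h i (mem_insert_of_mem hi)
    have h4 := od_pow (h a (mem_insert_self a S)) (V a)
    rw [prod_insert ha, sum_insert ha, sum_insert ha, be8_mul h4 h1, bf8_mul h4 h1, h2, h3,
      be8_pow (h a (mem_insert_self a S)), bf8_pow (h a (mem_insert_self a S))]
    exact ⟨od_mul h4 h1, rfl, rfl⟩

variable {N : Type*} [Field N] [NumberField N]

/-- prime elements, `= 1` modulo `a ^ 2`, prime to `2`, not associated -/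
structure Gens (B : B7 N) (ι : Type*) where
  q : ι → 𝓞 N
  prime : ∀ i, Prime (q i)
  one : ∀ i, B.r (q i) = 1 ∨ B.r (q i) = 5
  odd : ∀ i, ¬ B.b ∣ q i
  ne : ∀ i j, i ≠ j → ¬ q i ∣ q j

namespace Gens

variable {B : B7 N} {ι : Type*} (G : Gens B ι)

/-- the bits -/
def b (i : ι) : ZMod 2 := bf8 (B.r (G.q i))
def a (i : ι) : ZMod 2 := be8 (B.symm.r (G.q i))
def b' (i : ι) : ZMod 2 := bf8 (B.symm.r (G.q i))
/-- `s i j = [q i / q j]` -/
def s (i j : ι) : ZMod 2 := ls (G.q j) (G.q i)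

/-- the quadratic laws -/
structure Laws : Prop where
  m1 : ∀ i, ls (G.q i) (-1) = G.a i
  la : ∀ i, ls (G.q i) B.a = G.b i + G.a i
  lb : ∀ i, ls (G.q i) B.b = G.b' i + G.a i
  rc : ∀ i j, i ≠ j → G.s i j + G.s j i = G.a i * G.a j

theorem odd_a (i : ι) : ¬ B.a ∣ G.q i := by
  rw [B.a_dvd]
  rcases G.one i with h | h <;> rw [h] <;> decide

theorem r_od (i : ι) : 4 * B.r (G.q i) ≠ 0 := fun h => G.odd_a i (B.a_dvd.2 h)

theorem r_od' (i : ι) : 4 * B.symm.r (G.q i) ≠ 0 := fun h => G.odd i (B.symm.a_dvd.2 h)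

theorem q_not_a (i : ι) : ¬ G.q i ∣ B.a := by
  intro h
  exact G.odd_a i ((G.prime i).associated_of_dvd B.prime_a h).symm.dvd

theorem q_not_b (i : ι) : ¬ G.q i ∣ B.b := by
  intro h
  exact G.odd i ((G.prime i).associated_of_dvd B.prime_b h).symm.dvd

theorem q_not_two (i : ι) : ¬ G.q i ∣ 2 := by
  rw [← B.ab]
  intro h
  exact ((G.prime i).dvd_or_dvd h).elim (G.q_not_a i) (G.q_not_b i)

theorem q_not_neg (i : ι) : ¬ G.q i ∣ -1 := by
  intro h
  exact (G.prime i).not_isUnit (isUnit_of_dvd_unit h isUnit_one.neg)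

/-- the mirror image: generators `= 1` modulo `(1 - a) ^ 2` -/
def symm : Gens B.symm ι where
  q i := (-1) ^ (G.a i).val * G.q i
  prime i := by
    rcases neg_one_pow_eq_or (𝓞 N) (G.a i).val with h | h
    · rw [h, one_mul]
      exact G.prime i
    · rw [h, neg_one_mul]
      exact (G.prime i).neg
  one i := by
    have h := G.r_od' i
    rw [RingHom.map_mul, RingHom.map_pow, RingHom.map_neg, RingHom.map_one]
    unfold a be8
    revert h
    generalize B.symm.r (G.q i) = t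
    revert t
    decide
  odd i := by
    rw [B.symm_b]
    rcases neg_one_pow_eq_or (𝓞 N) (G.a i).val with h | h
    · rw [h, one_mul]
      exact G.odd_a i
    · rw [h, neg_one_mul, dvd_neg]
      exact G.odd_a i
  ne i j hij := by
    rcases neg_one_pow_eq_or (𝓞 N) (G.a i).val with h | h <;>
      rcases neg_one_pow_eq_or (𝓞 N) (G.a j).val with h' | h' <;> rw [h, h']
    · rw [one_mul, one_mul]
      exact G.ne i j hij
    · rw [one_mul, neg_one_mul, dvd_neg]
      exact G.ne i j hij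
    · rw [one_mul, neg_one_mul, neg_dvd]
      exact G.ne i j hij
    · rw [neg_one_mul, neg_one_mul, neg_dvd, dvd_neg]
      exact G.ne i j hij

theorem symm_q (i : ι) : G.symm.q i = (-1) ^ (G.a i).val * G.q i := rfl

theorem symm_a (i : ι) : G.symm.a i = G.a i := by
  show be8 (B.symm.symm.r (G.symm.q i)) = G.a i
  rw [B.symm_symm, symm_q, RingHom.map_mul, RingHom.map_pow, RingHom.map_neg, RingHom.map_one]
  have h := G.one i
  revert h
  generalize G.a i = u
  generalize B.r (G.q i) = t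
  unfold be8
  revert t u
  decide

theorem symm_b (i : ι) : G.symm.b i = G.b' i := by
  show bf8 (B.symm.r (G.symm.q i)) = G.b' i
  rw [symm_q, RingHom.map_mul, RingHom.map_pow, RingHom.map_neg, RingHom.map_one]
  unfold b' bf8
  have h := G.r_od' i
  revert h
  generalize G.a i = u
  generalize B.symm.r (G.q i) = t
  revert t u
  decide

theorem symm_b' (i : ι) : G.symm.b' i = G.b i := by
  show bf8 (B.symm.symm.r (G.symm.q i)) = G.b i
  rw [B.symm_symm, symm_q, RingHom.map_mul, RingHom.map_pow, RingHom.map_neg, RingHom.map_one]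
  unfold b bf8
  have h := G.r_od i
  revert h
  generalize G.a i = u
  generalize B.r (G.q i) = t
  revert t u
  decide

theorem ls_q (i : ι) (x : 𝓞 N) : ls (G.symm.q i) x = ls (G.q i) x := by
  have h : ∀ y : 𝓞 N, G.symm.q i ∣ y ↔ G.q i ∣ y := by
    intro y
    rw [symm_q]
    rcases neg_one_pow_eq_or (𝓞 N) (G.a i).val with h | h
    · rw [h, one_mul]
    · rw [h, neg_one_mul, neg_dvd]
  have h2 : (∃ y : 𝓞 N, G.symm.q i ∣ y ^ 2 - x) ↔ ∃ y : 𝓞 N, G.q i ∣ y ^ 2 - x :=
    exists_congr fun y => h _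
  rcases (by decide : ∀ t : ZMod 2, t = 0 ∨ t = 1) (ls (G.q i) x) with h3 | h3
  · rw [h3, ls_eq_zero, h2, ← ls_eq_zero, h3]
  · have h4 : ls (G.symm.q i) x ≠ 0 := by
      rw [Ne, ls_eq_zero, h2, ← ls_eq_zero, h3]
      decide
    rw [h3]
    exact (by decide : ∀ t : ZMod 2, t ≠ 0 → t = 1) _ h4

theorem symm_s (hL : G.Laws) {i j : ι} (hij : i ≠ j) : G.symm.s i j = G.s j i := by
  have h1 : G.symm.s i j = G.a i * G.a j + G.s i j := by
    show ls (G.symm.q j) (G.symm.q i) = _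
    rw [ls_q, symm_q, ls_mul (G.prime j)]
    · rw [ls_pow (G.prime j) (G.q_not_neg j), hL.m1]
      rfl
    · intro h
      exact G.q_not_neg j ((G.prime j).dvd_of_dvd_pow h)
    · exact G.ne j i hij.symm
  rw [h1, ← hL.rc i j hij]
  have : ∀ x y : ZMod 2, x + y + x = y := by decide
  exact this _ _

theorem symm_laws (hL : G.Laws) : G.symm.Laws where
  m1 i := by rw [ls_q, hL.m1, symm_a]
  la i := by
    rw [ls_q, symm_b, symm_a]
    exact hL.lb i
  lb i := by
    rw [ls_q, symm_b', symm_a, B.symm_b]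
    exact hL.la i
  rc i j hij := by
    rw [symm_s G hL hij, symm_s G hL hij.symm, symm_a, symm_a, add_comm]
    exact hL.rc i j hij

end Gens

end

end Pool.Agent.Lib.MP_1a91b9_ntV.C
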