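import Pool.Agent.Lib.MP_1a91b9_ntV.C.Sys
import Pool.Agent.Lib.MP_1a91b9_ntV.C.Desc

/-!
# The field `ℚ(√-7)`: the Selmer group of `y ^ 2 = x (x + D) (x + D b ^ 4)`
-/

set_option autoImplicit false
set_option linter.unusedSectionVars false
set_option linter.unusedVariables false

namespace Pool.Agent.Lib.MP_1a91b9_ntV.C

open NumberField Finset WithZero IsDedekindDomain
open Pool.Agent.Lib.MP_1a91b9_ntH.C (Sq isSquare_exp nu_one Sq.near Sq.one Sq.mul Sq.cancel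
  Sq.of_mul_sq Sq.of_isSquare Sq.even Sq.ne exists_nu nu_four nu_four_le)

noncomputable section

variable {N : Type*} [Field N] [NumberField N]

/-- the roots of the curve `y ^ 2 = x (x + D) (x + D t)` -/
def rt (D t : N) : Fin 3 → N := ![0, -D, -(D * t)]

theorem rt0 (D t : N) : rt D t 0 = 0 := rfl
theorem rt1 (D t : N) : rt D t 1 = -D := rfl
theorem rt2 (D t : N) : rt D t 2 = -(D * t) := rfl

/-- the first component of a class of order two -/
theorem first_of_tors {ν : Valuation N ℤᵐ⁰} (h4 : ν 4 ≤ 1) {D t : N} (hD : D ≠ 0)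
    (h1t : Sq ν (1 - t)) {a : Fin 3 → N} (hp : IsSquare (a 0 * a 1 * a 2)) (ha : ∀ i, a i ≠ 0)
    (h : (∀ i, Sq ν (a i)) ∨ ∃ j, ∀ i, i ≠ j → Sq ν (a i * (rt D t j - rt D t i))) :
    Sq ν (a 1) ∨ Sq ν (a 1 * D) := by
  rcases h with h | ⟨j, h⟩
  · exact Or.inl (h 1)
  · fin_cases j
    · right
      have h5 := h 1 (by decide)
      change Sq ν (a 1 * (rt D t 0 - rt D t 1)) at h5
      rw [rt0, rt1] at h5
      have e : a 1 * (0 - -D) = a 1 * D := by ring
      rwa [e] at h5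
    · left
      have h5 := h 0 (by decide)
      have h6 := h 2 (by decide)
      change Sq ν (a 0 * (rt D t 1 - rt D t 0)) at h5
      change Sq ν (a 2 * (rt D t 1 - rt D t 2)) at h6
      rw [rt0, rt1] at h5
      rw [rt1, rt2] at h6
      have h7 := h5.mul h4 h6
      have e : a 0 * (-D - 0) * (a 2 * (-D - -(D * t))) = (a 0 * a 2 * (1 - t)) * D ^ 2 := by ring
      rw [e] at h7
      have h8 := (h7.of_mul_sq hD).cancel h4 h1t
      have h9 : Sq ν (a 1 * (a 0 * a 2)) := by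
        refine Sq.of_isSquare ?_ (mul_ne_zero (ha 1) (mul_ne_zero (ha 0) (ha 2)))
        have e2 : a 1 * (a 0 * a 2) = a 0 * a 1 * a 2 := by ring
        rw [e2]
        exact hp
      exact h9.cancel h4 h8
    · right
      have h5 := h 1 (by decide)
      change Sq ν (a 1 * (rt D t 2 - rt D t 1)) at h5
      rw [rt1, rt2] at h5
      have e : a 1 * (-(D * t) - -D) = a 1 * D * (1 - t) := by ring
      rw [e] at h5
      exact h5.cancel h4 h1t

theorem one_sub_b4 (B : B7 N) : (1 : N) - (B.b : N) ^ 4 = (B.a : N) ^ 4 := by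
  linear_combination -B.a4_add_b4

namespace Gens

variable {B : B7 N} {ι : Type*} [DecidableEq ι] (G : Gens B ι)

/-- the first component of a triple which satisfies the local conditions -/
theorem sel_first_ker (hL : G.Laws) {S : Finset ι} {d0 d1 d2 : ZMod 2}
    {D : N} (hDe : D = ((G.el S d0 d1 d2 (fun _ => 1) : 𝓞 N) : N))
    (a : Fin 3 → N) (ha : ∀ i, a i ≠ 0) (hp : IsSquare (a 0 * a 1 * a 2))
    (hloc : ∀ v : HeightOneSpectrum (𝓞 N), GLoc (v.valuation N) (rt D ((B.b : N) ^ 4)) a) :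
    ∃ (x : ι → ZMod 2) (x1 : ZMod 2), G.Ker S d0 d1 d2 x x1 ∧
      (IsSquare (a 1 * ((G.el S (x1 + ∑ i ∈ S, x i * G.a i) x1 0 x : 𝓞 N) : N)) ∨
        IsSquare (a 1 * ((G.el S (x1 + ∑ i ∈ S, x i * G.a i) x1 0 x : 𝓞 N) : N) * D)) := by
  have hD0 : D ≠ 0 := by
    rw [hDe]
    exact coe_ne (G.el_ne S d0 d1 d2 _)
  have haN : (B.a : N) ≠ 0 := coe_ne B.a_ne
  have hbN : (B.b : N) ≠ 0 := coe_ne B.symm.a_ne
  have h1b := one_sub_b4 B
  have hdiff : ∀ ν : Valuation N ℤᵐ⁰, ν (B.a : N) = 1 → ν (B.b : N) = 1 → ∀ i j, i ≠ j →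
      ν (rt D ((B.b : N) ^ 4) i - rt D ((B.b : N) ^ 4) j) = ν D := by
    intro ν hνa hνb
    have h01 : ν (rt D ((B.b : N) ^ 4) 0 - rt D ((B.b : N) ^ 4) 1) = ν D := by
      rw [rt0, rt1]
      have e : (0 : N) - -D = D := by ring
      rw [e]
    have h02 : ν (rt D ((B.b : N) ^ 4) 0 - rt D ((B.b : N) ^ 4) 2) = ν D := by
      rw [rt0, rt2]
      have e : (0 : N) - -(D * (B.b : N) ^ 4) = D * (B.b : N) ^ 4 := by ring
      rw [e, map_mul, map_pow, hνb, one_pow, mul_one]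
    have h12 : ν (rt D ((B.b : N) ^ 4) 1 - rt D ((B.b : N) ^ 4) 2) = ν D := by
      rw [rt1, rt2]
      have e : -D - -(D * (B.b : N) ^ 4) = -(D * (B.a : N) ^ 4) := by
        linear_combination -D * h1b
      rw [e, Valuation.map_neg, map_mul, map_pow, hνa, one_pow, mul_one]
    intro i j hij
    fin_cases i <;> fin_cases j
    · exact absurd rfl hij
    · exact h01
    · exact h02
    · exact (Valuation.map_sub_swap ν _ _).trans h01
    · exact absurd rfl hij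
    · exact h12
    · exact (Valuation.map_sub_swap ν _ _).trans h02
    · exact (Valuation.map_sub_swap ν _ _).trans h12
    · exact absurd rfl hij
  have hfour : ∀ (π : 𝓞 N) (hπ : Prime π), ¬ π ∣ 2 → (pv π hπ).valuation N (4 : N) = 1 := by
    intro π hπ h2
    have h := pv_one (N := N) hπ h2
    have e : ((2 : 𝓞 N) : N) = 2 := map_ofNat (algebraMap (𝓞 N) N) 2
    rw [e] at h
    rw [show (4 : N) = 2 * 2 by norm_num, map_mul, h, mul_one]
  have hab : ∀ (π : 𝓞 N) (hπ : Prime π), ¬ π ∣ 2 → (pv π hπ).valuation N (B.a : N) = 1 ∧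
      (pv π hπ).valuation N (B.b : N) = 1 := by
    intro π hπ h2
    rw [← B.ab] at h2
    exact ⟨pv_one hπ fun h => h2 (Dvd.dvd.mul_right h _),
      pv_one hπ fun h => h2 (Dvd.dvd.mul_left h _)⟩
  have h1t : ∀ ν : Valuation N ℤᵐ⁰, Sq ν (1 - (B.b : N) ^ 4) := by
    intro ν
    rw [h1b]
    exact Sq.of_isSquare ⟨(B.a : N) ^ 2, by ring⟩ (pow_ne_zero _ haN)
  rw [hDe]
  refine G.sel_ker hL (a 1) (ha 1) ?_ ?_ ?_ ?_
  · intro π hπ h2 hS
    have h4 := hfour π hπ h2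
    obtain ⟨hνa, hνb⟩ := hab π hπ h2
    have hνD : (pv π hπ).valuation N D = 1 := by
      rw [hDe]
      apply pv_one
      unfold el
      intro h
      have ha' : ¬ π ∣ B.a := fun h5 => h2 (by rw [← B.ab]; exact Dvd.dvd.mul_right h5 _)
      have hb' : ¬ π ∣ B.b := fun h5 => h2 (by rw [← B.ab]; exact Dvd.dvd.mul_left h5 _)
      rcases hπ.dvd_or_dvd h with h5 | h5
      · rcases hπ.dvd_or_dvd h5 with h6 | h6
        · rcases hπ.dvd_or_dvd h6 with h7 | h7
          · exact hπ.not_isUnit (isUnit_of_dvd_unit h7 ((isUnit_one.neg).pow _))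
          · exact ha' (hπ.dvd_of_dvd_pow h7)
        · exact hb' (hπ.dvd_of_dvd_pow h6)
      · exact not_dvd_gpr hπ hS _ h5
    refine loc_even ((pv π hπ).valuation N) h4 0 (fun i j hij => ?_) a ha hp (hloc _) 1
    rw [hdiff _ hνa hνb i j hij, hνD]
    rfl
  · intro i hi
    have h2 := G.q_not_two i
    have h4 := hfour (G.q i) (G.prime i) h2
    obtain ⟨hνa, hνb⟩ := hab (G.q i) (G.prime i) h2
    have hνD : (pv (G.q i) (G.prime i)).valuation N D = exp (2 * (-1) + 1) := by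
      have h1 : ((1 : ZMod 2)).val = 1 := rfl
      rw [hDe, G.el_erase hi, h1, pow_one]
      have e : ((G.q i * G.el (S.erase i) d0 d1 d2 (fun _ => 1) : 𝓞 N) : N) =
          (G.q i : N) * ((G.el (S.erase i) d0 d1 d2 (fun _ => 1) : 𝓞 N) : N) := by
        push_cast
        ring
      rw [e, map_mul, pv_self, pv_one (G.prime i) (G.not_dvd_el (notMem_erase i S) _ _ _ _),
        mul_one]
      rfl
    rw [← hDe]
    refine first_of_tors h4.le hD0 (h1t _) hp ha ?_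
    refine loc_bad ((pv (G.q i) (G.prime i)).valuation N) h4 (-1) (fun k l hkl => ?_) a ha hp
      (hloc _)
    rw [hdiff _ hνa hνb k l hkl, hνD]
  · rw [← hDe]
    exact loc_b B.symm.nu_two B.symm.res hD0 B.nu_b4 hp ha (hloc (pv B.symm.a B.symm.prime_a))
  · rw [← hDe]
    intro h
    refine loc_a B.nu_two B.res hD0 ?_ hp ha (hloc (pv B.a B.prime_a)) h
    rw [h1b]
    exact B.nu_a4

theorem sel_first (hL : G.Laws) {S : Finset ι} {d0 d1 d2 : ZMod 2} (hgood : G.Good S d0 d1 d2)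
    {D : N} (hDe : D = ((G.el S d0 d1 d2 (fun _ => 1) : 𝓞 N) : N))
    (a : Fin 3 → N) (ha : ∀ i, a i ≠ 0) (hp : IsSquare (a 0 * a 1 * a 2))
    (hloc : ∀ v : HeightOneSpectrum (𝓞 N), GLoc (v.valuation N) (rt D ((B.b : N) ^ 4)) a) :
    IsSquare (a 1) ∨ IsSquare (a 1 * D) := by
  have hD0 : D ≠ 0 := by
    rw [hDe]
    exact coe_ne (G.el_ne S d0 d1 d2 _)
  obtain ⟨x, x1, hk, hx⟩ := G.sel_first_ker hL hDe a ha hp hloc
  rcases hgood x x1 hk with ⟨h1, h2⟩ | ⟨h1, h2, h3⟩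
  · rw [G.el_triv h1 h2] at hx
    have e : ((1 : 𝓞 N) : N) = 1 := map_one (algebraMap (𝓞 N) N)
    rw [e, mul_one] at hx
    exact hx
  · rw [G.el_D h1 h2 h3, ← hDe] at hx
    rcases hx with h4 | ⟨t, ht⟩
    · exact Or.inr h4
    · left
      refine ⟨t / D, ?_⟩
      field_simp
      linear_combination ht

omit [DecidableEq ι] in
theorem neg_one_add (u v : ZMod 2) : (-1 : 𝓞 N) ^ (u + v).val = (-1) ^ u.val * (-1) ^ v.val := by
  rcases (by decide : ∀ t : ZMod 2, t = 0 ∨ t = 1) u with rfl | rfl <;>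
    rcases (by decide : ∀ t : ZMod 2, t = 0 ∨ t = 1) v with rfl | rfl
  · rw [add_zero, ZMod.val_zero, pow_zero, mul_one]
  · rw [zero_add, ZMod.val_zero, pow_zero, one_mul]
  · rw [add_zero, ZMod.val_zero, pow_zero, mul_one]
  · have h1 : ((1 : ZMod 2)).val = 1 := rfl
    have h2 : ((1 : ZMod 2) + 1).val = 0 := rfl
    rw [h1, h2]
    ring

/-- the mirror image of `-D` -/
theorem symm_el (S : Finset ι) (d0 d1 d2 : ZMod 2) :
    G.symm.el S (d0 + 1 + ∑ i ∈ S, G.a i) d2 d1 (fun _ => 1) =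
      -G.el S d0 d1 d2 (fun _ => 1) := by
  rw [G.neg_el]
  unfold el gpr
  have h1 : ((1 : ZMod 2)).val = 1 := rfl
  simp only [h1, pow_one]
  have e1 : ∏ i ∈ S, G.symm.q i = (-1) ^ (∑ i ∈ S, G.a i).val * ∏ i ∈ S, G.q i := by
    have e2 : ∏ i ∈ S, G.symm.q i = (∏ i ∈ S, (-1 : 𝓞 N) ^ (G.a i).val) * ∏ i ∈ S, G.q i := by
      rw [← prod_mul_distrib]
      rfl
    rw [e2]
    congr 1
    induction S using Finset.induction_on with
    | empty =>
      rw [prod_empty, sum_empty, ZMod.val_zero, pow_zero]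
    | insert a S ha ih =>
      rw [prod_insert ha, sum_insert ha, ih (by rw [← prod_mul_distrib]; rfl), neg_one_add]
  rw [e1]
  have e3 : B.symm.b = B.a := B.symm_b
  have e4 : B.symm.a = B.b := rfl
  have e5 : (-1 : 𝓞 N) ^ (d0 + 1 + ∑ i ∈ S, G.a i).val * (-1) ^ (∑ i ∈ S, G.a i).val =
      (-1) ^ (d0 + 1).val := by
    rw [← neg_one_add, add_assoc, (by decide : ∀ t : ZMod 2, t + t = 0), add_zero]
  rw [e3, e4]
  linear_combination (B.b ^ d2.val * B.a ^ d1.val * ∏ i ∈ S, G.q i) * e5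

theorem symm_De {S : Finset ι} {d0 d1 d2 : ZMod 2} {D : N}
    (hDe : D = ((G.el S d0 d1 d2 (fun _ => 1) : 𝓞 N) : N)) :
    -D = ((G.symm.el S (d0 + 1 + ∑ i ∈ S, G.a i) d2 d1 (fun _ => 1) : 𝓞 N) : N) := by
  rw [G.symm_el, hDe]
  push_cast
  rfl

omit [DecidableEq ι] in
/-- the local conditions for the mirror image -/
theorem swap_data (B : B7 N) {D : N} (a : Fin 3 → N) (ha : ∀ i, a i ≠ 0)
    (hp : IsSquare (a 0 * a 1 * a 2))
    (hloc : ∀ v : HeightOneSpectrum (𝓞 N), GLoc (v.valuation N) (rt D ((B.b : N) ^ 4)) a) :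
    (∀ i, (![a 1, a 0, a 2] : Fin 3 → N) i ≠ 0) ∧
      IsSquare ((![a 1, a 0, a 2] : Fin 3 → N) 0 * (![a 1, a 0, a 2] : Fin 3 → N) 1 *
        (![a 1, a 0, a 2] : Fin 3 → N) 2) ∧
      ∀ v : HeightOneSpectrum (𝓞 N), GLoc (v.valuation N) (rt (-D) ((B.symm.b : N) ^ 4))
        ![a 1, a 0, a 2] := by
  have h1b := one_sub_b4 B
  refine ⟨?_, ?_, ?_⟩
  · intro i
    fin_cases i
    · exact ha 1
    · exact ha 0
    · exact ha 2
  · show IsSquare (a 1 * a 0 * a 2)
    rw [mul_comm (a 1)]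
    exact hp
  · intro v
    refine (hloc v).swap (t := D) ?_ ?_ ?_
    · rw [rt0, rt1]
      ring
    · rw [rt0, rt1]
      ring
    · rw [rt2, rt2]
      have e3 : B.symm.b = B.a := B.symm_b
      rw [e3, ← h1b]
      ring

/-- The Selmer group: the criterion for `D` and for the mirror image. -/
theorem selCl (hL : G.Laws) {S : Finset ι} {d0 d1 d2 : ZMod 2} (hgood : G.Good S d0 d1 d2)
    (hgood' : G.symm.Good S (d0 + 1 + ∑ i ∈ S, G.a i) d2 d1)
    {D : N} (hDe : D = ((G.el S d0 d1 d2 (fun _ => 1) : 𝓞 N) : N)) :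
    SelCl (rt D ((B.b : N) ^ 4)) := by
  intro a ha hp hloc
  have hD0 : D ≠ 0 := by
    rw [hDe]
    exact coe_ne (G.el_ne S d0 d1 d2 _)
  have haN : (B.a : N) ≠ 0 := coe_ne B.a_ne
  have hbN : (B.b : N) ≠ 0 := coe_ne B.symm.a_ne
  have h1b := one_sub_b4 B
  have h1 := G.sel_first hL hgood hDe a ha hp hloc
  have h2 : IsSquare (a 0) ∨ IsSquare (a 0 * -D) := by
    obtain ⟨h3, h4, h5⟩ := swap_data B a ha hp hloc
    exact G.symm.sel_first (G.symm_laws hL) hgood' (G.symm_De hDe) ![a 1, a 0, a 2] h3 h4 h5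
  have ha2 : ∀ u : N, u ≠ 0 → IsSquare (a 0 * a 1 * u) → IsSquare (a 2 * u) := by
    rintro u hu ⟨r, hr⟩
    obtain ⟨s, hs⟩ := hp
    have hs0 : s ≠ 0 := by
      rintro rfl
      rw [mul_zero] at hs
      exact mul_ne_zero (mul_ne_zero (ha 0) (ha 1)) (ha 2) hs
    refine ⟨r * s / (a 0 * a 1), ?_⟩
    have h0 := ha 0
    have h1 := ha 1
    field_simp
    linear_combination (s ^ 2) * hr + (a 0 * a 1 * u) * hs
  rcases h1 with h1 | h1 <;> rcases h2 with h2 | h2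
  · left
    intro i
    fin_cases i
    · exact h2
    · exact h1
    · have h3 := ha2 1 one_ne_zero (by rw [mul_one]; exact h2.mul h1)
      rwa [mul_one] at h3
  · right
    refine ⟨1, fun i hi => ?_⟩
    fin_cases i
    · show IsSquare (a 0 * (rt D ((B.b : N) ^ 4) 1 - rt D ((B.b : N) ^ 4) 0))
      rw [rt0, rt1]
      have e : a 0 * (-D - 0) = a 0 * -D := by ring
      rw [e]
      exact h2
    · exact absurd rfl hi
    · show IsSquare (a 2 * (rt D ((B.b : N) ^ 4) 1 - rt D ((B.b : N) ^ 4) 2))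
      rw [rt1, rt2]
      have e : -D - -(D * (B.b : N) ^ 4) = -D * (B.a : N) ^ 4 := by
        linear_combination -D * h1b
      rw [e]
      refine ha2 _ (mul_ne_zero (neg_ne_zero.2 hD0) (pow_ne_zero _ haN)) ?_
      have e2 : a 0 * a 1 * (-D * (B.a : N) ^ 4) = (a 0 * -D) * a 1 * ((B.a : N) ^ 2 * (B.a : N) ^ 2) := by
        ring
      rw [e2]
      exact (h2.mul h1).mul ⟨_, rfl⟩
  · right
    refine ⟨0, fun i hi => ?_⟩
    fin_cases i
    · exact absurd rfl hi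
    · show IsSquare (a 1 * (rt D ((B.b : N) ^ 4) 0 - rt D ((B.b : N) ^ 4) 1))
      rw [rt0, rt1]
      have e : a 1 * (0 - -D) = a 1 * D := by ring
      rw [e]
      exact h1
    · show IsSquare (a 2 * (rt D ((B.b : N) ^ 4) 0 - rt D ((B.b : N) ^ 4) 2))
      rw [rt0, rt2]
      have e : 0 - -(D * (B.b : N) ^ 4) = D * (B.b : N) ^ 4 := by ring
      rw [e]
      refine ha2 _ (mul_ne_zero hD0 (pow_ne_zero _ hbN)) ?_
      have e2 : a 0 * a 1 * (D * (B.b : N) ^ 4) = a 0 * (a 1 * D) * ((B.b : N) ^ 2 * (B.b : N) ^ 2) := by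
        ring
      rw [e2]
      exact (h2.mul h1).mul ⟨_, rfl⟩
  · right
    refine ⟨2, fun i hi => ?_⟩
    fin_cases i
    · show IsSquare (a 0 * (rt D ((B.b : N) ^ 4) 2 - rt D ((B.b : N) ^ 4) 0))
      rw [rt0, rt2]
      have e : a 0 * (-(D * (B.b : N) ^ 4) - 0) = (a 0 * -D) * ((B.b : N) ^ 2 * (B.b : N) ^ 2) := by
        ring
      rw [e]
      exact h2.mul ⟨_, rfl⟩
    · show IsSquare (a 1 * (rt D ((B.b : N) ^ 4) 2 - rt D ((B.b : N) ^ 4) 1))
      rw [rt1, rt2]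
      have e : a 1 * (-(D * (B.b : N) ^ 4) - -D) = (a 1 * D) * ((B.a : N) ^ 2 * (B.a : N) ^ 2) := by
        linear_combination (a 1 * D) * h1b
      rw [e]
      exact h1.mul ⟨_, rfl⟩
    · exact absurd rfl hi

end Gens

end

end Pool.Agent.Lib.MP_1a91b9_ntV.C
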