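import Pool.Agent.Lib.MP_1a91b9_ntS.C.GoodV
import Pool.Agent.Lib.MP_1a91b9_ntV.C.SelF

/-!
# The field `ℚ(√-7)`: the local conditions at the good places are satisfied

Over a finite field the isogeny `a` has a kernel, so it is not surjective on points.
-/

set_option autoImplicit false
set_option linter.unusedSectionVars false
set_option linter.unusedVariables false

namespace Pool.Agent.Lib.MP_1a91b9_ntV.C

open NumberField Finset WithZero IsDedekindDomain
open Pool.Agent.Lib.MP_1a91b9_ntH.C (Sq)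
open Pool.Agent.Lib.MP_1a91b9_ntS.C (Rs rs_int exists_rs rs_surj rs_unique rs_zero_iff rs_add rs_neg
  rs_sub rs_mul rs_pow rs_one sq_of_rs)
open scoped Classical

section FF

variable {F : Type*} [Field F] [Finite F]

/-- There is a point which is not in the image of the isogeny `a`. -/
theorem ff_not_image (h2 : (2 : F) ≠ 0) {a : F} (ha : a ^ 2 = a - 2) {δ : F} (hδ : δ ≠ 0) :
    ∃ x y : F, y ^ 2 = x * (x + δ) * (x + δ * (1 - a) ^ 4) ∧ ¬ IsSquare (x + δ) := by
  by_contra hcon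
  push Not at hcon
  have hab : a * (1 - a) = 2 := by linear_combination -ha
  have ha0 : a ≠ 0 := by
    rintro rfl
    rw [zero_mul] at hab
    exact h2 hab.symm
  have hb0 : (1 - a) ≠ 0 := by
    intro h
    rw [h, mul_zero] at hab
    exact h2 hab.symm
  obtain ⟨t, ht⟩ : ∃ t : F, t = (1 - a) ^ 4 := ⟨_, rfl⟩
  have ht0 : t ≠ 0 := by
    rw [ht]
    exact pow_ne_zero _ hb0
  have h1t : 1 - t = a ^ 4 := by
    rw [ht]
    linear_combination (-(2 * a ^ 2 - 2 * a)) * ha
  have hat : a ^ 2 * (1 + a ^ 4) = 2 * (1 + t) := by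
    rw [ht]
    linear_combination (a ^ 4 + a ^ 3 - 3 * a ^ 2 + 3 * a - 2) * ha
  rw [← ht] at hcon
  let P := {p : F × F // p.2 ^ 2 = p.1 * (p.1 + δ) * (p.1 + δ * t)}
  have key : ∀ p : P, ∃ p' : P, p'.1.1 ≠ 0 ∧ (p'.1.2 / (a * p'.1.1)) ^ 2 - δ = p.1.1 ∧
      p'.1.2 * (p'.1.1 ^ 2 - δ ^ 2 * t) / (a ^ 3 * p'.1.1 ^ 2) = p.1.2 := by
    rintro ⟨⟨x', y'⟩, hp⟩
    change y' ^ 2 = x' * (x' + δ) * (x' + δ * t) at hp
    obtain ⟨s, hs⟩ := hcon x' y' hp
    by_cases hs0 : s = 0
    · have hx' : x' = -δ := by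
        rw [hs0] at hs
        linear_combination hs
      have hy' : y' = 0 := by
        rw [hx'] at hp
        have : y' ^ 2 = 0 := by linear_combination hp
        exact pow_eq_zero_iff two_ne_zero |>.1 this
      refine ⟨⟨(-δ, 0), ?_⟩, ?_, ?_, ?_⟩
      · show (0 : F) ^ 2 = -δ * (-δ + δ) * (-δ + δ * t)
        ring
      · show -δ ≠ 0
        exact neg_ne_zero.2 hδ
      · show (0 / (a * -δ)) ^ 2 - δ = x'
        rw [hx']
        simp
      · show 0 * ((-δ) ^ 2 - δ ^ 2 * t) / (a ^ 3 * (-δ) ^ 2) = y'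
        rw [hy']
        simp
    · obtain ⟨x, hx⟩ : ∃ x : F, x = (a ^ 2 * s ^ 2 - δ * (1 + t) + a ^ 2 * y' / s) / 2 := ⟨_, rfl⟩
      have hx2 : 2 * x = a ^ 2 * s ^ 2 - δ * (1 + t) + a ^ 2 * y' / s := by
        rw [hx]
        field_simp
      have hxs : x' = s ^ 2 - δ := by linear_combination hs
      have hw : (a ^ 2 * y' / s) ^ 2 = (a ^ 2 * s ^ 2 - δ * (1 + t)) ^ 2 - 4 * δ ^ 2 * t := by
        have e1 : (a ^ 2 * y' / s) ^ 2 = a ^ 4 * y' ^ 2 / s ^ 2 := by
          field_simp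
        rw [e1, hp, hxs]
        have e2 : a ^ 4 * ((s ^ 2 - δ) * (s ^ 2 - δ + δ) * (s ^ 2 - δ + δ * t)) / s ^ 2 =
            a ^ 4 * (s ^ 2 - δ) * (s ^ 2 - δ * (1 - t)) := by
          field_simp
          ring
        rw [e2, h1t]
        have e3 : δ ^ 2 * (1 - t) ^ 2 = δ ^ 2 * a ^ 8 := by
          rw [h1t]
          ring
        linear_combination (-(δ * a ^ 2 * s ^ 2)) * hat - e3
      have hq : x ^ 2 - (a ^ 2 * s ^ 2 - δ * (1 + t)) * x + δ ^ 2 * t = 0 := by
        have h4 : (4 : F) ≠ 0 := by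
          have : (4 : F) = 2 * 2 := by norm_num
          rw [this]
          exact mul_ne_zero h2 h2
        have h5 : 4 * (x ^ 2 - (a ^ 2 * s ^ 2 - δ * (1 + t)) * x + δ ^ 2 * t) = 0 := by
          obtain ⟨z, hz⟩ : ∃ z : F, z = a ^ 2 * y' / s := ⟨_, rfl⟩
          rw [← hz] at hx2 hw
          linear_combination (2 * x + z - (a ^ 2 * s ^ 2 - δ * (1 + t))) * hx2 + hw
        exact (mul_eq_zero.1 h5).resolve_left h4
      have hx0 : x ≠ 0 := by
        rintro rfl
        have : δ ^ 2 * t = 0 := by linear_combination hq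
        exact mul_ne_zero (pow_ne_zero 2 hδ) ht0 this
      refine ⟨⟨(x, a * x * s), ?_⟩, hx0, ?_, ?_⟩
      · show (a * x * s) ^ 2 = x * (x + δ) * (x + δ * t)
        linear_combination (-x) * hq
      · show (a * x * s / (a * x)) ^ 2 - δ = x'
        have e : a * x * s / (a * x) = s := by
          field_simp
        rw [e, hxs]
      · show a * x * s * (x ^ 2 - δ ^ 2 * t) / (a ^ 3 * x ^ 2) = y'
        have e : a * x * s * (x ^ 2 - δ ^ 2 * t) / (a ^ 3 * x ^ 2) =
            s * (x ^ 2 - δ ^ 2 * t) / (a ^ 2 * x) := by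
          field_simp
        have e2 : x ^ 2 - δ ^ 2 * t = x * (a ^ 2 * y' / s) := by
          linear_combination (-1 : F) * hq + x * hx2
        rw [e, e2]
        field_simp
  choose ψ h0 h1 h3 using key
  have hinj : Function.Injective ψ := by
    intro p q hpq
    apply Subtype.ext
    apply Prod.ext
    · rw [← h1 p, ← h1 q, hpq]
    · rw [← h3 p, ← h3 q, hpq]
  have hsur : Function.Surjective ψ := Finite.surjective_of_injective hinj
  obtain ⟨p, hp⟩ := hsur ⟨(0, 0), by show (0 : F) ^ 2 = 0 * (0 + δ) * (0 + δ * t); ring⟩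
  exact h0 p (by rw [hp])

/-- The local conditions over the residue field. -/
theorem ff_loc (h2 : (2 : F) ≠ 0) {a : F} (ha : a ^ 2 = a - 2) {δ : F} (hδ : δ ≠ 0) {u : F}
    (hu : u ≠ 0) : IsSquare u ∨ IsSquare (u * δ) ∨ ∃ x : F, x ≠ 0 ∧ IsSquare x ∧ x + δ ≠ 0 ∧
      IsSquare (u * (x + δ)) ∧ x + δ * (1 - a) ^ 4 ≠ 0 ∧ IsSquare (u * (x + δ * (1 - a) ^ 4)) := by
  by_contra hcon
  push Not at hcon
  obtain ⟨hnu, hnd, hcon⟩ := hcon
  -- a product of two elements which are not squares is a square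
  have hns : ∀ x y : F, ¬ IsSquare x → ¬ IsSquare y → IsSquare (x * y) := by
    have _ : Fintype F := Fintype.ofFinite F
    intro x y hx hy
    have hx0 : x ≠ 0 := by
      rintro rfl
      exact hx ⟨0, by ring⟩
    have hy0 : y ≠ 0 := by
      rintro rfl
      exact hy ⟨0, by ring⟩
    have e1 : quadraticChar F x = -1 := by
      rw [quadraticChar_apply, quadraticCharFun, if_neg hx0, if_neg hx]
    have e2 : quadraticChar F y = -1 := by
      rw [quadraticChar_apply, quadraticCharFun, if_neg hy0, if_neg hy]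
    have e3 : quadraticChar F (x * y) = 1 := by
      rw [map_mul, e1, e2]
      norm_num
    by_contra hxy
    rw [quadraticChar_apply, quadraticCharFun, if_neg (mul_ne_zero hx0 hy0), if_neg hxy] at e3
    norm_num at e3
  have hδs : IsSquare δ := by
    by_contra h
    exact hnd (hns u δ hnu h)
  obtain ⟨x0, y0, hp, hs⟩ := ff_not_image h2 ha hδ
  have hab : a * (1 - a) = 2 := by linear_combination -ha
  have ha0 : a ≠ 0 := by
    rintro rfl
    rw [zero_mul] at hab
    exact h2 hab.symm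
  have hb0 : (1 - a) ≠ 0 := by
    intro h
    rw [h, mul_zero] at hab
    exact h2 hab.symm
  obtain ⟨b, hb⟩ : ∃ b : F, b = 1 - a := ⟨_, rfl⟩
  have hbr : b ^ 2 = b - 2 := by
    rw [hb]
    linear_combination ha
  have hab2 : a = 1 - b := by
    rw [hb]
    ring
  rw [← hb] at hp hcon hb0
  obtain ⟨s, hse⟩ : ∃ s : F, s = x0 + δ := ⟨_, rfl⟩
  have hx0 : x0 = s - δ := by
    rw [hse]
    ring
  rw [← hse] at hs
  have hs0 : s ≠ 0 := by
    rintro rfl
    exact hs ⟨0, by ring⟩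
  have hsq2 : ∀ z : F, IsSquare (δ * z ^ 2) := by
    intro z
    obtain ⟨d, hd⟩ := hδs
    exact ⟨d * z, by rw [hd]; ring⟩
  have hy0 : y0 ≠ 0 := by
    rintro rfl
    have h5 : x0 * (x0 + δ) * (x0 + δ * b ^ 4) = 0 := by linear_combination -hp
    rcases mul_eq_zero.1 h5 with h6 | h6
    · rcases mul_eq_zero.1 h6 with h7 | h7
      · apply hs
        have e : s = δ * 1 ^ 2 := by rw [hse, h7]; ring
        rw [e]
        exact hsq2 1
      · exact hs0 (hse.trans h7)
    · apply hs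
      have e : s = δ * (a ^ 2) ^ 2 := by
        rw [hse, hab2]
        linear_combination h6 + δ * (-2 * b ^ 2 + 2 * b) * hbr
      rw [e]
      exact hsq2 _
  obtain ⟨x, hx⟩ : ∃ x : F, x = (y0 / (b * s)) ^ 2 := ⟨_, rfl⟩
  have hxne : x ≠ 0 := by
    rw [hx]
    exact pow_ne_zero 2 (div_ne_zero hy0 (mul_ne_zero hb0 hs0))
  have hxsq : IsSquare x := ⟨_, hx.trans (sq _)⟩
  have e1 : x + δ = s * ((s + δ * a ^ 2) / (b * s)) ^ 2 := by
    rw [hx]
    field_simp
    rw [hp, hx0, hab2]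
    linear_combination (b * δ * s ^ 2 + 2 * b * δ ^ 2 * s + b ^ 2 * δ * s ^ 2 -
      2 * b ^ 2 * δ ^ 2 * s - 2 * δ * s ^ 2) * hbr
  have e2 : x + δ * b ^ 4 = s * ((s - δ * a ^ 2) / (b * s)) ^ 2 := by
    rw [hx]
    field_simp
    rw [hp, hx0, hab2]
    linear_combination (-2 * b * δ * s ^ 2 + 2 * b * δ ^ 2 * s - 2 * b ^ 2 * δ ^ 2 * s +
      b ^ 3 * δ * s ^ 2 + b ^ 4 * δ * s ^ 2) * hbr
  have h7 : x + δ ≠ 0 := by
    intro h
    rw [h] at e1
    have h8 : s + δ * a ^ 2 = 0 := by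
      have h9 := (mul_eq_zero.1 e1.symm).resolve_left hs0
      have h10 := pow_eq_zero_iff two_ne_zero |>.1 h9
      rw [div_eq_zero_iff] at h10
      exact h10.resolve_right (mul_ne_zero hb0 hs0)
    apply hs
    obtain ⟨d, hd⟩ := hδs
    have hd0 : d ≠ 0 := by
      rintro rfl
      exact hδ (by rw [hd]; ring)
    obtain ⟨w, hw⟩ := hxsq
    -- `-1` is a square
    refine ⟨w * a, ?_⟩
    have h11 : x = -δ := by linear_combination h
    have h12 : s = -δ * a ^ 2 := by linear_combination h8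
    rw [h12, ← h11, hw]
    ring
  have h8 : x + δ * b ^ 4 ≠ 0 := by
    intro h
    rw [h] at e2
    have h8 : s - δ * a ^ 2 = 0 := by
      have h9 := (mul_eq_zero.1 e2.symm).resolve_left hs0
      have h10 := pow_eq_zero_iff two_ne_zero |>.1 h9
      rw [div_eq_zero_iff] at h10
      exact h10.resolve_right (mul_ne_zero hb0 hs0)
    apply hs
    have e : s = δ * a ^ 2 := by linear_combination h8
    rw [e]
    exact hsq2 a
  have hus : IsSquare (u * s) := hns u s hnu hs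
  refine hcon x hxne hxsq h7 ?_ h8 ?_
  · rw [e1, ← mul_assoc]
    exact hus.mul ⟨_, sq _⟩
  · rw [e2, ← mul_assoc]
    exact hus.mul ⟨_, sq _⟩

end FF

end Pool.Agent.Lib.MP_1a91b9_ntV.C
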