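import Pool.Agent.Lib.MP_1a91b9_ntV.C.GoodG

/-!
# The field `ℚ(√-7)`: the triples `(1, y, y)` satisfy the local conditions, outside of `a`
-/

set_option autoImplicit false
set_option linter.unusedSectionVars false
set_option linter.unusedVariables false

namespace Pool.Agent.Lib.MP_1a91b9_ntV.C

open NumberField Finset WithZero IsDedekindDomain
open Pool.Agent.Lib.MP_1a91b9_ntH.C (Sq isSquare_exp nu_one Sq.near Sq.one Sq.mul Sq.cancel
  Sq.of_mul_sq Sq.of_isSquare Sq.even Sq.ne exists_nu nu_four nu_four_le)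
open Pool.Agent.Lib.MP_1a91b9_ntS.C (Rs rs_int exists_rs rs_surj rs_unique rs_zero_iff rs_add rs_neg
  rs_sub rs_mul rs_pow rs_one sq_of_rs)
open scoped Classical

section

variable {N : Type*} [Field N] [NumberField N]

/-- the trivial class -/
theorem gloc_one {ν : Valuation N ℤᵐ⁰} {D t y : N} (hy : Sq ν y) : GLoc ν (rt D t) ![1, y, y] := by
  refine Or.inl fun i => ?_
  fin_cases i
  · show Sq ν 1
    exact Sq.of_isSquare ⟨1, (one_mul 1).symm⟩ one_ne_zero
  · exact hy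
  · exact hy

/-- the class of the point `(0, 0)` -/
theorem gloc_tors {ν : Valuation N ℤᵐ⁰} (h4 : ν 4 ≤ 1) {D t y s : N} (hts : t = s ^ 2) (hs : s ≠ 0)
    (hy : Sq ν (y * D)) : GLoc ν (rt D t) ![1, y, y] := by
  refine Or.inr (Or.inl ⟨0, fun i hi => ?_⟩)
  fin_cases i
  · exact absurd rfl hi
  · show Sq ν (y * (rt D t 0 - rt D t 1))
    rw [rt0, rt1]
    have e : y * (0 - -D) = y * D := by ring
    rw [e]
    exact hy
  · show Sq ν (y * (rt D t 0 - rt D t 2))
    rw [rt0, rt2, hts]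
    have e : y * (0 - -(D * s ^ 2)) = y * D * (s ^ 2) := by ring
    rw [e]
    exact hy.mul h4 (Sq.of_isSquare ⟨s, by ring⟩ (pow_ne_zero 2 hs))

/-- the class of the point with abscissa `D c / E ^ 2` -/
theorem gloc_pt {ν : Valuation N ℤᵐ⁰} (h4 : ν 4 ≤ 1) {D t y c E : N} (hE : E ≠ 0) (hy : y ≠ 0)
    (h0 : Sq ν (D * c)) (h1 : Sq ν (y * D * (c + E ^ 2))) (h2 : Sq ν (y * D * (c + t * E ^ 2))) :
    GLoc ν (rt D t) ![1, y, y] := by
  have hD : D ≠ 0 := by
    rintro rfl
    exact h0.ne h4 (by ring)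
  refine Or.inr (Or.inr ⟨D * c / E ^ 2, ?_, fun i => ?_⟩)
  · have h3 := (h0.mul h4 h1).mul h4 h2
    refine Sq.of_mul_sq (s := y * E ^ 3) (mul_ne_zero hy (pow_ne_zero 3 hE)) ?_
    rw [rt0, rt1, rt2]
    have e : (D * c / E ^ 2 - 0) * (D * c / E ^ 2 - -D) * (D * c / E ^ 2 - -(D * t)) *
        (y * E ^ 3) ^ 2 = D * c * (y * D * (c + E ^ 2)) * (y * D * (c + t * E ^ 2)) := by
      field_simp
      ring
    rw [e]
    exact h3
  · fin_cases i
    · show Sq ν (1 * (D * c / E ^ 2 - rt D t 0))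
      rw [rt0]
      refine Sq.of_mul_sq (s := E) hE ?_
      have e : 1 * (D * c / E ^ 2 - 0) * E ^ 2 = D * c := by
        field_simp
        ring
      rw [e]
      exact h0
    · show Sq ν (y * (D * c / E ^ 2 - rt D t 1))
      rw [rt1]
      refine Sq.of_mul_sq (s := E) hE ?_
      have e : y * (D * c / E ^ 2 - -D) * E ^ 2 = y * D * (c + E ^ 2) := by
        field_simp
        ring
      rw [e]
      exact h1
    · show Sq ν (y * (D * c / E ^ 2 - rt D t 2))
      rw [rt2]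
      refine Sq.of_mul_sq (s := E) hE ?_
      have e : y * (D * c / E ^ 2 - -(D * t)) * E ^ 2 = y * D * (c + t * E ^ 2) := by
        field_simp
        ring
      rw [e]
      exact h2

/-- the good places -/
theorem gloc_good (B : B7 N) (v : HeightOneSpectrum (𝓞 N)) (h2 : v.valuation N 2 = 1) {D y : N}
    (hD : v.valuation N D = 1) (hy : v.valuation N y = 1) :
    GLoc (v.valuation N) (rt D ((B.b : N) ^ 4)) ![1, y, y] := by
  let _ : Field (𝓞 N ⧸ v.asIdeal) := Ideal.Quotient.field v.asIdeal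
  have _ : Finite (𝓞 N ⧸ v.asIdeal) := Ideal.finiteQuotientOfFreeOfNeBot _ v.ne_bot
  have h4 : v.valuation N 4 = 1 := by
    have e : (4 : N) = 2 * 2 := by norm_num
    rw [e, map_mul, h2, one_mul]
  have hr2 : (2 : 𝓞 N ⧸ v.asIdeal) ≠ 0 := by
    have h5 := rs_int v (2 : 𝓞 N)
    rw [map_ofNat, map_ofNat] at h5
    exact (rs_zero_iff v h5).1 h2
  obtain ⟨δ, hδ⟩ := exists_rs v hD.le
  have hδ0 : δ ≠ 0 := (rs_zero_iff v hδ).1 hD
  obtain ⟨u, hu⟩ := exists_rs v hy.le
  have hu0 : u ≠ 0 := (rs_zero_iff v hu).1 hy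
  obtain ⟨α, hα⟩ : ∃ α : 𝓞 N ⧸ v.asIdeal, α = Ideal.Quotient.mk v.asIdeal B.a := ⟨_, rfl⟩
  have hαr : α ^ 2 = α - 2 := by
    rw [hα, ← map_pow, B.rel, map_sub, map_ofNat]
  have hRa : Rs v (B.a : N) α := by
    rw [hα]
    exact rs_int v B.a
  have hbN : (B.b : N) = 1 - (B.a : N) := by
    have h : B.b = 1 - B.a := rfl
    rw [h]
    push_cast
    ring
  have hRt : Rs v ((B.b : N) ^ 4) ((1 - α) ^ 4) := by
    rw [hbN]
    exact rs_pow v (rs_sub v (rs_one v) hRa) 4
  have hy0 : y ≠ 0 := by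
    rintro rfl
    rw [map_zero] at hy
    exact zero_ne_one hy
  have hb0 : (B.b : N) ≠ 0 := coe_ne B.symm.a_ne
  rcases ff_loc hr2 hαr hδ0 hu0 with h | h | ⟨x, hx0, hxs, hx1, hx1s, hx2, hx2s⟩
  · exact gloc_one (sq_of_rs v h4 hu hu0 h)
  · exact gloc_tors h4.le (s := (B.b : N) ^ 2) (by ring) (pow_ne_zero 2 hb0)
      (sq_of_rs v h4 (rs_mul v hu hδ) (mul_ne_zero hu0 hδ0) h)
  · obtain ⟨X, hX⟩ := rs_surj v x
    have hD0 : D ≠ 0 := by
      rintro rfl
      rw [map_zero] at hD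
      exact zero_ne_one hD
    refine Or.inr (Or.inr ⟨X, ?_, fun i => ?_⟩)
    · rw [rt0, rt1, rt2]
      have h6 : IsSquare (x * (x + δ) * (x + δ * (1 - α) ^ 4)) := by
        obtain ⟨p, hp⟩ := hxs
        obtain ⟨q, hq⟩ := hx1s
        obtain ⟨r, hr⟩ := hx2s
        refine ⟨p * q * r / u, ?_⟩
        field_simp
        have e : u ^ 2 * (x * (x + δ) * (x + δ * (1 - α) ^ 4)) =
            x * (u * (x + δ)) * (u * (x + δ * (1 - α) ^ 4)) := by ring
        have e2 : u ^ 2 * (x * (x + δ) * (x + δ * (1 - α) ^ 4)) = (p * q * r) ^ 2 := by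
          rw [e, hq, hr]
          linear_combination (q * q * (r * r)) * hp
        linear_combination e2
      have h7 := rs_mul v (rs_mul v hX (rs_add v hX hδ)) (rs_add v hX (rs_mul v hδ hRt))
      have e : (X - 0) * (X - -D) * (X - -(D * (B.b : N) ^ 4)) =
          X * (X + D) * (X + D * (B.b : N) ^ 4) := by ring
      rw [e]
      exact sq_of_rs v h4 h7 (mul_ne_zero (mul_ne_zero hx0 hx1) hx2) h6
    · fin_cases i
      · show Sq _ (1 * (X - rt D _ 0))
        rw [rt0]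
        have e : 1 * (X - 0) = X := by ring
        rw [e]
        exact sq_of_rs v h4 hX hx0 hxs
      · show Sq _ (y * (X - rt D _ 1))
        rw [rt1]
        have e : y * (X - -D) = y * (X + D) := by ring
        rw [e]
        exact sq_of_rs v h4 (rs_mul v hu (rs_add v hX hδ)) (mul_ne_zero hu0 hx1) hx1s
      · show Sq _ (y * (X - rt D _ 2))
        rw [rt2]
        have e : y * (X - -(D * (B.b : N) ^ 4)) = y * (X + D * (B.b : N) ^ 4) := by ring
        rw [e]
        exact sq_of_rs v h4 (rs_mul v hu (rs_add v hX (rs_mul v hδ hRt)))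
          (mul_ne_zero hu0 hx2) hx2s

end

end Pool.Agent.Lib.MP_1a91b9_ntV.C
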