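import Pool.Agent.Lib.MP_1a91b9_ntV.C.Sf

/-!
# Full rational 2-torsion: halving a point

If `x₀ - e i = s i ^ 2` and `s 0 * s 1 * s 2 = y₀` then `(x₀, y₀)` is the double of the point
`(x₀ + s 0 s 1 + s 0 s 2 + s 1 s 2, (s 0 + s 1) (s 0 + s 2) (s 1 + s 2))`.
-/

set_option autoImplicit false

namespace Pool.Agent.Lib.MP_1a91b9_ntV.C

open WeierstrassCurve
open scoped Classical

theorem half_pt {F : Type*} [Field F] (h2 : (2 : F) ≠ 0) {e : Fin 3 → F}
    (he : Function.Injective e) {W : Affine F} (hW : W = cw e) {x₀ y₀ : F}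
    (h : W.Nonsingular x₀ y₀) (s : Fin 3 → F) (hs : ∀ i, s i ^ 2 = x₀ - e i)
    (hp : s 0 * s 1 * s 2 = y₀) :
    ∃ P : W.Point, P + P = Affine.Point.some x₀ y₀ h := by
  have e01 : e 0 ≠ e 1 := fun h => absurd (he h) (by decide)
  have e02 : e 0 ≠ e 2 := fun h => absurd (he h) (by decide)
  have e12 : e 1 ≠ e 2 := fun h => absurd (he h) (by decide)
  have d01 : s 0 + s 1 ≠ 0 := fun h0 => e01 (by linear_combination (s 1 - s 0) * h0 + hs 0 - hs 1)
  have d02 : s 0 + s 2 ≠ 0 := fun h0 => e02 (by linear_combination (s 2 - s 0) * h0 + hs 0 - hs 2)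
  have d12 : s 1 + s 2 ≠ 0 := fun h0 => e12 (by linear_combination (s 2 - s 1) * h0 + hs 1 - hs 2)
  obtain ⟨X, hX⟩ : ∃ X : F, X = x₀ + (s 0 * s 1 + s 0 * s 2 + s 1 * s 2) := ⟨_, rfl⟩
  obtain ⟨Y, hY⟩ : ∃ Y : F, Y = (s 0 + s 1) * (s 0 + s 2) * (s 1 + s 2) := ⟨_, rfl⟩
  have x0 : X - e 0 = (s 0 + s 1) * (s 0 + s 2) := by
    rw [hX]
    linear_combination -(hs 0)
  have x1 : X - e 1 = (s 0 + s 1) * (s 1 + s 2) := by
    rw [hX]
    linear_combination -(hs 1)
  have x2 : X - e 2 = (s 0 + s 2) * (s 1 + s 2) := by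
    rw [hX]
    linear_combination -(hs 2)
  have hY0 : Y ≠ 0 := by
    rw [hY]
    exact mul_ne_zero (mul_ne_zero d01 d02) d12
  have hns : W.Nonsingular X Y := by
    rw [nons_gen h2 he hW, x0, x1, x2, hY]
    ring
  have h2Y : 2 * Y ≠ 0 := mul_ne_zero h2 hY0
  have hneg : Y ≠ W.negY X Y := by
    rw [negY_eq hW]
    intro h0
    exact h2Y (by linear_combination h0)
  have hder : 3 * X ^ 2 + 2 * -(e 0 + e 1 + e 2) * X + (e 0 * e 1 + e 0 * e 2 + e 1 * e 2) - 0 * Y =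
      (s 0 + s 1 + s 2) * (2 * Y) := by
    have h1 : 3 * X ^ 2 + 2 * -(e 0 + e 1 + e 2) * X + (e 0 * e 1 + e 0 * e 2 + e 1 * e 2) - 0 * Y =
        (X - e 0) * (X - e 1) + (X - e 0) * (X - e 2) + (X - e 1) * (X - e 2) := by ring
    rw [h1, x0, x1, x2, hY]
    ring
  have hsl : W.slope X X Y Y = s 0 + s 1 + s 2 := by
    rw [Affine.slope_of_Y_ne rfl hneg, negY_eq hW, cw_a₁ hW, cw_a₂ hW, cw_a₄ hW, hder]
    have hden : Y - -Y = 2 * Y := by ring
    rw [hden, mul_div_cancel_right₀ _ h2Y]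
  refine ⟨Affine.Point.some X Y hns, ?_⟩
  rw [Affine.Point.add_self_of_Y_ne hneg]
  have hx : W.addX X X (W.slope X X Y Y) = x₀ := by
    rw [hsl, Affine.addX, cw_a₁ hW, cw_a₂ hW]
    linear_combination -2 * hX + hs 0 + hs 1 + hs 2
  have hy : W.addY X X Y (W.slope X X Y Y) = y₀ := by
    rw [Affine.addY, Affine.negAddY, hx, negY_eq hW, hsl]
    linear_combination (s 0 + s 1 + s 2) * hX - hY + hp
  simp only [Affine.Point.some.injEq]
  exact ⟨hx, hy⟩

/-- a point such that all `x - e i` are squares is the double of a point -/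
theorem half_sq {F : Type*} [Field F] (h2 : (2 : F) ≠ 0) {e : Fin 3 → F}
    (he : Function.Injective e) {W : Affine F} (hW : W = cw e) {x₀ y₀ : F}
    (h : W.Nonsingular x₀ y₀) (hs : ∀ i, IsSquare (x₀ - e i)) :
    ∃ P : W.Point, P + P = Affine.Point.some x₀ y₀ h := by
  choose s hs using hs
  have h1 := (nons_gen h2 he hW x₀ y₀).1 h
  have h3 : (s 0 * s 1 * s 2) ^ 2 = y₀ ^ 2 := by
    rw [h1, hs 0, hs 1, hs 2]
    ring
  rcases sq_eq_sq_iff_eq_or_eq_neg.1 h3 with h4 | h4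
  · exact half_pt h2 he hW h s (fun i => by rw [hs i]; ring) h4
  · refine half_pt h2 he hW h (fun i => -s i) (fun i => by rw [hs i]; ring) ?_
    linear_combination -h4

theorem exists_half_closed {F : Type*} [Field F] [IsAlgClosed F] [CharZero F] {e : Fin 3 → F}
    (he : Function.Injective e) {W : Affine F} (hW : W = cw e) (Q : W.Point) :
    ∃ P : W.Point, P + P = Q := by
  rcases Q with _ | ⟨x₀, y₀, h⟩
  · exact ⟨0, by rw [add_zero]; rfl⟩
  · refine half_sq two_ne_zero he hW h fun i => ?_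
    obtain ⟨b, hb⟩ := IsAlgClosed.exists_pow_nat_eq (x₀ - e i) (n := 2) (by norm_num)
    exact ⟨b, by rw [← hb]; ring⟩

end Pool.Agent.Lib.MP_1a91b9_ntV.C
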