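import Pool.Agent.Lib.MP_1a91b9_ntV.C.Sf

/-!
# Full rational 2-torsion: the Kummer map `P ↦ x(P) - e i` modulo squares is a homomorphism
-/

set_option autoImplicit false

namespace Pool.Agent.Lib.MP_1a91b9_ntV.C

open WeierstrassCurve
open scoped Classical

section

variable {F : Type*} [Field F] {e : Fin 3 → F} {W : Affine F}

/-- The Kummer map: `x(P) - e i`, and the derivative of the cubic at `e i` for `P = (e i, 0)`. -/
noncomputable def kap (e : Fin 3 → F) (i : Fin 3) : W.Point → F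
  | .zero => 1
  | .some x _ _ => if x = e i then der e i else x - e i

theorem kap_zero (e : Fin 3 → F) (i : Fin 3) : kap e i (0 : W.Point) = 1 := rfl

theorem kap_some {e : Fin 3 → F} {i : Fin 3} {x y : F} (h : W.Nonsingular x y) (hx : x ≠ e i) :
    kap e i (Affine.Point.some x y h) = x - e i := if_neg hx

theorem kap_some' {e : Fin 3 → F} {i : Fin 3} {y : F} (h : W.Nonsingular (e i) y) :
    kap e i (Affine.Point.some (e i) y h) = der e i := if_pos rfl

theorem der_zero (e : Fin 3 → F) : der e 0 = (e 0 - e 1) * (e 0 - e 2) := by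
  rw [der]
  ring

theorem der_one (e : Fin 3 → F) : der e 1 = (e 1 - e 0) * (e 1 - e 2) := by
  rw [der]
  ring

theorem der_two (e : Fin 3 → F) : der e 2 = (e 2 - e 0) * (e 2 - e 1) := by
  rw [der]
  ring

theorem kap_ne (he : Function.Injective e) (i : Fin 3) (P : W.Point) : kap e i P ≠ 0 := by
  rcases P with _ | ⟨x, y, h⟩
  · exact one_ne_zero
  · by_cases hx : x = e i
    · subst hx
      rw [kap_some']
      exact der_ne he i
    · rw [kap_some h hx]
      exact sub_ne_zero.2 hx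

theorem kap_neg (i : Fin 3) (P : W.Point) : kap e i (-P) = kap e i P := by
  rcases P with _ | ⟨x, y, h⟩
  · rfl
  · rw [Affine.Point.neg_some]
    rfl

/-- three collinear points -/
theorem prod_sq (hW : W = cw e) (i : Fin 3) {x₁ x₂ y₁ y₂ : F}
    (h₁ : W.Equation x₁ y₁) (h₂ : W.Equation x₂ y₂) (hxy : ¬(x₁ = x₂ ∧ y₁ = W.negY x₂ y₂)) :
    (x₁ - e i) * (x₂ - e i) * (W.addX x₁ x₂ (W.slope x₁ x₂ y₁ y₂) - e i) =
      (y₁ + W.slope x₁ x₂ y₁ y₂ * (e i - x₁)) ^ 2 := by
  have h := Affine.addPolynomial_slope h₁ h₂ hxy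
  have h1 := congrArg (Polynomial.eval (e i)) h
  rw [Affine.addPolynomial_eq] at h1
  have hy := (eqn_iff hW x₁ y₁).1 h₁
  have hr : (e i - e 0) * (e i - e 1) * (e i - e 2) = 0 := (root_iff (e i)).2 ⟨i, rfl⟩
  simp only [Cubic.toPoly, Polynomial.eval_neg, Polynomial.eval_add, Polynomial.eval_mul,
    Polynomial.eval_C, Polynomial.eval_pow, Polynomial.eval_X, Polynomial.eval_sub, cw_a₁ hW,
    cw_a₂ hW, cw_a₃ hW, cw_a₄ hW, cw_a₆ hW] at h1
  generalize W.slope x₁ x₂ y₁ y₂ = l at *
  linear_combination -h1 - hr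

/-- the first coordinate of `P + (e i, 0)` -/
theorem addX_tp [CharZero F] (he : Function.Injective e) (hW : W = cw e) (i : Fin 3) {x y : F}
    (h : W.Nonsingular x y) (hx : x ≠ e i) : ∃ (x' y' : F) (h' : W.Nonsingular x' y'),
      Affine.Point.some x y h + tp he hW i = Affine.Point.some x' y' h' ∧
      (x' - e i) * (x - e i) = der e i := by
  rw [tp, Affine.Point.add_of_X_ne hx]
  refine ⟨_, _, _, rfl, ?_⟩
  rw [Affine.slope_of_X_ne hx, sub_zero, Affine.addX, cw_a₁ hW, cw_a₂ hW]
  have hx1 : x - e i ≠ 0 := sub_ne_zero.2 hx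
  have hy := (eqn_iff hW x y).1 h.1
  have hr : (e i - e 0) * (e i - e 1) * (e i - e 2) = 0 := (root_iff (e i)).2 ⟨i, rfl⟩
  have e1 : (y / (x - e i)) ^ 2 * (x - e i) = y ^ 2 / (x - e i) := by
    field_simp
  have e2 : y ^ 2 / (x - e i) = (x ^ 2 + e i * x + e i ^ 2) - (e 0 + e 1 + e 2) * (x + e i) +
      (e 0 * e 1 + e 0 * e 2 + e 1 * e 2) := by
    rw [div_eq_iff hx1]
    linear_combination hy + hr
  rw [der]
  linear_combination e1 + e2

theorem kap_tp [CharZero F] (he : Function.Injective e) (hW : W = cw e) (i : Fin 3) :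
    kap e i (tp he hW i) = der e i := kap_some' _

theorem kap_tp' [CharZero F] (he : Function.Injective e) (hW : W = cw e) {i j : Fin 3} (h : j ≠ i) :
    kap e i (tp he hW j) = e j - e i := kap_some _ fun h' => h (he h')

theorem kap_add_tp [CharZero F] (he : Function.Injective e) (hW : W = cw e) (i : Fin 3)
    (P : W.Point) :
    ∃ w : F, w ≠ 0 ∧ kap e i (P + tp he hW i) * kap e i P * kap e i (tp he hW i) = w ^ 2 := by
  refine ⟨der e i, der_ne he i, ?_⟩
  rcases P with _ | ⟨x, y, h⟩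
  · have e1 : (Affine.Point.zero : W.Point) + tp he hW i = tp he hW i := zero_add _
    rw [e1, kap_tp]
    change _ * 1 * _ = _
    ring
  · by_cases hx : x = e i
    · subst hx
      have e1 : Affine.Point.some (e i) y h = tp he hW i := by
        rw [tp, Affine.Point.some.injEq]
        refine ⟨rfl, ?_⟩
        have hy := (eqn_iff hW _ y).1 h.1
        rw [(root_iff (e i)).2 ⟨i, rfl⟩] at hy
        exact pow_eq_zero_iff two_ne_zero |>.1 hy
      rw [e1, tp_two, kap_tp, kap_zero]
      ring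
    · obtain ⟨x', y', h', e1, e2⟩ := addX_tp he hW i h hx
      have hx' : x' ≠ e i := by
        rintro rfl
        rw [sub_self, zero_mul] at e2
        exact der_ne he i e2.symm
      rw [e1, kap_some h' hx', kap_some h hx, kap_tp, e2]
      ring

/-- **The Kummer map is a homomorphism** modulo squares. -/
theorem kap_add [CharZero F] (he : Function.Injective e) (hW : W = cw e) (i : Fin 3)
    (P Q : W.Point) : ∃ w : F, w ≠ 0 ∧ kap e i (P + Q) * kap e i P * kap e i Q = w ^ 2 := by
  by_cases hP0 : P = 0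
  · subst hP0
    refine ⟨kap e i Q, kap_ne he i Q, ?_⟩
    rw [zero_add, kap_zero]
    ring
  by_cases hQ0 : Q = 0
  · subst hQ0
    refine ⟨kap e i P, kap_ne he i P, ?_⟩
    rw [add_zero, kap_zero]
    ring
  by_cases hPQ : P + Q = 0
  · have e1 : Q = -P := (neg_eq_of_add_eq_zero_right hPQ).symm
    subst e1
    refine ⟨kap e i P, kap_ne he i P, ?_⟩
    rw [hPQ, kap_neg, kap_zero]
    ring
  by_cases hQT : Q = tp he hW i
  · subst hQT
    exact kap_add_tp he hW i P
  by_cases hPT : P = tp he hW i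
  · subst hPT
    obtain ⟨w, hw, h⟩ := kap_add_tp he hW i Q
    refine ⟨w, hw, ?_⟩
    rw [add_comm, ← h]
    ring
  by_cases hS : P + Q = tp he hW i
  · have e1 : Q = -P + tp he hW i := by rw [← hS]; abel
    obtain ⟨w, hw, h⟩ := kap_add_tp he hW i (-P)
    refine ⟨w, hw, ?_⟩
    rw [← e1, kap_neg] at h
    rw [hS, ← h]
    ring
  have nT : ∀ (x y : F) (h : W.Nonsingular x y), Affine.Point.some x y h ≠ tp he hW i →
      x ≠ e i := by
    rintro x y h hne rfl
    apply hne
    rw [tp, Affine.Point.some.injEq]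
    refine ⟨rfl, ?_⟩
    have hy := (eqn_iff hW _ y).1 h.1
    rw [(root_iff (e i)).2 ⟨i, rfl⟩] at hy
    exact pow_eq_zero_iff two_ne_zero |>.1 hy
  rcases P with _ | ⟨x₁, y₁, h₁⟩
  · exact absurd rfl hP0
  rcases Q with _ | ⟨x₂, y₂, h₂⟩
  · exact absurd rfl hQ0
  have hxy : ¬(x₁ = x₂ ∧ y₁ = W.negY x₂ y₂) := fun h =>
    hPQ (Affine.Point.add_of_Y_eq h.1 h.2)
  rw [Affine.Point.add_some hxy] at hS ⊢
  have n1 := nT _ _ _ hPT
  have n2 := nT _ _ _ hQT
  have n3 := nT _ _ _ hS
  have h := prod_sq hW i h₁.1 h₂.1 hxy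
  rw [kap_some _ n1, kap_some _ n2, kap_some _ n3]
  refine ⟨y₁ + W.slope x₁ x₂ y₁ y₂ * (e i - x₁), fun h0 => ?_, by rw [← h]; ring⟩
  rw [h0, zero_pow two_ne_zero] at h
  exact mul_ne_zero (mul_ne_zero (sub_ne_zero.2 n1) (sub_ne_zero.2 n2)) (sub_ne_zero.2 n3) h

/-- The homomorphism given by a character `g` of `Fˣ` which is trivial on the squares. -/
noncomputable def kapHom [CharZero F] (he : Function.Injective e) (hW : W = cw e) (i : Fin 3)
    {A : Type*} [AddCommGroup A] (g : Fˣ →* Multiplicative A) (hg : ∀ u, g (u ^ 2) = 1) :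
    W.Point →+ A where
  toFun P := (g (Units.mk0 (kap e i P) (kap_ne he i P))).toAdd
  map_zero' := by
    have e1 : Units.mk0 (kap e i (0 : W.Point)) (kap_ne he i 0) = 1 := Units.ext rfl
    rw [e1, map_one]
    rfl
  map_add' P Q := by
    obtain ⟨w, hw, h⟩ := kap_add he hW i P Q
    have e1 : Units.mk0 (kap e i (P + Q)) (kap_ne he i _) * Units.mk0 (kap e i P) (kap_ne he i _) *
        Units.mk0 (kap e i Q) (kap_ne he i _) = Units.mk0 w hw ^ 2 := Units.ext h
    have e2 := congrArg g e1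
    rw [map_mul, map_mul, hg] at e2
    have e3 : ∀ u : Fˣ, (g u).toAdd + (g u).toAdd = 0 := by
      intro u
      have h1 := hg u
      rw [pow_two, map_mul] at h1
      exact congrArg Multiplicative.toAdd h1
    have e4 : (g (Units.mk0 (kap e i (P + Q)) (kap_ne he i _))).toAdd +
        (g (Units.mk0 (kap e i P) (kap_ne he i _))).toAdd +
        (g (Units.mk0 (kap e i Q) (kap_ne he i _))).toAdd = 0 := congrArg Multiplicative.toAdd e2
    have e5 := e3 (Units.mk0 (kap e i P) (kap_ne he i _))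
    have e6 := e3 (Units.mk0 (kap e i Q) (kap_ne he i _))
    have key : ∀ a b c : A, a + b + c = 0 → b + b = 0 → c + c = 0 → a = b + c := by
      intro a b c h1 h2 h3
      have h4 : a = (a + b + c) + (b + c) - (b + b) - (c + c) := by abel
      rw [h4, h1, h2, h3]
      abel
    exact key _ _ _ e4 e5 e6

theorem kapHom_apply [CharZero F] (he : Function.Injective e) (hW : W = cw e) (i : Fin 3)
    {A : Type*} [AddCommGroup A] (g : Fˣ →* Multiplicative A) (hg : ∀ u, g (u ^ 2) = 1)
    (P : W.Point) :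
    kapHom he hW i g hg P = (g (Units.mk0 (kap e i P) (kap_ne he i P))).toAdd := rfl

end

end Pool.Agent.Lib.MP_1a91b9_ntV.C
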