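import Pool.Agent.Lib.MP_1a91b9_ntV.C.Half

/-!
# Full rational 2-torsion: Kummer data of a cocycle with values in the 2-torsion

`exists_kdata` (existence), `kdata_prod` (the product of the three elements is a square), `kdata_zero`
(three squares), `kdata_cob` (the classes of the points of order two), `kdata_loc` (the local condition).
-/

set_option autoImplicit false

namespace Pool.Agent.Lib.MP_1a91b9_ntV.C

open WeierstrassCurve
open Pool.Agent.Lib.MP_1a91b9_ntT.S9 (pr pr_comm pr_map pr_add eq_zero_of_pr Pts Gal coc cob trivOver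
  shaCoc Sha up actP)
open scoped Classical

private theorem k_sfn_map {k F F' : Type*} [Field k] [Field F] [Field F'] [Algebra k F]
    [Algebra k F'] (W : WeierstrassCurve k) (e : Fin 3 → k) (f : F →ₐ[k] F') (i : Fin 3)
    (P : Pts W F) :
    sfn (eb F' e) i (Affine.Point.map (W' := W) f P) = f (sfn (eb F e) i P) := by
  cases P with
  | zero => exact (map_zero f).symm
  | some X Y h =>
    rw [Affine.Point.map_some]
    have hc : ∀ j, f (eb F e j) = eb F' e j := fun j => f.commutes _
    show ((f X - eb F' e i) ^ 2 - der (eb F' e) i) / (2 * f Y) =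
      f (((X - eb F e i) ^ 2 - der (eb F e) i) / (2 * Y))
    simp only [der, map_div₀, map_sub, map_mul, map_pow, map_add, map_ofNat, hc]

private theorem k_unit {F : Type*} [Field F] [CharZero F] (u v : ℤˣ) (x : F) (hx : x ≠ 0)
    (h : ((u : ℤ) : F) * ((v : ℤ) : F) * x = x) : u = v := by
  rcases Int.units_eq_one_or u with rfl | rfl <;> rcases Int.units_eq_one_or v with rfl | rfl
  · rfl
  · exfalso
    simp at h
    apply hx
    have : (2 : F) * x = 0 := by linear_combination -h
    simpa using this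
  · exfalso
    simp at h
    apply hx
    have : (2 : F) * x = 0 := by linear_combination -h
    simpa using this
  · rfl

private theorem k_unit_sq {F : Type*} [Field F] (u : ℤˣ) :
    ((u : ℤ) : F) * ((u : ℤ) : F) = 1 := by
  rcases Int.units_eq_one_or u with h | h <;> simp [h]

section

variable {k : Type*} [Field k] [CharZero k] {e : Fin 3 → k} (he : Function.Injective e)

theorem exists_kdata (c : Gal k → Pts (cw e) (AlgebraicClosure k)) (hc : c ∈ coc (cw e))
    (h2 : ∀ σ, c σ + c σ = 0) : ∃ a b, KData he c a b := by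
  obtain ⟨M0, hM0, hM⟩ := Pool.Agent.Lib.MP_1a91b9_ntT.S9.exists_open (cw e) c hc
  have hone : ∀ i : Fin 3, ∃ (a : k) (b : AlgebraicClosure k), b ≠ 0 ∧
      algebraMap k (AlgebraicClosure k) a = b ^ 2 ∧
      ∀ σ : Gal k, σ b =
        (((pr (c σ) (tpt he (AlgebraicClosure k) i) : ℤˣ) : ℤ) : AlgebraicClosure k) * b := by
    intro i
    set T := tpt he (AlgebraicClosure k) i with hT
    have hT2 : T + T = 0 := tpt_two he i
    have hfix : ∀ σ : Gal k, actP (cw e) σ T = T := fun σ =>
      tpt_map he (σ : AlgebraicClosure k →ₐ[k] AlgebraicClosure k) i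
    have hinj : ∀ σ : Gal k, Function.Injective (actP (cw e) σ) := fun σ =>
      Affine.Point.map_injective _
    obtain ⟨b, hb0, hb⟩ := Pool.Agent.Lib.MP_1a91b9_ntT.S9.kummer (k := k) (Ω := AlgebraicClosure k)
      (fun σ => pr (c σ) T) (by
        intro σ τ
        have h1 : c (σ * τ) = c σ + actP (cw e) σ (c τ) := hc.2 σ τ
        have h3 : pr (actP (cw e) σ (c τ)) T = pr (c τ) T := by
          conv_lhs => rw [← hfix σ]
          exact pr_map _ (hinj _) _ _
        show pr (c (σ * τ)) T = pr (c σ) T * pr (c τ) T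
        rw [h1, hT, pr_add_tpt he _ _ (h2 σ) ?_ i, ← hT, h3]
        rw [← _root_.map_add, h2, _root_.map_zero]) M0 (by
        intro σ hσ
        have h1 : c σ = 0 := hM _ hσ
        simp [h1, pr])
    have hsq : ∀ u : ℤˣ, (((u : ℤˣ) : ℤ) : AlgebraicClosure k) ^ 2 = 1 := by
      intro u
      rcases Int.units_eq_one_or u with rfl | rfl <;> simp
    obtain ⟨a, ha⟩ := Pool.Agent.Lib.MP_1a91b9_ntT.S9.fixed_elem (b ^ 2) (by
      intro σ
      rw [_root_.map_pow, hb σ, mul_pow, hsq, one_mul])
    exact ⟨a, b, hb0, ha, hb⟩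
  choose a b h using hone
  exact ⟨a, b, fun i => (h i).1, fun i => (h i).2.1, fun i σ => (h i).2.2 σ⟩

theorem kdata_prod (c : Gal k → Pts (cw e) (AlgebraicClosure k))
    (h2 : ∀ σ, c σ + c σ = 0) (a : Fin 3 → k) (b : Fin 3 → AlgebraicClosure k)
    (hk : KData he c a b) : IsSquare (a 0 * a 1 * a 2) := by
  have hfix : ∀ σ : Gal k, σ (b 0 * b 1 * b 2) = b 0 * b 1 * b 2 := by
    intro σ
    have h1 := pr_prod he (c σ) (h2 σ)
    have h3 : (((pr (c σ) (tpt he (AlgebraicClosure k) 0) : ℤˣ) : ℤ) : AlgebraicClosure k) *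
        (((pr (c σ) (tpt he (AlgebraicClosure k) 1) : ℤˣ) : ℤ) : AlgebraicClosure k) *
        (((pr (c σ) (tpt he (AlgebraicClosure k) 2) : ℤˣ) : ℤ) : AlgebraicClosure k) = 1 := by
      rw [← Int.cast_mul, ← Int.cast_mul, ← Units.val_mul, ← Units.val_mul, h1]
      simp
    rw [map_mul, map_mul, hk.act, hk.act, hk.act]
    linear_combination (b 0 * b 1 * b 2) * h3
  obtain ⟨y, hy⟩ := Pool.Agent.Lib.MP_1a91b9_ntT.S9.fixed_elem _ hfix
  refine ⟨y, ?_⟩
  apply (algebraMap k (AlgebraicClosure k)).injective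
  rw [map_mul, map_mul, map_mul, hk.sq, hk.sq, hk.sq, hy]
  ring

theorem kdata_zero (c : Gal k → Pts (cw e) (AlgebraicClosure k))
    (h2 : ∀ σ, c σ + c σ = 0) (a : Fin 3 → k) (b : Fin 3 → AlgebraicClosure k)
    (hk : KData he c a b) (ha : ∀ i, IsSquare (a i)) (σ : Gal k) : c σ = 0 := by
  refine pr_ext he (c σ) 0 (h2 σ) (add_zero 0) 0 fun i _ => ?_
  have h0 : pr (0 : Pts (cw e) (AlgebraicClosure k)) (tpt he (AlgebraicClosure k) i) = 1 :=
    if_pos (Or.inl rfl)
  rw [h0]
  obtain ⟨s, hs⟩ := ha i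
  have hb : b i ^ 2 = (algebraMap k (AlgebraicClosure k) s) ^ 2 := by
    rw [← hk.sq i, hs, map_mul]
    ring
  have hfix : σ (b i) = b i := by
    rcases sq_eq_sq_iff_eq_or_eq_neg.1 hb with h | h
    · rw [h]
      exact σ.commutes s
    · rw [h, map_neg]
      exact congrArg _ (σ.commutes s)
  have h3 := hk.act i σ
  rw [hfix] at h3
  rcases Int.units_eq_one_or (pr (c σ) (tpt he (AlgebraicClosure k) i)) with h4 | h4
  · exact h4
  · exfalso
    rw [h4] at h3
    apply hk.ne i
    have h5 : (2 : AlgebraicClosure k) * b i = 0 := by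
      push_cast at h3
      linear_combination h3
    exact (mul_eq_zero.1 h5).resolve_left two_ne_zero

theorem kdata_cob (c : Gal k → Pts (cw e) (AlgebraicClosure k))
    (h2 : ∀ σ, c σ + c σ = 0) (a : Fin 3 → k) (b : Fin 3 → AlgebraicClosure k)
    (hk : KData he c a b) (j : Fin 3)
    (ha : ∀ i, i ≠ j → IsSquare (a i * (e j - e i))) :
    ∃ S : Pts (cw e) (AlgebraicClosure k), S + S = tpt he (AlgebraicClosure k) j ∧
      ∀ σ, c σ = actP (cw e) σ S - S := by
  have heA := eb_inj (AlgebraicClosure k) he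
  obtain ⟨S, hS⟩ := exists_half_closed heA (cw_bc (AlgebraicClosure k) e)
    (tpt he (AlgebraicClosure k) j)
  refine ⟨S, hS, fun σ => ?_⟩
  have hact : ∀ i, actP (cw e) σ (tpt he (AlgebraicClosure k) i) =
      tpt he (AlgebraicClosure k) i := fun i =>
    tpt_map he (σ : AlgebraicClosure k →ₐ[k] AlgebraicClosure k) i
  set R := actP (cw e) σ S - S with hR
  have hR2 : R + R = 0 := by
    have h1 : actP (cw e) σ (S + S) = S + S := by
      rw [hS]
      exact hact j
    rw [map_add] at h1
    have h3 : R + R = (actP (cw e) σ S + actP (cw e) σ S) - (S + S) := by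
      rw [hR]; abel
    rw [h3, h1, sub_self]
  have hne : S + S ≠ 0 := by
    rw [hS]
    intro h0
    exact Affine.Point.some_ne_zero _ h0
  refine pr_ext he _ _ (h2 σ) hR2 j fun i hij => ?_
  have hsq := sfn_sq (cw_bc (AlgebraicClosure k) e) i S _ hS
  obtain ⟨κ, hκ⟩ := ha i hij
  have hs : σ (sfn (eb (AlgebraicClosure k) e) i S) =
      (((pr R (tpt he (AlgebraicClosure k) i) : ℤˣ) : ℤ) : AlgebraicClosure k) *
        sfn (eb (AlgebraicClosure k) e) i S := by
    have h1 := k_sfn_map (cw e) e (σ : AlgebraicClosure k →ₐ[k] AlgebraicClosure k) i S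
    have h4 := sfn_add heA (cw_bc (AlgebraicClosure k) e) i S R hne hR2
    have h5 : S + R = actP (cw e) σ S := by rw [hR]; abel
    rw [h5] at h4
    have h6 : pr R (tp heA (cw_bc (AlgebraicClosure k) e) i) =
      pr R (tpt he (AlgebraicClosure k) i) := rfl
    rw [h6] at h4
    rw [← h4]
    exact h1.symm
  have hx2 : (b i * sfn (eb (AlgebraicClosure k) e) i S) ^ 2 =
      algebraMap k (AlgebraicClosure k) κ ^ 2 := by
    rw [mul_pow, ← hk.sq i, hsq, ← map_sub, ← map_mul, hκ, map_mul, sq]
  have hs0 : sfn (eb (AlgebraicClosure k) e) i S ≠ 0 := by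
    intro h0
    rw [h0] at hsq
    have h3 : eb (AlgebraicClosure k) e j = eb (AlgebraicClosure k) e i := by
      rw [← sub_eq_zero, ← hsq]
      norm_num
    exact hij (heA h3).symm
  have hx0 : b i * sfn (eb (AlgebraicClosure k) e) i S ≠ 0 := mul_ne_zero (hk.ne i) hs0
  have hfix : σ (b i * sfn (eb (AlgebraicClosure k) e) i S) =
      b i * sfn (eb (AlgebraicClosure k) e) i S := by
    rcases sq_eq_sq_iff_eq_or_eq_neg.1 hx2 with h | h
    · rw [h]
      exact σ.commutes κ
    · rw [h, map_neg]
      rw [σ.commutes κ]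
  refine k_unit _ _ (b i * sfn (eb (AlgebraicClosure k) e) i S) hx0 ?_
  rw [map_mul, hs, hk.act i σ] at hfix
  linear_combination hfix

theorem kdata_loc {L : Type*} (c : Gal k → Pts (cw e) (AlgebraicClosure k))
    (h2 : ∀ σ, c σ + c σ = 0) (a : Fin 3 → k) (b : Fin 3 → AlgebraicClosure k)
    (hk : KData he c a b) [Field L] [CharZero L] [Algebra k L]
    (hc : c ∈ trivOver (cw e) L) : LocAt e a L := by
  obtain ⟨j⟩ : Nonempty (AlgebraicClosure k →ₐ[k] AlgebraicClosure L) := ⟨IsAlgClosed.lift⟩
  obtain ⟨P, Q, hPQ, hP⟩ := Pool.Agent.Lib.MP_1a91b9_ntT.S9.transfer (L := L) (L' := L) (cw e) c hc h2 j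
  have hja : ∀ x : k, j (algebraMap k (AlgebraicClosure k) x) =
      algebraMap L (AlgebraicClosure L) (algebraMap k L x) := by
    intro x
    rw [j.commutes, ← IsScalarTower.algebraMap_apply]
  have hup : up (cw e) L L Q = Q := by
    have h1 : IsScalarTower.toAlgHom k L L = AlgHom.id k L := AlgHom.ext fun x => rfl
    show Affine.Point.map (IsScalarTower.toAlgHom k L L) Q = Q
    rw [h1]
    cases Q <;> rfl
  rw [hup] at hPQ
  have htau : ∀ σ : Gal L, ∃ τ : Gal k, ∀ x, j (τ x) = σ (j x) := by
    intro σ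
    obtain ⟨τ, hτ⟩ := Pool.Agent.Lib.MP_1a91b9_ntT.S9.exists_comp j
      ((((σ : AlgebraicClosure L →ₐ[L] AlgebraicClosure L)).restrictScalars k).comp j)
    exact ⟨τ, fun x => (hτ x).symm⟩
  have hjinj : Function.Injective (Affine.Point.map (W' := cw e) j) := Affine.Point.map_injective j
  cases Q with
  | zero =>
    -- the point `P` is of order two
    left
    have hP2 : P + P = 0 := by
      rw [hPQ]
      rfl
    have hfixP : ∀ σ : Gal L, Affine.Point.map (W' := cw e)
        ((σ : AlgebraicClosure L →ₐ[L] AlgebraicClosure L).restrictScalars k) P = P := by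
      intro σ
      rcases tpt_all he P hP2 with h | ⟨i, h⟩
      · rw [h, map_zero]
      · rw [h]
        exact tpt_map he _ i
    intro i
    obtain ⟨β, hβ⟩ := Pool.Agent.Lib.MP_1a91b9_ntT.S9.fixed_elem (k := L) (j (b i)) (by
      intro σ
      obtain ⟨τ, hτ⟩ := htau σ
      have h1 := hP σ τ hτ
      rw [hfixP σ, sub_self] at h1
      have h3 : c τ = 0 := hjinj (by rw [h1, map_zero])
      have h4 := hk.act i τ
      rw [h3] at h4
      have h5 : pr (0 : Pts (cw e) (AlgebraicClosure k)) (tpt he (AlgebraicClosure k) i) = 1 := by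
        simp [pr]
      rw [h5] at h4
      rw [← hτ, h4]
      simp)
    refine ⟨β, ?_⟩
    apply (algebraMap L (AlgebraicClosure L)).injective
    rw [map_mul, hβ, ← hja, hk.sq i, map_pow, sq]
  | some x y h =>
    right
    obtain ⟨hn2, hUV⟩ : ∃ hn2, up (cw e) L (AlgebraicClosure L) (Affine.Point.some x y h) =
      Affine.Point.some (algebraMap L (AlgebraicClosure L) x)
        (algebraMap L (AlgebraicClosure L) y) hn2 := ⟨_, rfl⟩
    rw [hUV] at hPQ
    have hne : P + P ≠ 0 := by
      rw [hPQ]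
      intro h0
      exact Affine.Point.some_ne_zero _ h0
    refine ⟨x, y, ?_, ?_⟩
    · exact (nons_iff (eb_inj L he) (cw_bc L e) x y).1 h
    intro i
    have heA := eb_inj (AlgebraicClosure L) he
    have hsq := sfn_sq (cw_bc (AlgebraicClosure L) e) i P _ hPQ
    have hfix : ∀ σ : Gal L, σ (j (b i) * sfn (eb (AlgebraicClosure L) e) i P) =
        j (b i) * sfn (eb (AlgebraicClosure L) e) i P := by
      intro σ
      obtain ⟨τ, hτ⟩ := htau σ
      have hcτ := hP σ τ hτ
      set S := Affine.Point.map (W' := cw e)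
        ((σ : AlgebraicClosure L →ₐ[L] AlgebraicClosure L).restrictScalars k) with hS
      have hSP : S P = P + Affine.Point.map (W' := cw e) j (c τ) := by
        rw [hcτ]
        abel
      have hTT : Affine.Point.map (W' := cw e) j (c τ) + Affine.Point.map (W' := cw e) j (c τ) = 0 := by
        rw [← map_add, h2, map_zero]
      have hpr : pr (Affine.Point.map (W' := cw e) j (c τ)) (tpt he (AlgebraicClosure L) i) =
          pr (c τ) (tpt he (AlgebraicClosure k) i) := by
        rw [← tpt_map he j i]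
        exact pr_map _ hjinj _ _
      have hs : σ (sfn (eb (AlgebraicClosure L) e) i P) =
          (((pr (c τ) (tpt he (AlgebraicClosure k) i) : ℤˣ) : ℤ) :
            AlgebraicClosure L) * sfn (eb (AlgebraicClosure L) e) i P := by
        have h1 := k_sfn_map (cw e) e
          ((σ : AlgebraicClosure L →ₐ[L] AlgebraicClosure L).restrictScalars k) i P
        have h4 := sfn_add heA (cw_bc (AlgebraicClosure L) e) i P
          (Affine.Point.map (W' := cw e) j (c τ)) hne hTT
        have h5 : pr (Affine.Point.map (W' := cw e) j (c τ))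
            (tp heA (cw_bc (AlgebraicClosure L) e) i) =
            pr (c τ) (tpt he (AlgebraicClosure k) i) := hpr
        rw [h5] at h4
        rw [← h4, ← hSP]
        exact h1.symm
      have hb' : σ (j (b i)) = (((pr (c τ) (tpt he (AlgebraicClosure k) i) : ℤˣ) : ℤ) :
            AlgebraicClosure L) * j (b i) := by
        rw [← hτ, hk.act i τ, map_mul, map_intCast]
      rw [map_mul, hs, hb']
      have hu := k_unit_sq (F := AlgebraicClosure L)
        (pr (c τ) (tpt he (AlgebraicClosure k) i))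
      linear_combination (j (b i) * sfn (eb (AlgebraicClosure L) e) i P) * hu
    obtain ⟨β, hβ⟩ := Pool.Agent.Lib.MP_1a91b9_ntT.S9.fixed_elem _ hfix
    refine ⟨β, ?_⟩
    apply (algebraMap L (AlgebraicClosure L)).injective
    have h7 : j (b i) ^ 2 = algebraMap L (AlgebraicClosure L) (algebraMap k L (a i)) := by
      rw [← map_pow, ← hk.sq i, hja]
    have h8 : eb (AlgebraicClosure L) e i = algebraMap L (AlgebraicClosure L) (eb L e i) := by
      rw [eb, eb, ← IsScalarTower.algebraMap_apply]
    rw [map_mul (algebraMap L (AlgebraicClosure L)) β β, hβ, map_mul, map_sub, ← h7, ← h8, ← hsq]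
    ring

end

end Pool.Agent.Lib.MP_1a91b9_ntV.C
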