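import Pool.Agent.Lib.MP_1a91b9_ntV.C.CritT
import Pool.Agent.Lib.MP_1a91b9_ntV.C.ConvC

/-!
# The field `ℚ(√-7)`: the main theorem of the algebraic side
-/

set_option autoImplicit false
set_option linter.unusedSectionVars false
set_option linter.unusedVariables false

namespace Pool.Agent.Lib.MP_1a91b9_ntV.C

open NumberField Finset WithZero IsDedekindDomain
open Pool.Agent.Lib.MP_1a91b9_ntQ (Dat2)
open Pool.Agent.Lib.MP_1a91b9_ntT3.S9 (ShaP)

noncomputable section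

variable {N : Type*} [Field N] [NumberField N]

namespace Gens

variable {B : B7 N} {ι : Type} [DecidableEq ι] (G : Gens B ι)

/-- the bits and symbols -/
def dat : Dat2 ι (Fin 3) := ⟨G.s, fun i => ![G.a i, G.b i, G.b' i]⟩

theorem dat_rc (hL : G.Laws) : Cr.Rc G.dat := hL.rc

theorem dat_good (S : Finset ι) (d0 d1 d2 : ZMod 2) :
    Cr.Good G.dat S d0 d1 d2 ↔ G.Good S d0 d1 d2 := Iff.rfl

theorem dat_sqA (S : Finset ι) (d0 d1 d2 : ZMod 2) :
    Cr.SqA G.dat S d0 d1 d2 ↔ G.SqA S d0 d1 d2 := Iff.rfl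

theorem dat_sqB (S : Finset ι) (d0 d1 d2 : ZMod 2) :
    Cr.SqB G.dat S d0 d1 d2 ↔ G.SqB S d0 d1 d2 := Iff.rfl

/-- the criterion of the mirror image, in bits -/
theorem symm_good_iff (hL : G.Laws) (S : Finset ι) (d0 d1 d2 : ZMod 2) :
    G.symm.Good S d0 d1 d2 ↔ Cr.Good (Cr.mir G.dat) S d0 d1 d2 := by
  have hB : G.symm.SqB S d0 d1 d2 ↔ Cr.SqB (Cr.mir G.dat) S d0 d1 d2 := by
    show (d2 = 0 ∧ d0 + d1 + ∑ i ∈ S, G.symm.a i = 0 ∧ d1 + ∑ i ∈ S, G.symm.b' i = 0) ↔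
      (d2 = 0 ∧ d0 + d1 + ∑ i ∈ S, G.a i = 0 ∧ d1 + ∑ i ∈ S, G.b i = 0)
    simp only [G.symm_a, G.symm_b']
  have hA : G.symm.SqA S d0 d1 d2 ↔ Cr.SqA (Cr.mir G.dat) S d0 d1 d2 := by
    show (d1 = 0 ∧ d0 + 1 + d2 = 0 ∧ d2 + ∑ i ∈ S, G.symm.b i = 0) ↔
      (d1 = 0 ∧ d0 + 1 + d2 = 0 ∧ d2 + ∑ i ∈ S, G.b' i = 0)
    simp only [G.symm_b]
  have hNx : ∀ (x : ι → ZMod 2) (i : ι), G.symm.Nx S d0 d1 d2 x i =
      Cr.Nx (Cr.mir G.dat) S d0 d1 d2 x i := by
    intro x i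
    have h1 : ∑ j ∈ S.erase i, G.symm.s i j * x j = ∑ j ∈ S.erase i, G.s j i * x j :=
      sum_congr rfl fun j hj => by rw [G.symm_s hL (ne_of_mem_erase hj).symm]
    have h2 : ∑ j ∈ S.erase i, G.symm.s j i = ∑ j ∈ S.erase i, G.s i j :=
      sum_congr rfl fun j hj => by rw [G.symm_s hL (ne_of_mem_erase hj)]
    show ∑ j ∈ S.erase i, G.symm.s i j * x j + (∑ j ∈ S.erase i, G.symm.s j i +
      (d0 * G.symm.a i + d1 * (G.symm.b i + G.symm.a i) + d2 * (G.symm.b' i + G.symm.a i)) +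
      G.symm.a i) * x i = ∑ j ∈ S.erase i, G.s j i * x j + (∑ j ∈ S.erase i, G.s i j +
      (d0 * G.a i + d1 * (G.b' i + G.a i) + d2 * (G.b i + G.a i)) + G.a i) * x i
    rw [h1, h2, G.symm_a, G.symm_b, G.symm_b']
  have hK : ∀ (x : ι → ZMod 2) (x1 : ZMod 2), G.symm.Ker S d0 d1 d2 x x1 ↔
      Cr.Ker (Cr.mir G.dat) S d0 d1 d2 x x1 := by
    intro x x1
    unfold Ker Cr.Ker
    rw [hA, hB]
    simp only [hNx, G.symm_b, G.symm_b']
    rfl
  unfold Good Cr.Good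
  simp only [hK, hB]

/-- The criterion is symmetric. -/
theorem good_symm (hL : G.Laws) {S : Finset ι} {d0 d1 d2 : ZMod 2}
    (hnd : ¬ ((∀ i, i ∉ S) ∧ d1 = 0 ∧ d2 = 0)) (hgood : G.Good S d0 d1 d2) :
    G.symm.Good S (d0 + 1 + ∑ i ∈ S, G.a i) d2 d1 := by
  rw [G.symm_good_iff hL]
  exact (Cr.good_mir' G.dat (G.dat_rc hL) hnd).2 hgood

theorem rt_inj {D t : N} (hD : D ≠ 0) (ht : t ≠ 0) (ht1 : t ≠ 1) :
    Function.Injective (rt D t) := by
  have h01 : rt D t 0 ≠ rt D t 1 := by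
    rw [rt0, rt1]
    exact fun h => hD (by linear_combination h)
  have h02 : rt D t 0 ≠ rt D t 2 := by
    rw [rt0, rt2]
    exact fun h => mul_ne_zero hD ht (by linear_combination h)
  have h12 : rt D t 1 ≠ rt D t 2 := by
    rw [rt1, rt2]
    intro h
    have h1 : D * (t - 1) = 0 := by linear_combination h
    rcases mul_eq_zero.1 h1 with h2 | h2
    · exact hD h2
    · exact ht1 (sub_eq_zero.1 h2)
  intro i j h
  fin_cases i <;> fin_cases j
  · rfl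
  · exact absurd h h01
  · exact absurd h h02
  · exact absurd h.symm h01
  · rfl
  · exact absurd h h12
  · exact absurd h.symm h02
  · exact absurd h.symm h12
  · rfl

theorem rt_inj' (B : B7 N) {D : N} (hD : D ≠ 0) : Function.Injective (rt D ((B.b : N) ^ 4)) := by
  have haN : (B.a : N) ≠ 0 := coe_ne B.a_ne
  have hbN : (B.b : N) ≠ 0 := coe_ne B.symm.a_ne
  refine rt_inj hD (pow_ne_zero _ hbN) fun h => ?_
  have h1 := one_sub_b4 B
  rw [h, sub_self] at h1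
  exact pow_ne_zero 4 haN h1.symm

/-- **The main theorem of the algebraic side**: `D` different from `1, -1`. -/
theorem main (hL : G.Laws) {S : Finset ι} {d0 d1 d2 : ZMod 2}
    (hnd : ¬ ((∀ i, i ∉ S) ∧ d1 = 0 ∧ d2 = 0)) (hgood : G.Good S d0 d1 d2) {D : N}
    (hDe : D = ((G.el S d0 d1 d2 (fun _ => 1) : 𝓞 N) : N))
    {W : WeierstrassCurve N} (hW : W = cw (rt D ((B.b : N) ^ 4))) :
    Finite W.toAffine.Point ∧ (∃ m : ℕ, Odd m ∧ Nat.card W.toAffine.Point = 4 * m) ∧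
      Nat.card (ShaP 2 W) = 1 := by
  have hD : D ≠ 0 := by
    rw [hDe]
    exact coe_ne (G.el_ne S _ _ _ _)
  have he := rt_inj' B hD
  have hS := G.selCl hL hgood (G.good_symm hL hnd hgood) hDe
  obtain ⟨h1, h2⟩ := points_cw he hS (W := W.toAffine) (by rw [hW])
  refine ⟨h1, h2, ?_⟩
  rw [hW]
  exact card_shaP he hS

/-- **The criterion**: for `D` different from `1, -1`, the criterion holds if and only if the group
of points is finite and the 2-primary part of the Tate-Shafarevich group is trivial. -/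
theorem main_iff (hL : G.Laws) {S : Finset ι} {d0 d1 d2 : ZMod 2}
    (hnd : ¬ ((∀ i, i ∉ S) ∧ d1 = 0 ∧ d2 = 0)) {D : N}
    (hDe : D = ((G.el S d0 d1 d2 (fun _ => 1) : 𝓞 N) : N))
    {W : WeierstrassCurve N} (hW : W = cw (rt D ((B.b : N) ^ 4))) :
    (Finite W.toAffine.Point ∧ Nat.card (ShaP 2 W) = 1) ↔ G.Good S d0 d1 d2 := by
  have hD : D ≠ 0 := by
    rw [hDe]
    exact coe_ne (G.el_ne S _ _ _ _)
  constructor
  · rintro ⟨h1, h2⟩
    by_contra hbad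
    exact G.conv hL hnd hbad hDe (rt_inj' B hD) hW h1 h2
  · intro h
    obtain ⟨h1, -, h2⟩ := G.main hL hnd h hDe hW
    exact ⟨h1, h2⟩

end Gens

end

end Pool.Agent.Lib.MP_1a91b9_ntV.C
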