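import Pool.Agent.Lib.MP_1a91b9_ntV.C.Dens
import Pool.Agent.Lib.MP_1a91b9_ntH.C.V

/-!
# Full rational 2-torsion: the local conditions at the places which do not divide `2`
-/

set_option autoImplicit false
set_option linter.unusedSectionVars false

namespace Pool.Agent.Lib.MP_1a91b9_ntV.C

open WithZero
open Pool.Agent.Lib.MP_1a91b9_ntH.C (Sq Sq.near isSquare_exp prod_split tri)

variable {L : Type*} [Field L] [CharZero L] (ν : Valuation L ℤᵐ⁰)

/-- The values of the differences `e j - e i` are squares. -/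
theorem loc_even {r : Fin 3 → L} (h4 : ν 4 = 1) (γ : ℤ)
    (hγ : ∀ i j, i ≠ j → ν (r i - r j) = exp (2 * γ)) (a : Fin 3 → L) (ha : ∀ i, a i ≠ 0)
    (hp : IsSquare (a 0 * a 1 * a 2)) (h : GLoc ν r a) (i : Fin 3) : IsSquare (ν (a i)) := by
  have hsq : ∀ {u v : ℤᵐ⁰}, v ≠ 0 → IsSquare (u * v) → IsSquare v → IsSquare u := by
    rintro u v hv ⟨t, hr⟩ ⟨s, hs⟩
    refine ⟨t / s, ?_⟩
    have hs0 : s ≠ 0 := by rintro rfl; exact hv (by rw [hs, mul_zero])
    rw [div_mul_div_comm, ← hr, ← hs, mul_div_cancel_right₀ _ hv]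
  have hg : IsSquare (exp (2 * γ) : ℤᵐ⁰) := isSquare_exp.2 (even_two_mul γ)
  rcases h with h | ⟨j, h⟩ | ⟨x, hx, h⟩
  · exact (h i).even h4.le
  · have hi : ∀ i, i ≠ j → IsSquare (ν (a i)) := by
      intro i hi
      have h1 := (h i hi).even h4.le
      rw [map_mul, hγ j i (Ne.symm hi)] at h1
      exact hsq exp_ne_zero h1 hg
    by_cases hij : i = j
    · subst hij
      obtain ⟨l, k, hl, hk, -, -, e⟩ := prod_split a i
      rw [e] at hp
      have h1 : IsSquare (ν (a i) * ν (a l * a k)) := by
        rw [← map_mul]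
        exact hp.map ν
      refine hsq ?_ h1 ?_
      · exact ν.ne_zero_iff.2 (mul_ne_zero (ha l) (ha k))
      · rw [map_mul]
        exact (hi l hl).mul (hi k hk)
    · exact hi i hij
  · obtain ⟨X, hX⟩ : ∃ X : Fin 3 → L, ∀ i, X i = x - r i := ⟨fun i => x - r i, fun _ => rfl⟩
    simp only [← hX] at h
    have hX0 : ∀ i, X i ≠ 0 := fun i h' => (h i).ne h4.le (by rw [h', mul_zero])
    have hprod : X 0 * X 1 * X 2 = (x - r 0) * (x - r 1) * (x - r 2) := by rw [hX, hX, hX]
    have hpr : IsSquare (ν (X 0) * ν (X 1) * ν (X 2)) := by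
      rw [← map_mul, ← map_mul, hprod]
      exact hx.even h4.le
    have key : ∀ i, IsSquare (ν (X i)) := by
      rcases tri ν X (exp (2 * γ)) (fun i j hij => by
        have e9 : X i - X j = r j - r i := by rw [hX, hX]; ring
        rw [e9]
        exact hγ j i (Ne.symm hij)) with h1 | ⟨j, -, h1⟩
      · intro i
        rw [(h1 1 0).2, (h1 2 0).2] at hpr
        rw [(h1 i 0).2]
        exact hsq (mul_ne_zero (ν.ne_zero_iff.2 (hX0 0)) (ν.ne_zero_iff.2 (hX0 0)))
          (by rwa [mul_assoc] at hpr) ⟨_, rfl⟩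
      · intro i
        by_cases hij : i = j
        · subst hij
          obtain ⟨l, k, hl, hk, -, -, e⟩ := prod_split (fun i => ν (X i)) i
          rw [h1 l hl, h1 k hk] at e
          rw [e] at hpr
          exact hsq (mul_ne_zero exp_ne_zero exp_ne_zero) hpr ⟨_, rfl⟩
        · rw [h1 i hij]
          exact hg
    have h1 := (h i).even h4.le
    rw [map_mul] at h1
    exact hsq (ν.ne_zero_iff.2 (hX0 i)) h1 (key i)

/-- The values of the differences `e j - e i` are all equal and not squares. -/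
theorem loc_bad {r : Fin 3 → L} (h4 : ν 4 = 1) (γ : ℤ)
    (hγ : ∀ i j, i ≠ j → ν (r i - r j) = exp (2 * γ + 1)) (a : Fin 3 → L)
    (ha : ∀ i, a i ≠ 0) (hp : IsSquare (a 0 * a 1 * a 2)) (h : GLoc ν r a) :
    (∀ i, Sq ν (a i)) ∨ ∃ j, ∀ i, i ≠ j → Sq ν (a i * (r j - r i)) := by
  rcases h with h | ⟨j, h⟩ | ⟨x, hx, h⟩
  · exact Or.inl h
  · exact Or.inr ⟨j, h⟩
  · obtain ⟨X, hX⟩ : ∃ X : Fin 3 → L, ∀ i, X i = x - r i := ⟨fun i => x - r i, fun _ => rfl⟩
    simp only [← hX] at h
    have hX0 : ∀ i, X i ≠ 0 := fun i h' => (h i).ne h4.le (by rw [h', mul_zero])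
    have hprod : X 0 * X 1 * X 2 = (x - r 0) * (x - r 1) * (x - r 2) := by rw [hX, hX, hX]
    have hdiff : ∀ i j, X i - X j = r j - r i := fun i j => by rw [hX, hX]; ring
    have hXd : ∀ i j, i ≠ j → ν (X i - X j) = exp (2 * γ + 1) := fun i j hij => by
      rw [hdiff]
      exact hγ j i (Ne.symm hij)
    have hpr : IsSquare (ν (X 0) * ν (X 1) * ν (X 2)) := by
      rw [← map_mul, ← map_mul, hprod]
      exact hx.even h4.le
    rcases tri ν X (exp (2 * γ + 1)) hXd with h1 | ⟨j, hj, h1⟩
    · left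
      -- all `X i` are close to each other
      have hcl : ∀ i j, ν (X i / X j - 1) < ν 4 := by
        intro i j
        rw [h4]
        by_cases hij : i = j
        · subst hij
          rw [div_self (hX0 i), sub_self, map_zero]
          exact zero_lt_one
        · have e : X i / X j - 1 = (X i - X j) / X j := by
            rw [sub_div, div_self (hX0 j)]
          rw [e, map_div₀, hXd i j hij]
          rw [div_lt_one₀ (ν.pos_iff.2 (hX0 j))]
          exact (h1 j j).1
      have h3 : Sq ν (X 0 * X 1 * X 2) := by rw [hprod]; exact hx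
      have h4' : Sq ν (X 0 * X 1 * X 0) := h3.near h4.le (hcl 0 2)
      have h5 : Sq ν (X 0 * X 0 * X 1) := by
        have e : X 0 * X 1 * X 0 = X 0 * X 0 * X 1 := by ring
        rwa [e] at h4'
      have h6 : Sq ν (X 0 * X 0 * X 0) := h5.near h4.le (hcl 0 1)
      have h7 : Sq ν (X 0) := by
        refine Sq.of_mul_sq (hX0 0) ?_
        have e : X 0 * X 0 ^ 2 = X 0 * X 0 * X 0 := by ring
        rwa [e]
      intro i
      exact ((h i).near h4.le (hcl 0 i)).cancel h4.le h7
    · right
      refine ⟨j, fun i hi => ?_⟩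
      have hlt : ν (X j) < exp (2 * γ + 1) := by
        refine lt_of_le_of_ne hj fun he => ?_
        have hall : ∀ i, ν (X i) = exp (2 * γ + 1) := fun i => by
          by_cases hij : i = j
          · rw [hij, he]
          · exact h1 i hij
        rw [hall 0, hall 1, hall 2, ← exp_add, ← exp_add, isSquare_exp] at hpr
        obtain ⟨m, hm⟩ := hpr
        omega
      refine (h i).near h4.le ?_
      rw [h4]
      have e : (r j - r i) / X i - 1 = -(X j / X i) := by
        rw [← hdiff i j, sub_div, div_self (hX0 i)]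
        ring
      rw [e, Valuation.map_neg, map_div₀, h1 i hi, div_lt_one₀ exp_pos]
      exact hlt


/-- the triple is not changed by a translation and an exchange of the first two roots -/
theorem GLoc.swap {ν : Valuation L ℤᵐ⁰} {r s a : Fin 3 → L} {t : L} (h : GLoc ν r a)
    (h0 : s 0 = r 1 + t) (h1 : s 1 = r 0 + t) (h2 : s 2 = r 2 + t) :
    GLoc ν s ![a 1, a 0, a 2] := by
  have e01 : r 1 + t - (r 0 + t) = r 1 - r 0 := by ring
  have e02 : r 1 + t - (r 2 + t) = r 1 - r 2 := by ring
  have e10 : r 0 + t - (r 1 + t) = r 0 - r 1 := by ring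
  have e12 : r 0 + t - (r 2 + t) = r 0 - r 2 := by ring
  have e20 : r 2 + t - (r 1 + t) = r 2 - r 1 := by ring
  have e21 : r 2 + t - (r 0 + t) = r 2 - r 0 := by ring
  rcases h with h | ⟨j, h⟩ | ⟨x, hx, h⟩
  · refine Or.inl fun i => ?_
    fin_cases i
    · exact h 1
    · exact h 0
    · exact h 2
  · refine Or.inr (Or.inl ?_)
    fin_cases j
    · refine ⟨1, fun i hi => ?_⟩
      fin_cases i
      · show Sq ν (a 1 * (s 1 - s 0))
        rw [h0, h1, e10]
        exact h 1 (by decide)
      · exact absurd rfl hi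
      · show Sq ν (a 2 * (s 1 - s 2))
        rw [h1, h2, e12]
        exact h 2 (by decide)
    · refine ⟨0, fun i hi => ?_⟩
      fin_cases i
      · exact absurd rfl hi
      · show Sq ν (a 0 * (s 0 - s 1))
        rw [h0, h1, e01]
        exact h 0 (by decide)
      · show Sq ν (a 2 * (s 0 - s 2))
        rw [h0, h2, e02]
        exact h 2 (by decide)
    · refine ⟨2, fun i hi => ?_⟩
      fin_cases i
      · show Sq ν (a 1 * (s 2 - s 0))
        rw [h0, h2, e20]
        exact h 1 (by decide)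
      · show Sq ν (a 0 * (s 2 - s 1))
        rw [h1, h2, e21]
        exact h 0 (by decide)
      · exact absurd rfl hi
  · refine Or.inr (Or.inr ⟨x + t, ?_, fun i => ?_⟩)
    · have e : (x + t - s 0) * (x + t - s 1) * (x + t - s 2) =
          (x - r 0) * (x - r 1) * (x - r 2) := by
        rw [h0, h1, h2]
        ring
      rw [e]
      exact hx
    · fin_cases i
      · show Sq ν (a 1 * (x + t - s 0))
        rw [h0, show x + t - (r 1 + t) = x - r 1 by ring]
        exact h 1
      · show Sq ν (a 0 * (x + t - s 1))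
        rw [h1, show x + t - (r 0 + t) = x - r 0 by ring]
        exact h 0
      · show Sq ν (a 2 * (x + t - s 2))
        rw [h2, show x + t - (r 2 + t) = x - r 2 by ring]
        exact h 2

end Pool.Agent.Lib.MP_1a91b9_ntV.C
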