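import Pool.Agent.Lib.MP_1a91b9_ntV.C.Tpt

/-!
# Full rational 2-torsion: the functions `sfn e i`: `sfn e i P ^ 2 = x(2P) - e i` and the sign of
`sfn e i` under translation by a point of order two
-/

set_option autoImplicit false

namespace Pool.Agent.Lib.MP_1a91b9_ntV.C

open WeierstrassCurve
open Pool.Agent.Lib.MP_1a91b9_ntT.S9 (pr pr_comm pr_map pr_add eq_zero_of_pr Pts Gal coc cob trivOver
  shaCoc Sha up actP)
open scoped Classical

/-- the derivative of the cubic at `e i` -/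
def der {F : Type*} [Field F] (e : Fin 3 → F) (i : Fin 3) : F :=
  3 * e i ^ 2 - 2 * (e 0 + e 1 + e 2) * e i + (e 0 * e 1 + e 0 * e 2 + e 1 * e 2)

theorem sfn_some {F : Type*} [Field F] {W : Affine F} (e : Fin 3 → F) (i : Fin 3) {X Y : F}
    (h : W.Nonsingular X Y) :
    sfn e i (Affine.Point.some X Y h) = ((X - e i) ^ 2 - der e i) / (2 * Y) := rfl

theorem sfn_sq {F : Type*} [Field F] [CharZero F] {e : Fin 3 → F} {W : Affine F}
    (hW : W = cw e) (i : Fin 3) (P : W.Point) {x y : F}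
    (h : W.Nonsingular x y) (hP : P + P = Affine.Point.some x y h) :
    sfn e i P ^ 2 = x - e i := by
  cases P with
  | zero =>
    exfalso
    have h1 : (Affine.Point.zero : W.Point) + Affine.Point.zero = 0 := add_zero _
    rw [h1] at hP
    exact Affine.Point.some_ne_zero h hP.symm
  | some X Y hXY =>
    have hY : Y ≠ W.negY X Y := by
      intro hY
      rw [Affine.Point.add_self_of_Y_eq hY] at hP
      exact Affine.Point.some_ne_zero h hP.symm
    rw [Affine.Point.add_self_of_Y_ne hY] at hP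
    injection hP with hx hy
    have hEq : Y ^ 2 = (X - e 0) * (X - e 1) * (X - e 2) := (eqn_iff hW X Y).1 hXY.1
    have hneg : W.negY X Y = -Y := negY_eq hW X Y
    have hd2 : 2 * Y ≠ 0 := by
      intro h0
      apply hY
      rw [hneg]
      linear_combination h0
    have hY0 : Y ≠ 0 := fun h0 => hd2 (by rw [h0, mul_zero])
    rw [Affine.slope_of_Y_ne rfl hY, hneg] at hx
    simp only [Affine.addX, cw_a₁ hW, cw_a₂ hW, cw_a₄ hW] at hx
    have hx2 : x * (2 * Y) ^ 2 = (3 * X ^ 2 - 2 * (e 0 + e 1 + e 2) * X +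
        (e 0 * e 1 + e 0 * e 2 + e 1 * e 2)) ^ 2 - (2 * X - (e 0 + e 1 + e 2)) * (2 * Y) ^ 2 := by
      rw [← hx]
      have h3 : Y - -Y = 2 * Y := by ring
      rw [h3]
      field_simp
      ring
    have hr : (e i - e 0) * (e i - e 1) * (e i - e 2) = 0 := (root_iff (e i)).2 ⟨i, rfl⟩
    rw [sfn_some, div_pow, div_eq_iff (pow_ne_zero 2 hd2), der]
    linear_combination (-1 : F) * hx2 + (4 * (2 * X - (e 0 + e 1 + e 2) + e i)) * hEq +
      (4 * (2 * X - (e 0 + e 1 + e 2) + e i)) * hr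

/-- The value of `sfn` at the sum of `P = (X, Y)` and the point `(e j, 0)` of order two. -/
private theorem sfAdd_val {F : Type*} [Field F] [CharZero F] {e : Fin 3 → F}
    (he : Function.Injective e) {W : Affine F} (hW : W = cw e) (i j : Fin 3) (X Y : F)
    (h : W.Nonsingular X Y) (hY : Y ≠ 0) (ε : F)
    (hε : ((e j - e i) * (X - e j) + der e j) ^ 2 - der e i * (X - e j) ^ 2 =
        -(der e j) * (ε * ((X - e i) ^ 2 - der e i))) :
    sfn e i (Affine.Point.some X Y h + tp he hW j) =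
      ε * sfn e i (Affine.Point.some X Y h) := by
  have hE : Y ^ 2 = (X - e 0) * (X - e 1) * (X - e 2) := (eqn_iff hW X Y).1 h.1
  have hr : (e j - e 0) * (e j - e 1) * (e j - e 2) = 0 := (root_iff (e j)).2 ⟨j, rfl⟩
  have hx : X ≠ e j := by
    intro h0
    apply hY
    have h2 : Y ^ 2 = 0 := by
      rw [h0] at hE
      rw [hE, hr]
    exact (pow_eq_zero_iff two_ne_zero).1 h2
  have hD : X - e j ≠ 0 := sub_ne_zero.2 hx
  have hm0 : der e j ≠ 0 := der_ne he j
  unfold tp
  rw [Affine.Point.add_of_X_ne hx]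
  rw [sfn_some, sfn_some]
  simp only [Affine.slope_of_X_ne hx, Affine.addX, Affine.addY, Affine.negAddY, Affine.negY,
    cw_a₁ hW, cw_a₂ hW, cw_a₃ hW]
  set D : F := X - e j with hDdef
  obtain ⟨m, hm⟩ : ∃ m : F, m = der e j := ⟨_, rfl⟩
  have hm' : m = 3 * e j ^ 2 - 2 * (e 0 + e 1 + e 2) * e j +
    (e 0 * e 1 + e 0 * e 2 + e 1 * e 2) := hm
  rw [← hm] at hε hm0
  set l : F := (Y - 0) / D with hl
  have hlD : l * D = Y := by
    rw [hl, div_mul_cancel₀ _ hD, sub_zero]
  have hl2 : l ^ 2 * D = X ^ 2 + (e j - (e 0 + e 1 + e 2)) * X +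
      (e j ^ 2 - (e 0 + e 1 + e 2) * e j + (e 0 * e 1 + e 0 * e 2 + e 1 * e 2)) := by
    apply mul_right_cancel₀ hD
    have e1 : l ^ 2 * D * D = (l * D) ^ 2 := by ring
    rw [e1, hlD, hDdef]
    linear_combination hE + hr
  clear_value l D
  obtain ⟨A, hA⟩ : ∃ A : F, A = l ^ 2 + 0 * l - -(e 0 + e 1 + e 2) - X - e j := ⟨_, rfl⟩
  rw [← hA]
  obtain ⟨B, hB⟩ : ∃ B : F, B = -(l * (A - X) + Y) - 0 * A - 0 := ⟨_, rfl⟩
  rw [← hB]
  have hAD : A * D = e j * D + m := by
    rw [hA, hm']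
    linear_combination hl2 - (X + 2 * e j - (e 0 + e 1 + e 2)) * hDdef
  have hBD : B * D ^ 2 = -m * Y := by
    rw [hB]
    linear_combination (-l * D) * hAD - (e j * D + m - X * D) * hlD - Y * D * hDdef
  have h2 : (2 : F) ≠ 0 := two_ne_zero
  have hB0 : B ≠ 0 := by
    intro h0
    rw [h0, zero_mul] at hBD
    exact mul_ne_zero (neg_ne_zero.2 hm0) hY hBD.symm
  rw [← mul_div_assoc, div_eq_div_iff (mul_ne_zero h2 hB0) (mul_ne_zero h2 hY)]
  apply mul_right_cancel₀ (pow_ne_zero 2 hD)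
  linear_combination (2 * Y) * hε + (2 * Y) * (A * D + e j * D + m - 2 * e i * D) * hAD -
    2 * ε * ((X - e i) ^ 2 - der e i) * hBD

theorem fin3 (i : Fin 3) : i = 0 ∨ i = 1 ∨ i = 2 := by
  fin_cases i <;> simp

private theorem sfAdd_id {F : Type*} [Field F] (e : Fin 3 → F) {X : F} (i j : Fin 3) (h : j ≠ i) :
    ((e j - e i) * (X - e j) + der e j) ^ 2 - der e i * (X - e j) ^ 2 =
        -(der e j) * (-1 * ((X - e i) ^ 2 - der e i)) := by
  unfold der
  rcases fin3 i with rfl | rfl | rfl <;> rcases fin3 j with rfl | rfl | rfl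
  · exact absurd rfl h
  · ring
  · ring
  · ring
  · exact absurd rfl h
  · ring
  · ring
  · ring
  · exact absurd rfl h

/-- the sign of `sfn` -/
theorem sfn_add {F : Type*} [Field F] [CharZero F] {e : Fin 3 → F} (he : Function.Injective e)
    {W : Affine F} (hW : W = cw e) (i : Fin 3) (P T : W.Point) (hP : P + P ≠ 0)
    (hT : T + T = 0) :
    sfn e i (P + T) = (((pr T (tp he hW i) : ℤˣ) : ℤ) : F) * sfn e i P := by
  rcases two_tors_tp he hW T hT with rfl | ⟨j, rfl⟩
  · simp [pr]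
  cases P with
  | zero => exact absurd (show (0 : W.Point) + 0 = 0 from add_zero 0) hP
  | some X Y h =>
    have hY : Y ≠ 0 := by
      intro h0
      apply hP
      apply Affine.Point.add_self_of_Y_eq
      rw [negY_eq hW, h0, neg_zero]
    apply sfAdd_val he hW i j X Y h hY
    by_cases hij : j = i
    · subst hij
      rw [pr, if_pos (Or.inr (Or.inr rfl))]
      push_cast
      ring
    · have hne : tp he hW j ≠ tp he hW i := fun h0 => hij ((tp_inj he hW j i).1 h0)
      rw [pr, if_neg (by simp only [tp_ne, hne, or_self, not_false_eq_true])]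
      push_cast
      exact sfAdd_id e i j hij

end Pool.Agent.Lib.MP_1a91b9_ntV.C
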