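import Pool.Agent.Lib.MP_1a91b9_ntV.C.Plc

/-!
# Quadratic symbols at the prime elements of a number field, additive
-/

set_option autoImplicit false
set_option linter.unusedSectionVars false
set_option linter.unusedVariables false

namespace Pool.Agent.Lib.MP_1a91b9_ntV.C

open NumberField Finset WithZero IsDedekindDomain
open Pool.Agent.Lib.MP_1a91b9_ntH.C (Sq isSquare_exp nu_one)
open scoped Classical

noncomputable section

variable {N : Type*} [Field N] [NumberField N]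

/-- The symbol of `x` at `q`: `0` if `x` is a square modulo `q`, otherwise `1`. -/
def ls (q x : 𝓞 N) : ZMod 2 := if ∃ y : 𝓞 N, q ∣ y ^ 2 - x then 0 else 1

theorem ls_eq_zero {q x : 𝓞 N} : ls q x = 0 ↔ ∃ y : 𝓞 N, q ∣ y ^ 2 - x := by
  unfold ls
  by_cases h : ∃ y : 𝓞 N, q ∣ y ^ 2 - x
  · rw [if_pos h]
    exact ⟨fun _ => h, fun _ => rfl⟩
  · rw [if_neg h]
    exact ⟨fun h1 => absurd h1 (by decide), fun h1 => absurd h1 h⟩

theorem ls_sq (q x : 𝓞 N) : ls q (x ^ 2) = 0 := ls_eq_zero.2 ⟨x, by rw [sub_self]; exact dvd_zero _⟩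

theorem ls_one (q : 𝓞 N) : ls q 1 = 0 := by
  have h := ls_sq q 1
  rwa [one_pow] at h

theorem ls_congr {q x y : 𝓞 N} (h : q ∣ x - y) : ls q x = ls q y := by
  have h1 : (∃ z : 𝓞 N, q ∣ z ^ 2 - x) ↔ ∃ z : 𝓞 N, q ∣ z ^ 2 - y := by
    constructor
    · rintro ⟨z, hz⟩
      refine ⟨z, ?_⟩
      have e : z ^ 2 - y = (z ^ 2 - x) + (x - y) := by ring
      rw [e]
      exact dvd_add hz h
    · rintro ⟨z, hz⟩
      refine ⟨z, ?_⟩
      have e : z ^ 2 - x = (z ^ 2 - y) - (x - y) := by ring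
      rw [e]
      exact dvd_sub hz h
  unfold ls
  by_cases h2 : ∃ z : 𝓞 N, q ∣ z ^ 2 - y
  · rw [if_pos h2, if_pos (h1.2 h2)]
  · rw [if_neg h2, if_neg fun h3 => h2 (h1.1 h3)]

theorem ls_mul {q x y : 𝓞 N} (hq : Prime q) (hx : ¬ q ∣ x) (hy : ¬ q ∣ y) :
    ls q (x * y) = ls q x + ls q y := by
  have hpr : (Ideal.span {q} : Ideal (𝓞 N)).IsPrime :=
    (Ideal.span_singleton_prime hq.ne_zero).2 hq
  have hbot : (Ideal.span {q} : Ideal (𝓞 N)) ≠ ⊥ := by
    rw [Ne, Ideal.span_singleton_eq_bot]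
    exact hq.ne_zero
  have hmax : (Ideal.span {q} : Ideal (𝓞 N)).IsMaximal := hpr.isMaximal hbot
  let _ : Field (𝓞 N ⧸ (Ideal.span {q} : Ideal (𝓞 N))) := Ideal.Quotient.field _
  have _ : Finite (𝓞 N ⧸ (Ideal.span {q} : Ideal (𝓞 N))) := Ideal.finiteQuotientOfFreeOfNeBot _ hbot
  let _ : Fintype (𝓞 N ⧸ (Ideal.span {q} : Ideal (𝓞 N))) := Fintype.ofFinite _
  have hz : ∀ z : 𝓞 N, ¬ q ∣ z → Ideal.Quotient.mk (Ideal.span {q}) z ≠ 0 := fun z hz h0 =>
    hz (Ideal.mem_span_singleton.1 (Ideal.Quotient.eq_zero_iff_mem.1 h0))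
  have hls : ∀ z : 𝓞 N, ¬ q ∣ z →
      quadraticChar (𝓞 N ⧸ (Ideal.span {q} : Ideal (𝓞 N))) (Ideal.Quotient.mk _ z) =
        if ls q z = 0 then 1 else -1 := by
    intro z hz'
    rw [quadraticChar_apply, quadraticCharFun, if_neg (hz z hz')]
    have h1 : IsSquare (Ideal.Quotient.mk (Ideal.span {q}) z) ↔ ls q z = 0 := by
      rw [ls_eq_zero]
      constructor
      · rintro ⟨w, hw⟩
        obtain ⟨y, rfl⟩ := Ideal.Quotient.mk_surjective w
        refine ⟨y, ?_⟩
        rw [← Ideal.mem_span_singleton, ← Ideal.Quotient.eq_zero_iff_mem, map_sub, map_pow, hw]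
        ring
      · rintro ⟨y, hy⟩
        refine ⟨Ideal.Quotient.mk _ y, ?_⟩
        rw [← Ideal.mem_span_singleton, ← Ideal.Quotient.eq_zero_iff_mem, map_sub, map_pow] at hy
        linear_combination -hy
    by_cases h2 : ls q z = 0
    · rw [if_pos h2, if_pos (h1.2 h2)]
    · rw [if_neg h2, if_neg fun h3 => h2 (h1.1 h3)]
  have hxy : ¬ q ∣ x * y := fun h => (hq.dvd_or_dvd h).elim hx hy
  have h1 := hls _ hxy
  rw [map_mul, map_mul, hls _ hx, hls _ hy] at h1
  have key : ∀ u v w : ZMod 2, ((if u = 0 then (1 : ℤ) else -1) * (if v = 0 then 1 else -1) =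
      if w = 0 then 1 else -1) → w = u + v := by decide
  exact key _ _ _ h1

theorem ls_prod {q : 𝓞 N} (hq : Prime q) {κ : Type*} (S : Finset κ) (f : κ → 𝓞 N)
    (h : ∀ i ∈ S, ¬ q ∣ f i) : ls q (∏ i ∈ S, f i) = ∑ i ∈ S, ls q (f i) := by
  induction S using Finset.induction_on with
  | empty => rw [prod_empty, sum_empty, ls_one]
  | insert a S ha ih =>
    rw [prod_insert ha, sum_insert ha, ls_mul hq (h a (mem_insert_self a S)),
      ih fun i hi => h i (mem_insert_of_mem hi)]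
    intro hd
    obtain ⟨i, hi, h2⟩ := hq.exists_mem_finset_dvd hd
    exact h i (mem_insert_of_mem hi) h2

theorem ls_pow {q x : 𝓞 N} (hq : Prime q) (hx : ¬ q ∣ x) (e : ZMod 2) :
    ls q (x ^ e.val) = e * ls q x := by
  obtain rfl | rfl : e = 0 ∨ e = 1 := by
    revert e
    decide
  · rw [ZMod.val_zero, pow_zero, zero_mul, ls_one]
  · have h1 : ((1 : ZMod 2)).val = 1 := rfl
    rw [h1, pow_one, one_mul]

theorem ls_gpr {κ : Type*} [DecidableEq κ] {q : 𝓞 N} (hq : Prime q) (f : κ → 𝓞 N) (S : Finset κ)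
    (V : κ → ZMod 2) (h : ∀ i ∈ S, ¬ q ∣ f i) : ls q (gpr f S V) = ∑ i ∈ S, V i * ls q (f i) := by
  unfold gpr
  rw [ls_prod hq S _ fun i hi hd => h i hi (hq.dvd_of_dvd_pow hd)]
  exact sum_congr rfl fun i hi => ls_pow hq (h i hi) _

/-- a square up to a factor which is `1` modulo (more than) `4`, at an odd prime -/
theorem sq_iff_ls {q x : 𝓞 N} (hq : Prime q) (h2 : ¬ q ∣ 2) (hx : ¬ q ∣ x) :
    Sq ((pv q hq).valuation N) (x : N) ↔ ls q x = 0 := by
  have h4 : (pv q hq).valuation N (4 : N) = 1 := by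
    have h := pv_one (N := N) hq h2
    have e : ((2 : 𝓞 N) : N) = 2 := map_ofNat (algebraMap (𝓞 N) N) 2
    rw [e] at h
    rw [show (4 : N) = 2 * 2 by norm_num, map_mul, h, mul_one]
  have hx1 := pv_one (N := N) hq hx
  rw [ls_eq_zero]
  constructor
  · rintro ⟨b, hb, h⟩
    rw [h4] at h
    have hxb : (pv q hq).valuation N ((x : N) / b ^ 2) = 1 := by
      have := Valuation.map_one_add_of_lt (v := (pv q hq).valuation N) h
      rwa [add_sub_cancel] at this
    have hb1 : (pv q hq).valuation N b = 1 := by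
      rw [map_div₀, hx1, map_pow, one_div, inv_eq_one] at hxb
      exact (pow_eq_one_iff_of_nonneg zero_le two_ne_zero).1 hxb
    obtain ⟨γ, hγ⟩ := HeightOneSpectrum.exists_valuation_sub_lt_of_integer (K := N)
      (pv q hq) (x := b) hb1.le 1
    rw [Units.val_one] at hγ
    refine ⟨γ, ?_⟩
    rw [← pv_lt (N := N) hq]
    have e : ((γ ^ 2 - x : 𝓞 N) : N) = ((γ : N) - b) * ((γ : N) + b) -
        ((x : N) / b ^ 2 - 1) * b ^ 2 := by
      push_cast
      field_simp
      ring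
    rw [e]
    refine Valuation.map_sub_lt _ ?_ ?_
    · rw [map_mul]
      refine (mul_le_of_le_one_right' ?_).trans_lt hγ
      exact Valuation.map_add_le _ (val_le_one _ γ) hb1.le
    · rw [map_mul, map_pow, hb1, one_pow, mul_one]
      exact h
  · rintro ⟨y, hy⟩
    have hyn : ¬ q ∣ y := by
      intro hd
      apply hx
      have e : x = y ^ 2 - (y ^ 2 - x) := by ring
      rw [e]
      exact dvd_sub (hd.pow two_ne_zero) hy
    have hy0 : y ≠ 0 := fun h => hyn (by rw [h]; exact dvd_zero _)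
    refine ⟨y, coe_ne hy0, ?_⟩
    rw [h4]
    have e : (x : N) / (y : N) ^ 2 - 1 = -(((y ^ 2 - x : 𝓞 N) : N) / (y : N) ^ 2) := by
      have hy' := coe_ne hy0
      push_cast
      field_simp
      ring
    rw [e, Valuation.map_neg, map_div₀, map_pow, pv_one hq hyn, one_pow, div_one]
    exact (pv_lt hq).2 hy

end

end Pool.Agent.Lib.MP_1a91b9_ntV.C
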