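import Pool.Agent.Lib.MP_1a91b9_ntV.C.El

/-!
# The field `ℚ(√-7)`: the linear system of the Selmer group, the first component
-/

set_option autoImplicit false
set_option linter.unusedSectionVars false
set_option linter.unusedVariables false

namespace Pool.Agent.Lib.MP_1a91b9_ntV.C

open NumberField Finset WithZero IsDedekindDomain
open Pool.Agent.Lib.MP_1a91b9_ntH.C (Sq isSquare_exp nu_one Sq.near Sq.one Sq.mul Sq.cancel
  Sq.of_mul_sq Sq.of_isSquare Sq.even Sq.ne exists_nu nu_four nu_four_le)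

noncomputable section

variable {N : Type*} [Field N] [NumberField N]

namespace Gens

variable {B : B7 N} {ι : Type*} [DecidableEq ι] (G : Gens B ι)

/-- the diagonal entry without the sum of symbols -/
def w (d0 d1 d2 : ZMod 2) (i : ι) : ZMod 2 :=
  d0 * G.a i + d1 * (G.b i + G.a i) + d2 * (G.b' i + G.a i)

/-- the row `i` of the matrix `N` applied to `x` -/
def Nx (S : Finset ι) (d0 d1 d2 : ZMod 2) (x : ι → ZMod 2) (i : ι) : ZMod 2 :=
  ∑ j ∈ S.erase i, G.s i j * x j +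
    (∑ j ∈ S.erase i, G.s j i + G.w d0 d1 d2 i + G.a i) * x i

/-- `-D` is a square at `a` (in bits) -/
def SqA (S : Finset ι) (d0 d1 d2 : ZMod 2) : Prop :=
  d1 = 0 ∧ d0 + 1 + d2 = 0 ∧ d2 + ∑ i ∈ S, G.b i = 0

/-- `D` is a square at `1 - a` (in bits) -/
def SqB (S : Finset ι) (d0 d1 d2 : ZMod 2) : Prop :=
  d2 = 0 ∧ d0 + d1 + ∑ i ∈ S, G.a i = 0 ∧ d1 + ∑ i ∈ S, G.b' i = 0

/-- the elements of the Selmer group which are units at `1 - a` and of a class `<5>` there -/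
def Ker (S : Finset ι) (d0 d1 d2 : ZMod 2) (x : ι → ZMod 2) (x1 : ZMod 2) : Prop :=
  (∀ i ∈ S, G.Nx S d0 d1 d2 x i + G.b i * x1 = 0) ∧
    (¬ G.SqB S d0 d1 d2 → x1 = ∑ i ∈ S, G.b' i * x i) ∧ (G.SqA S d0 d1 d2 → x1 = 0)

/-- the criterion, in terms of kernels -/
def Good (S : Finset ι) (d0 d1 d2 : ZMod 2) : Prop :=
  ∀ (x : ι → ZMod 2) (x1 : ZMod 2), G.Ker S d0 d1 d2 x x1 →
    ((∀ i ∈ S, x i = 0) ∧ x1 = 0) ∨ ((∀ i ∈ S, x i = 1) ∧ x1 = d1 ∧ G.SqB S d0 d1 d2)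

theorem sqB_iff (S : Finset ι) (d0 d1 d2 : ZMod 2) :
    Sq B.symm.nu ((G.el S d0 d1 d2 (fun _ => 1) : 𝓞 N) : N) ↔ G.SqB S d0 d1 d2 := by
  rw [G.sq_el'_iff]
  unfold SqB
  simp only [one_mul]

theorem sqA_iff (S : Finset ι) (d0 d1 d2 : ZMod 2) :
    Sq B.nu (-((G.el S d0 d1 d2 (fun _ => 1) : 𝓞 N) : N)) ↔ G.SqA S d0 d1 d2 := by
  have e : -((G.el S d0 d1 d2 (fun _ => 1) : 𝓞 N) : N) =
      ((G.el S (d0 + 1) d1 d2 (fun _ => 1) : 𝓞 N) : N) := by
    rw [← G.neg_el]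
    push_cast
    rfl
  rw [e, G.sq_el_iff]
  unfold SqA
  simp only [one_mul]

omit [DecidableEq ι] in
theorem el_congr_sq {ν : Valuation N ℤᵐ⁰} {y Y : N} {m : N} (hm : m ≠ 0) (h : y = m ^ 2 * Y) :
    (Sq ν y ↔ Sq ν Y) := by
  constructor
  · intro h1
    rw [h, mul_comm] at h1
    exact h1.of_mul_sq hm
  · intro h1
    refine Sq.of_mul_sq (s := m⁻¹) (inv_ne_zero hm) ?_
    have e : y * m⁻¹ ^ 2 = Y := by
      rw [h]
      field_simp
    rwa [e]

omit [DecidableEq ι] in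
theorem coe_five_mul (x : 𝓞 N) : ((5 * x : 𝓞 N) : N) = 5 * (x : N) := by
  have e : (5 * x : 𝓞 N) = x + x + x + x + x := by ring
  rw [e]
  push_cast
  ring

/-- the equation at `q i` -/
theorem row (hL : G.Laws) {S : Finset ι} {i : ι} (hi : i ∈ S) (d0 d1 d2 x0 x1 x2 : ZMod 2)
    (V : ι → ZMod 2)
    (h : Sq ((pv (G.q i) (G.prime i)).valuation N) ((G.el S x0 x1 x2 V : 𝓞 N) : N) ∨
      Sq ((pv (G.q i) (G.prime i)).valuation N)
        (((G.el S x0 x1 x2 V : 𝓞 N) : N) * ((G.el S d0 d1 d2 (fun _ => 1) : 𝓞 N) : N))) :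
    x0 * G.a i + x1 * (G.b i + G.a i) + x2 * (G.b' i + G.a i) +
      ∑ j ∈ S.erase i, V j * G.s j i + V i * (G.w d0 d1 d2 i + ∑ j ∈ S.erase i, G.s j i) = 0 := by
  have hp := G.prime i
  have h4 : (pv (G.q i) hp).valuation N (4 : N) ≤ 1 := by
    have h := val_le_one (pv (G.q i) hp) (4 : 𝓞 N)
    have e : ((4 : 𝓞 N) : N) = 4 := map_ofNat (algebraMap (𝓞 N) N) 4
    rwa [e] at h
  have key : ∀ (y0 y1 y2 : ZMod 2) (W : ι → ZMod 2),
      Sq ((pv (G.q i) hp).valuation N) ((G.el S y0 y1 y2 W : 𝓞 N) : N) →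
      W i = 0 ∧ y0 * G.a i + y1 * (G.b i + G.a i) + y2 * (G.b' i + G.a i) +
        ∑ j ∈ S.erase i, W j * G.s j i = 0 := by
    intro y0 y1 y2 W h1
    have hval : (pv (G.q i) hp).valuation N ((G.el S y0 y1 y2 W : 𝓞 N) : N) =
        exp (-1) ^ (W i).val := by
      rw [G.el_erase hi]
      have e : ((G.q i ^ (W i).val * G.el (S.erase i) y0 y1 y2 W : 𝓞 N) : N) =
          (G.q i : N) ^ (W i).val * ((G.el (S.erase i) y0 y1 y2 W : 𝓞 N) : N) := by
        push_cast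
        ring
      rw [e, map_mul, map_pow, pv_self, pv_one hp (G.not_dvd_el (notMem_erase i S) y0 y1 y2 W),
        mul_one]
    have hW : W i = 0 := by
      rcases (by decide : ∀ t : ZMod 2, t = 0 ∨ t = 1) (W i) with h5 | h5
      · exact h5
      · have h6 := h1.even h4
        have h2 : ((1 : ZMod 2)).val = 1 := rfl
        rw [hval, h5, h2, pow_one, isSquare_exp] at h6
        exact absurd h6 (by decide)
    refine ⟨hW, ?_⟩
    rw [G.el_erase hi, hW, ZMod.val_zero, pow_zero, one_mul,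
      sq_iff_ls hp (G.q_not_two i) (G.not_dvd_el (notMem_erase i S) y0 y1 y2 W),
      G.ls_el hL (notMem_erase i S)] at h1
    exact h1
  rcases h with h | h
  · obtain ⟨h1, h2⟩ := key x0 x1 x2 V h
    rw [h1, zero_mul, add_zero]
    exact h2
  · obtain ⟨m, hm, e⟩ := G.el_mul S x0 x1 x2 d0 d1 d2 V (fun _ => 1)
    have e' : ((G.el S x0 x1 x2 V : 𝓞 N) : N) * ((G.el S d0 d1 d2 (fun _ => 1) : 𝓞 N) : N) =
        (m : N) ^ 2 * ((G.el S (x0 + d0) (x1 + d1) (x2 + d2) (fun i => V i + 1) : 𝓞 N) : N) := by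
      have := congrArg (fun x : 𝓞 N => (x : N)) e
      push_cast at this
      exact this
    rw [el_congr_sq (coe_ne hm) e'] at h
    obtain ⟨h1, h2⟩ := key _ _ _ _ h
    have h1' : V i = 1 := (by decide : ∀ t : ZMod 2, t + 1 = 0 → t = 1) _ h1
    rw [h1', one_mul]
    unfold w
    have e2 : ∑ j ∈ S.erase i, (V j + 1) * G.s j i =
        ∑ j ∈ S.erase i, V j * G.s j i + ∑ j ∈ S.erase i, G.s j i := by
      rw [← sum_add_distrib]
      exact sum_congr rfl fun j _ => by ring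
    rw [e2] at h2
    linear_combination h2

/-- the rows in terms of `N` -/
theorem row_N (hL : G.Laws) {S : Finset ι} {i : ι} (hi : i ∈ S) (d0 d1 d2 x1 : ZMod 2)
    (V : ι → ZMod 2) :
    (x1 + ∑ j ∈ S, V j * G.a j) * G.a i + x1 * (G.b i + G.a i) + 0 * (G.b' i + G.a i) +
      ∑ j ∈ S.erase i, V j * G.s j i + V i * (G.w d0 d1 d2 i + ∑ j ∈ S.erase i, G.s j i) =
    G.Nx S d0 d1 d2 V i + G.b i * x1 := by
  have h1 : ∑ j ∈ S, V j * G.a j = V i * G.a i + ∑ j ∈ S.erase i, V j * G.a j :=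
    (add_sum_erase S (fun j => V j * G.a j) hi).symm
  have h2 : ∑ j ∈ S.erase i, G.s i j * V j =
      ∑ j ∈ S.erase i, V j * G.s j i + (∑ j ∈ S.erase i, V j * G.a j) * G.a i := by
    rw [sum_mul, ← sum_add_distrib]
    refine sum_congr rfl fun j hj => ?_
    have h3 := hL.rc i j (ne_of_mem_erase hj).symm
    have h4 : ∀ s t u v w : ZMod 2, s + t = u * v → s * w = w * t + w * v * u := by decide
    exact h4 _ _ _ _ _ h3
  have h5 : G.a i * G.a i = G.a i := (by decide : ∀ t : ZMod 2, t * t = t) _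
  have h6 : ∀ t : ZMod 2, t + t = 0 := by decide
  unfold Nx
  rw [h1, h2]
  linear_combination (V i) * h5 + h6 (x1 * G.a i)

/-- The first component of a Selmer element is given by an element of the kernel. -/
theorem sel_ker (hL : G.Laws) {S : Finset ι} {d0 d1 d2 : ZMod 2}
    (y : N) (hy : y ≠ 0)
    (hodd : ∀ (π : 𝓞 N) (hπ : Prime π), ¬ π ∣ 2 → (∀ i ∈ S, ¬ π ∣ G.q i) →
      IsSquare ((pv π hπ).valuation N y))
    (hS : ∀ i ∈ S, Sq ((pv (G.q i) (G.prime i)).valuation N) y ∨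
      Sq ((pv (G.q i) (G.prime i)).valuation N)
        (y * ((G.el S d0 d1 d2 (fun _ => 1) : 𝓞 N) : N)))
    (hb : Sq B.symm.nu y ∨ Sq B.symm.nu (y * ((G.el S d0 d1 d2 (fun _ => 1) : 𝓞 N) : N)) ∨
      (Sq B.symm.nu (5 * y) ∧ Sq B.symm.nu ((G.el S d0 d1 d2 (fun _ => 1) : 𝓞 N) : N)))
    (ha : Sq B.nu (-((G.el S d0 d1 d2 (fun _ => 1) : 𝓞 N) : N)) → IsSquare (B.nu y)) :
    ∃ (x : ι → ZMod 2) (x1 : ZMod 2), G.Ker S d0 d1 d2 x x1 ∧
      (IsSquare (y * ((G.el S (x1 + ∑ i ∈ S, x i * G.a i) x1 0 x : 𝓞 N) : N)) ∨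
        IsSquare (y * ((G.el S (x1 + ∑ i ∈ S, x i * G.a i) x1 0 x : 𝓞 N) : N) *
          ((G.el S d0 d1 d2 (fun _ => 1) : 𝓞 N) : N))) := by
  have hpid := B.pid
  obtain ⟨D, hD⟩ : ∃ D : 𝓞 N, D = G.el S d0 d1 d2 (fun _ => 1) := ⟨_, rfl⟩
  have hD0 : D ≠ 0 := by
    rw [hD]
    exact G.el_ne S d0 d1 d2 _
  have hDN : (D : N) ≠ 0 := coe_ne hD0
  have h4b := (nu_four_le B.symm.nu_two).le
  have h4a := (nu_four_le B.nu_two).le
  rw [← hD] at hS hb ha ⊢
  -- the core, after the normalisation at the place `1 - a`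
  have core : ∀ y : N, y ≠ 0 →
      (∀ (π : 𝓞 N) (hπ : Prime π), ¬ π ∣ 2 → (∀ i ∈ S, ¬ π ∣ G.q i) →
        IsSquare ((pv π hπ).valuation N y)) →
      (∀ i ∈ S, Sq ((pv (G.q i) (G.prime i)).valuation N) y ∨
        Sq ((pv (G.q i) (G.prime i)).valuation N) (y * (D : N))) →
      (Sq B.symm.nu y ∨ (Sq B.symm.nu (5 * y) ∧ Sq B.symm.nu (D : N))) →
      (Sq B.nu (-(D : N)) → IsSquare (B.nu y)) →
      ∃ (x : ι → ZMod 2) (x1 : ZMod 2), G.Ker S d0 d1 d2 x x1 ∧
        IsSquare (y * ((G.el S (x1 + ∑ i ∈ S, x i * G.a i) x1 0 x : 𝓞 N) : N)) := by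
    clear hy hodd hS hb ha y
    intro y hy hodd hS hb ha
    -- decomposition
    obtain ⟨x1, hx1⟩ : ∃ x1 : ZMod 2, IsSquare (B.nu y * exp (-1) ^ x1.val) :=
      exists_par _ ((Valuation.ne_zero_iff _).2 hy)
    obtain ⟨x2, hx2⟩ : ∃ x2 : ZMod 2, IsSquare (B.symm.nu y * exp (-1) ^ x2.val) :=
      exists_par _ ((Valuation.ne_zero_iff _).2 hy)
    have haN : (B.a : N) ≠ 0 := coe_ne B.a_ne
    have hbN : (B.b : N) ≠ 0 := coe_ne B.symm.a_ne
    obtain ⟨u, V, m, hu, hm, hdec⟩ := decomp G.q G.prime G.ne S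
      (y * (B.a : N) ^ x1.val * (B.b : N) ^ x2.val)
      (mul_ne_zero (mul_ne_zero hy (pow_ne_zero _ haN)) (pow_ne_zero _ hbN)) (by
        intro π hπ hπS
        rw [map_mul, map_mul, map_pow, map_pow]
        by_cases h1 : π ∣ B.a
        · have h2 : ¬ π ∣ B.b := fun h => B.a_not_dvd_b
            (((hπ.associated_of_dvd B.prime_a h1).symm.dvd).trans h)
          rw [pv_one hπ h2, one_pow, mul_one, pv_eq hπ B.prime_a h1, pv_self]
          exact hx1
        · rw [pv_one hπ h1, one_pow, mul_one]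
          by_cases h2 : π ∣ B.b
          · rw [pv_eq hπ B.symm.prime_a h2]
            have h3 : (pv B.symm.a B.symm.prime_a).valuation N (B.b : N) = exp (-1) :=
              pv_self B.symm.a B.symm.prime_a
            rw [h3]
            exact hx2
          · rw [pv_one hπ h2, one_pow, mul_one]
            refine hodd π hπ ?_ hπS
            rw [← B.ab]
            exact fun h => (hπ.dvd_or_dvd h).elim h1 h2)
    obtain ⟨x0, hx0⟩ : ∃ x0 : ZMod 2, u = (-1) ^ x0.val := by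
      rcases B.isUnit_iff.1 hu with h | h
      · exact ⟨0, by rw [ZMod.val_zero, pow_zero, h]⟩
      · have h1 : ((1 : ZMod 2)).val = 1 := rfl
        exact ⟨1, by rw [h1, pow_one, h]⟩
    obtain ⟨M, hM0, hM⟩ : ∃ M : N, M ≠ 0 ∧ y = M ^ 2 * ((G.el S x0 x1 x2 V : 𝓞 N) : N) := by
      refine ⟨m / ((B.a : N) ^ x1.val * (B.b : N) ^ x2.val), div_ne_zero hm
        (mul_ne_zero (pow_ne_zero _ haN) (pow_ne_zero _ hbN)), ?_⟩
      unfold el
      rw [hx0] at hdec
      push_cast at hdec ⊢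
      field_simp
      linear_combination hdec
    -- the place `1 - a`
    have hx2z : x2 = 0 := by
      have h1 : IsSquare (B.symm.nu y) := by
        rcases hb with h | ⟨h, -⟩
        · exact h.even h4b
        · have h3 := h.even h4b
          rwa [map_mul, nu_five B.symm.nu_two B.symm.res, one_mul] at h3
      exact par_of x2 hx2 h1 ((Valuation.ne_zero_iff _).2 hy)
    have hbits : x0 + x1 + ∑ i ∈ S, V i * G.a i = 0 ∧
        (¬ G.SqB S d0 d1 d2 → x1 = ∑ i ∈ S, G.b' i * V i) := by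
      rcases hb with h | ⟨h, h'⟩
      · rw [el_congr_sq hM0 hM, G.sq_el'_iff] at h
        refine ⟨h.2.1, fun _ => ?_⟩
        have e : ∑ i ∈ S, G.b' i * V i = ∑ i ∈ S, V i * G.b' i :=
          sum_congr rfl fun i _ => mul_comm _ _
        rw [e]
        exact (by decide : ∀ s t : ZMod 2, s + t = 0 → s = t) _ _ h.2.2
      · have hsq : G.SqB S d0 d1 d2 := by
          rw [← G.sqB_iff, ← hD]
          exact h'
        refine ⟨?_, fun hn => absurd hsq hn⟩
        obtain ⟨k1, k2, k3⟩ := G.bits_el' S x0 x1 V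
        have h5 : Sq B.symm.nu (((5 * G.el S x0 x1 0 V : 𝓞 N)) : N) := by
          have e : 5 * y = M ^ 2 * ((5 * G.el S x0 x1 0 V : 𝓞 N) : N) := by
            rw [hM, hx2z, coe_five_mul]
            ring
          rwa [el_congr_sq hM0 e] at h
        have hnd : ¬ B.symm.a ∣ 5 * G.el S x0 x1 0 V := by
          rw [B.symm.a_dvd, RingHom.map_mul]
          have e5 : B.symm.r 5 = 5 := map_ofNat B.symm.r 5
          rw [e5]
          exact od_mul (by decide) k1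
        rw [B.symm.sq_iff_r hnd, RingHom.map_mul] at h5
        have e5 : B.symm.r 5 = 5 := map_ofNat B.symm.r 5
        rw [e5] at h5
        have h6 : be8 (B.symm.r (G.el S x0 x1 0 V)) = 0 := by
          revert h5
          generalize B.symm.r (G.el S x0 x1 0 V) = t
          unfold be8
          revert t
          decide
        rw [k2] at h6
        exact h6
    have hx0' : x0 = x1 + ∑ i ∈ S, V i * G.a i :=
      (by decide : ∀ s t u : ZMod 2, s + t + u = 0 → s = t + u) _ _ _ hbits.1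
    -- the rows
    have hrow : ∀ i ∈ S, G.Nx S d0 d1 d2 V i + G.b i * x1 = 0 := by
      intro i hi
      rw [← G.row_N hL hi d0 d1 d2 x1 V, ← hx0']
      have h1 := hS i hi
      rw [el_congr_sq hM0 hM] at h1
      have e : y * (D : N) = M ^ 2 * (((G.el S x0 x1 x2 V : 𝓞 N) : N) * (D : N)) := by
        rw [hM]
        ring
      rw [el_congr_sq hM0 e, hD] at h1
      have h2 := G.row hL hi d0 d1 d2 x0 x1 x2 V h1
      rw [hx2z] at h2
      exact h2
    -- the place `a`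
    have hxa : G.SqA S d0 d1 d2 → x1 = 0 := by
      intro h
      have h1 : Sq B.nu (-(D : N)) := by
        rw [hD]
        exact (G.sqA_iff S d0 d1 d2).2 h
      exact par_of x1 hx1 (ha h1) ((Valuation.ne_zero_iff _).2 hy)
    refine ⟨V, x1, ⟨hrow, hbits.2, hxa⟩, M * ((G.el S x0 x1 x2 V : 𝓞 N) : N), ?_⟩
    rw [← hx0', ← hx2z, hM]
    ring
  rcases hb with h | h | h
  · obtain ⟨x, x1, h1, h2⟩ := core y hy hodd hS (Or.inl h) ha
    exact ⟨x, x1, h1, Or.inl h2⟩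
  · have hA : ∀ (π : 𝓞 N) (hπ : Prime π), ¬ π ∣ 2 → (∀ i ∈ S, ¬ π ∣ G.q i) →
        IsSquare ((pv π hπ).valuation N (y * (D : N))) := by
      intro π hπ h2 h3
      have h4 : ¬ π ∣ D := by
        rw [hD]
        unfold el
        intro h
        have ha' : ¬ π ∣ B.a := fun h5 => h2 (by rw [← B.ab]; exact Dvd.dvd.mul_right h5 _)
        have hb' : ¬ π ∣ B.b := fun h5 => h2 (by rw [← B.ab]; exact Dvd.dvd.mul_left h5 _)
        rcases hπ.dvd_or_dvd h with h5 | h5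
        · rcases hπ.dvd_or_dvd h5 with h6 | h6
          · rcases hπ.dvd_or_dvd h6 with h7 | h7
            · exact hπ.not_isUnit (isUnit_of_dvd_unit h7 ((isUnit_one.neg).pow _))
            · exact ha' (hπ.dvd_of_dvd_pow h7)
          · exact hb' (hπ.dvd_of_dvd_pow h6)
        · exact not_dvd_gpr hπ h3 _ h5
      rw [map_mul, pv_one hπ h4, mul_one]
      exact hodd π hπ h2 h3
    have hB : ∀ i ∈ S, Sq ((pv (G.q i) (G.prime i)).valuation N) (y * (D : N)) ∨
        Sq ((pv (G.q i) (G.prime i)).valuation N) (y * (D : N) * (D : N)) := by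
      intro i hi
      rcases hS i hi with h1 | h1
      · right
        have e : y * (D : N) * (D : N) = (D : N) ^ 2 * y := by ring
        rw [el_congr_sq hDN e]
        exact h1
      · exact Or.inl h1
    have hC : Sq B.nu (-(D : N)) → IsSquare (B.nu (y * (D : N))) := by
      intro h1
      have h2 := ha h1
      have h3 := h1.even h4a
      rw [Valuation.map_neg] at h3
      rw [map_mul]
      exact h2.mul h3
    obtain ⟨x, x1, h1, h2⟩ := core (y * (D : N)) (mul_ne_zero hy hDN) hA hB (Or.inl h) hC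
    refine ⟨x, x1, h1, Or.inr ?_⟩
    rwa [mul_right_comm] at h2
  · obtain ⟨x, x1, h1, h2⟩ := core y hy hodd hS (Or.inr h) ha
    exact ⟨x, x1, h1, Or.inl h2⟩

/-- The trivial elements of the kernel. -/
theorem el_triv {S : Finset ι} {x : ι → ZMod 2} {x1 : ZMod 2} (h1 : ∀ i ∈ S, x i = 0)
    (h2 : x1 = 0) : G.el S (x1 + ∑ i ∈ S, x i * G.a i) x1 0 x = 1 := by
  have e1 : gpr G.q S x = 1 := by
    unfold gpr
    refine prod_eq_one fun i hi => ?_
    rw [h1 i hi, ZMod.val_zero, pow_zero]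
  have e2 : x1 + ∑ i ∈ S, x i * G.a i = 0 := by
    rw [h2, zero_add]
    exact sum_eq_zero fun i hi => by rw [h1 i hi, zero_mul]
  unfold el
  rw [e1, e2, h2, ZMod.val_zero, pow_zero, pow_zero, pow_zero]
  ring

theorem el_D {S : Finset ι} {d0 d1 d2 : ZMod 2} {x : ι → ZMod 2} {x1 : ZMod 2}
    (h1 : ∀ i ∈ S, x i = 1) (h2 : x1 = d1) (h3 : G.SqB S d0 d1 d2) :
    G.el S (x1 + ∑ i ∈ S, x i * G.a i) x1 0 x = G.el S d0 d1 d2 (fun _ => 1) := by
  have e1 : gpr G.q S x = gpr G.q S (fun _ => 1) := by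
    unfold gpr
    exact prod_congr rfl fun i hi => by rw [h1 i hi]
  have e2 : x1 + ∑ i ∈ S, x i * G.a i = d0 := by
    rw [h2]
    have e3 : ∑ i ∈ S, x i * G.a i = ∑ i ∈ S, G.a i :=
      sum_congr rfl fun i hi => by rw [h1 i hi, one_mul]
    rw [e3]
    exact (by decide : ∀ s t u : ZMod 2, u + s + t = 0 → s + t = u) _ _ _ h3.2.1
  rw [e2, h2, h3.1]
  unfold el
  rw [e1]

/-- The first component of a Selmer element is trivial or the class of `D`. -/
theorem sel_one (hL : G.Laws) {S : Finset ι} {d0 d1 d2 : ZMod 2} (hgood : G.Good S d0 d1 d2)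
    (y : N) (hy : y ≠ 0)
    (hodd : ∀ (π : 𝓞 N) (hπ : Prime π), ¬ π ∣ 2 → (∀ i ∈ S, ¬ π ∣ G.q i) →
      IsSquare ((pv π hπ).valuation N y))
    (hS : ∀ i ∈ S, Sq ((pv (G.q i) (G.prime i)).valuation N) y ∨
      Sq ((pv (G.q i) (G.prime i)).valuation N)
        (y * ((G.el S d0 d1 d2 (fun _ => 1) : 𝓞 N) : N)))
    (hb : Sq B.symm.nu y ∨ Sq B.symm.nu (y * ((G.el S d0 d1 d2 (fun _ => 1) : 𝓞 N) : N)) ∨
      (Sq B.symm.nu (5 * y) ∧ Sq B.symm.nu ((G.el S d0 d1 d2 (fun _ => 1) : 𝓞 N) : N)))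
    (ha : Sq B.nu (-((G.el S d0 d1 d2 (fun _ => 1) : 𝓞 N) : N)) → IsSquare (B.nu y)) :
    IsSquare y ∨ IsSquare (y * ((G.el S d0 d1 d2 (fun _ => 1) : 𝓞 N) : N)) := by
  obtain ⟨x, x1, hk, hx⟩ := G.sel_ker hL y hy hodd hS hb ha
  rcases hgood x x1 hk with ⟨h1, h2⟩ | ⟨h1, h2, h3⟩
  · rw [G.el_triv h1 h2] at hx
    have e : ((1 : 𝓞 N) : N) = 1 := map_one (algebraMap (𝓞 N) N)
    rw [e, mul_one] at hx
    exact hx
  · rw [G.el_D h1 h2 h3] at hx
    rcases hx with h4 | ⟨t, ht⟩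
    · exact Or.inr h4
    · left
      have hDN : ((G.el S d0 d1 d2 (fun _ => 1) : 𝓞 N) : N) ≠ 0 := coe_ne (G.el_ne S d0 d1 d2 _)
      refine ⟨t / ((G.el S d0 d1 d2 (fun _ => 1) : 𝓞 N) : N), ?_⟩
      field_simp
      linear_combination ht

end Gens

end

end Pool.Agent.Lib.MP_1a91b9_ntV.C
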