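import Pool.Agent.Lib.MP_1a91b9_ntV.C.GoodH

/-!
# The field `ℚ(√-7)`: points at the place `a`, table
-/

set_option autoImplicit false
set_option linter.unusedSectionVars false
set_option linter.unusedVariables false

namespace Pool.Agent.Lib.MP_1a91b9_ntV.C

open NumberField Finset WithZero IsDedekindDomain
open Pool.Agent.Lib.MP_1a91b9_ntH.C (Sq isSquare_exp nu_one Sq.near Sq.one Sq.mul Sq.cancel
  Sq.of_mul_sq Sq.of_isSquare Sq.even Sq.ne exists_nu nu_four nu_four_le)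

section

variable {N : Type*} [Field N] [NumberField N]

theorem B7.b_def (B : B7 N) : B.b = 1 - B.a := rfl

theorem B7.r_lin (B : B7 N) (m n : ℤ) :
    B.r ((m : 𝓞 N) + (n : 𝓞 N) * B.a) = (m : ZMod 8) + 6 * (n : ZMod 8) := by
  rw [RingHom.map_add, RingHom.map_mul, B.r_a, map_intCast, map_intCast, mul_comm]

/-- `x = a ^ k w` with `k` of the parity `v` and the unit `w` of the class `u` modulo `8` -/
def Cl (B : B7 N) (x : 𝓞 N) (v : ZMod 2) (u : ZMod 8) : Prop :=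
  ∃ (k : ℕ) (w : 𝓞 N), x = B.a ^ k * w ∧ (k : ZMod 2) = v ∧ B.r w = u

theorem Cl.mk {B : B7 N} {x : 𝓞 N} {v : ZMod 2} {u : ZMod 8} (k : ℕ) (m n : ℤ)
    (h : x = B.a ^ k * ((m : 𝓞 N) + (n : 𝓞 N) * B.a)) (hv : (k : ZMod 2) = v)
    (hu : (m : ZMod 8) + 6 * (n : ZMod 8) = u) : Cl B x v u :=
  ⟨k, _, h, hv, (B.r_lin m n).trans hu⟩

theorem Cl.mul {B : B7 N} {x y : 𝓞 N} {v v' : ZMod 2} {u u' : ZMod 8} (h : Cl B x v u)
    (h' : Cl B y v' u') : Cl B (x * y) (v + v') (u * u') := by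
  obtain ⟨k, w, rfl, hv, hu⟩ := h
  obtain ⟨k', w', rfl, hv', hu'⟩ := h'
  refine ⟨k + k', w * w', by ring, ?_, ?_⟩
  · rw [Nat.cast_add, hv, hv']
  · rw [RingHom.map_mul, hu, hu']

theorem Cl.sq {B : B7 N} {x : 𝓞 N} (h : Cl B x 0 1) : Sq B.nu (x : N) := by
  obtain ⟨k, w, rfl, hv, hu⟩ := h
  obtain ⟨j, rfl⟩ : ∃ j, k = j + j := by
    have h2 : 2 ∣ k := (ZMod.natCast_eq_zero_iff k 2).1 hv
    obtain ⟨j, rfl⟩ := h2
    exact ⟨j, by ring⟩
  have hw : ¬ B.a ∣ w := by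
    rw [B.a_dvd, hu]
    decide
  have h1 := (B.sq_iff_r hw).2 hu
  have haN : (B.a : N) ≠ 0 := coe_ne B.a_ne
  refine Sq.of_mul_sq (s := ((B.a : N) ^ j)⁻¹) (inv_ne_zero (pow_ne_zero _ haN)) ?_
  have e : ((B.a ^ (j + j) * w : 𝓞 N) : N) * (((B.a : N) ^ j)⁻¹) ^ 2 = (w : N) := by
    push_cast
    rw [pow_add]
    field_simp
  rwa [e]

/-- the table of the points -/
theorem tab (B : B7 N) (dv : ZMod 2) (du : ZMod 8) (ev : ZMod 2) (eu : ZMod 8)
    (h : (dv = 0 ∧ du = 1 ∧ ev = 0 ∧ eu = 5) ∨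
    (dv = 0 ∧ du = 1 ∧ ev = 1 ∧ eu = 3) ∨
    (dv = 0 ∧ du = 1 ∧ ev = 1 ∧ eu = 7) ∨
    (dv = 0 ∧ du = 3 ∧ ev = 0 ∧ eu = 5) ∨
    (dv = 0 ∧ du = 3 ∧ ev = 0 ∧ eu = 7) ∨
    (dv = 0 ∧ du = 5 ∧ ev = 1 ∧ eu = 1) ∨
    (dv = 0 ∧ du = 5 ∧ ev = 1 ∧ eu = 5) ∨
    (dv = 0 ∧ du = 7 ∧ ev = 0 ∧ eu = 3) ∨
    (dv = 0 ∧ du = 7 ∧ ev = 0 ∧ eu = 5) ∨
    (dv = 1 ∧ du = 1 ∧ ev = 0 ∧ eu = 7) ∨
    (dv = 1 ∧ du = 1 ∧ ev = 1 ∧ eu = 7) ∨
    (dv = 1 ∧ du = 3 ∧ ev = 0 ∧ eu = 3) ∨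
    (dv = 1 ∧ du = 3 ∧ ev = 1 ∧ eu = 1) ∨
    (dv = 1 ∧ du = 5 ∧ ev = 0 ∧ eu = 7) ∨
    (dv = 1 ∧ du = 5 ∧ ev = 1 ∧ eu = 3) ∨
    (dv = 1 ∧ du = 7 ∧ ev = 0 ∧ eu = 3) ∨
    (dv = 1 ∧ du = 7 ∧ ev = 1 ∧ eu = 5)) :
    ∃ c E : 𝓞 N, E ≠ 0 ∧ Cl B c dv du ∧ Cl B (c + E ^ 2) ev eu ∧
      Cl B (c + B.b ^ 4 * E ^ 2) ev eu := by
  rcases h with ⟨rfl, rfl, rfl, rfl⟩ | ⟨rfl, rfl, rfl, rfl⟩ | ⟨rfl, rfl, rfl, rfl⟩ | ⟨rfl, rfl, rfl, rfl⟩ | ⟨rfl, rfl, rfl, rfl⟩ | ⟨rfl, rfl, rfl, rfl⟩ | ⟨rfl, rfl, rfl, rfl⟩ | ⟨rfl, rfl, rfl, rfl⟩ | ⟨rfl, rfl, rfl, rfl⟩ | ⟨rfl, rfl, rfl, rfl⟩ | ⟨rfl, rfl, rfl, rfl⟩ | ⟨rfl, rfl, rfl, rfl⟩ | ⟨rfl, rfl, rfl, rfl⟩ | ⟨rfl, rfl, rfl, rfl⟩ | ⟨rfl, rfl, rfl, rfl⟩ | ⟨rfl, rfl, rfl, rfl⟩ | ⟨rfl, rfl, rfl, rfl⟩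
  · exact ⟨(-2 + B.a), 1, one_ne_zero,
      Cl.mk 2 (1) (0) (by push_cast; linear_combination (-1) * B.rel)
      (by decide) (by decide),
      Cl.mk 0 (-1) (1) (by push_cast; linear_combination (0 : 𝓞 N) * B.rel)
      (by decide) (by decide),
      Cl.mk 0 (-3) (4) (by rw [B.b_def]; push_cast; linear_combination (B.a ^ 2 - 3 * B.a + 1) * B.rel)
      (by decide) (by decide)⟩
  · exact ⟨1, 1, one_ne_zero,
      Cl.mk 0 (1) (0) (by push_cast; linear_combination (0 : 𝓞 N) * B.rel)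
      (by decide) (by decide),
      Cl.mk 1 (1) (-1) (by push_cast; linear_combination (1) * B.rel)
      (by decide) (by decide),
      Cl.mk 1 (3) (0) (by rw [B.b_def]; push_cast; linear_combination (B.a ^ 2 - 3 * B.a + 1) * B.rel)
      (by decide) (by decide)⟩
  · exact ⟨(-1 - B.a), 1, one_ne_zero,
      Cl.mk 0 (-1) (-1) (by push_cast; linear_combination (0 : 𝓞 N) * B.rel)
      (by decide) (by decide),
      Cl.mk 1 (-1) (0) (by push_cast; linear_combination (0 : 𝓞 N) * B.rel)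
      (by decide) (by decide),
      Cl.mk 1 (1) (1) (by rw [B.b_def]; push_cast; linear_combination (B.a ^ 2 - 3 * B.a) * B.rel)
      (by decide) (by decide)⟩
  · exact ⟨(2 * B.a), 1, one_ne_zero,
      Cl.mk 2 (1) (-1) (by push_cast; linear_combination (B.a) * B.rel)
      (by decide) (by decide),
      Cl.mk 0 (1) (2) (by push_cast; linear_combination (0 : 𝓞 N) * B.rel)
      (by decide) (by decide),
      Cl.mk 0 (-1) (5) (by rw [B.b_def]; push_cast; linear_combination (B.a ^ 2 - 3 * B.a + 1) * B.rel)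
      (by decide) (by decide)⟩
  · exact ⟨(1 - B.a), B.a, B.a_ne,
      Cl.mk 0 (1) (-1) (by push_cast; linear_combination (0 : 𝓞 N) * B.rel)
      (by decide) (by decide),
      Cl.mk 0 (-1) (0) (by push_cast; linear_combination (1) * B.rel)
      (by decide) (by decide),
      Cl.mk 0 (-3) (-5) (by rw [B.b_def]; push_cast; linear_combination (B.a ^ 4 - 3 * B.a ^ 3 + B.a ^ 2 + 3 * B.a + 2) * B.rel)
      (by decide) (by decide)⟩
  · exact ⟨(-1 + B.a), 1, one_ne_zero,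
      Cl.mk 0 (-1) (1) (by push_cast; linear_combination (0 : 𝓞 N) * B.rel)
      (by decide) (by decide),
      Cl.mk 1 (1) (0) (by push_cast; linear_combination (0 : 𝓞 N) * B.rel)
      (by decide) (by decide),
      Cl.mk 1 (3) (1) (by rw [B.b_def]; push_cast; linear_combination (B.a ^ 2 - 3 * B.a) * B.rel)
      (by decide) (by decide)⟩
  · exact ⟨(1 + 2 * B.a), 1, one_ne_zero,
      Cl.mk 0 (1) (2) (by push_cast; linear_combination (0 : 𝓞 N) * B.rel)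
      (by decide) (by decide),
      Cl.mk 1 (3) (-1) (by push_cast; linear_combination (1) * B.rel)
      (by decide) (by decide),
      Cl.mk 1 (5) (0) (by rw [B.b_def]; push_cast; linear_combination (B.a ^ 2 - 3 * B.a + 1) * B.rel)
      (by decide) (by decide)⟩
  · exact ⟨(11 - 2 * B.a), 1, one_ne_zero,
      Cl.mk 0 (11) (-2) (by push_cast; linear_combination (0 : 𝓞 N) * B.rel)
      (by decide) (by decide),
      Cl.mk 6 (1) (-1) (by push_cast; linear_combination (B.a ^ 5 - 2 * B.a ^ 3 - 2 * B.a ^ 2 + 2 * B.a + 6) * B.rel)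
      (by decide) (by decide),
      Cl.mk 4 (-1) (2) (by rw [B.b_def]; push_cast; linear_combination (-2 * B.a ^ 3 + 6) * B.rel)
      (by decide) (by decide)⟩
  · exact ⟨(2 - B.a), 1, one_ne_zero,
      Cl.mk 2 (-1) (0) (by push_cast; linear_combination (1) * B.rel)
      (by decide) (by decide),
      Cl.mk 0 (3) (-1) (by push_cast; linear_combination (0 : 𝓞 N) * B.rel)
      (by decide) (by decide),
      Cl.mk 0 (1) (2) (by rw [B.b_def]; push_cast; linear_combination (B.a ^ 2 - 3 * B.a + 1) * B.rel)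
      (by decide) (by decide)⟩
  · exact ⟨(B.a), 1, one_ne_zero,
      Cl.mk 1 (1) (0) (by push_cast; linear_combination (0 : 𝓞 N) * B.rel)
      (by decide) (by decide),
      Cl.mk 0 (1) (1) (by push_cast; linear_combination (0 : 𝓞 N) * B.rel)
      (by decide) (by decide),
      Cl.mk 0 (-1) (4) (by rw [B.b_def]; push_cast; linear_combination (B.a ^ 2 - 3 * B.a + 1) * B.rel)
      (by decide) (by decide)⟩
  · exact ⟨(B.a), B.a, B.a_ne,
      Cl.mk 1 (1) (0) (by push_cast; linear_combination (0 : 𝓞 N) * B.rel)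
      (by decide) (by decide),
      Cl.mk 1 (1) (1) (by push_cast; linear_combination (0 : 𝓞 N) * B.rel)
      (by decide) (by decide),
      Cl.mk 1 (-5) (2) (by rw [B.b_def]; push_cast; linear_combination (B.a ^ 4 - 3 * B.a ^ 3 + B.a ^ 2 + 3 * B.a) * B.rel)
      (by decide) (by decide)⟩
  · exact ⟨(-2 - 2 * B.a), 1, one_ne_zero,
      Cl.mk 1 (-3) (1) (by push_cast; linear_combination (-1) * B.rel)
      (by decide) (by decide),
      Cl.mk 0 (-1) (-2) (by push_cast; linear_combination (0 : 𝓞 N) * B.rel)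
      (by decide) (by decide),
      Cl.mk 0 (-3) (1) (by rw [B.b_def]; push_cast; linear_combination (B.a ^ 2 - 3 * B.a + 1) * B.rel)
      (by decide) (by decide)⟩
  · exact ⟨(-2 - 2 * B.a), B.a, B.a_ne,
      Cl.mk 1 (-3) (1) (by push_cast; linear_combination (-1) * B.rel)
      (by decide) (by decide),
      Cl.mk 1 (-3) (2) (by push_cast; linear_combination (-1) * B.rel)
      (by decide) (by decide),
      Cl.mk 1 (-9) (3) (by rw [B.b_def]; push_cast; linear_combination (B.a ^ 4 - 3 * B.a ^ 3 + B.a ^ 2 + 3 * B.a - 1) * B.rel)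
      (by decide) (by decide)⟩
  · exact ⟨(-2), 1, one_ne_zero,
      Cl.mk 1 (-1) (1) (by push_cast; linear_combination (-1) * B.rel)
      (by decide) (by decide),
      Cl.mk 0 (-1) (0) (by push_cast; linear_combination (0 : 𝓞 N) * B.rel)
      (by decide) (by decide),
      Cl.mk 0 (-3) (3) (by rw [B.b_def]; push_cast; linear_combination (B.a ^ 2 - 3 * B.a + 1) * B.rel)
      (by decide) (by decide)⟩
  · exact ⟨(-2), B.a, B.a_ne,
      Cl.mk 1 (-1) (1) (by push_cast; linear_combination (-1) * B.rel)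
      (by decide) (by decide),
      Cl.mk 1 (-1) (2) (by push_cast; linear_combination (-1) * B.rel)
      (by decide) (by decide),
      Cl.mk 1 (-7) (3) (by rw [B.b_def]; push_cast; linear_combination (B.a ^ 4 - 3 * B.a ^ 3 + B.a ^ 2 + 3 * B.a - 1) * B.rel)
      (by decide) (by decide)⟩
  · exact ⟨(-B.a), 1, one_ne_zero,
      Cl.mk 1 (-1) (0) (by push_cast; linear_combination (0 : 𝓞 N) * B.rel)
      (by decide) (by decide),
      Cl.mk 0 (1) (-1) (by push_cast; linear_combination (0 : 𝓞 N) * B.rel)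
      (by decide) (by decide),
      Cl.mk 0 (-1) (2) (by rw [B.b_def]; push_cast; linear_combination (B.a ^ 2 - 3 * B.a + 1) * B.rel)
      (by decide) (by decide)⟩
  · exact ⟨(-B.a), B.a, B.a_ne,
      Cl.mk 1 (-1) (0) (by push_cast; linear_combination (0 : 𝓞 N) * B.rel)
      (by decide) (by decide),
      Cl.mk 1 (-1) (1) (by push_cast; linear_combination (0 : 𝓞 N) * B.rel)
      (by decide) (by decide),
      Cl.mk 1 (-7) (2) (by rw [B.b_def]; push_cast; linear_combination (B.a ^ 4 - 3 * B.a ^ 3 + B.a ^ 2 + 3 * B.a) * B.rel)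
      (by decide) (by decide)⟩

end

end Pool.Agent.Lib.MP_1a91b9_ntV.C
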