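import Pool.Agent.Lib.MP_1a91b9_ntV.C.TamK

/-!
# Tamagawa numbers of curves with full 2-torsion: types `I4*` and `I8*` over `ℚ₂`

`V (e 1 - e 2) = exp (-4) * V (e 0 - e 1)`, and `e 0 - e 1` is `1` modulo `4` (`I4*`) or of order `1` (`I8*`).
-/

set_option autoImplicit false

namespace Pool.Agent.Lib.MP_1a91b9_ntV.C

open WithZero WeierstrassCurve
open Pool.Agent.Lib.MP_1a91b9_ntH.C (nsSet nsG)
open Pool.Agent.Lib.MP_1a91b9_ntH.C.TamT (Itg)
open scoped Classical

/-- The properties of the valued field `ℚ₂` which are used. -/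
structure Q2 {L : Type*} [Field L] (V : Valuation L ℤᵐ⁰) : Prop where
  two : V 2 = exp (-1 : ℤ)
  res : ∀ z, V z ≤ 1 → V z < 1 ∨ V (z - 1) < 1
  sq : ∀ z, V (z - 1) ≤ exp (-3 : ℤ) → IsSquare z

/-- The position of the roots. -/
structure Near {L : Type*} [Field L] (V : Valuation L ℤᵐ⁰) (e : Fin 3 → L) : Prop where
  int : ∀ i, V (e i) ≤ 1
  near : V (e 1 - e 2) = exp (-4 : ℤ) * V (e 0 - e 1)
  far : V (e 0 - e 1 - 1) ≤ exp (-2 : ℤ) ∨ V (e 0 - e 1) = exp (-1 : ℤ)

section

variable {L : Type*} [Field L] {V : Valuation L ℤᵐ⁰}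

theorem Tam2_le {n : ℤ} (h : n ≤ 0) : exp n ≤ (1 : ℤᵐ⁰) := by
  rw [← exp_zero, exp_le_exp]
  exact h

theorem Tam2_lt {n : ℤ} (h : n < 0) : exp n < (1 : ℤᵐ⁰) := by
  rw [← exp_zero, exp_lt_exp]
  exact h

/-- `1` modulo an ideal -/
theorem one_of_close {z : L} {n : ℤ} (hn : n < 0) (h : V (z - 1) ≤ exp n) : V z = 1 := by
  have e1 : z = (z - 1) + 1 := by ring
  rw [e1, Valuation.map_add_eq_of_lt_right, map_one]
  rw [map_one]
  exact h.trans_lt (Tam2_lt hn)

theorem close_mul {a b : L} {n : ℤ} (hn : n ≤ 0) (ha : V (a - 1) ≤ exp n) (hb : V (b - 1) ≤ exp n) :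
    V (a * b - 1) ≤ exp n := by
  have hb1 : V b ≤ 1 := by
    have e1 : b = (b - 1) + 1 := by ring
    rw [e1]
    exact Valuation.map_add_le _ (hb.trans (Tam2_le hn)) (map_one V).le
  have e1 : a * b - 1 = (a - 1) * b + (b - 1) := by ring
  rw [e1]
  refine Valuation.map_add_le _ ?_ hb
  rw [map_mul]
  exact (mul_le_of_le_one_right' hb1).trans ha

/-- the square of a unit is `1` modulo `4` -/
theorem Q2.unit_sq (hq : Q2 V) {w : L} (hw : V w = 1) : V (w ^ 2 - 1) ≤ exp (-2 : ℤ) := by
  have h1 : V (w - 1) ≤ exp (-1 : ℤ) := by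
    rcases hq.res w hw.le with h | h
    · exact absurd h (by rw [hw]; exact lt_irrefl _)
    · exact lt_one_exp h
  have h2 : V (w + 1) ≤ exp (-1 : ℤ) := by
    have e1 : w + 1 = (w - 1) + 2 := by ring
    rw [e1]
    exact Valuation.map_add_le _ h1 hq.two.le
  have e1 : w ^ 2 - 1 = (w - 1) * (w + 1) := by ring
  have e2 : exp (-2 : ℤ) = exp (-1 : ℤ) * exp (-1 : ℤ) := by
    rw [← exp_add]
    rfl
  rw [e1, map_mul, e2]
  exact mul_le_mul' h1 h2

theorem Q2.contra (hq : Q2 V) {z : L} (h1 : V (z + 1) ≤ exp (-2 : ℤ)) (h2 : V (z - 1) ≤ exp (-2 : ℤ)) :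
    False := by
  have e1 : (2 : L) = (z + 1) - (z - 1) := by ring
  have h3 : V 2 ≤ exp (-2 : ℤ) := by
    rw [e1]
    exact Valuation.map_sub_le _ h1 h2
  rw [hq.two, exp_le_exp] at h3
  norm_num at h3

/-- `-1` modulo `4` is not a square -/
theorem Q2.not_sq (hq : Q2 V) {z : L} (h : V (z + 1) ≤ exp (-2 : ℤ)) : ¬ IsSquare z := by
  rintro ⟨w, rfl⟩
  have h1 : V (w * w) = 1 := by
    have e1 : V (-(w * w)) = 1 := by
      refine one_of_close (n := -2) (by norm_num) ?_
      have e2 : -(w * w) - 1 = -(w * w + 1) := by ring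
      rw [e2, Valuation.map_neg]
      exact h
    rwa [Valuation.map_neg] at e1
  have h2 : V w = 1 := by
    rw [map_mul, ← pow_two] at h1
    exact (pow_eq_one_iff.1 h1).resolve_right (by norm_num)
  have h3 := hq.unit_sq h2
  rw [pow_two] at h3
  exact hq.contra h h3

theorem odd_not_sq {z : L} (h : V z = exp (-1 : ℤ)) : ¬ IsSquare z := by
  rintro ⟨w, rfl⟩
  have hw : w ≠ 0 := by
    rintro rfl
    rw [mul_zero, map_zero] at h
    exact exp_ne_zero h.symm
  have h1 := even_of_sq (V := V) h hw (by rw [map_mul, pow_two])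
  exact absurd h1 (by decide)

/-- `a + b` is `a` times a square if `b` is small -/
theorem Q2.add_small (hq : Q2 V) {a b : L} (ha : a ≠ 0) (h : V b ≤ exp (-3 : ℤ) * V a) :
    ∃ w : L, w ≠ 0 ∧ a + b = a * w ^ 2 := by
  have ha' : 0 < V a := zero_lt_iff.2 ((Valuation.ne_zero_iff _).2 ha)
  have h1 : V ((a + b) / a - 1) ≤ exp (-3 : ℤ) := by
    have e1 : (a + b) / a - 1 = b / a := by
      field_simp
      ring
    rw [e1, map_div₀]
    exact (div_le_iff₀ ha').2 h
  obtain ⟨w, hw⟩ := hq.sq _ h1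
  refine ⟨w, ?_, ?_⟩
  · rintro rfl
    rw [mul_zero] at hw
    rw [hw, zero_sub, Valuation.map_neg, map_one] at h1
    exact absurd h1 (not_le.2 (Tam2_lt (by norm_num)))
  · rw [pow_two, ← hw]
    field_simp

variable {e : Fin 3 → L}

theorem Near.val (hn : Near V e) : V (e 0 - e 1) = 1 ∨ V (e 0 - e 1) = exp (-1 : ℤ) := by
  rcases hn.far with h | h
  · exact Or.inl (one_of_close (by norm_num) h)
  · exact Or.inr h

theorem Near.le_one (hn : Near V e) : V (e 0 - e 1) ≤ 1 := by
  rcases hn.val with h | h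
  · exact h.le
  · rw [h]
    exact Tam2_le (by norm_num)

theorem Near.ne01 (hn : Near V e) : e 0 - e 1 ≠ 0 := by
  intro h
  rcases hn.val with h1 | h1 <;> rw [h, map_zero] at h1
  · exact zero_ne_one h1
  · exact exp_ne_zero h1.symm

theorem Near.ne12 (hn : Near V e) : e 1 - e 2 ≠ 0 := by
  intro h
  have h1 := hn.near
  rw [h, map_zero] at h1
  exact mul_ne_zero exp_ne_zero ((Valuation.ne_zero_iff _).2 hn.ne01) h1.symm

theorem Near.v02 (hn : Near V e) : V (e 0 - e 2) = V (e 0 - e 1) := by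
  have e1 : e 0 - e 2 = (e 0 - e 1) + (e 1 - e 2) := by ring
  rw [e1]
  refine Valuation.map_add_eq_of_lt_left _ ?_
  rw [hn.near]
  have h1 : 0 < V (e 0 - e 1) := zero_lt_iff.2 ((Valuation.ne_zero_iff _).2 hn.ne01)
  calc exp (-4 : ℤ) * V (e 0 - e 1) < 1 * V (e 0 - e 1) :=
        mul_lt_mul_of_pos_right (Tam2_lt (by norm_num)) h1
    _ = V (e 0 - e 1) := one_mul _

theorem Near.inj (hn : Near V e) : Function.Injective e := by
  have h01 : e 0 ≠ e 1 := fun h => hn.ne01 (sub_eq_zero.2 h)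
  have h12 : e 1 ≠ e 2 := fun h => hn.ne12 (sub_eq_zero.2 h)
  have h02 : e 0 ≠ e 2 := by
    intro h
    have h1 := hn.v02
    rw [h, sub_self, map_zero] at h1
    exact (Valuation.ne_zero_iff _).2 hn.ne01 (by rw [h]; exact h1.symm)
  intro i j hij
  fin_cases i <;> fin_cases j
  · rfl
  · exact absurd hij h01
  · exact absurd hij h02
  · exact absurd hij h01.symm
  · rfl
  · exact absurd hij h12
  · exact absurd hij h02.symm
  · exact absurd hij h12.symm
  · rfl

/-! ### the square classes -/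

/-- `x - e 0` is a square if `x - e 1` is not small -/
theorem Near.sq0 (hq : Q2 V) (hn : Near V e) {x y : L} (hy : y ^ 2 = (x - e 0) * (x - e 1) * (x - e 2))
    (_h0 : x - e 0 ≠ 0) (h1 : x - e 1 ≠ 0) (h : exp (-1 : ℤ) * V (e 0 - e 1) ≤ V (x - e 1)) :
    IsSquare (x - e 0) := by
  obtain ⟨w, hw, h2⟩ := hq.add_small (a := x - e 1) (b := e 1 - e 2) h1 (by
    rw [hn.near]
    have e1 : exp (-4 : ℤ) = exp (-3 : ℤ) * exp (-1 : ℤ) := by
      rw [← exp_add]
      rfl
    rw [e1, mul_assoc]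
    exact mul_le_mul_right h _)
  have e2 : x - e 2 = (x - e 1) * w ^ 2 := by
    rw [← h2]
    ring
  refine ⟨y / ((x - e 1) * w), ?_⟩
  rw [e2] at hy
  field_simp
  linear_combination -hy

theorem Near.der0 (hq : Q2 V) (hn : Near V e) : IsSquare (der e 0) := by
  obtain ⟨w, -, h2⟩ := hq.add_small (a := e 0 - e 1) (b := e 1 - e 2) hn.ne01 (by
    rw [hn.near]
    exact mul_le_mul_left (exp_le_exp.2 (by norm_num)) _)
  refine ⟨(e 0 - e 1) * w, ?_⟩
  rw [der_zero]
  have e2 : e 0 - e 2 = (e 0 - e 1) * w ^ 2 := by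
    rw [← h2]
    ring
  rw [e2]
  ring

theorem Near.not_sq10 (hq : Q2 V) (hn : Near V e) : ¬ IsSquare (e 1 - e 0) := by
  rcases hn.far with h | h
  · refine hq.not_sq ?_
    have e1 : e 1 - e 0 + 1 = -(e 0 - e 1 - 1) := by ring
    rw [e1, Valuation.map_neg]
    exact h
  · refine odd_not_sq (V := V) ?_
    rw [Valuation.map_sub_swap]
    exact h

/-- (F1) -/
theorem Near.sq_or (hq : Q2 V) (hn : Near V e) {x y : L}
    (hy : y ^ 2 = (x - e 0) * (x - e 1) * (x - e 2)) (h0 : x - e 0 ≠ 0) :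
    IsSquare (x - e 0) ∨ IsSquare ((e 1 - e 0) * (x - e 0)) := by
  have hV : 0 < V (e 0 - e 1) := zero_lt_iff.2 ((Valuation.ne_zero_iff _).2 hn.ne01)
  have e0 : x - e 0 = (e 1 - e 0) + (x - e 1) := by ring
  by_cases h3 : V (x - e 1) ≤ exp (-3 : ℤ) * V (e 0 - e 1)
  · right
    have n10 : e 1 - e 0 ≠ 0 := by
      intro h
      exact hn.ne01 (by rw [← neg_eq_zero]; rw [← h]; ring)
    obtain ⟨w, -, hw⟩ := hq.add_small (a := e 1 - e 0) (b := x - e 1) n10 (by
      rw [Valuation.map_sub_swap V (e 1) (e 0)]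
      exact h3)
    refine ⟨(e 1 - e 0) * w, ?_⟩
    rw [e0, hw]
    ring
  · left
    rw [not_le] at h3
    have h1 : x - e 1 ≠ 0 := by
      intro h
      rw [h, map_zero] at h3
      exact absurd h3 (not_lt.2 zero_le)
    by_cases h4 : exp (-1 : ℤ) * V (e 0 - e 1) ≤ V (x - e 1)
    · exact hn.sq0 hq hy h0 h1 h4
    exfalso
    rw [not_le] at h4
    -- `V (x - e 1) = exp (-2) * V (e 0 - e 1)`
    have h5 : V (x - e 1) = exp (-2 : ℤ) * V (e 0 - e 1) := by
      obtain ⟨m, hm⟩ := val_exp (V := V) h1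
      obtain ⟨n, hn'⟩ := val_exp (V := V) hn.ne01
      rw [hm, hn', ← exp_add, exp_lt_exp] at h3 h4
      rw [hm, hn', ← exp_add, exp_inj]
      omega
    -- `z = (x - e 0) (1 + δ / (x - e 1))` is a square
    have hz : (x - e 0) * (1 + (e 1 - e 2) / (x - e 1)) = (y / (x - e 1)) ^ 2 := by
      have e2 : x - e 2 = (x - e 1) + (e 1 - e 2) := by ring
      rw [e2] at hy
      field_simp
      linear_combination -hy
    have hV1 : V (x - e 1) ≠ 0 := (Valuation.ne_zero_iff _).2 h1
    have hd1 : V ((e 1 - e 2) / (x - e 1)) = exp (-2 : ℤ) := by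
      rw [map_div₀, hn.near, h5, mul_div_mul_right _ _ hV.ne', ← exp_sub]
      rfl
    have hc1 : V ((1 + (e 1 - e 2) / (x - e 1)) - 1) ≤ exp (-2 : ℤ) := by
      rw [add_sub_cancel_left]
      exact hd1.le
    have hsq : IsSquare ((x - e 0) * (1 + (e 1 - e 2) / (x - e 1))) :=
      ⟨y / (x - e 1), by rw [hz, pow_two]⟩
    rcases hn.far with hA | hB
    · have hVD := one_of_close (V := V) (by norm_num) hA
      rw [hVD, mul_one] at h5
      refine hq.not_sq ?_ hsq
      have hx0 : V (-(x - e 0) - 1) ≤ exp (-2 : ℤ) := by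
        have e3 : -(x - e 0) - 1 = (e 0 - e 1 - 1) - (x - e 1) := by ring
        rw [e3]
        exact Valuation.map_sub_le _ hA h5.le
      have h6 := close_mul (by norm_num) hx0 hc1
      have e4 : (x - e 0) * (1 + (e 1 - e 2) / (x - e 1)) + 1 =
          -(-(x - e 0) * (1 + (e 1 - e 2) / (x - e 1)) - 1) := by ring
      rw [e4, Valuation.map_neg]
      exact h6
    · refine odd_not_sq (V := V) ?_ hsq
      have h7 : V (1 + (e 1 - e 2) / (x - e 1)) = 1 := one_of_close (by norm_num) hc1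
      rw [map_mul, h7, mul_one, e0, Valuation.map_add_eq_of_lt_left, Valuation.map_sub_swap, hB]
      rw [Valuation.map_sub_swap V (e 1) (e 0), h5]
      calc exp (-2 : ℤ) * V (e 0 - e 1) < 1 * V (e 0 - e 1) :=
            mul_lt_mul_of_pos_right (Tam2_lt (by norm_num)) hV
        _ = V (e 0 - e 1) := one_mul _

end

/-! ### the index -/

/-- the group of the square classes -/
def SqL (L : Type*) [Field L] : Type _ := Additive (Lˣ ⧸ (powMonoidHom 2 : Lˣ →* Lˣ).range)

noncomputable instance (L : Type*) [Field L] : AddCommGroup (SqL L) :=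
  inferInstanceAs (AddCommGroup (Additive (Lˣ ⧸ (powMonoidHom 2 : Lˣ →* Lˣ).range)))

/-- the square class -/
noncomputable def sqc (L : Type*) [Field L] : Lˣ →* Multiplicative (SqL L) where
  toFun u := Multiplicative.ofAdd (Additive.ofMul (QuotientGroup.mk u))
  map_one' := rfl
  map_mul' _ _ := rfl

theorem sqc_one_iff {L : Type*} [Field L] (u : Lˣ) : sqc L u = 1 ↔ IsSquare (u : L) := by
  have h1 : sqc L u = 1 ↔ (QuotientGroup.mk u : Lˣ ⧸ (powMonoidHom 2 : Lˣ →* Lˣ).range) = 1 :=
    Iff.rfl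
  rw [h1, QuotientGroup.eq_one_iff]
  constructor
  · rintro ⟨w, rfl⟩
    exact ⟨(w : L), by rw [powMonoidHom_apply, Units.val_pow_eq_pow_val, pow_two]⟩
  · rintro ⟨w, hw⟩
    have hw0 : w ≠ 0 := by
      rintro rfl
      rw [mul_zero] at hw
      exact u.ne_zero hw
    exact ⟨Units.mk0 w hw0, Units.ext (by rw [powMonoidHom_apply, Units.val_pow_eq_pow_val,
      Units.val_mk0, hw, pow_two])⟩

theorem sqc_sq {L : Type*} [Field L] (u : Lˣ) : sqc L (u ^ 2) = 1 := by
  rw [sqc_one_iff]
  exact ⟨(u : L), by rw [Units.val_pow_eq_pow_val, pow_two]⟩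

theorem exists_kcl {L : Type*} [Field L] [CharZero L] {e : Fin 3 → L} {W : Affine L}
    (he : Function.Injective e) (hW : W = cw e) :
    ∃ f : W.Point →+ SqL L,
      ∀ P, f P = 0 ↔ IsSquare (kap e 0 P) :=
  ⟨kapHom he hW 0 (sqc L) sqc_sq, fun P => sqc_one_iff (Units.mk0 (kap e 0 P) (kap_ne he 0 P))⟩

/-- a homomorphism with two values and a parity -/
theorem index_pair' {G A : Type*} [AddCommGroup G] [AddCommGroup A] (f : G →+ A) (g : G →+ ZMod 2)
    (H : AddSubgroup G) (hH : H = f.ker ⊓ g.ker) {P Q : G} (h1 : f P = 0) (h2 : g P = 1)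
    (h3 : f Q ≠ 0) (h4 : ∀ x, f x = 0 ∨ f x = f Q) : H.index = 4 := by
  have hle : H ≤ f.ker := by
    rw [hH]
    exact inf_le_left
  rw [← AddSubgroup.relIndex_mul_index hle]
  have i1 : f.ker.index = 2 := by
    rw [AddSubgroup.index_ker, Nat.card_eq_two_iff]
    refine ⟨⟨0, zero_mem _⟩, ⟨f Q, ⟨Q, rfl⟩⟩, fun h => h3 (congrArg Subtype.val h).symm, ?_⟩
    ext ⟨y, x, hx⟩
    simp only [Set.mem_insert_iff, Set.mem_singleton_iff, Set.mem_univ, iff_true, Subtype.mk.injEq]
    rcases h4 x with h | h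
    · exact Or.inl (by rw [← hx, h])
    · exact Or.inr (by rw [← hx, h])
  have i2 : H.relIndex f.ker = 2 := by
    have e1 : H.addSubgroupOf f.ker = (g.comp f.ker.subtype).ker := by
      ext x
      rw [AddSubgroup.mem_addSubgroupOf, hH, AddSubgroup.mem_inf]
      constructor
      · rintro ⟨-, h⟩
        exact h
      · intro h
        exact ⟨x.2, h⟩
    have e2 : Function.Surjective (g.comp f.ker.subtype) := by
      intro z
      have h01 : ∀ z : ZMod 2, z = 0 ∨ z = 1 := by decide
      rcases h01 z with rfl | rfl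
      · exact ⟨0, map_zero _⟩
      · exact ⟨⟨P, h1⟩, h2⟩
    rw [AddSubgroup.relIndex, e1, AddSubgroup.index_ker, AddMonoidHom.range_eq_top.2 e2]
    have h6 : Nat.card (⊤ : AddSubgroup (ZMod 2)) = Nat.card (ZMod 2) :=
      Nat.card_congr AddSubgroup.topEquiv.toEquiv
    rw [h6, Nat.card_eq_fintype_card, ZMod.card]
  rw [i1, i2]

/-- **Types `I4*` and `I8*`** -/
theorem index_near {L : Type*} [Field L] [CharZero L] {V : Valuation L ℤᵐ⁰} (hq : Q2 V)
    {e : Fin 3 → L} (hn : Near V e) : (nsG V (cw e)).index = 4 := by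
  have he := hn.inj
  have hV : 0 < V (e 0 - e 1) := zero_lt_iff.2 ((Valuation.ne_zero_iff _).2 hn.ne01)
  have h2lt : V 2 < 1 := by
    rw [hq.two]
    exact Tam2_lt (by norm_num)
  obtain ⟨f, f0⟩ := exists_kcl (W := (cw e).toAffine) he rfl
  have fQ : ∀ P, IsSquare ((e 1 - e 0) * kap e 0 P) → f P = f (tp he rfl 1) := by
    intro P hP
    have h1 : f (P + tp he rfl 1) = 0 := by
      rw [f0]
      obtain ⟨w, hw, h2⟩ := kap_add he rfl 0 P (tp he rfl 1)
      have h3 : kap e 0 (tp he rfl 1 : (cw e).toAffine.Point) = e 1 - e 0 :=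
        kap_tp' he rfl (by decide)
      obtain ⟨s, hs⟩ := hP
      have h4 := kap_ne he 0 P
      have h5 : e 1 - e 0 ≠ 0 := by
        rw [← h3]
        exact kap_ne he 0 _
      have hs0 : s ≠ 0 := by
        rintro rfl
        rw [mul_zero] at hs
        exact mul_ne_zero h5 h4 hs
      refine ⟨w / s, ?_⟩
      rw [h3] at h2
      have h6 : kap e 0 (P + tp he rfl 1) = w ^ 2 / (s * s) := by
        rw [← h2, ← hs]
        field_simp
      rw [h6]
      field_simp
    have h2 : ∀ z : (cw e).toAffine.Point, f z + f z = 0 := by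
      intro z
      have h3 : f (z + z) = 0 := by
        rw [f0]
        obtain ⟨w, hw, h4⟩ := kap_add he rfl 0 z z
        have h5 := kap_ne he 0 z
        refine ⟨w / kap e 0 z, ?_⟩
        field_simp
        linear_combination h4
      rw [← map_add]
      exact h3
    rw [map_add] at h1
    have h3 := h2 (tp he rfl 1)
    have h4 : f P = (f P + f (tp he rfl 1)) - (f (tp he rfl 1) + f (tp he rfl 1)) +
        f (tp he rfl 1) := by abel
    rw [h4, h1, h3]
    abel
  -- the values of the map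
  have hall : ∀ P, f P = 0 ∨ f P = f (tp he rfl 1) := by
    intro P
    rcases P with _ | ⟨x, y, h⟩
    · exact Or.inl (map_zero f)
    have hy := (eqn_iff rfl x y).1 h.1
    by_cases hx : x = e 0
    · left
      subst hx
      rw [f0, kap_some']
      exact hn.der0 hq
    · rcases hn.sq_or hq hy (sub_ne_zero.2 hx) with h1 | h1
      · left
        rw [f0, kap_some h hx]
        exact h1
      · right
        refine fQ _ ?_
        rw [kap_some h hx]
        exact h1
  have hQ : f (tp he rfl 1) ≠ 0 := by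
    rw [ne_eq, f0, kap_tp' he rfl (by decide)]
    exact hn.not_sq10 hq
  -- the derivative
  have hder : ∀ x : L, V x ≤ 1 → (V ((x - e 0) * (x - e 1) + (x - e 0) * (x - e 2) +
      (x - e 1) * (x - e 2)) = 1 ↔ V (x - e 1) = 1) := by
    intro x hx
    have hi : ∀ i, V (x - e i) ≤ 1 := fun i => Valuation.map_sub_le _ hx (hn.int i)
    have hd : V (e 1 - e 2) < 1 := by
      rw [hn.near]
      exact mul_lt_one_of_lt_of_le (Tam2_lt (by norm_num)) hn.le_one
    have e1 : (x - e 0) * (x - e 1) + (x - e 0) * (x - e 2) + (x - e 1) * (x - e 2) =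
        (x - e 1) ^ 2 + (2 * ((x - e 0) * (x - e 1)) + (e 1 - e 2) * ((x - e 0) + (x - e 1))) := by
      ring
    have h3 : V (2 * ((x - e 0) * (x - e 1)) + (e 1 - e 2) * ((x - e 0) + (x - e 1))) < 1 := by
      refine Valuation.map_add_lt _ ?_ ?_
      · rw [map_mul, map_mul]
        exact mul_lt_one_of_lt_of_le h2lt (mul_le_one' (hi 0) (hi 1))
      · rw [map_mul]
        exact mul_lt_one_of_lt_of_le hd (Valuation.map_add_le _ (hi 0) (hi 1))
    rw [e1]
    have h4 : V ((x - e 1) ^ 2) = 1 ↔ V (x - e 1) = 1 := by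
      rw [map_pow]
      exact ⟨fun h => (pow_eq_one_iff.1 h).resolve_right (by norm_num), fun h => by rw [h, one_pow]⟩
    rw [← h4]
    constructor
    · intro h5
      have e2 : (x - e 1) ^ 2 = ((x - e 1) ^ 2 + (2 * ((x - e 0) * (x - e 1)) +
          (e 1 - e 2) * ((x - e 0) + (x - e 1)))) - (2 * ((x - e 0) * (x - e 1)) +
          (e 1 - e 2) * ((x - e 0) + (x - e 1))) := by ring
      rw [e2, Valuation.map_sub_eq_of_lt_left, h5]
      rw [h5]
      exact h3
    · intro h5
      rw [Valuation.map_add_eq_of_lt_left, h5]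
      rw [h5]
      exact h3
  -- a point with the class `(1, odd)`
  obtain ⟨P, hP1, hP2⟩ : ∃ P : (cw e).toAffine.Point, f P = 0 ∧ pk V he rfl 1 P = 1 := by
    rcases hn.far with hA | hB
    · have hVD := one_of_close (V := V) (by norm_num) hA
      have h1D : V (1 + (e 0 - e 1)) = exp (-1 : ℤ) := by
        have e1 : 1 + (e 0 - e 1) = 2 + (e 0 - e 1 - 1) := by ring
        rw [e1, Valuation.map_add_eq_of_lt_left, hq.two]
        rw [hq.two]
        exact hA.trans_lt (exp_lt_exp.2 (by norm_num))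
      have h1D0 : 1 + (e 0 - e 1) ≠ 0 := by
        intro h
        rw [h, map_zero] at h1D
        exact exp_ne_zero h1D.symm
      obtain ⟨w, -, hw⟩ := hq.add_small (a := 1 + (e 0 - e 1)) (b := e 1 - e 2) h1D0 (by
        rw [hn.near, hVD, mul_one, h1D, ← exp_add]
        exact exp_le_exp.2 (by norm_num))
      have hxy : ((1 + (e 0 - e 1)) * w) ^ 2 =
          (e 0 + 1 - e 0) * (e 0 + 1 - e 1) * (e 0 + 1 - e 2) := by
        have e2 : e 0 + 1 - e 2 = (1 + (e 0 - e 1)) * w ^ 2 := by
          rw [← hw]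
          ring
        rw [e2]
        ring
      have hx0 : e 0 + 1 ≠ e 0 := fun h => one_ne_zero (add_eq_left.1 h)
      have hx1 : e 0 + 1 ≠ e 1 := by
        intro h
        apply h1D0
        linear_combination h
      refine ⟨Affine.Point.some (e 0 + 1) ((1 + (e 0 - e 1)) * w)
        ((nons_iff he rfl _ _).2 hxy), ?_, ?_⟩
      · rw [f0, kap_some _ hx0, add_sub_cancel_left]
        exact ⟨1, (mul_one 1).symm⟩
      · rw [pk_exp V he rfl 1 (n := -1)]
        · decide
        · rw [kap_some _ hx1]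
          have e3 : e 0 + 1 - e 1 = 1 + (e 0 - e 1) := by ring
          rw [e3]
          exact h1D
    · refine ⟨tp he rfl 0, ?_, ?_⟩
      · rw [f0, kap_tp]
        exact hn.der0 hq
      · rw [pk_exp V he rfl 1 (n := -1)]
        · decide
        · rw [kap_tp' he rfl (by decide)]
          exact hB
  refine index_pair' f (pk V he rfl 1) _ ?_ hP1 hP2 hQ hall
  refine le_antisymm ?_ ?_
  · rw [nsG, AddSubgroup.closure_le]
    intro P hP
    rcases hP with h0 | ⟨x, y, h, rfl, hcase⟩
    · rw [h0]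
      exact zero_mem _
    have hy := (eqn_iff rfl x y).1 h.1
    rw [SetLike.mem_coe, AddSubgroup.mem_inf, AddMonoidHom.mem_ker, AddMonoidHom.mem_ker]
    by_cases hx : 1 < V x
    · have hi : ∀ i, V (x - e i) = V x := fun i =>
        Valuation.map_sub_eq_of_lt_left _ ((hn.int i).trans_lt hx)
      have hx0 : ∀ i, x - e i ≠ 0 := by
        intro i h1
        have h2 := hi i
        rw [h1, map_zero] at h2
        rw [← h2] at hx
        exact absurd hx (not_lt.2 zero_le_one)
      have hs : IsSquare (x - e 0) := by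
        refine hn.sq0 hq hy (hx0 0) (hx0 1) ?_
        rw [hi 1]
        exact (mul_le_one' (Tam2_le (by norm_num)) hn.le_one).trans hx.le
      constructor
      · rw [f0, kap_some h (sub_ne_zero.1 (hx0 0))]
        exact hs
      · obtain ⟨n, hn'⟩ := val_exp (V := V) (hx0 1)
        rw [pk_exp V he rfl 1 (n := n) (by rw [kap_some h (sub_ne_zero.1 (hx0 1))]; exact hn')]
        obtain ⟨w, hw⟩ := hs
        have hw0 : w ≠ 0 := by
          rintro rfl
          rw [mul_zero] at hw
          exact hx0 0 hw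
        refine even_of_sq (V := V) hn' hw0 ?_
        rw [hi 1, ← hi 0, hw, map_mul, pow_two]
    · rw [not_lt] at hx
      have hi : ∀ i, V (x - e i) ≤ 1 := fun i => Valuation.map_sub_le _ hx (hn.int i)
      have h1 : V (x - e 1) = 1 := by
        rcases hcase with h1 | h1 | h1
        · exact absurd h1 (not_lt.2 hx)
        · rw [cw_two, map_mul] at h1
          have h2 : V y ≤ 1 := by
            have h3 := congrArg V hy
            rw [map_pow, map_mul, map_mul] at h3
            have h4 : V y ^ 2 ≤ 1 := by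
              rw [h3]
              exact mul_le_one' (mul_le_one' (hi 0) (hi 1)) (hi 2)
            exact (pow_le_one_iff_of_nonneg zero_le two_ne_zero).1 h4
          have h3 := mul_lt_one_of_lt_of_le h2lt h2
          rw [h1] at h3
          exact absurd h3 (lt_irrefl _)
        · rw [cw_der] at h1
          exact (hder x hx).1 h1
      have hx1 : x - e 1 ≠ 0 := by
        intro h2
        rw [h2, map_zero] at h1
        exact zero_ne_one h1
      constructor
      · by_cases hx0 : x = e 0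
        · subst hx0
          rw [f0, kap_some']
          exact hn.der0 hq
        · rw [f0, kap_some h hx0]
          refine hn.sq0 hq hy (sub_ne_zero.2 hx0) hx1 ?_
          rw [h1]
          exact mul_le_one' (Tam2_le (by norm_num)) hn.le_one
      · rw [pk_exp V he rfl 1 (n := 0) (by
          rw [kap_some h (sub_ne_zero.1 hx1), exp_zero]; exact h1), Int.cast_zero]
  · intro P hP
    rw [AddSubgroup.mem_inf, AddMonoidHom.mem_ker, AddMonoidHom.mem_ker, f0] at hP
    obtain ⟨p0, p1⟩ := hP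
    refine AddSubgroup.subset_closure ?_
    rcases P with _ | ⟨x, y, h⟩
    · exact Or.inl rfl
    refine Or.inr ⟨x, y, h, rfl, ?_⟩
    by_cases hx : 1 < V x
    · exact Or.inl hx
    rw [not_lt] at hx
    right; right
    rw [cw_der]
    by_contra hc
    rw [hder x hx] at hc
    have h1 : V (x - e 1) < 1 := lt_of_le_of_ne (Valuation.map_sub_le _ hx (hn.int 1)) hc
    by_cases hx1 : x = e 1
    · subst hx1
      have n10 : e 1 ≠ e 0 := fun h' => absurd (he h') (by decide)
      rw [kap_some h n10] at p0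
      exact hn.not_sq10 hq p0
    obtain ⟨n, hn'⟩ := val_exp (V := V) (sub_ne_zero.2 hx1)
    rw [pk_exp V he rfl 1 (n := n) (by rw [kap_some h hx1]; exact hn')] at p1
    obtain ⟨m, rfl⟩ := zmod2_even p1
    have h2 : V (x - e 1) ≤ exp (-2 : ℤ) := by
      rw [hn', ← exp_zero, exp_lt_exp] at h1
      rw [hn', exp_le_exp]
      omega
    rcases hn.far with hA | hB
    · have h3 : V ((x - e 0) + 1) ≤ exp (-2 : ℤ) := by
        have e1 : x - e 0 + 1 = (x - e 1) - (e 0 - e 1 - 1) := by ring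
        rw [e1]
        exact Valuation.map_sub_le _ h2 hA
      have hx0 : x ≠ e 0 := by
        rintro rfl
        rw [sub_self, zero_add, map_one] at h3
        exact absurd h3 (not_le.2 (Tam2_lt (by norm_num)))
      rw [kap_some h hx0] at p0
      exact hq.not_sq h3 p0
    · have h3 : V (x - e 0) = exp (-1 : ℤ) := by
        have e1 : x - e 0 = (e 1 - e 0) + (x - e 1) := by ring
        rw [e1, Valuation.map_add_eq_of_lt_left, Valuation.map_sub_swap, hB]
        rw [Valuation.map_sub_swap V (e 1) (e 0), hB]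
        exact h2.trans_lt (exp_lt_exp.2 (by norm_num))
      have hx0 : x ≠ e 0 := by
        rintro rfl
        rw [sub_self, map_zero] at h3
        exact exp_ne_zero h3.symm
      rw [kap_some h hx0] at p0
      exact odd_not_sq h3 p0

end Pool.Agent.Lib.MP_1a91b9_ntV.C
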