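import Pool.Agent.Lib.MP_1a91b9_ntV.C.TamM

/-!
# Curves with full 2-torsion: the factors of the norm of the period
-/

set_option autoImplicit false

namespace Pool.Agent.Lib.MP_1a91b9_ntV.C

open NumberField IsDedekindDomain WithZero WeierstrassCurve
open Pool.Agent.Lib.MP_1a91b9_ntT.S9 (tam minModel minChange minModel_isMinimal normFactor)
open Pool.Agent.Lib.MP_1a91b9_ntH.C.TamT (Itg)
open scoped Classical

variable {N : Type*} [Field N] [NumberField N] {v : HeightOneSpectrum (𝓞 N)}

/-- the scaling factor of the change to the minimal model, for a minimal equation -/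
theorem v_minChange (W : WeierstrassCurve N)
    (hI : ∃ I : WeierstrassCurve (v.adicCompletionIntegers N),
      W.baseChange (v.adicCompletion N) = I.baseChange (v.adicCompletion N))
    (hΔ : W.Δ ≠ 0)
    (hH : NoDown (Valued.v : Valuation (v.adicCompletion N) ℤᵐ⁰) (W.baseChange (v.adicCompletion N))) :
    Valued.v ((minChange W v).u : v.adicCompletion N) = (1 : ℤᵐ⁰) := by
  have hΔ' : (W.baseChange (v.adicCompletion N)).Δ ≠ 0 := by
    rw [WeierstrassCurve.baseChange, WeierstrassCurve.map_Δ]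
    exact fun h => hΔ ((map_eq_zero_iff _ (algebraMap N (v.adicCompletion N)).injective).1 h)
  exact unit_gen _ hI hΔ' hH _ (minModel_isMinimal W v)

/-- the scaling factor of the change to the minimal model, for good reduction -/
theorem v_minChange_good (W : WeierstrassCurve N) (C : VariableChange (v.adicCompletion N))
    (hI : ∃ I : WeierstrassCurve (v.adicCompletionIntegers N),
      C • W.baseChange (v.adicCompletion N) = I.baseChange (v.adicCompletion N))
    (hΔ : Valued.v (C • W.baseChange (v.adicCompletion N)).Δ = (1 : ℤᵐ⁰)) :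
    Valued.v ((minChange W v).u : v.adicCompletion N) = (Valued.v (C.u : v.adicCompletion N) : ℤᵐ⁰) := by
  have hm := minModel_isMinimal W v
  obtain ⟨I, hI'⟩ := hI
  have e1 : minModel W v = (minChange W v * C⁻¹) • (C • W.baseChange (v.adicCompletion N)) := by
    rw [← mul_smul, inv_mul_cancel_right]
    rfl
  rw [e1] at hm
  have h1 := (Pool.Agent.Lib.MP_1a91b9_ntT.CT.unit_min _ I hI' hΔ _ hm).2
  have e2 : (((minChange W v * C⁻¹).u : (v.adicCompletion N)ˣ) : v.adicCompletion N) =
      ((minChange W v).u : v.adicCompletion N) * (C.u : v.adicCompletion N)⁻¹ := by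
    simp [VariableChange.mul_def, VariableChange.inv_def]
  have hu0 : Valued.v (C.u : v.adicCompletion N) ≠ (0 : ℤᵐ⁰) :=
    (Valuation.ne_zero_iff _).2 C.u.ne_zero
  rw [e2, map_mul, map_inv₀] at h1
  exact (mul_inv_eq_one₀ hu0).1 h1

theorem normFactor_one (W : WeierstrassCurve N)
    (h : Valued.v ((minChange W v).u : v.adicCompletion N) = (1 : ℤᵐ⁰)) : normFactor W v = 1 := by
  rw [normFactor, h, log_one, neg_zero, zpow_zero]

theorem normFactor_exp (W : WeierstrassCurve N)
    (h : Valued.v ((minChange W v).u : v.adicCompletion N) = exp (-1 : ℤ)) :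
    normFactor W v = Ideal.absNorm v.asIdeal := by
  rw [normFactor, h, log_exp, neg_neg, zpow_one]

/-- integral models of `cw e` -/
theorem cw_model {e : Fin 3 → N} (hint : ∀ i, v.valuation N (e i) ≤ 1) :
    ∃ I : WeierstrassCurve (v.adicCompletionIntegers N),
      (cw e).baseChange (v.adicCompletion N) = I.baseChange (v.adicCompletion N) := by
  have hi : ∀ i, Valued.v (eb (v.adicCompletion N) e i) ≤ (1 : ℤᵐ⁰) := fun i => by
    rw [eb, valC]
    exact hint i
  have hsub : ∀ i, ∃ z : v.adicCompletionIntegers N,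
      algebraMap (v.adicCompletionIntegers N) (v.adicCompletion N) z = eb (v.adicCompletion N) e i :=
    fun i => ⟨⟨_, hi i⟩, rfl⟩
  choose z hz using hsub
  have e1 : (cw e).baseChange (v.adicCompletion N) = cw (eb (v.adicCompletion N) e) := cw_bc _ e
  refine ⟨⟨0, -(z 0 + z 1 + z 2), 0, z 0 * z 1 + z 0 * z 2 + z 1 * z 2, -(z 0 * z 1 * z 2)⟩, ?_⟩
  rw [e1]
  simp only [cw, WeierstrassCurve.baseChange, WeierstrassCurve.map, map_zero, map_neg, map_add,
    map_mul, hz]

/-- type `I0*` and good reduction prime to `2`: a discriminant of value `> exp (-12)` -/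
theorem normFactor_cw {e : Fin 3 → N} (he : Function.Injective e) (h2 : v.valuation N 2 = 1)
    (hint : ∀ i, v.valuation N (e i) ≤ 1)
    (hs : ∀ i j, i ≠ j → exp (-1 : ℤ) ≤ v.valuation N (e i - e j)) : normFactor (cw e) v = 1 := by
  have e1 : (cw e).baseChange (v.adicCompletion N) = cw (eb (v.adicCompletion N) e) := cw_bc _ e
  refine normFactor_one _ (v_minChange _ (cw_model hint) (cw_disc_ne he) ?_)
  rw [e1]
  refine noDown_of_disc ?_
  have hs' : ∀ i j, i ≠ j → exp (-1 : ℤ) ≤ Valued.v (eb (v.adicCompletion N) e i -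
      eb (v.adicCompletion N) e j) := fun i j hij => by
    rw [eb, eb, ← map_sub, valC]
    exact hs i j hij
  have h2' : Valued.v (2 : v.adicCompletion N) = (1 : ℤᵐ⁰) := by
    have h := valC v (2 : N)
    rw [map_ofNat] at h
    rw [h, h2]
  have e16 : (16 : v.adicCompletion N) = 2 ^ 4 := by norm_num
  rw [cw_disc, e16]
  simp only [map_mul, map_pow]
  rw [h2', one_pow, one_mul]
  have h3 : exp (-3 : ℤ) ≤ (Valued.v (eb (v.adicCompletion N) e 0 - eb (v.adicCompletion N) e 1) *
      Valued.v (eb (v.adicCompletion N) e 0 - eb (v.adicCompletion N) e 2) *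
      Valued.v (eb (v.adicCompletion N) e 1 - eb (v.adicCompletion N) e 2) : ℤᵐ⁰) := by
    have e3 : exp (-3 : ℤ) = exp (-1 : ℤ) * exp (-1 : ℤ) * exp (-1 : ℤ) := by
      rw [← exp_add, ← exp_add]
      rfl
    rw [e3]
    exact mul_le_mul' (mul_le_mul' (hs' 0 1 (by decide)) (hs' 0 2 (by decide))) (hs' 1 2 (by decide))
  refine lt_of_lt_of_le ?_ (pow_le_pow_left₀ zero_le h3 2)
  rw [← exp_nsmul, exp_lt_exp]
  norm_num

/-- types `I4*` and `I8*` -/
theorem normFactor_near {e : Fin 3 → N} (h2 : v.valuation N 2 = exp (-1 : ℤ))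
    (hr : ∀ x : 𝓞 N, x ∈ v.asIdeal ∨ x - 1 ∈ v.asIdeal) (hn : Near (v.valuation N) e) :
    normFactor (cw e) v = 1 := by
  have e1 : (cw e).baseChange (v.adicCompletion N) = cw (eb (v.adicCompletion N) e) := cw_bc _ e
  refine normFactor_one _ (v_minChange _ (cw_model hn.int) (cw_disc_ne hn.inj) ?_)
  rw [e1]
  refine noDown_near (q2_completion (v := v) h2 hr) ?_
  obtain ⟨i, j, k⟩ := hn
  refine ⟨fun m => ?_, ?_, ?_⟩
  · rw [eb, valC]
    exact i m
  · rw [eb, eb, eb, ← map_sub, ← map_sub, valC, valC]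
    exact j
  · rw [eb, eb, ← map_sub, ← map_one (algebraMap N (v.adicCompletion N)), ← map_sub, valC, valC]
    exact k

/-- good reduction above `2` -/
theorem normFactor_good_near {e : Fin 3 → N} (h2 : v.valuation N 2 = exp (-1 : ℤ))
    (hD : v.valuation N (e 0 - e 1 + 1) ≤ exp (-2 : ℤ))
    (hδ : v.valuation N (e 1 - e 2) = exp (-4 : ℤ)) :
    normFactor (cw e) v = Ideal.absNorm v.asIdeal := by
  obtain ⟨C, h3, h4, h5⟩ := good_near h2 hD hδ
  refine normFactor_exp _ ?_
  rw [v_minChange_good (cw e) C h3 h4, h5]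

end Pool.Agent.Lib.MP_1a91b9_ntV.C
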