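import Pool.Agent.Lib.MP_1a91b9_ntV.C.MainC
import Pool.Agent.Lib.MP_1a91b9_ntV.C.TamN

/-!
# The field `ℚ(√-7)`: the Tamagawa numbers and the minimal model
-/

set_option autoImplicit false
set_option linter.unusedSectionVars false
set_option linter.unusedVariables false

namespace Pool.Agent.Lib.MP_1a91b9_ntV.C

open NumberField Finset WithZero IsDedekindDomain
open Pool.Agent.Lib.MP_1a91b9_ntT.S9 (tam normFactor period)
open scoped Classical

noncomputable section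

variable {N : Type*} [Field N] [NumberField N]

namespace B7

variable (B : B7 N)

theorem a2_dvd {x : 𝓞 N} (h : 2 * B.r x = 0) : B.a ^ 2 ∣ x := by
  have h1 : B.r (2 * x) = 0 := by
    rw [RingHom.map_mul, map_ofNat]
    exact h
  rw [B.r_eq_zero] at h1
  obtain ⟨y, hy⟩ := h1
  have h2 : B.a ^ 2 ∣ B.b * x := by
    refine ⟨y, mul_left_cancel₀ B.a_ne ?_⟩
    rw [← B.ab] at hy
    linear_combination hy
  exact B.prime_a.pow_dvd_of_dvd_mul_left 2 B.a_not_dvd_b h2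

theorem nu_sub_one {x : 𝓞 N} (h1 : 4 * B.r x ≠ 0) (h2 : be8 (B.r x) = 0) :
    B.nu ((x : N) - 1) ≤ exp (-2 : ℤ) := by
  have h3 : 2 * B.r (x - 1) = 0 := by
    rw [RingHom.map_sub, RingHom.map_one]
    revert h1 h2
    generalize B.r x = t
    unfold be8
    revert t
    decide
  have h4 := (pv_le_pow (N := N) (x := x - 1) B.prime_a 2).2 (B.a2_dvd h3)
  have e : ((x - 1 : 𝓞 N) : N) = (x : N) - 1 := by push_cast; ring
  rw [e] at h4
  exact h4

theorem nu_add_one {x : 𝓞 N} (h1 : 4 * B.r x ≠ 0) (h2 : be8 (B.r x) = 1) :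
    B.nu ((x : N) + 1) ≤ exp (-2 : ℤ) := by
  have h3 : 2 * B.r (x + 1) = 0 := by
    rw [RingHom.map_add, RingHom.map_one]
    revert h1 h2
    generalize B.r x = t
    unfold be8
    revert t
    decide
  have h4 := (pv_le_pow (N := N) (x := x + 1) B.prime_a 2).2 (B.a2_dvd h3)
  have e : ((x + 1 : 𝓞 N) : N) = (x : N) + 1 := by push_cast; ring
  rw [e] at h4
  exact h4

theorem res_a (x : 𝓞 N) : x ∈ (pv B.a B.prime_a).asIdeal ∨ x - 1 ∈ (pv B.a B.prime_a).asIdeal := by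
  rcases B.a_dvd' x with h | h
  · exact Or.inl (Ideal.mem_span_singleton.2 h)
  · exact Or.inr (Ideal.mem_span_singleton.2 h)

theorem absNorm_a : Ideal.absNorm (pv B.a B.prime_a).asIdeal = 2 := by
  rw [Ideal.absNorm_apply, Submodule.cardQuot_apply]
  have h1 : ∀ x : 𝓞 N ⧸ (pv B.a B.prime_a).asIdeal, x = 0 ∨ x = 1 := by
    intro x
    obtain ⟨y, rfl⟩ := Ideal.Quotient.mk_surjective x
    rcases B.res_a y with h | h
    · exact Or.inl (Ideal.Quotient.eq_zero_iff_mem.2 h)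
    · right
      have h2 := Ideal.Quotient.eq_zero_iff_mem.2 h
      rw [RingHom.map_sub, RingHom.map_one, sub_eq_zero] at h2
      exact h2
  have h2 : (1 : 𝓞 N ⧸ (pv B.a B.prime_a).asIdeal) ≠ 0 := by
    intro h
    have h3 : (1 : 𝓞 N) ∈ (pv B.a B.prime_a).asIdeal := by
      rw [← Ideal.Quotient.eq_zero_iff_mem, RingHom.map_one]
      exact h
    exact B.not_isUnit_a (isUnit_of_dvd_one (Ideal.mem_span_singleton.1 h3))
  refine (Nat.card_eq_two_iff' (0 : 𝓞 N ⧸ (pv B.a B.prime_a).asIdeal)).2 ⟨1, h2, ?_⟩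
  intro y hy
  exact (h1 y).resolve_left hy

/-- the roots in another order -/
def sw (D t : N) : Fin 3 → N := ![-D, 0, -(D * t)]

theorem cw_sw (D t : N) : cw (sw D t) = cw (rt D t) := cw_swap (rt D t)

/-- the roots of the curve at the place `a` -/
theorem near_a {d : 𝓞 N} (h : (4 * B.r d ≠ 0 ∧ be8 (B.r d) = 0) ∨ B.nu (d : N) = exp (-1 : ℤ)) :
    Near B.nu (rt (d : N) ((B.b : N) ^ 4)) where
  int i := by
    have h1 : ∀ x : 𝓞 N, B.nu (x : N) ≤ 1 := val_le_one _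
    fin_cases i
    · show B.nu (rt _ _ 0) ≤ 1
      rw [rt0, map_zero]
      exact zero_le
    · show B.nu (rt _ _ 1) ≤ 1
      rw [rt1, Valuation.map_neg]
      exact h1 d
    · show B.nu (rt _ _ 2) ≤ 1
      rw [rt2, Valuation.map_neg, map_mul, map_pow, B.nu_b, one_pow, mul_one]
      exact h1 d
  near := by
    have h1 := B.a4_add_b4
    rw [rt0, rt1, rt2]
    have e : -(d : N) - -((d : N) * (B.b : N) ^ 4) = -((d : N) * (B.a : N) ^ 4) := by
      linear_combination (d : N) * h1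
    rw [e, Valuation.map_neg, map_mul, B.nu_a4, zero_sub, neg_neg, mul_comm]
  far := by
    rw [rt0, rt1, zero_sub, neg_neg]
    rcases h with ⟨h1, h2⟩ | h
    · exact Or.inl (B.nu_sub_one h1 h2)
    · exact Or.inr h

/-- the roots of the curve at the place `b` -/
theorem near_b {d : 𝓞 N} (h : (4 * B.symm.r d ≠ 0 ∧ be8 (B.symm.r d) = 1) ∨
    B.symm.nu (d : N) = exp (-1 : ℤ)) :
    Near B.symm.nu (sw (d : N) ((B.b : N) ^ 4)) where
  int i := by
    have h1 : ∀ x : 𝓞 N, B.symm.nu (x : N) ≤ 1 := val_le_one _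
    fin_cases i
    · show B.symm.nu (-(d : N)) ≤ 1
      rw [Valuation.map_neg]
      exact h1 d
    · show B.symm.nu 0 ≤ 1
      rw [map_zero]
      exact zero_le
    · show B.symm.nu (-((d : N) * (B.b : N) ^ 4)) ≤ 1
      have e : (d : N) * (B.b : N) ^ 4 = ((d * B.b ^ 4 : 𝓞 N) : N) := by push_cast; ring
      rw [Valuation.map_neg, e]
      exact h1 _
  near := by
    show B.symm.nu (0 - -((d : N) * (B.b : N) ^ 4)) = exp (-4 : ℤ) * B.symm.nu (-(d : N) - 0)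
    rw [zero_sub, neg_neg, sub_zero, Valuation.map_neg, map_mul, B.nu_b4, mul_comm]
  far := by
    show B.symm.nu (-(d : N) - 0 - 1) ≤ exp (-2 : ℤ) ∨ B.symm.nu (-(d : N) - 0) = exp (-1 : ℤ)
    rw [sub_zero]
    rcases h with ⟨h1, h2⟩ | h
    · left
      have e : -(d : N) - 1 = -((d : N) + 1) := by ring
      rw [e, Valuation.map_neg]
      exact B.symm.nu_add_one h1 h2
    · right
      rw [Valuation.map_neg]
      exact h

theorem two_a : (pv B.a B.prime_a).valuation N 2 = exp (-1 : ℤ) := B.nu_two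

/-- bad reduction at `a` -/
theorem tam_a_bad {d : 𝓞 N} (h : (4 * B.r d ≠ 0 ∧ be8 (B.r d) = 0) ∨ B.nu (d : N) = exp (-1 : ℤ)) :
    tam (cw (rt (d : N) ((B.b : N) ^ 4))) (pv B.a B.prime_a) = 4 ∧
      normFactor (cw (rt (d : N) ((B.b : N) ^ 4))) (pv B.a B.prime_a) = 1 :=
  ⟨tam_near B.two_a B.res_a (B.near_a h), normFactor_near B.two_a B.res_a (B.near_a h)⟩

/-- good reduction at `a` -/
theorem tam_a_good {d : 𝓞 N} (h1 : 4 * B.r d ≠ 0) (h2 : be8 (B.r d) = 1) :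
    tam (cw (rt (d : N) ((B.b : N) ^ 4))) (pv B.a B.prime_a) = 1 ∧
      normFactor (cw (rt (d : N) ((B.b : N) ^ 4))) (pv B.a B.prime_a) = 2 := by
  have h3 : (pv B.a B.prime_a).valuation N (rt (d : N) ((B.b : N) ^ 4) 0 -
      rt (d : N) ((B.b : N) ^ 4) 1 + 1) ≤ exp (-2 : ℤ) := by
    rw [rt0, rt1, zero_sub, neg_neg]
    exact B.nu_add_one h1 h2
  have h4 : (pv B.a B.prime_a).valuation N (rt (d : N) ((B.b : N) ^ 4) 1 -
      rt (d : N) ((B.b : N) ^ 4) 2) = exp (-4 : ℤ) := by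
    have h5 := B.a4_add_b4
    rw [rt1, rt2]
    have e : -(d : N) - -((d : N) * (B.b : N) ^ 4) = -((d : N) * (B.a : N) ^ 4) := by
      linear_combination (d : N) * h5
    have h6 : (pv B.a B.prime_a).valuation N (d : N) = 1 :=
      pv_one B.prime_a fun h => h1 (B.a_dvd.1 h)
    rw [e, Valuation.map_neg, map_mul, h6, one_mul]
    exact B.nu_a4
  refine ⟨tam_good_near B.two_a h3 h4, ?_⟩
  rw [normFactor_good_near B.two_a h3 h4, B.absNorm_a]
  norm_num

/-- bad reduction at `b` -/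
theorem tam_b_bad {d : 𝓞 N} (h : (4 * B.symm.r d ≠ 0 ∧ be8 (B.symm.r d) = 1) ∨
    B.symm.nu (d : N) = exp (-1 : ℤ)) :
    tam (cw (rt (d : N) ((B.b : N) ^ 4))) (pv B.b B.prime_b) = 4 ∧
      normFactor (cw (rt (d : N) ((B.b : N) ^ 4))) (pv B.b B.prime_b) = 1 := by
  rw [← cw_sw]
  exact ⟨tam_near B.symm.two_a B.symm.res_a (B.near_b h),
    normFactor_near B.symm.two_a B.symm.res_a (B.near_b h)⟩

/-- good reduction at `b` -/
theorem tam_b_good {d : 𝓞 N} (h1 : 4 * B.symm.r d ≠ 0) (h2 : be8 (B.symm.r d) = 0) :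
    tam (cw (rt (d : N) ((B.b : N) ^ 4))) (pv B.b B.prime_b) = 1 ∧
      normFactor (cw (rt (d : N) ((B.b : N) ^ 4))) (pv B.b B.prime_b) = 2 := by
  rw [← cw_sw]
  have h3 : (pv B.b B.prime_b).valuation N (sw (d : N) ((B.b : N) ^ 4) 0 -
      sw (d : N) ((B.b : N) ^ 4) 1 + 1) ≤ exp (-2 : ℤ) := by
    show B.symm.nu (-(d : N) - 0 + 1) ≤ exp (-2 : ℤ)
    have e : -(d : N) - 0 + 1 = -((d : N) - 1) := by ring
    rw [e, Valuation.map_neg]
    exact B.symm.nu_sub_one h1 h2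
  have h4 : (pv B.b B.prime_b).valuation N (sw (d : N) ((B.b : N) ^ 4) 1 -
      sw (d : N) ((B.b : N) ^ 4) 2) = exp (-4 : ℤ) := by
    show B.symm.nu (0 - -((d : N) * (B.b : N) ^ 4)) = exp (-4 : ℤ)
    have h6 : B.symm.nu (d : N) = 1 := B.symm.nu_O fun h => h1 (B.symm.a_dvd.1 h)
    rw [zero_sub, neg_neg, map_mul, h6, one_mul, B.nu_b4]
  refine ⟨tam_good_near B.symm.two_a h3 h4, ?_⟩
  have h5 := normFactor_good_near B.symm.two_a h3 h4
  rw [B.symm.absNorm_a] at h5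
  have h6 : ((2 : ℕ) : ℝ) = 2 := by norm_num
  rw [h6] at h5
  exact h5

end B7

namespace Gens

variable {B : B7 N} {ι : Type} [DecidableEq ι] (G : Gens B ι)

/-- products over all places -/
theorem finprod_places {M : Type*} [CommMonoid M] (f : HeightOneSpectrum (𝓞 N) → M) (S : Finset ι)
    (h : ∀ (π : 𝓞 N) (hπ : Prime π), ¬ π ∣ B.a → ¬ π ∣ B.b → (∀ i ∈ S, ¬ π ∣ G.q i) →
      f (pv π hπ) = 1) :
    ∏ᶠ v, f v = f (pv B.a B.prime_a) * (f (pv B.b B.prime_b) *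
      ∏ i ∈ S, f (pv (G.q i) (G.prime i))) := by
  have hpid := B.pid
  obtain ⟨g, hg⟩ : ∃ g : ι → HeightOneSpectrum (𝓞 N), ∀ i, g i = pv (G.q i) (G.prime i) :=
    ⟨_, fun i => rfl⟩
  have hmem : ∀ {π π' : 𝓞 N} (hπ : Prime π) (hπ' : Prime π'), pv π hπ = pv π' hπ' → π ∣ π' := by
    intro π π' hπ hπ' he
    have h1 : π' ∈ (pv π hπ).asIdeal := by
      rw [he]
      exact Ideal.mem_span_singleton_self π'
    exact Ideal.mem_span_singleton.1 h1
  have hsup : Function.mulSupport f ⊆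
      ((insert (pv B.a B.prime_a) (insert (pv B.b B.prime_b) (S.image g)) : Finset _) : Set _) := by
    intro v hv
    obtain ⟨π, hπ, rfl⟩ := exists_pv v
    rw [mem_coe, mem_insert, mem_insert, mem_image]
    by_cases h1 : π ∣ B.a
    · exact Or.inl (pv_eq hπ B.prime_a h1)
    by_cases h2 : π ∣ B.b
    · exact Or.inr (Or.inl (pv_eq hπ B.prime_b h2))
    by_cases h3 : ∃ i ∈ S, π ∣ G.q i
    · obtain ⟨i, hi, hd⟩ := h3
      exact Or.inr (Or.inr ⟨i, hi, by rw [hg, pv_eq hπ (G.prime i) hd]⟩)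
    · push Not at h3
      exact absurd (h π hπ h1 h2 h3) hv
  rw [finprod_eq_prod_of_mulSupport_subset f hsup, prod_insert, prod_insert, prod_image]
  · rw [prod_congr rfl fun i _ => by rw [hg i]]
  · intro i _ j _ hij
    by_contra hne
    rw [hg, hg] at hij
    exact G.ne i j hne (hmem _ _ hij)
  · intro h1
    obtain ⟨i, hi, hd⟩ := mem_image.1 h1
    rw [hg] at hd
    exact G.q_not_b i (hmem _ _ hd)
  · intro h1
    rcases mem_insert.1 h1 with h2 | h2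
    · exact B.a_not_dvd_b (hmem _ _ h2)
    · obtain ⟨i, hi, hd⟩ := mem_image.1 h2
      rw [hg] at hd
      exact G.q_not_a i (hmem _ _ hd)

/-- good reduction at `a` -/
def Ga (d0 d1 d2 : ZMod 2) : Prop := d1 = 0 ∧ d0 + 1 + d2 = 0

/-- good reduction at `b` -/
def Gb (S : Finset ι) (d0 d1 d2 : ZMod 2) : Prop := d2 = 0 ∧ d0 + d1 + ∑ i ∈ S, G.a i = 0

/-- the number of places above `2` of bad reduction -/
def bet (S : Finset ι) (d0 d1 d2 : ZMod 2) : ℕ :=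
  (if Ga d0 d1 d2 then 0 else 1) + if G.Gb S d0 d1 d2 then 0 else 1

theorem val_one' : ((1 : ZMod 2)).val = 1 := rfl

theorem tam_a (S : Finset ι) (d0 d1 d2 : ZMod 2) {D : N}
    (hDe : D = ((G.el S d0 d1 d2 (fun _ => 1) : 𝓞 N) : N)) :
    tam (cw (rt D ((B.b : N) ^ 4))) (pv B.a B.prime_a) = (if Ga d0 d1 d2 then 1 else 4) ∧
      normFactor (cw (rt D ((B.b : N) ^ 4))) (pv B.a B.prime_a) =
        (if Ga d0 d1 d2 then 2 else 1) := by
  rw [hDe]
  rcases (by decide : ∀ t : ZMod 2, t = 0 ∨ t = 1) d1 with rfl | rfl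
  · obtain ⟨h1, h2, -⟩ := G.bits_el S d0 d2 (fun _ => 1)
    by_cases hg : Ga d0 0 d2
    · rw [if_pos hg, if_pos hg]
      refine B.tam_a_good h1 ?_
      rw [h2]
      exact (by decide : ∀ s t : ZMod 2, s + 1 + t = 0 → s + t = 1) _ _ hg.2
    · rw [if_neg hg, if_neg hg]
      refine B.tam_a_bad (Or.inl ⟨h1, ?_⟩)
      rw [h2]
      have h3 : d0 + 1 + d2 ≠ 0 := fun h => hg ⟨rfl, h⟩
      exact (by decide : ∀ s t : ZMod 2, s + 1 + t ≠ 0 → s + t = 0) _ _ h3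
  · have hg : ¬ Ga d0 1 d2 := fun h => absurd h.1 (by decide)
    rw [if_neg hg, if_neg hg]
    refine B.tam_a_bad (Or.inr ?_)
    rw [G.nu_el, val_one', pow_one]

theorem tam_b (S : Finset ι) (d0 d1 d2 : ZMod 2) {D : N}
    (hDe : D = ((G.el S d0 d1 d2 (fun _ => 1) : 𝓞 N) : N)) :
    tam (cw (rt D ((B.b : N) ^ 4))) (pv B.b B.prime_b) = (if G.Gb S d0 d1 d2 then 1 else 4) ∧
      normFactor (cw (rt D ((B.b : N) ^ 4))) (pv B.b B.prime_b) =
        (if G.Gb S d0 d1 d2 then 2 else 1) := by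
  rw [hDe]
  rcases (by decide : ∀ t : ZMod 2, t = 0 ∨ t = 1) d2 with rfl | rfl
  · obtain ⟨h1, h2, -⟩ := G.bits_el' S d0 d1 (fun _ => 1)
    have h4 : ∑ i ∈ S, 1 * G.a i = ∑ i ∈ S, G.a i := sum_congr rfl fun i _ => one_mul _
    rw [h4] at h2
    by_cases hg : G.Gb S d0 d1 0
    · rw [if_pos hg, if_pos hg]
      refine B.tam_b_good h1 ?_
      rw [h2]
      exact hg.2
    · rw [if_neg hg, if_neg hg]
      refine B.tam_b_bad (Or.inl ⟨h1, ?_⟩)
      rw [h2]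
      exact (by decide : ∀ s : ZMod 2, s ≠ 0 → s = 1) _ fun h => hg ⟨rfl, h⟩
  · have hg : ¬ G.Gb S d0 d1 1 := fun h => absurd h.1 (by decide)
    rw [if_neg hg, if_neg hg]
    refine B.tam_b_bad (Or.inr ?_)
    rw [G.nu_el', val_one', pow_one]

theorem pair_val {v : Valuation N ℤᵐ⁰} {D a b : N} (ha : v a = 1) (hb : v b = 1)
    (hab : a ^ 4 + b ^ 4 = 1) (i j : Fin 3) (hij : i ≠ j) :
    v (rt D (b ^ 4) i - rt D (b ^ 4) j) = v D := by
  have h01 : v (rt D (b ^ 4) 0 - rt D (b ^ 4) 1) = v D := by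
    rw [rt0, rt1, zero_sub, neg_neg]
  have h02 : v (rt D (b ^ 4) 0 - rt D (b ^ 4) 2) = v D := by
    rw [rt0, rt2, zero_sub, neg_neg, map_mul, map_pow, hb, one_pow, mul_one]
  have h12 : v (rt D (b ^ 4) 1 - rt D (b ^ 4) 2) = v D := by
    rw [rt1, rt2]
    have e : -D - -(D * b ^ 4) = -(D * a ^ 4) := by linear_combination D * hab
    rw [e, Valuation.map_neg, map_mul, map_pow, ha, one_pow, mul_one]
  fin_cases i <;> fin_cases j
  · exact absurd rfl hij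
  · exact h01
  · exact h02
  · exact (Valuation.map_sub_swap _ _ _).trans h01
  · exact absurd rfl hij
  · exact h12
  · exact (Valuation.map_sub_swap _ _ _).trans h02
  · exact (Valuation.map_sub_swap _ _ _).trans h12
  · exact absurd rfl hij

theorem rt_int (v : HeightOneSpectrum (𝓞 N)) (S : Finset ι) (d0 d1 d2 : ZMod 2) {D : N}
    (hDe : D = ((G.el S d0 d1 d2 (fun _ => 1) : 𝓞 N) : N)) (i : Fin 3) :
    v.valuation N (rt D ((B.b : N) ^ 4) i) ≤ 1 := by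
  fin_cases i
  · show v.valuation N 0 ≤ 1
    rw [map_zero]
    exact zero_le
  · show v.valuation N (-D) ≤ 1
    rw [Valuation.map_neg, hDe]
    exact val_le_one v _
  · show v.valuation N (-(D * (B.b : N) ^ 4)) ≤ 1
    have e : D * (B.b : N) ^ 4 = ((G.el S d0 d1 d2 (fun _ => 1) * B.b ^ 4 : 𝓞 N) : N) := by
      rw [hDe]
      push_cast
      ring
    rw [Valuation.map_neg, e]
    exact val_le_one v _

theorem two_val {π : 𝓞 N} (hπ : Prime π) (h1 : ¬ π ∣ B.a) (h2 : ¬ π ∣ B.b) :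
    (pv π hπ).valuation N 2 = 1 := by
  have h2n : ¬ π ∣ 2 := by
    rw [← B.ab]
    exact fun h => (hπ.dvd_or_dvd h).elim h1 h2
  have h := pv_one (N := N) hπ h2n
  have e : ((2 : 𝓞 N) : N) = 2 := map_ofNat (algebraMap (𝓞 N) N) 2
  rwa [e] at h

theorem tam_q {S : Finset ι} {i : ι} (hi : i ∈ S) (d0 d1 d2 : ZMod 2) {D : N}
    (hDe : D = ((G.el S d0 d1 d2 (fun _ => 1) : 𝓞 N) : N)) :
    tam (cw (rt D ((B.b : N) ^ 4))) (pv (G.q i) (G.prime i)) = 4 ∧
      normFactor (cw (rt D ((B.b : N) ^ 4))) (pv (G.q i) (G.prime i)) = 1 := by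
  have hD0 : D ≠ 0 := by
    rw [hDe]
    exact coe_ne (G.el_ne S _ _ _ _)
  have h2 := two_val (G.prime i) (G.q_not_a i) (G.q_not_b i)
  have hint := G.rt_int (pv (G.q i) (G.prime i)) S d0 d1 d2 hDe
  have hs : ∀ k j : Fin 3, k ≠ j → (pv (G.q i) (G.prime i)).valuation N
      (rt D ((B.b : N) ^ 4) k - rt D ((B.b : N) ^ 4) j) = exp (-1 : ℤ) := by
    intro k j hkj
    rw [pair_val (pv_one (G.prime i) (G.q_not_a i)) (pv_one (G.prime i) (G.q_not_b i))
      B.a4_add_b4 k j hkj, hDe, G.nu_q_el hi, val_one', pow_one]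
  refine ⟨tam_I0 h2 hint hs, normFactor_cw (rt_inj' B hD0) h2 hint fun k j hkj => ?_⟩
  rw [hs k j hkj]

theorem tam_else {π : 𝓞 N} (hπ : Prime π) (h1 : ¬ π ∣ B.a) (h2 : ¬ π ∣ B.b) (S : Finset ι)
    (h3 : ∀ i ∈ S, ¬ π ∣ G.q i) (d0 d1 d2 : ZMod 2) {D : N}
    (hDe : D = ((G.el S d0 d1 d2 (fun _ => 1) : 𝓞 N) : N)) :
    tam (cw (rt D ((B.b : N) ^ 4))) (pv π hπ) = 1 ∧
      normFactor (cw (rt D ((B.b : N) ^ 4))) (pv π hπ) = 1 := by
  have hD0 : D ≠ 0 := by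
    rw [hDe]
    exact coe_ne (G.el_ne S _ _ _ _)
  have h2v := two_val hπ h1 h2
  have hint := G.rt_int (pv π hπ) S d0 d1 d2 hDe
  have hD1 : (pv π hπ).valuation N D = 1 := by
    rw [hDe]
    apply pv_one
    unfold el
    intro h
    rcases hπ.dvd_or_dvd h with h5 | h5
    · rcases hπ.dvd_or_dvd h5 with h6 | h6
      · rcases hπ.dvd_or_dvd h6 with h7 | h7
        · exact hπ.not_isUnit (isUnit_of_dvd_unit h7 ((isUnit_one.neg).pow _))
        · exact h1 (hπ.dvd_of_dvd_pow h7)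
      · exact h2 (hπ.dvd_of_dvd_pow h6)
    · exact not_dvd_gpr hπ h3 _ h5
  have hs : ∀ k j : Fin 3, k ≠ j → (pv π hπ).valuation N
      (rt D ((B.b : N) ^ 4) k - rt D ((B.b : N) ^ 4) j) = 1 := by
    intro k j hkj
    rw [pair_val (pv_one hπ h1) (pv_one hπ h2) B.a4_add_b4 k j hkj, hD1]
  refine ⟨tam_unit_cw h2v hint hs, normFactor_cw (rt_inj' B hD0) h2v hint fun k j hkj => ?_⟩
  rw [hs k j hkj, ← exp_zero, exp_le_exp]
  norm_num

/-- **The product of the Tamagawa numbers.** -/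
theorem prod_tam (S : Finset ι) (d0 d1 d2 : ZMod 2) {D : N}
    (hDe : D = ((G.el S d0 d1 d2 (fun _ => 1) : 𝓞 N) : N)) {W : WeierstrassCurve N}
    (hW : W = cw (rt D ((B.b : N) ^ 4))) :
    ∏ᶠ v : HeightOneSpectrum (𝓞 N), tam W v = 4 ^ (#S + G.bet S d0 d1 d2) := by
  rw [hW, G.finprod_places _ S fun π hπ h1 h2 h3 => (G.tam_else hπ h1 h2 S h3 d0 d1 d2 hDe).1,
    (G.tam_a S d0 d1 d2 hDe).1, (G.tam_b S d0 d1 d2 hDe).1,
    prod_congr rfl fun i hi => (G.tam_q hi d0 d1 d2 hDe).1, prod_const]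
  unfold bet
  split_ifs <;> ring

/-- **The norm of the ideal of the Neron differentials.** -/
theorem prod_nf (S : Finset ι) (d0 d1 d2 : ZMod 2) {D : N}
    (hDe : D = ((G.el S d0 d1 d2 (fun _ => 1) : 𝓞 N) : N)) {W : WeierstrassCurve N}
    (hW : W = cw (rt D ((B.b : N) ^ 4))) :
    (∏ᶠ v : HeightOneSpectrum (𝓞 N), normFactor W v) * 2 ^ G.bet S d0 d1 d2 = 4 := by
  rw [hW, G.finprod_places _ S fun π hπ h1 h2 h3 => (G.tam_else hπ h1 h2 S h3 d0 d1 d2 hDe).2,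
    (G.tam_a S d0 d1 d2 hDe).2, (G.tam_b S d0 d1 d2 hDe).2,
    prod_congr rfl fun i hi => (G.tam_q hi d0 d1 d2 hDe).2, prod_const, one_pow]
  unfold bet
  split_ifs <;> norm_num

end Gens

end

end Pool.Agent.Lib.MP_1a91b9_ntV.C
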