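import Pool.Agent.Lib.MP_1a91b9_ntH.C.TamT
import Pool.Agent.Lib.MP_1a91b9_ntT.CT.Lb
import Pool.Agent.Lib.MP_1a91b9_ntV.C.Kap

/-!
# Tamagawa numbers: transport from the minimal model of the definition to a given minimal equation
-/

set_option autoImplicit false

namespace Pool.Agent.Lib.MP_1a91b9_ntV.C

open NumberField IsDedekindDomain WithZero WeierstrassCurve
open Pool.Agent.Lib.MP_1a91b9_ntT.S9 (tam nonsing minModel minChange minModel_isMinimal)
open Pool.Agent.Lib.MP_1a91b9_ntT.CT (min_int min_le ns_unit)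
open Pool.Agent.Lib.MP_1a91b9_ntH.C (nsSet nsG tam_def)
open Pool.Agent.Lib.MP_1a91b9_ntH.C.TamT (Itg index_smul Itg_bc)
open scoped Classical

section

variable {L : Type*} [Field L] {V : Valuation L ℤᵐ⁰}

theorem TamG_int {z : L} : z ∈ V.integer ↔ V z ≤ 1 := Valuation.mem_integer_iff _ _

/-- a root of a monic quadratic polynomial with integral coefficients -/
theorem TamG_quad {s a c : L} (ha : V a ≤ 1) (hc : V c ≤ 1) (h : s ^ 2 + a * s = c) : V s ≤ 1 := by
  by_contra hs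
  rw [not_le] at hs
  have hs0 : s ≠ 0 := by
    rintro rfl
    rw [map_zero] at hs
    exact absurd hs (not_lt.2 zero_le_one)
  have hi : V s⁻¹ ≤ 1 := by
    rw [map_inv₀]
    exact inv_le_one_of_one_le₀ hs.le
  have e : s = c * s⁻¹ - a := by
    field_simp
    linear_combination h
  have : s ∈ V.integer := by
    rw [e]
    exact sub_mem (mul_mem (TamG_int.2 hc) (TamG_int.2 hi)) (TamG_int.2 ha)
  exact absurd (TamG_int.1 this) (not_le.2 hs)

/-- a root of a monic quartic polynomial with integral coefficients -/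
theorem TamG_quart {r a b c : L} (ha : V a ≤ 1) (hb : V b ≤ 1) (hc : V c ≤ 1)
    (h : r ^ 4 = a * r ^ 2 + b * r + c) : V r ≤ 1 := by
  by_contra hs
  rw [not_le] at hs
  have hs0 : r ≠ 0 := by
    rintro rfl
    rw [map_zero] at hs
    exact absurd hs (not_lt.2 zero_le_one)
  have hi : V r⁻¹ ≤ 1 := by
    rw [map_inv₀]
    exact inv_le_one_of_one_le₀ hs.le
  have e : r = a * r⁻¹ + b * r⁻¹ ^ 2 + c * r⁻¹ ^ 3 := by
    field_simp
    linear_combination h
  have : r ∈ V.integer := by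
    rw [e]
    exact add_mem (add_mem (mul_mem (TamG_int.2 ha) (TamG_int.2 hi))
      (mul_mem (TamG_int.2 hb) (pow_mem (TamG_int.2 hi) 2)))
      (mul_mem (TamG_int.2 hc) (pow_mem (TamG_int.2 hi) 3))
  exact absurd (TamG_int.1 this) (not_le.2 hs)

theorem Itg.b {W : WeierstrassCurve L} (hW : Itg V W) :
    V W.b₂ ≤ 1 ∧ V W.b₄ ≤ 1 ∧ V W.b₆ ≤ 1 ∧ V W.b₈ ≤ 1 := by
  have m1 := TamG_int.2 hW.a1
  have m2 := TamG_int.2 hW.a2
  have m3 := TamG_int.2 hW.a3
  have m4 := TamG_int.2 hW.a4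
  have m6 := TamG_int.2 hW.a6
  have n2 : (2 : L) ∈ V.integer := ofNat_mem _ 2
  have n4 : (4 : L) ∈ V.integer := ofNat_mem _ 4
  refine ⟨TamG_int.1 ?_, TamG_int.1 ?_, TamG_int.1 ?_, TamG_int.1 ?_⟩
  · exact add_mem (pow_mem m1 2) (mul_mem n4 m2)
  · exact add_mem (mul_mem n2 m4) (mul_mem m1 m3)
  · exact add_mem (pow_mem m3 2) (mul_mem n4 m6)
  · exact sub_mem (add_mem (sub_mem (add_mem (mul_mem (pow_mem m1 2) m6) (mul_mem (mul_mem n4 m2) m6))
      (mul_mem (mul_mem m1 m3) m4)) (mul_mem m2 (pow_mem m3 2))) (pow_mem m4 2)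

theorem Itg.disc {W : WeierstrassCurve L} (hW : Itg V W) : V W.Δ ≤ 1 := by
  obtain ⟨h2, h4, h6, h8⟩ := Itg.b hW
  have m2 := TamG_int.2 h2
  have m4 := TamG_int.2 h4
  have m6 := TamG_int.2 h6
  have m8 := TamG_int.2 h8
  exact TamG_int.1 (add_mem (sub_mem (sub_mem (mul_mem (neg_mem (pow_mem m2 2)) m8)
    (mul_mem (ofNat_mem _ 8) (pow_mem m4 3))) (mul_mem (ofNat_mem _ 27) (pow_mem m6 2)))
    (mul_mem (mul_mem (mul_mem (ofNat_mem _ 9) m2) m4) m6))

/-- the change of variables between two integral equations is integral if the scaling factor is a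
unit -/
theorem coef_gen {W : WeierstrassCurve L} {C : VariableChange L} (hW : Itg V W)
    (hM : Itg V (C • W)) (hu : V (C.u : L) = 1) : V C.r ≤ 1 ∧ V C.s ≤ 1 ∧ V C.t ≤ 1 := by
  have hu0 : (C.u : L) ≠ 0 := C.u.ne_zero
  have hui : ((C.u⁻¹ : Lˣ) : L) = (C.u : L)⁻¹ := by simp
  obtain ⟨b2, b4, b6, b8⟩ := Itg.b hW
  obtain ⟨-, -, c6, c8⟩ := Itg.b hM
  have mu : (C.u : L) ∈ V.integer := TamG_int.2 hu.le
  have i2 : V (2 : L) ≤ 1 := TamG_int.1 (ofNat_mem _ 2)
  have i3 : V (3 : L) ≤ 1 := TamG_int.1 (ofNat_mem _ 3)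
  have hr : V C.r ≤ 1 := by
    refine TamG_quart (a := W.b₄) (b := 2 * W.b₆ + (C.u : L) ^ 6 * (C • W).b₆)
      (c := W.b₈ - (C.u : L) ^ 8 * (C • W).b₈) b4 ?_ ?_ ?_
    · exact TamG_int.1 (add_mem (mul_mem (TamG_int.2 i2) (TamG_int.2 b6))
        (mul_mem (pow_mem mu 6) (TamG_int.2 c6)))
    · exact TamG_int.1 (sub_mem (TamG_int.2 b8) (mul_mem (pow_mem mu 8) (TamG_int.2 c8)))
    · rw [variableChange_b₆, variableChange_b₈, hui]
      field_simp
      ring
  have mr := TamG_int.2 hr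
  have m1 := TamG_int.2 hW.a1
  have m2 := TamG_int.2 hW.a2
  have m3 := TamG_int.2 hW.a3
  have m4 := TamG_int.2 hW.a4
  have m6 := TamG_int.2 hW.a6
  refine ⟨hr, ?_, ?_⟩
  · refine TamG_quad (a := W.a₁) (c := W.a₂ + 3 * C.r - (C.u : L) ^ 2 * (C • W).a₂) hW.a1 ?_ ?_
    · exact TamG_int.1 (sub_mem (add_mem m2 (mul_mem (TamG_int.2 i3) mr))
        (mul_mem (pow_mem mu 2) (TamG_int.2 hM.a2)))
    · rw [variableChange_a₂, hui]
      field_simp
      ring
  · refine TamG_quad (a := W.a₃ + C.r * W.a₁)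
      (c := W.a₆ + C.r * W.a₄ + C.r ^ 2 * W.a₂ + C.r ^ 3 - (C.u : L) ^ 6 * (C • W).a₆) ?_ ?_ ?_
    · exact TamG_int.1 (add_mem m3 (mul_mem mr m1))
    · exact TamG_int.1 (sub_mem (add_mem (add_mem (add_mem m6 (mul_mem mr m4))
        (mul_mem (pow_mem mr 2) m2)) (pow_mem mr 3)) (mul_mem (pow_mem mu 6) (TamG_int.2 hM.a6)))
    · rw [variableChange_a₆, hui]
      field_simp
      ring

/-- no change of variables with a scaling factor in the maximal ideal gives an integral equation -/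
def NoDown (V : Valuation L ℤᵐ⁰) (W : WeierstrassCurve L) : Prop :=
  ∀ C : VariableChange L, Itg V (C • W) → ¬ V (C.u : L) < 1

/-- a discriminant of value `> exp (-12)` -/
theorem noDown_of_disc {W : WeierstrassCurve L} (h : exp (-12 : ℤ) < V W.Δ) : NoDown V W := by
  intro C hC hu
  have h1 := Itg.disc hC
  rw [variableChange_Δ, Units.val_inv_eq_inv_val, map_mul, map_pow, map_inv₀] at h1
  obtain ⟨g, hg⟩ : ∃ g : ℤᵐ⁰, g = V (C.u : L) := ⟨_, rfl⟩
  have hg0 : g ≠ 0 := by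
    rw [hg]
    exact (Valuation.ne_zero_iff _).2 C.u.ne_zero
  rw [← hg] at hu h1
  rw [inv_pow, inv_mul_le_iff₀ (pow_pos (zero_lt_iff.2 hg0) 12), mul_one] at h1
  have h2 := h.trans_le h1
  rw [← exp_log hg0] at hu h2
  rw [← exp_nsmul, exp_lt_exp] at h2
  rw [← exp_zero, exp_lt_exp] at hu
  simp only [nsmul_eq_mul, Nat.cast_ofNat] at h2
  omega

/-- the property does not change under a change of variables with scaling factor `1` -/
theorem NoDown.smul {W : WeierstrassCurve L} {C : VariableChange L} (hu : V (C.u : L) = 1)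
    (h : NoDown V (C • W)) : NoDown V W := by
  intro D hD hlt
  refine h (D * C⁻¹) ?_ ?_
  · rw [← mul_smul, inv_mul_cancel_right]
    exact hD
  · have e1 : (((D * C⁻¹).u : Lˣ) : L) = (D.u : L) * (C.u : L)⁻¹ := by
      simp [VariableChange.mul_def, VariableChange.inv_def]
    rw [e1, map_mul, map_inv₀, hu, inv_one, mul_one]
    exact hlt

end

section

variable {N : Type*} [Field N] [NumberField N] {v : HeightOneSpectrum (𝓞 N)}

/-- the scaling factor of a change to a minimal equation -/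
theorem unit_gen (W₀ : WeierstrassCurve (v.adicCompletion N))
    (hI : ∃ I : WeierstrassCurve (v.adicCompletionIntegers N), W₀ = I.baseChange (v.adicCompletion N))
    (hΔ : W₀.Δ ≠ 0) (hH : NoDown (Valued.v : Valuation (v.adicCompletion N) ℤᵐ⁰) W₀)
    (C : VariableChange (v.adicCompletion N)) (hm : IsMinimal (v.adicCompletionIntegers N) (C • W₀)) :
    Valued.v (C.u : v.adicCompletion N) = (1 : ℤᵐ⁰) := by
  obtain ⟨I, hI⟩ := hI
  have h2 := min_le W₀ I hI C hm
  have h3 := hH C (Itg_bc (min_int _ hm))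
  refine le_antisymm ?_ (not_lt.1 h3)
  rw [variableChange_Δ, Units.val_inv_eq_inv_val, map_mul, map_pow, map_inv₀] at h2
  have hD0 : (0 : ℤᵐ⁰) < Valued.v W₀.Δ := zero_lt_iff.2 ((Valuation.ne_zero_iff _).2 hΔ)
  obtain ⟨g, hg⟩ : ∃ g : ℤᵐ⁰, g = Valued.v (C.u : v.adicCompletion N) := ⟨_, rfl⟩
  have hg0 : g ≠ 0 := by
    rw [hg]
    exact (Valuation.ne_zero_iff _).2 C.u.ne_zero
  rw [← hg] at h2 ⊢
  have h5 : 1 ≤ g⁻¹ ^ 12 := le_of_mul_le_mul_right (by rwa [one_mul]) hD0
  rw [inv_pow] at h5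
  have h6 := (one_le_inv₀ (pow_pos (zero_lt_iff.2 hg0) 12)).1 h5
  exact (pow_le_one_iff_of_nonneg zero_le (by norm_num)).1 h6

/-- **Transport of the Tamagawa number** to a given minimal equation. -/
theorem tam_gen (W : WeierstrassCurve N)
    (hI : ∃ I : WeierstrassCurve (v.adicCompletionIntegers N),
      W.baseChange (v.adicCompletion N) = I.baseChange (v.adicCompletion N))
    (hΔ : W.Δ ≠ 0)
    (hH : NoDown (Valued.v : Valuation (v.adicCompletion N) ℤᵐ⁰) (W.baseChange (v.adicCompletion N))) :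
    tam W v = (nsG (Valued.v : Valuation (v.adicCompletion N) ℤᵐ⁰)
      (W.baseChange (v.adicCompletion N))).index := by
  rw [tam_def]
  have hm := minModel_isMinimal W v
  unfold minModel at hm ⊢
  generalize minChange W v = C at hm ⊢
  have hΔ' : (W.baseChange (v.adicCompletion N)).Δ ≠ 0 := by
    rw [WeierstrassCurve.baseChange, WeierstrassCurve.map_Δ]
    exact fun h => hΔ ((map_eq_zero_iff _ (algebraMap N (v.adicCompletion N)).injective).1 h)
  have hu := unit_gen _ hI hΔ' hH C hm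
  have hM := Itg_bc (min_int _ hm)
  obtain ⟨hr, hs, -⟩ := coef_gen (Itg_bc hI) hM hu
  exact index_smul hM hu hr hs

/-- **Good reduction**: the Tamagawa number is `1`. -/
theorem tam_good_gen (W : WeierstrassCurve N) (C : VariableChange (v.adicCompletion N))
    (hI : ∃ I : WeierstrassCurve (v.adicCompletionIntegers N),
      C • W.baseChange (v.adicCompletion N) = I.baseChange (v.adicCompletion N))
    (hΔ : Valued.v (C • W.baseChange (v.adicCompletion N)).Δ = (1 : ℤᵐ⁰)) : tam W v = 1 := by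
  have hm := minModel_isMinimal W v
  have hn : nonsing W v = Pool.Agent.Lib.MP_1a91b9_ntT.CT.ns (minModel W v) := rfl
  rw [tam, hn]
  obtain ⟨I, hI'⟩ := hI
  have e1 : minModel W v = (minChange W v * C⁻¹) • (C • W.baseChange (v.adicCompletion N)) := by
    rw [← mul_smul, inv_mul_cancel_right]
    rfl
  rw [e1] at hm ⊢
  have h1 := (Pool.Agent.Lib.MP_1a91b9_ntT.CT.unit_min _ I hI' hΔ _ hm).1
  obtain ⟨J, hJ⟩ := min_int _ hm
  rw [ns_unit _ J hJ h1]
  exact AddSubgroup.index_top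

end

end Pool.Agent.Lib.MP_1a91b9_ntV.C
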