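import Pool.Agent.Lib.MP_1a91b9_ntV.C.TamG

/-!
# Tamagawa numbers of curves with full 2-torsion: the index of the points with non-singular reduction
-/

set_option autoImplicit false

namespace Pool.Agent.Lib.MP_1a91b9_ntV.C

open WithZero WeierstrassCurve
open Pool.Agent.Lib.MP_1a91b9_ntH.C (nsSet nsG)
open Pool.Agent.Lib.MP_1a91b9_ntH.C.TamT (Itg)
open scoped Classical

section

variable {L : Type*} [Field L] (V : Valuation L ℤᵐ⁰)

/-- The parity of the order. -/
noncomputable def par : Lˣ →* Multiplicative (ZMod 2) where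
  toFun u := Multiplicative.ofAdd ((WithZero.log (V (u : L)) : ℤ) : ZMod 2)
  map_one' := by simp
  map_mul' a b := by
    have ha : V (a : L) ≠ 0 := (Valuation.ne_zero_iff _).2 a.ne_zero
    have hb : V (b : L) ≠ 0 := (Valuation.ne_zero_iff _).2 b.ne_zero
    rw [Units.val_mul, map_mul, WithZero.log_mul ha hb, Int.cast_add, ofAdd_add]

theorem par_sq (u : Lˣ) : par V (u ^ 2) = 1 := by
  have h2 : ∀ x : ZMod 2, x + x = 0 := by decide
  have h : ∀ x : Multiplicative (ZMod 2), x * x = 1 := fun x => congrArg Multiplicative.ofAdd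
    (h2 (Multiplicative.toAdd x))
  rw [map_pow, pow_two]
  exact h _

variable {e : Fin 3 → L} {W : Affine L}

/-- The parity of the order of `x - e i`. -/
noncomputable def pk [CharZero L] (he : Function.Injective e) (hW : W = cw e) (i : Fin 3) :
    W.Point →+ ZMod 2 := kapHom he hW i (par V) (par_sq V)

theorem pk_apply [CharZero L] (he : Function.Injective e) (hW : W = cw e) (i : Fin 3)
    (P : W.Point) : pk V he hW i P = ((WithZero.log (V (kap e i P)) : ℤ) : ZMod 2) := rfl

theorem pk_exp [CharZero L] (he : Function.Injective e) (hW : W = cw e) (i : Fin 3)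
    {P : W.Point} {n : ℤ} (h : V (kap e i P) = exp n) : pk V he hW i P = (n : ZMod 2) := by
  rw [pk_apply, h, log_exp]

variable {V}

theorem val_exp {z : L} (hz : z ≠ 0) : ∃ n : ℤ, V z = exp n :=
  ⟨WithZero.log (V z), (exp_log ((Valuation.ne_zero_iff _).2 hz)).symm⟩

theorem even_of_sq {z w : L} {n : ℤ} (hz : V z = exp n) (hw : w ≠ 0) (h : V z = V w ^ 2) :
    (n : ZMod 2) = 0 := by
  obtain ⟨m, hm⟩ := val_exp (V := V) hw
  rw [hz, hm, ← exp_nsmul, exp_inj] at h
  rw [h]
  simp only [nsmul_eq_mul, Nat.cast_ofNat, Int.cast_mul, Int.cast_ofNat]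
  have h2 : (2 : ZMod 2) = 0 := rfl
  rw [h2, zero_mul]

theorem zmod2_even {n : ℤ} (h : (n : ZMod 2) = 0) : ∃ m : ℤ, n = 2 * m :=
  (ZMod.intCast_zmod_eq_zero_iff_dvd n 2).1 h

theorem cw_der (e : Fin 3 → L) (x y : L) : 3 * x ^ 2 + 2 * (cw e).a₂ * x + (cw e).a₄ - (cw e).a₁ * y =
    (x - e 0) * (x - e 1) + (x - e 0) * (x - e 2) + (x - e 1) * (x - e 2) := by
  simp only [cw]
  ring

theorem cw_two (e : Fin 3 → L) (x y : L) : 2 * y + (cw e).a₁ * x + (cw e).a₃ = 2 * y := by
  simp only [cw]
  ring

theorem cw_itg {e : Fin 3 → L} (hint : ∀ i, V (e i) ≤ 1) : Itg V (cw e) := by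
  have h : ∀ i, e i ∈ V.integer := fun i => TamG_int.2 (hint i)
  refine ⟨?_, ?_, ?_, ?_, ?_⟩
  · change V 0 ≤ 1
    rw [map_zero]
    exact zero_le
  · exact TamG_int.1 (neg_mem (add_mem (add_mem (h 0) (h 1)) (h 2)))
  · change V 0 ≤ 1
    rw [map_zero]
    exact zero_le
  · exact TamG_int.1 (add_mem (add_mem (mul_mem (h 0) (h 1)) (mul_mem (h 0) (h 2)))
      (mul_mem (h 1) (h 2)))
  · exact TamG_int.1 (neg_mem (mul_mem (mul_mem (h 0) (h 1)) (h 2)))

theorem exp_neg_lt : exp (-1 : ℤ) < (1 : ℤᵐ⁰) := by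
  rw [← exp_zero, exp_lt_exp]
  norm_num

theorem lt_exp {a : ℤᵐ⁰} {n : ℤ} (h : a < exp n) : a ≤ exp (n - 1) := by
  rcases eq_or_ne a 0 with rfl | h0
  · exact zero_le
  obtain ⟨m, rfl⟩ : ∃ m : ℤ, a = exp m := ⟨WithZero.log a, (WithZero.exp_log h0).symm⟩
  rw [WithZero.exp_lt_exp] at h
  rw [WithZero.exp_le_exp]
  omega

theorem lt_one_exp {a : ℤᵐ⁰} (h : a < 1) : a ≤ exp (-1 : ℤ) := by
  rw [← exp_zero] at h
  exact lt_exp h

/-- two characters with values in `ZMod 2` which are independent -/
theorem index_pair {G : Type*} [AddCommGroup G] (f g : G →+ ZMod 2) (H : AddSubgroup G)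
    (hH : H = f.ker ⊓ g.ker) {P Q : G} (h1 : f P = 0) (h2 : g P = 1) (h3 : f Q = 1) :
    H.index = 4 := by
  have h4 : H = (f.prod g).ker := by
    rw [hH]
    ext x
    simp only [AddSubgroup.mem_inf, AddMonoidHom.mem_ker, AddMonoidHom.prod_apply, Prod.mk_eq_zero]
  have h5 : Function.Surjective (f.prod g) := by
    rintro ⟨a, b⟩
    have h01 : ∀ z : ZMod 2, z = 0 ∨ z = 1 := by decide
    rcases h01 a with rfl | rfl <;> rcases h01 b with rfl | rfl
    · exact ⟨0, map_zero _⟩
    · exact ⟨P, Prod.ext h1 h2⟩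
    · rcases h01 (g Q) with h | h
      · exact ⟨Q, Prod.ext h3 h⟩
      · refine ⟨P + Q, ?_⟩
        rw [map_add]
        refine Prod.ext ?_ ?_
        · change f P + f Q = 1
          rw [h1, h3, zero_add]
        · change g P + g Q = 0
          rw [h2, h]
          decide
    · rcases h01 (g Q) with h | h
      · refine ⟨P + Q, ?_⟩
        rw [map_add]
        refine Prod.ext ?_ ?_
        · change f P + f Q = 1
          rw [h1, h3, zero_add]
        · change g P + g Q = 1
          rw [h2, h, add_zero]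
      · exact ⟨Q, Prod.ext h3 h⟩
  rw [h4, AddSubgroup.index_ker, AddMonoidHom.range_eq_top.2 h5]
  have h6 : Nat.card (⊤ : AddSubgroup (ZMod 2 × ZMod 2)) = Nat.card (ZMod 2 × ZMod 2) :=
    Nat.card_congr AddSubgroup.topEquiv.toEquiv
  rw [h6, Nat.card_prod, Nat.card_eq_fintype_card, ZMod.card]

end

/-- **Type `I0*`**: the roots are congruent modulo the prime ideal and not modulo its square. -/
theorem index_I0 {L : Type*} [Field L] [CharZero L] {V : Valuation L ℤᵐ⁰} (h2 : V 2 = 1)
    {e : Fin 3 → L} (hint : ∀ i, V (e i) ≤ 1) (hs : ∀ i j, i ≠ j → V (e i - e j) = exp (-1 : ℤ)) :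
    (nsG V (cw e)).index = 4 := by
  have he : Function.Injective e := by
    intro i j hij
    by_contra hne
    have h := hs i j hne
    rw [hij, sub_self, map_zero] at h
    exact exp_ne_zero h.symm
  have hle : ∀ i j, V (e i - e j) ≤ exp (-1 : ℤ) := by
    intro i j
    by_cases h : i = j
    · rw [h, sub_self, map_zero]
      exact zero_le
    · exact (hs i j h).le
  -- the value `≥ 1` does not depend on the root
  have hroot : ∀ (x : L) (i j : Fin 3), 1 ≤ V (x - e i) → V (x - e j) = V (x - e i) := by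
    intro x i j h
    have e1 : x - e j = (x - e i) + (e i - e j) := by ring
    rw [e1]
    refine Valuation.map_add_eq_of_lt_left V ?_
    exact (hle i j).trans_lt (exp_neg_lt.trans_le h)
  have hroot' : ∀ (x : L) (i j : Fin 3), V (x - e i) < 1 → V (x - e j) < 1 := by
    intro x i j h
    by_contra hc
    rw [not_lt] at hc
    have h1 := hroot x j i hc
    rw [h1] at h
    exact absurd hc (not_le.2 h)
  -- the generating set
  have hset : ∀ (x y : L) (h : (cw e).toAffine.Nonsingular x y), 1 ≤ V (x - e 0) →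
      Affine.Point.some x y h ∈ nsSet V (cw e) := by
    intro x y h hx
    refine Or.inr ⟨x, y, h, rfl, ?_⟩
    by_cases hx1 : 1 < V x
    · exact Or.inl hx1
    right; left
    rw [not_lt] at hx1
    have h1 : V (x - e 0) = 1 :=
      le_antisymm ((Valuation.map_sub _ _ _).trans (max_le hx1 (hint 0))) hx
    have hy := congrArg V ((eqn_iff rfl x y).1 h.1)
    rw [map_pow, map_mul, map_mul, hroot x 0 1 hx, hroot x 0 2 hx, h1, mul_one, mul_one] at hy
    rw [cw_two, map_mul, h2, one_mul]
    exact (pow_eq_one_iff.1 hy).resolve_right (by norm_num)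
  have hset' : ∀ (x y : L) (h : (cw e).toAffine.Nonsingular x y),
      Affine.Point.some x y h ∈ nsSet V (cw e) → 1 ≤ V (x - e 0) := by
    intro x y h hP
    rcases hP with h0 | ⟨x', y', h', hxy, hcase⟩
    · exact absurd h0 (Affine.Point.some_ne_zero _)
    obtain ⟨rfl, rfl⟩ := (Affine.Point.some.injEq ..).mp hxy
    by_contra hlt
    rw [not_le] at hlt
    have hl : ∀ i, V (x - e i) < 1 := fun i => hroot' x 0 i hlt
    have hx1 : V x ≤ 1 := by
      have e1 : x = (x - e 0) + e 0 := by ring
      rw [e1]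
      exact (Valuation.map_add _ _ _).trans (max_le hlt.le (hint 0))
    rcases hcase with h1 | h1 | h1
    · exact absurd h1 (not_lt.2 hx1)
    · rw [cw_two, map_mul, h2, one_mul] at h1
      have hy := congrArg V ((eqn_iff rfl x y).1 h.1)
      rw [map_pow, h1, one_pow, map_mul, map_mul] at hy
      have h4 : V (x - e 0) * V (x - e 1) * V (x - e 2) < 1 :=
        mul_lt_one_of_lt_of_le (mul_lt_one_of_lt_of_le (hl 0) (hl 1).le) (hl 2).le
      rw [← hy] at h4
      exact lt_irrefl _ h4
    · rw [cw_der] at h1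
      have h4 : V ((x - e 0) * (x - e 1) + (x - e 0) * (x - e 2) + (x - e 1) * (x - e 2)) < 1 := by
        refine Valuation.map_add_lt _ (Valuation.map_add_lt _ ?_ ?_) ?_ <;> rw [map_mul]
        · exact mul_lt_one_of_lt_of_le (hl 0) (hl 1).le
        · exact mul_lt_one_of_lt_of_le (hl 0) (hl 2).le
        · exact mul_lt_one_of_lt_of_le (hl 1) (hl 2).le
      rw [h1] at h4
      exact lt_irrefl _ h4
  have kT : ∀ i j, j ≠ i → pk V he rfl i (tp he rfl j) = 1 := by
    intro i j hij
    have h3 : V (kap e i (tp he rfl j : (cw e).toAffine.Point)) = exp (-1 : ℤ) := by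
      rw [kap_tp' he rfl hij]
      exact hs j i hij
    rw [pk_exp V he rfl i h3]
    decide
  refine index_pair (pk V he rfl 0) (pk V he rfl 1) _ ?_ (P := tp he rfl 0) (Q := tp he rfl 1)
    ?_ (kT 1 0 (by decide)) (kT 0 1 (by decide))
  · refine le_antisymm ?_ ?_
    · rw [nsG, AddSubgroup.closure_le]
      intro P hP
      rcases P with _ | ⟨x, y, h⟩
      · exact zero_mem _
      have h1 := hset' x y h hP
      have hx : ∀ i, x ≠ e i := by
        rintro i rfl
        have h3 := hroot (e i) 0 i h1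
        rw [sub_self, map_zero] at h3
        rw [← h3] at h1
        exact absurd h1 (not_le.2 zero_lt_one)
      obtain ⟨n, hn⟩ := val_exp (V := V) (sub_ne_zero.2 (hx 0))
      have hy := congrArg V ((eqn_iff rfl x y).1 h.1)
      rw [map_pow, map_mul, map_mul, hroot x 0 1 h1, hroot x 0 2 h1] at hy
      have hV0 : V (x - e 0) ≠ 0 := (Valuation.ne_zero_iff _).2 (sub_ne_zero.2 (hx 0))
      have hy0 : y ≠ 0 := by
        rintro rfl
        rw [map_zero, zero_pow two_ne_zero] at hy
        exact mul_ne_zero (mul_ne_zero hV0 hV0) hV0 hy.symm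
      have hn0 : (n : ZMod 2) = 0 := by
        refine even_of_sq (V := V) hn (w := y / (x - e 0)) (div_ne_zero hy0 (sub_ne_zero.2 (hx 0))) ?_
        rw [map_div₀, div_pow, hy]
        field_simp
      rw [SetLike.mem_coe, AddSubgroup.mem_inf, AddMonoidHom.mem_ker, AddMonoidHom.mem_ker]
      constructor
      · rw [pk_exp V he rfl 0 (n := n) (by rw [kap_some h (hx 0)]; exact hn)]
        exact hn0
      · rw [pk_exp V he rfl 1 (n := n) (by rw [kap_some h (hx 1), hroot x 0 1 h1]; exact hn)]
        exact hn0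
    · intro P hP
      rw [AddSubgroup.mem_inf, AddMonoidHom.mem_ker, AddMonoidHom.mem_ker] at hP
      obtain ⟨p0, p1⟩ := hP
      refine AddSubgroup.subset_closure ?_
      rcases P with _ | ⟨x, y, h⟩
      · exact Or.inl rfl
      refine hset x y h ?_
      by_contra hlt
      rw [not_le] at hlt
      have hl : ∀ i, V (x - e i) < 1 := fun i => hroot' x 0 i hlt
      by_cases hx : ∃ i, x = e i
      · obtain ⟨i, hi⟩ := hx
        have e1 : Affine.Point.some x y h = tp he rfl i := by
          rw [tp, Affine.Point.some.injEq]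
          refine ⟨hi, ?_⟩
          have hy := (eqn_iff rfl _ y).1 h.1
          rw [(root_iff x).2 ⟨i, hi⟩] at hy
          exact pow_eq_zero_iff two_ne_zero |>.1 hy
        rw [e1] at p0 p1
        by_cases hi0 : i = 0
        · rw [kT 1 i (by rw [hi0]; decide)] at p1
          exact one_ne_zero p1
        · rw [kT 0 i hi0] at p0
          exact one_ne_zero p0
      · rw [not_exists] at hx
        have hk : ∀ i, pk V he rfl i (Affine.Point.some x y h) = 0 → V (x - e i) ≤ exp (-2 : ℤ) := by
          intro i hp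
          obtain ⟨n, hn⟩ := val_exp (V := V) (sub_ne_zero.2 (hx i))
          rw [pk_exp V he rfl i (n := n) (by rw [kap_some h (hx i)]; exact hn)] at hp
          obtain ⟨m, rfl⟩ := zmod2_even hp
          have h5 := hl i
          rw [hn, ← exp_zero, exp_lt_exp] at h5
          rw [hn, exp_le_exp]
          omega
        have h6 : V (e 0 - e 1) ≤ exp (-2 : ℤ) := by
          have e1 : e 0 - e 1 = (x - e 1) - (x - e 0) := by ring
          rw [e1]
          exact (Valuation.map_sub _ _ _).trans (max_le (hk 1 p1) (hk 0 p0))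
        rw [hs 0 1 (by decide), exp_le_exp] at h6
        norm_num at h6
  · have h3 : V (kap e 0 (tp he rfl 0 : (cw e).toAffine.Point)) = exp (-2 : ℤ) := by
      rw [kap_tp, der_zero, map_mul, hs 0 1 (by decide), hs 0 2 (by decide), ← exp_add]
      rfl
    rw [pk_exp V he rfl 0 h3]
    decide

end Pool.Agent.Lib.MP_1a91b9_ntV.C
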