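import Pool.Agent.Lib.MP_1a91b9_ntV.C.Tam7

/-!
# The field `ℚ(√-7)`: the 2-primary part of the torsion
-/

set_option autoImplicit false
set_option linter.unusedSectionVars false
set_option linter.unusedVariables false

namespace Pool.Agent.Lib.MP_1a91b9_ntV.C

open NumberField Finset WithZero IsDedekindDomain WeierstrassCurve
open scoped Classical

noncomputable section

/-- an abelian group without elements of order four -/
theorem card_primary {A : Type*} [AddCommGroup A] (h4 : ∀ x : A, 4 • x = 0 → 2 • x = 0)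
    {n : ℕ} (hn : Nat.card {x : A // x + x = 0} = n) :
    Nat.card (AddCommGroup.primaryComponent A 2) = n := by
  rw [← hn]
  refine Nat.card_congr (Equiv.subtypeEquivRight fun x => ?_)
  have key : ∀ j : ℕ, ∀ x : A, 2 ^ j • x = 0 → 2 • x = 0 := by
    intro j
    induction j with
    | zero =>
      intro x hx
      rw [pow_zero, one_smul] at hx
      rw [hx, smul_zero]
    | succ j ih =>
      intro x hx
      have h1 : 2 ^ j • (2 • x) = 0 := by rw [smul_smul, ← pow_succ, hx]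
      have h2 := ih _ h1
      rw [smul_smul] at h2
      exact h4 x h2
  constructor
  · rintro ⟨j, hj⟩
    rw [← two_smul ℕ]
    exact key j x hj
  · intro h
    refine ⟨1, ?_⟩
    rw [pow_one, two_smul]
    exact h

variable {N : Type*} [Field N] [NumberField N] {e : Fin 3 → N} {W : Affine N}

theorem card_two (he : Function.Injective e) (hW : W = cw e) :
    Nat.card {P : W.Point // P + P = 0} = 4 := by
  have hset : {P : W.Point | P + P = 0} = {0, tp he hW 0, tp he hW 1, tp he hW 2} := by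
    ext P
    show P + P = 0 ↔ _
    rw [two_zero_iff he hW]
    simp only [Set.mem_insert_iff, Set.mem_singleton_iff]
    constructor
    · rintro (h | ⟨i, h⟩)
      · exact Or.inl h
      · fin_cases i
        · exact Or.inr (Or.inl h)
        · exact Or.inr (Or.inr (Or.inl h))
        · exact Or.inr (Or.inr (Or.inr h))
    · rintro (h | h | h | h)
      · exact Or.inl h
      · exact Or.inr ⟨0, h⟩
      · exact Or.inr ⟨1, h⟩
      · exact Or.inr ⟨2, h⟩
  have hne : ∀ i j : Fin 3, i ≠ j → tp he hW i ≠ tp he hW j := by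
    intro i j hij h
    exact hij ((tp_inj he hW i j).1 h)
  have h0 : ∀ i : Fin 3, (0 : W.Point) ≠ tp he hW i := fun i h => tp_ne he hW i h.symm
  show Nat.card ({P : W.Point | P + P = 0} : Set W.Point) = 4
  rw [hset, Nat.card_coe_set_eq, Set.ncard_insert_of_notMem, Set.ncard_insert_of_notMem,
    Set.ncard_pair (hne 1 2 (by decide))]
  · simp only [Set.mem_insert_iff, Set.mem_singleton_iff, not_or]
    exact ⟨hne 0 1 (by decide), hne 0 2 (by decide)⟩
  · simp only [Set.mem_insert_iff, Set.mem_singleton_iff, not_or]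
    exact ⟨h0 0, h0 1, h0 2⟩

theorem no_four (he : Function.Injective e) (hW : W = cw e)
    (h4 : ∀ j : Fin 3, ∃ i, i ≠ j ∧ ¬ IsSquare (e j - e i)) (x : W.Point) (h : 4 • x = 0) :
    2 • x = 0 := by
  by_contra hne
  rw [two_smul] at hne
  have h5 : (x + x) + (x + x) = 0 := by
    rw [← h]
    abel
  rcases (two_zero_iff he hW (x + x)).1 h5 with h0 | ⟨j, hj⟩
  · exact hne h0
  · obtain ⟨i, -, hi⟩ := h4 j
    apply hi
    have hkey : sfn e i x ^ 2 = e j - e i := sfn_sq hW i x _ hj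
    exact ⟨_, by rw [← hkey, sq]⟩

namespace Gens

variable {B : B7 N} {ι : Type} [DecidableEq ι] (G : Gens B ι)

theorem not_sq (S : Finset ι) {d0 d1 d2 : ZMod 2}
    (hnd : ¬ ((∀ i, i ∉ S) ∧ d1 = 0 ∧ d2 = 0)) {D : N}
    (hDe : D = ((G.el S d0 d1 d2 (fun _ => 1) : 𝓞 N) : N)) :
    ¬ IsSquare D ∧ ¬ IsSquare (-D) ∧ ¬ IsSquare (-(D * (B.b : N) ^ 4)) := by
  have hbN : (B.b : N) ≠ 0 := coe_ne B.symm.a_ne
  have hDns : ¬ IsSquare D := by
    intro h
    rw [hDe] at h
    obtain ⟨-, h1, h2, h3⟩ := G.el_isSquare h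
    exact hnd ⟨fun i hi => absurd (h3 i hi) (by decide), h1, h2⟩
  have hDns' : ¬ IsSquare (-D) := by
    intro h
    have e : -D = ((G.el S (d0 + 1) d1 d2 (fun _ => 1) : 𝓞 N) : N) := by
      rw [hDe, ← G.neg_el]
      push_cast
      rfl
    rw [e] at h
    obtain ⟨-, h1, h2, h3⟩ := G.el_isSquare h
    exact hnd ⟨fun i hi => absurd (h3 i hi) (by decide), h1, h2⟩
  refine ⟨hDns, hDns', ?_⟩
  rintro ⟨r, hr⟩
  apply hDns'
  refine ⟨r / (B.b : N) ^ 2, ?_⟩
  field_simp
  linear_combination hr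

theorem no4 (S : Finset ι) {d0 d1 d2 : ZMod 2}
    (hnd : ¬ ((∀ i, i ∉ S) ∧ d1 = 0 ∧ d2 = 0)) {D : N}
    (hDe : D = ((G.el S d0 d1 d2 (fun _ => 1) : 𝓞 N) : N)) (j : Fin 3) :
    ∃ i, i ≠ j ∧ ¬ IsSquare (rt D ((B.b : N) ^ 4) j - rt D ((B.b : N) ^ 4) i) := by
  obtain ⟨h1, h2, h3⟩ := G.not_sq S hnd hDe
  fin_cases j
  · refine ⟨1, by decide, ?_⟩
    show ¬ IsSquare (rt D ((B.b : N) ^ 4) 0 - rt D ((B.b : N) ^ 4) 1)
    rw [rt0, rt1, zero_sub, neg_neg]
    exact h1
  · refine ⟨0, by decide, ?_⟩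
    show ¬ IsSquare (rt D ((B.b : N) ^ 4) 1 - rt D ((B.b : N) ^ 4) 0)
    rw [rt0, rt1, sub_zero]
    exact h2
  · refine ⟨0, by decide, ?_⟩
    show ¬ IsSquare (rt D ((B.b : N) ^ 4) 2 - rt D ((B.b : N) ^ 4) 0)
    rw [rt0, rt2, sub_zero]
    exact h3

/-- **The 2-primary part of the torsion** for `D` different from `1, -1`. -/
theorem card_prim (S : Finset ι) {d0 d1 d2 : ZMod 2}
    (hnd : ¬ ((∀ i, i ∉ S) ∧ d1 = 0 ∧ d2 = 0)) {D : N}
    (hDe : D = ((G.el S d0 d1 d2 (fun _ => 1) : 𝓞 N) : N)) {W : WeierstrassCurve N}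
    (hW : W = cw (rt D ((B.b : N) ^ 4))) :
    Nat.card (AddCommGroup.primaryComponent W.toAffine.Point 2) = 4 := by
  have hD : D ≠ 0 := by
    rw [hDe]
    exact coe_ne (G.el_ne S _ _ _ _)
  have he := rt_inj' B hD
  exact card_primary (fun x h => no_four he hW (G.no4 S hnd hDe) x h) (card_two he hW)

end Gens

end

end Pool.Agent.Lib.MP_1a91b9_ntV.C
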