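import Pool.Agent.Lib.MP_1a91b9_ntV.C.Crv

/-!
# Full rational 2-torsion: the three points of order two and the pairing `pr`
-/

set_option autoImplicit false

namespace Pool.Agent.Lib.MP_1a91b9_ntV.C

open WeierstrassCurve
open Pool.Agent.Lib.MP_1a91b9_ntT.S9 (pr pr_comm pr_map pr_add eq_zero_of_pr Pts Gal coc cob trivOver
  shaCoc Sha up actP)
open scoped Classical

section

variable {F : Type*} [Field F] [CharZero F] {e : Fin 3 → F} (he : Function.Injective e)
  {W : Affine F} (hW : W = cw e)

theorem tp_ne (i : Fin 3) : tp he hW i ≠ 0 := Affine.Point.some_ne_zero _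

theorem tp_two (i : Fin 3) : tp he hW i + tp he hW i = 0 := by
  rw [tp]
  apply Affine.Point.add_self_of_Y_eq
  rw [negY_eq hW, neg_zero]

theorem tp_inj (i j : Fin 3) : tp he hW i = tp he hW j ↔ i = j := by
  rw [tp, tp, Affine.Point.some.injEq]
  constructor
  · rintro ⟨h, -⟩
    exact he h
  · rintro rfl
    exact ⟨rfl, rfl⟩

theorem two_tors_tp (P : W.Point) (hP : P + P = 0) : P = 0 ∨ ∃ i, P = tp he hW i := by
  rcases P with _ | ⟨x, y, h⟩
  · exact Or.inl rfl
  · right
    have hy : y = W.negY x y := by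
      by_contra hne
      have := Affine.Point.add_self_of_Y_ne hne (h₁ := h)
      rw [hP] at this
      exact Affine.Point.some_ne_zero _ this.symm
    have hy2 : y = 0 := by
      rw [negY_eq hW] at hy
      have h2 : 2 * y = 0 := by linear_combination hy
      exact (mul_eq_zero.1 h2).resolve_left two_ne_zero
    have h1 := (eqn_iff hW x y).1 h.1
    rw [hy2] at h1
    obtain ⟨i, hi⟩ := (root_iff (e := e) x).1 (by rw [← h1]; ring)
    refine ⟨i, ?_⟩
    rw [tp, Affine.Point.some.injEq]
    exact ⟨hi, hy2⟩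

theorem tp_sum : tp he hW 0 + tp he hW 1 = tp he hW 2 := by
  have hx : e 0 ≠ e 1 := fun h => absurd (he h) (by decide)
  rw [tp, tp, tp, Affine.Point.add_of_X_ne hx, Affine.Point.some.injEq]
  have hs : W.slope (e 0) (e 1) 0 0 = 0 := by
    rw [Affine.slope_of_X_ne hx, sub_self, zero_div]
  rw [hs]
  constructor
  · rw [Affine.addX, cw_a₁ hW, cw_a₂ hW]
    ring
  · rw [Affine.addY, Affine.negAddY, negY_eq hW]
    ring

end

section

variable {k F : Type*} [Field k] {e : Fin 3 → k} (he : Function.Injective e) [Field F] [CharZero F]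
  [Algebra k F]

theorem tpt_ne (i : Fin 3) : tpt he F i ≠ 0 := tp_ne _ _ _

theorem tpt_inj (i j : Fin 3) : tpt he F i = tpt he F j ↔ i = j := tp_inj _ _ _ _

theorem tpt_sum : tpt he F 0 + tpt he F 1 = tpt he F 2 := tp_sum _ _

theorem tpt_map {F' : Type*} [Field F'] [CharZero F'] [Algebra k F'] (f : F →ₐ[k] F')
    (i : Fin 3) : Affine.Point.map f (tpt he F i) = tpt he F' i := by
  unfold tpt tp
  rw [Affine.Point.map_some]
  congr 1
  · exact f.commutes _
  · exact map_zero f

theorem tpt_two (i : Fin 3) : tpt he F i + tpt he F i = 0 := tp_two _ _ _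

theorem tpt_all (P : Pts (cw e) F) (hP : P + P = 0) : P = 0 ∨ ∃ i, P = tpt he F i :=
  two_tors_tp _ _ P hP

theorem pr_tpt (i j : Fin 3) : pr (tpt he F i) (tpt he F j) = if i = j then 1 else -1 := by
  unfold pr
  simp only [tpt_ne, tpt_inj, false_or]

private theorem Tpt_all (x : Pts (cw e) F) (hx : x + x = 0) :
    x = 0 ∨ x = tpt he F 0 ∨ x = tpt he F 1 ∨ x = tpt he F 0 + tpt he F 1 := by
  rw [tpt_sum]
  rcases tpt_all he x hx with h | ⟨i, h⟩
  · exact Or.inl h
  · right
    fin_cases i
    · exact Or.inl h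
    · exact Or.inr (Or.inl h)
    · exact Or.inr (Or.inr h)

/-- bilinearity -/
theorem pr_add_tpt (P Q : Pts (cw e) F) (hP : P + P = 0) (hQ : Q + Q = 0)
    (i : Fin 3) : pr (P + Q) (tpt he F i) = pr P (tpt he F i) * pr Q (tpt he F i) := by
  have h01 : tpt he F 0 ≠ tpt he F 1 := fun h => absurd ((tpt_inj he 0 1).1 h) (by decide)
  exact pr_add (tpt_ne he 0) (tpt_ne he 1) h01 (tpt_two he 0) (tpt_two he 1)
    (Tpt_all he) hP hQ (tpt_two he i)

theorem pr_prod (P : Pts (cw e) F) (hP : P + P = 0) :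
    pr P (tpt he F 0) * pr P (tpt he F 1) * pr P (tpt he F 2) = 1 := by
  rcases tpt_all he P hP with rfl | ⟨i, rfl⟩
  · unfold pr
    simp
  · rw [pr_tpt, pr_tpt, pr_tpt]
    fin_cases i <;> decide

/-- a point of order two is determined by two of the three pairings -/
theorem pr_ext (P Q : Pts (cw e) F) (hP : P + P = 0) (hQ : Q + Q = 0)
    (j : Fin 3) (h : ∀ i, i ≠ j → pr P (tpt he F i) = pr Q (tpt he F i)) : P = Q := by
  have h01 : tpt he F 0 ≠ tpt he F 1 := fun h => absurd ((tpt_inj he 0 1).1 h) (by decide)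
  have hPQ : (P + Q) + (P + Q) = 0 := by
    rw [add_add_add_comm, hP, hQ, add_zero]
  have h1 : ∀ i, i ≠ j → pr (P + Q) (tpt he F i) = 1 := by
    intro i hi
    rw [pr_add_tpt he P Q hP hQ, h i hi]
    exact Int.units_mul_self _
  have h2 := pr_prod he (P + Q) hPQ
  have h3 : ∀ i, pr (P + Q) (tpt he F i) = 1 := by
    intro i
    by_cases hi : i = j
    · subst hi
      fin_cases i
      · have a1 := h1 1 (by decide)
        have a2 := h1 2 (by decide)
        rw [a1, a2, mul_one, mul_one] at h2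
        exact h2
      · have a1 := h1 0 (by decide)
        have a2 := h1 2 (by decide)
        rw [a1, a2, mul_one, one_mul] at h2
        exact h2
      · have a1 := h1 0 (by decide)
        have a2 := h1 1 (by decide)
        rw [a1, a2, mul_one, one_mul] at h2
        exact h2
    · exact h1 i hi
  have h4 : P + Q = 0 := by
    refine eq_zero_of_pr (tpt_ne he 0) (tpt_ne he 1) h01 (tpt_two he 0) (tpt_two he 1)
      (Tpt_all he) hPQ fun T hT hT2 => ?_
    rcases tpt_all he T hT2 with h5 | ⟨i, rfl⟩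
    · exact absurd h5 hT
    · exact h3 i
  have h5 : P + Q = Q + Q := by rw [h4, hQ]
  exact add_right_cancel h5

end

end Pool.Agent.Lib.MP_1a91b9_ntV.C
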