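import Pool.Agent.Lib.MP_1a91b9_ntV.C.Fld

/-!
# Places over `2` with the residue field of two elements: squares, and the two local conditions
-/

set_option autoImplicit false
set_option linter.unusedSectionVars false
set_option linter.unusedVariables false

namespace Pool.Agent.Lib.MP_1a91b9_ntV.C

open NumberField Finset WithZero IsDedekindDomain
open Pool.Agent.Lib.MP_1a91b9_ntH.C (Sq isSquare_exp nu_one Sq.near Sq.one Sq.mul Sq.cancel
  Sq.of_mul_sq Sq.of_isSquare Sq.even Sq.ne exists_nu nu_four nu_four_le)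

noncomputable section

section loc

variable {L : Type*} [Field L] [CharZero L] {ν : Valuation L ℤᵐ⁰} (h2 : ν 2 = exp (-1))
  (hres : ∀ w : L, ν w = 1 → ν (w - 1) < 1)

include h2

theorem sq_of_le {u : L} (h : ν (u - 1) ≤ exp (-3)) : Sq ν u := by
  refine Sq.one (h.trans_lt ?_)
  rw [nu_four h2, exp_lt_exp]
  norm_num

include hres

theorem le_of_sq {u : L} (hu : ν u = 1) (h : Sq ν u) : ν (u - 1) ≤ exp (-3) := by
  have h4 := nu_four h2
  have h4l := nu_four_le h2
  obtain ⟨b, hb, h⟩ := h
  have hlt : ν (u / b ^ 2 - 1) ≤ exp (-3) := by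
    by_cases h0 : u / b ^ 2 - 1 = 0
    · rw [h0, map_zero]
      exact zero_le
    · obtain ⟨n, hn⟩ := exists_nu ν h0
      rw [hn, h4, exp_lt_exp] at h
      rw [hn, exp_le_exp]
      omega
  have hb1 : ν b = 1 := by
    have h5 := nu_one h4l.le h
    rw [map_div₀, hu, map_pow, one_div, inv_eq_one] at h5
    exact (pow_eq_one_iff_of_nonneg zero_le two_ne_zero).1 h5
  have hb2 : ν (b - 1) ≤ exp (-1) := lt_one_le (hres b hb1)
  have hbb : ν (b ^ 2 - 1) ≤ exp (-3) := by
    obtain ⟨w, hw⟩ : ∃ w, w = (b - 1) / 2 := ⟨_, rfl⟩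
    have hw1 : ν w ≤ 1 := by
      rw [hw, map_div₀, h2]
      exact (div_le_one₀ exp_pos).2 hb2
    have hww : ν (w * (w + 1)) ≤ exp (-1) := by
      rcases hw1.lt_or_eq with h6 | h6
      · rw [map_mul]
        have h7 : ν (w + 1) ≤ 1 := ν.map_add_le hw1 (by rw [map_one])
        calc ν w * ν (w + 1) ≤ exp (-1) * 1 := mul_le_mul' (lt_one_le h6) h7
          _ = exp (-1) := mul_one _
      · rw [map_mul, h6, one_mul]
        apply lt_one_le
        have e : w + 1 = (w - 1) + 2 := by ring
        rw [e]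
        refine ν.map_add_lt (hres w h6) ?_
        rw [h2, ← exp_zero, exp_lt_exp]
        norm_num
    have e : b ^ 2 - 1 = 4 * (w * (w + 1)) := by
      have e1 : b = 1 + 2 * w := by
        rw [hw]
        field_simp
        ring
      rw [e1]
      ring
    rw [e, map_mul, h4]
    calc exp (-2) * ν (w * (w + 1)) ≤ exp (-2) * exp (-1) := mul_le_mul' le_rfl hww
      _ = exp (-3) := by rw [← exp_add]; norm_num
  have e : u - 1 = (u / b ^ 2 - 1) * b ^ 2 + (b ^ 2 - 1) := by
    field_simp
    ring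
  rw [e]
  refine ν.map_add_le ?_ hbb
  rw [map_mul, map_pow, hb1, one_pow, mul_one]
  exact hlt

/-- `5 (1 + 4 w)` is a square for a unit `w` -/
theorem sq_five {z : L} (hz : ν z = exp (-2)) : Sq ν (5 * (1 + z)) := by
  apply sq_of_le h2
  have h4 := nu_four h2
  obtain ⟨w, hw⟩ : ∃ w, w = z / 4 := ⟨_, rfl⟩
  have hw1 : ν w = 1 := by
    rw [hw, map_div₀, h4, hz]
    exact div_self exp_ne_zero
  have e : 5 * (1 + z) - 1 = 4 * ((w - 1) + 2 * (2 * w + 1)) := by
    have e1 : z = 4 * w := by
      rw [hw]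
      field_simp
    rw [e1]
    ring
  rw [e, map_mul, h4]
  have h5 : ν ((w - 1) + 2 * (2 * w + 1)) ≤ exp (-1) := by
    apply lt_one_le
    refine ν.map_add_lt (hres w hw1) ?_
    rw [map_mul, h2]
    have h6 : ν (2 * w + 1) ≤ 1 := by
      refine ν.map_add_le ?_ (by rw [map_one])
      rw [map_mul, hw1, mul_one, h2, ← exp_zero, exp_le_exp]
      norm_num
    calc exp (-1) * ν (2 * w + 1) ≤ exp (-1) * 1 := mul_le_mul' le_rfl h6
      _ < 1 := by
        rw [mul_one, ← exp_zero, exp_lt_exp]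
        norm_num
  calc exp (-2) * ν ((w - 1) + 2 * (2 * w + 1)) ≤ exp (-2) * exp (-1) := mul_le_mul' le_rfl h5
    _ = exp (-3) := by rw [← exp_add]; norm_num

theorem nu_five : ν 5 = 1 := by
  have e : (5 : L) = 1 + 4 := by norm_num
  rw [e]
  exact ν.map_one_add_of_lt (nu_four_le h2)

/-- the local condition at the place which divides `t` -/
theorem loc_b {D t : L} (hD : D ≠ 0) (ht : ν t = exp (-4)) {a : Fin 3 → L}
    (hp : IsSquare (a 0 * a 1 * a 2)) (ha : ∀ i, a i ≠ 0)
    (h : GLoc ν ![0, -D, -(D * t)] a) :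
    Sq ν (a 1) ∨ Sq ν (a 1 * D) ∨ (Sq ν (5 * a 1) ∧ Sq ν D) := by
  have h4l := (nu_four_le h2).le
  have ht0 : t ≠ 0 := by
    rintro rfl
    rw [map_zero] at ht
    exact exp_ne_zero ht.symm
  have h1t : Sq ν (1 - t) := by
    apply sq_of_le h2
    have e : (1 - t) - 1 = -t := by ring
    rw [e, Valuation.map_neg, ht, exp_le_exp]
    norm_num
  rcases h with h | ⟨j, h⟩ | ⟨x, hx, h⟩
  · exact Or.inl (h 1)
  · fin_cases j
    · right
      left
      have h5 := h 1 (by decide)
      have e : a 1 * ((![0, -D, -(D * t)] : Fin 3 → L) 0 - (![0, -D, -(D * t)] : Fin 3 → L) 1) =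
          a 1 * D := by
        show a 1 * (0 - -D) = a 1 * D
        ring
      change Sq ν (a 1 * ((![0, -D, -(D * t)] : Fin 3 → L) 0 -
        (![0, -D, -(D * t)] : Fin 3 → L) 1)) at h5
      rwa [e] at h5
    · left
      have h5 := h 0 (by decide)
      have h6 := h 2 (by decide)
      have h7 := h5.mul h4l h6
      have e : a 0 * ((![0, -D, -(D * t)] : Fin 3 → L) 1 - (![0, -D, -(D * t)] : Fin 3 → L) 0) *
          (a 2 * ((![0, -D, -(D * t)] : Fin 3 → L) 1 - (![0, -D, -(D * t)] : Fin 3 → L) 2)) =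
          (a 0 * a 2 * (1 - t)) * D ^ 2 := by
        show a 0 * (-D - 0) * (a 2 * (-D - -(D * t))) = _
        ring
      change Sq ν (a 0 * ((![0, -D, -(D * t)] : Fin 3 → L) 1 -
        (![0, -D, -(D * t)] : Fin 3 → L) 0) * (a 2 * ((![0, -D, -(D * t)] : Fin 3 → L) 1 -
        (![0, -D, -(D * t)] : Fin 3 → L) 2))) at h7
      rw [e] at h7
      have h8 := (h7.of_mul_sq hD).cancel h4l h1t
      have h9 : Sq ν (a 1 * (a 0 * a 2)) := by
        refine Sq.of_isSquare ?_ (mul_ne_zero (ha 1) (mul_ne_zero (ha 0) (ha 2)))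
        have e2 : a 1 * (a 0 * a 2) = a 0 * a 1 * a 2 := by ring
        rw [e2]
        exact hp
      exact h9.cancel h4l h8
    · right
      left
      have h5 := h 1 (by decide)
      have e : a 1 * ((![0, -D, -(D * t)] : Fin 3 → L) 2 - (![0, -D, -(D * t)] : Fin 3 → L) 1) =
          a 1 * D * (1 - t) := by
        show a 1 * (-(D * t) - -D) = _
        ring
      change Sq ν (a 1 * ((![0, -D, -(D * t)] : Fin 3 → L) 2 -
        (![0, -D, -(D * t)] : Fin 3 → L) 1)) at h5
      rw [e] at h5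
      exact h5.cancel h4l h1t
  · obtain ⟨c, hc⟩ : ∃ c, c = x / D := ⟨_, rfl⟩
    have hxc : x = D * c := by
      rw [hc]
      field_simp
    have hx' : Sq ν ((D * (c + 1)) * (c * (c + t))) := by
      have e : (x - (![0, -D, -(D * t)] : Fin 3 → L) 0) * (x - (![0, -D, -(D * t)] : Fin 3 → L) 1) *
          (x - (![0, -D, -(D * t)] : Fin 3 → L) 2) = ((D * (c + 1)) * (c * (c + t))) * D ^ 2 := by
        show (x - 0) * (x - -D) * (x - -(D * t)) = _
        rw [hxc]
        ring
      rw [e] at hx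
      exact hx.of_mul_sq hD
    have h1 : Sq ν (a 1 * (D * (c + 1))) := by
      have h5 := h 1
      have e : a 1 * (x - (![0, -D, -(D * t)] : Fin 3 → L) 1) = a 1 * (D * (c + 1)) := by
        show a 1 * (x - -D) = _
        rw [hxc]
        ring
      rwa [e] at h5
    have hc0 : c ≠ 0 := by
      rintro rfl
      exact hx'.ne h4l (by ring)
    obtain ⟨m, hm⟩ := exists_nu ν hc0
    have htc : ν (t / c) = exp (-4 - m) := by
      rw [map_div₀, ht, hm, ← exp_sub]
    have e1 : c * (c + t) = (1 + t / c) * c ^ 2 := by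
      field_simp
    rcases lt_trichotomy m (-2) with hm2 | hm2 | hm2
    · right
      left
      have h5 : Sq ν (c + 1) := by
        apply sq_of_le h2
        rw [add_sub_cancel_right, hm, exp_le_exp]
        omega
      have e : a 1 * (D * (c + 1)) = a 1 * D * (c + 1) := by ring
      rw [e] at h1
      exact h1.cancel h4l h5
    · right
      right
      have h5 : Sq ν (5 * (1 + c)) := sq_five h2 hres (by rw [hm, hm2])
      have h6 : Sq ν (5 * (1 + t / c)) := sq_five h2 hres (by rw [htc, hm2]; norm_num)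
      have h7 : Sq ν D := by
        rw [e1] at hx'
        have e : D * (c + 1) * ((1 + t / c) * c ^ 2) = D * (c + 1) * (1 + t / c) * c ^ 2 := by ring
        rw [e] at hx'
        have h8 := hx'.of_mul_sq hc0
        have h9 := h5.mul h4l h6
        refine Sq.cancel h4l (x := 5 * (1 + c) * (5 * (1 + t / c))) ?_ h9
        have e : D * (5 * (1 + c) * (5 * (1 + t / c))) = D * (c + 1) * (1 + t / c) * 5 ^ 2 := by ring
        rw [e]
        refine Sq.mul h4l h8 (Sq.of_isSquare ⟨5, by ring⟩ (by norm_num))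
      refine ⟨?_, h7⟩
      have h8 := (h1.mul h4l h5).mul h4l h7
      have e : a 1 * (D * (c + 1)) * (5 * (1 + c)) * D = (5 * a 1) * (D * (c + 1)) ^ 2 := by ring
      rw [e] at h8
      refine h8.of_mul_sq ?_
      intro h0
      exact hx'.ne h4l (by rw [h0, zero_mul])
    · left
      have h5 : Sq ν (1 + t / c) := by
        apply sq_of_le h2
        rw [add_sub_cancel_left, htc, exp_le_exp]
        omega
      rw [e1, ← mul_assoc] at hx'
      have h6 := (hx'.of_mul_sq hc0).cancel h4l h5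
      exact h1.cancel h4l h6

omit h2 hres in
private theorem sq_div {u v : ℤᵐ⁰} (hv : v ≠ 0) (h1 : IsSquare (u * v)) (h : IsSquare v) :
    IsSquare u := by
  obtain ⟨t, hr⟩ := h1
  obtain ⟨s, hs⟩ := h
  refine ⟨t / s, ?_⟩
  have hs0 : s ≠ 0 := by rintro rfl; exact hv (by rw [hs, mul_zero])
  rw [div_mul_div_comm, ← hr, ← hs, mul_div_cancel_right₀ _ hv]

/-- the local condition at the place which divides `1 - t = s ^ 4`, if `-D` is a square there -/
theorem loc_a {D t : L} (hD : D ≠ 0) (ht : ν (1 - t) = exp (-4)) {a : Fin 3 → L}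
    (hp : IsSquare (a 0 * a 1 * a 2)) (ha : ∀ i, a i ≠ 0)
    (h : GLoc ν ![0, -D, -(D * t)] a) (hDs : Sq ν (-D)) : IsSquare (ν (a 1)) := by
  have h4l := (nu_four_le h2).le
  have hDv : IsSquare (ν D) := by
    have := hDs.even h4l
    rwa [Valuation.map_neg] at this
  have hD0 : ν D ≠ 0 := ν.ne_zero_iff.2 hD
  have h1v : IsSquare (ν (1 - t)) := by
    rw [ht, isSquare_exp]
    decide
  have h1v0 : ν (1 - t) ≠ 0 := by
    rw [ht]
    exact exp_ne_zero
  rcases h with h | ⟨j, h⟩ | ⟨x, hx, h⟩
  · exact (h 1).even h4l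
  · fin_cases j
    · have h5 := (h 1 (by decide)).even h4l
      have e : a 1 * ((![0, -D, -(D * t)] : Fin 3 → L) 0 - (![0, -D, -(D * t)] : Fin 3 → L) 1) =
          a 1 * D := by
        show a 1 * (0 - -D) = a 1 * D
        ring
      change IsSquare (ν (a 1 * ((![0, -D, -(D * t)] : Fin 3 → L) 0 -
        (![0, -D, -(D * t)] : Fin 3 → L) 1))) at h5
      rw [e, map_mul] at h5
      exact sq_div hD0 h5 hDv
    · have h5 := h 0 (by decide)
      have h6 := h 2 (by decide)
      have h7 := (h5.mul h4l h6).even h4l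
      have e : a 0 * ((![0, -D, -(D * t)] : Fin 3 → L) 1 - (![0, -D, -(D * t)] : Fin 3 → L) 0) *
          (a 2 * ((![0, -D, -(D * t)] : Fin 3 → L) 1 - (![0, -D, -(D * t)] : Fin 3 → L) 2)) =
          (a 0 * a 2) * ((1 - t) * D ^ 2) := by
        show a 0 * (-D - 0) * (a 2 * (-D - -(D * t))) = _
        ring
      change IsSquare (ν (a 0 * ((![0, -D, -(D * t)] : Fin 3 → L) 1 -
        (![0, -D, -(D * t)] : Fin 3 → L) 0) * (a 2 * ((![0, -D, -(D * t)] : Fin 3 → L) 1 -
        (![0, -D, -(D * t)] : Fin 3 → L) 2)))) at h7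
      rw [e, map_mul] at h7
      have h8 : IsSquare (ν ((1 - t) * D ^ 2)) := by
        rw [map_mul, map_pow, sq]
        exact h1v.mul ⟨_, rfl⟩
      have h80 : ν ((1 - t) * D ^ 2) ≠ 0 := by
        rw [map_mul, map_pow]
        exact mul_ne_zero h1v0 (pow_ne_zero 2 hD0)
      have h9 := sq_div h80 h7 h8
      have h10 : IsSquare (ν (a 1) * ν (a 0 * a 2)) := by
        rw [← map_mul]
        have e2 : a 1 * (a 0 * a 2) = a 0 * a 1 * a 2 := by ring
        rw [e2]
        exact hp.map ν
      exact sq_div (ν.ne_zero_iff.2 (mul_ne_zero (ha 0) (ha 2))) h10 h9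
    · have h5 := (h 1 (by decide)).even h4l
      have e : a 1 * ((![0, -D, -(D * t)] : Fin 3 → L) 2 - (![0, -D, -(D * t)] : Fin 3 → L) 1) =
          a 1 * (D * (1 - t)) := by
        show a 1 * (-(D * t) - -D) = _
        ring
      change IsSquare (ν (a 1 * ((![0, -D, -(D * t)] : Fin 3 → L) 2 -
        (![0, -D, -(D * t)] : Fin 3 → L) 1))) at h5
      rw [e, map_mul] at h5
      refine sq_div ?_ h5 ?_
      · rw [map_mul]
        exact mul_ne_zero hD0 h1v0
      · rw [map_mul]
        exact hDv.mul h1v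
  · obtain ⟨u, hu⟩ : ∃ u, u = x / D + 1 := ⟨_, rfl⟩
    have hxc : x = D * (u - 1) := by
      rw [hu]
      field_simp
      ring
    have hx' : Sq ν (u * ((1 - u) * (u - (1 - t)))) := by
      have e : (x - (![0, -D, -(D * t)] : Fin 3 → L) 0) * (x - (![0, -D, -(D * t)] : Fin 3 → L) 1) *
          (x - (![0, -D, -(D * t)] : Fin 3 → L) 2) =
          (u * ((1 - u) * (u - (1 - t)))) * (-D) * D ^ 2 := by
        show (x - 0) * (x - -D) * (x - -(D * t)) = _
        rw [hxc]
        ring
      rw [e] at hx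
      exact (hx.of_mul_sq hD).cancel h4l hDs
    have h1 : IsSquare (ν (a 1) * (ν D * ν u)) := by
      have h5 := (h 1).even h4l
      have e : a 1 * (x - (![0, -D, -(D * t)] : Fin 3 → L) 1) = a 1 * (D * u) := by
        show a 1 * (x - -D) = _
        rw [hxc]
        ring
      rwa [e, map_mul, map_mul] at h5
    have hu0 : u ≠ 0 := by
      rintro rfl
      exact hx'.ne h4l (by ring)
    suffices hs : IsSquare (ν u) from
      sq_div (mul_ne_zero hD0 (ν.ne_zero_iff.2 hu0)) h1 (hDv.mul hs)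
    obtain ⟨m, hm⟩ := exists_nu ν hu0
    have hev := hx'.even h4l
    rw [map_mul, map_mul, hm] at hev
    have htu : ν ((1 - t) / u) = exp (-4 - m) := by
      rw [map_div₀, ht, hm, ← exp_sub]
    have e1 : u * ((1 - u) * (u - (1 - t))) = ((1 - u) * (1 - (1 - t) / u)) * u ^ 2 := by
      field_simp
    have hprod : Sq ν ((1 - u) * (1 - (1 - t) / u)) := by
      rw [e1] at hx'
      exact hx'.of_mul_sq hu0
    have hnot : ∀ z : L, ν z = exp (-1) → ¬ Sq ν (1 - z) := by
      intro z hz hsq
      have h5 : ν (1 - z) = 1 := by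
        have e : (1 : L) - z = 1 + -z := by ring
        rw [e]
        refine ν.map_one_add_of_lt ?_
        rw [Valuation.map_neg, hz, ← exp_zero, exp_lt_exp]
        norm_num
      have h6 := le_of_sq h2 hres h5 hsq
      have e : (1 - z) - 1 = -z := by ring
      rw [e, Valuation.map_neg, hz, exp_le_exp] at h6
      omega
    have hsm : ∀ z : L, ν z ≤ exp (-3) → Sq ν (1 - z) := by
      intro z hz
      apply sq_of_le h2
      have e : (1 - z) - 1 = -z := by ring
      rw [e, Valuation.map_neg]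
      exact hz
    rw [hm, isSquare_exp]
    by_contra hodd
    rw [Int.not_even_iff_odd] at hodd
    obtain ⟨k, hk⟩ := hodd
    have hcases : 0 < m ∨ m = -1 ∨ m = -3 ∨ m < -4 := by omega
    rcases hcases with h0 | h0 | h0 | h0
    · have h5 : ν (1 - u) = exp m := by
        have e : (1 : L) - u = -u + 1 := by ring
        rw [e, ν.map_add_eq_of_lt_left, Valuation.map_neg, hm]
        rw [Valuation.map_neg, hm, map_one, ← exp_zero, exp_lt_exp]
        exact h0
      have h6 : ν (u - (1 - t)) = exp m := by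
        rw [sub_eq_add_neg, ν.map_add_eq_of_lt_left, hm]
        rw [Valuation.map_neg, hm, ht, exp_lt_exp]
        omega
      rw [h5, h6, ← exp_add, ← exp_add, isSquare_exp] at hev
      obtain ⟨l, hl⟩ := hev
      omega
    · have h5 := hsm ((1 - t) / u) (by rw [htu, exp_le_exp]; omega)
      exact hnot u (by rw [hm, h0]) (hprod.cancel h4l h5)
    · have h5 := hsm u (by rw [hm, exp_le_exp]; omega)
      rw [mul_comm] at hprod
      exact hnot ((1 - t) / u) (by rw [htu, h0]; norm_num) (hprod.cancel h4l h5)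
    · have h5 : ν (1 - u) = 1 := by
        have e : (1 : L) - u = 1 + -u := by ring
        rw [e]
        refine ν.map_one_add_of_lt ?_
        rw [Valuation.map_neg, hm, ← exp_zero, exp_lt_exp]
        omega
      have h6 : ν (u - (1 - t)) = exp (-4) := by
        have e : u - (1 - t) = -(1 - t) + u := by ring
        rw [e, ν.map_add_eq_of_lt_left, Valuation.map_neg, ht]
        rw [Valuation.map_neg, hm, ht, exp_lt_exp]
        omega
      rw [h5, h6, one_mul, ← exp_add, isSquare_exp] at hev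
      obtain ⟨l, hl⟩ := hev
      omega

end loc

end

end Pool.Agent.Lib.MP_1a91b9_ntV.C
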